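import Pool.Agent.Lib.PDC.Blue

/-! From finite index types and labels in a group to a Delta-complex. -/

namespace Pool.Agent.PDC

open Pool.Agent.PD3 Matrix

theorem r_BRG : St_BRG := by
  intro P _ E T S _ _ _ d2 d3 lab c s0 hdd hlab hgen hlift hcyc hχ h0 htop
  classical
  let eE := Fintype.equivFin E
  let eT := Fintype.equivFin T
  let eS := Fintype.equivFin S
  let X : DeltaCx :=
    { n1 := Fintype.card E
      n2 := Fintype.card T
      n3 := Fintype.card S
      d2 := fun t i => eE (d2 (eT.symm t) i)
      d3 := fun s i => eT (d3 (eS.symm s) i)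
      dd := fun s i j h => by simp [hdd _ i j h] }
  let f : X.pi1 →* P := X.lift (fun e => lab (eE.symm e)) fun t => by simp [X, hlab]
  obtain ⟨g, hg⟩ := hlift X.pi1 (fun e => X.gen (eE e)) fun t => by
    simpa [X] using X.gen_rel (eT t)
  have hf : ∀ e, f (X.gen e) = lab (eE.symm e) := fun e => X.lift_gen _ _ e
  have h1 : ∀ p, g (f p) = p := fun p =>
    X.pi1_induction ((g.comp f).eqLocus (MonoidHom.id _)) (fun e => by
      change g (f _) = _
      rw [hf, hg]; simp) p
  have h2 : ∀ p, f (g p) = p := fun p => by
    have : (f.comp g).eqLocus (MonoidHom.id _) = ⊤ := hgen _ fun e => by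
      change f (g _) = _
      rw [hg, hf]; simp
    exact (Subgroup.eq_top_iff' _).1 this p
  refine ⟨X, X.isPD3_of (fun s => c (eS.symm s)) ?_ hχ (eS s0) (by simpa using h0) ?_,
    ⟨MonoidHom.toMulEquiv f g (MonoidHom.ext h1) (MonoidHom.ext h2)⟩⟩
  · funext t
    have := hcyc fun t' => if eT t' = t then 1 else 0
    rw [← eS.symm.sum_comp] at this
    rw [Pi.zero_apply, ← this, Finset.sum_apply]
    refine Finset.sum_congr rfl fun s _ => ?_
    simp only [X, Pi.sub_apply, Pi.add_apply, Pi.single_apply, mul_sub, mul_add, mul_ite, mul_one,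
      mul_zero, eq_comm (a := t)]
  · intro y hy
    let F := MonoidAlgebra.mapDomainRingHom ℤ f
    let G := MonoidAlgebra.mapDomainRingHom ℤ g
    have hGF : ∀ a, G (F a) = a := fun a => by
      induction a using MonoidAlgebra.induction_linear with
      | zero => simp
      | add a b ha hb => simp only [map_add, ha, hb]
      | single p n => simp [F, G, h1]
    have haF : ∀ a, aug (F a) = aug a := fun a => by
      induction a using MonoidAlgebra.induction_linear with
      | zero => simp
      | add a b ha hb => simp only [map_add, ha, hb]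
      | single p n => simp [F]
    obtain ⟨φ, hφ⟩ := htop (fun s => F (bar (y (eS s)))) (by
      rw [← hy, ← eS.sum_comp]; simp [haF])
    refine ⟨fun t => bar (G (φ (eT.symm t))), funext fun s => ?_⟩
    have h3 := congrArg G (hφ (eS.symm s))
    rw [hGF, Equiv.apply_symm_apply] at h3
    have h4 : G (o (lab (d2 (d3 (eS.symm s) 3) 2))) = X.el (X.d2 (X.d3 s 3) 2) 1 := by
      simp [G, o_def, hg, DeltaCx.el, X]
    have h5 : ∀ t, X.bd3 s t = (Matrix.single s s (1 : X.Lam) * X.bd3 :) s t := fun t => by simp
    rw [← bar_bar (y s), h3]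
    simp only [vecMul, dotProduct, adj_apply, ← bar_mul, ← map_sum]
    congr 1
    simp only [h5, DeltaCx.single_mul_bd3, Matrix.add_apply, Matrix.sub_apply, Matrix.single_apply,
      true_and, add_mul, sub_mul, ite_mul, zero_mul, Finset.sum_add_distrib, Finset.sum_sub_distrib,
      Finset.sum_ite_eq, Finset.mem_univ, if_true, one_mul, map_sub, map_add, map_mul, h4]
    simp [X]

end Pool.Agent.PDC
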