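import Pool.Agent.Lib.PDC.Blue

/-! The two-chain that bounds a power of an element of order two or six. -/

namespace Pool.Agent.PDC

open Pool.Agent.PD3

namespace X28cel

variable {G : Type} [Group G]

lemma Ns_mul (g : G) (m l : ℕ) : Ns g (m * l) = Ns (g ^ m) l * Ns g m := by
  induction l with
  | zero => simp [Ns]
  | succ l ih =>
    rw [Ns_succ, add_mul, ← ih, mul_add_one, Ns, Finset.sum_range_add, ← map_pow, ← pow_mul]
    simp only [Ns, pow_add, map_mul, Finset.mul_sum]

lemma Ns_mul_univ [Fintype G] (g : G) (n : ℕ) :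
    Ns g n * nS Finset.univ = (n : ℤ) • nS (Finset.univ : Finset G) := by
  have h : ∀ f : G, o f * nS Finset.univ = nS Finset.univ := fun f => by
    simp only [nS, Finset.mul_sum, ← map_mul]
    exact Fintype.sum_equiv (Equiv.mulLeft f) _ _ fun _ => rfl
  simp only [Ns, Finset.sum_mul, h, Finset.sum_const, Finset.card_range, natCast_zsmul]

lemma no_div (hC : St_CYC) [Fintype G] {x : Fin 2 → G} {r : Fin 2 → FreeGroup (Fin 2)}
    {z : Fin 2 → L G} (hS : SwanD x r z) (hN : nS (Finset.univ : Finset G) • z = 0) {l : ℕ}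
    (hl : 1 < l) {a : FreeGroup (Fin 2)} (ho : orderOf (FreeGroup.lift x a) = l) {c : Fin 2 → L G}
    (hc : ∑ k, c k • fox x (r k) = Ns (FreeGroup.lift x a) l • fox x a) {α : L G}
    (hα : (o (FreeGroup.lift x a) - 1) • c = α • z) {κ : ℤ}
    (hκ : Ns (FreeGroup.lift x a) l * α = (l * κ) • nS Finset.univ) : False := by
  set g := FreeGroup.lift x a with hg
  obtain ⟨ca, cb, -, -⟩ := hC G g l (by omega) ho
  obtain ⟨β, -, hβ⟩ := ca ⊥ inferInstance (α - κ • nS Finset.univ) (rInv_bot _) (by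
    rw [mul_sub, hκ, mul_smul_comm, Ns_mul_univ, smul_smul, mul_comm κ, sub_self])
  have h1 : (o g - 1) • (c - β • z) = 0 := by
    rw [smul_sub, hα, smul_smul, ← hβ, sub_smul, smul_assoc, hN, smul_zero, sub_zero, sub_self]
  choose y hy using fun k => cb ((c - β • z) k) (congrFun h1 k)
  have h2 : Ns g l • (fox x a - ∑ k, y k • fox x (r k)) = 0 := by
    rw [smul_sub, ← hc, Finset.smul_sum]
    simp only [smul_smul, ← hy]
    simp only [Pi.sub_apply, Pi.smul_apply, smul_eq_mul, sub_smul, mul_smul,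
      Finset.sum_sub_distrib, ← Finset.smul_sum, hS.2.1, smul_zero, sub_zero, sub_self]
  choose u _ hu using fun i => ca ⊥ inferInstance _ (rInv_bot _) (congrFun h2 i)
  have h3 : ∑ i, (fox x a - ∑ k, y k • fox x (r k)) i * (o (x i) - 1) = o g - 1 := by
    simp only [Pi.sub_apply, sub_mul (fox x a _), Finset.sum_sub_distrib, fox_fund, Finset.sum_apply,
      Pi.smul_apply, smul_eq_mul, Finset.sum_mul, mul_assoc]
    rw [Finset.sum_comm]
    simp only [← Finset.mul_sum, fox_fund, hS.1.1, map_one, sub_self, mul_zero,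
      Finset.sum_const_zero, sub_zero, hg]
  obtain ⟨e, he⟩ := cb (1 - ∑ i, u i * (o (x i) - 1)) (by
    simp only [hu, mul_assoc, ← Finset.mul_sum] at h3
    rw [mul_sub, h3, mul_one, sub_self])
  have h4 := congrArg aug he
  simp only [map_sub, map_one, map_sum, map_mul, aug_o, sub_self, mul_zero, Finset.sum_const_zero,
    sub_zero, aug_Ns] at h4
  have := Int.eq_one_of_mul_eq_one_right (by omega) h4.symm
  omega

end X28cel

open X28cel in
theorem r_CEL : R_CEL := by
  intro hC hE hK G _ _ x r z hS γ n ho hn R hR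
  obtain ⟨ka, kb⟩ := hK G x r z hS
  have hN : nS (Finset.univ : Finset G) • z = 0 := (kb _).2 ⟨1, by simp⟩
  obtain ⟨a, rfl⟩ := hS.1.2.1 γ
  set g := FreeGroup.lift x a with hg
  have hgn : o g ^ n - 1 = (0 : L G) := by rw [← map_pow, ← ho, pow_orderOf_eq_one, map_one, sub_self]
  obtain ⟨c, hc⟩ := hE G (Fin 2) (Fin 2) x r hS.1 (Ns g n • fox x a) (by
    simp only [Pi.smul_apply, smul_eq_mul, mul_assoc, ← Finset.mul_sum, fox_fund]
    rw [Ns_mul_sub, hgn])
  obtain ⟨α, hα⟩ := ka ((o g - 1) • c) (by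
    simp only [Pi.smul_apply, smul_eq_mul, mul_smul, ← Finset.smul_sum, ← hc]
    rw [smul_smul, sub_mul_Ns, hgn, zero_smul])
  obtain ⟨κ, hκ⟩ := (kb (Ns g n * α)).1 (by
    rw [mul_smul, ← hα, smul_smul, Ns_mul_sub, hgn, zero_smul])
  have key : ∀ m l : ℕ, 1 < l → n = m * l → ¬ (l : ℤ) ∣ κ := by
    rintro m l hl hml ⟨κ', rfl⟩
    have hm : m ≠ 0 := by rintro rfl; omega
    refine no_div hC hS hN hl (a := a ^ m) (c := c) (α := Ns g m * α) (κ := κ') ?_ ?_ ?_ ?_
    · rw [map_pow, orderOf_pow_of_dvd hm (by rw [ho, hml]; exact dvd_mul_right _ _), ho, hml,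
        Nat.mul_div_cancel_left _ (Nat.pos_of_ne_zero hm)]
    · rw [← hc, fox_pow, map_pow, smul_smul, ← Ns_mul, hml]
    · rw [map_pow, map_pow, ← Ns_mul_sub, mul_smul, hα, mul_smul]
    · rw [map_pow, ← mul_assoc, ← Ns_mul, ← hml, hκ]
  obtain ⟨ca, -⟩ := hC G g n (by omega) ho
  obtain ⟨β₁, -, h1⟩ := ca ⊥ inferInstance (α - κ • R) (rInv_bot _) (by
    rw [mul_sub, hκ, mul_smul_comm, hR, sub_self])
  obtain ⟨β₂, -, h2⟩ := ca ⊥ inferInstance ((n : ℤ) • R - nS Finset.univ) (rInv_bot _) (by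
    rw [mul_sub, mul_smul_comm, hR, Ns_mul_univ, sub_self])
  have fin : ∀ ε j : ℤ, κ = ε + n * j → Cel x r (ε • z) g n R := by
    intro ε j hj
    refine ⟨a, c - (β₁ + j • β₂) • z, rfl, ?_, ?_⟩
    · simp only [Pi.sub_apply, Pi.smul_apply, smul_eq_mul, sub_smul, mul_smul,
        Finset.sum_sub_distrib, ← Finset.smul_sum, hS.2.1, smul_zero, sub_zero, hc]
    · rw [smul_sub, hα, smul_smul, mul_add, mul_smul_comm, ← h1, ← h2, ← sub_smul, hj,
        show α - (α - (ε + n * j) • R + j • ((n : ℤ) • R - nS Finset.univ)) =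
          ε • R + j • nS Finset.univ by module, add_smul, smul_assoc j, hN, smul_zero, add_zero,
        smul_assoc, smul_comm]
  rcases hn with rfl | rfl
  · have := key 1 2 one_lt_two rfl
    exact Or.inl (by simpa using fin 1 (κ / 2) (by push_cast at this ⊢; omega))
  · have k2 := key 3 2 one_lt_two rfl
    have k3 := key 2 3 (by norm_num) rfl
    push_cast at k2 k3
    by_cases h : κ % 6 = 1
    · exact Or.inl (by simpa using fin 1 (κ / 6) (by push_cast; omega))
    · exact Or.inr ⟨rfl, by simpa using fin (-1) (κ / 6 + 1) (by push_cast; omega)⟩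

end Pool.Agent.PDC
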