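import Pool.Agent.Lib.PDC.Blue

namespace Pool.Agent.PDC

namespace X59

theorem range_ne {E G P : Type} [Group E] [Group G] [Group P] {α : E →* G} {ι : G →* P}
    (h : ¬ Function.Surjective α) (hι : Function.Injective ι) (ε : E) :
    ι.range ≠ Subgroup.zpowers (ι (α ε)) := fun h1 => h fun g => by
  obtain ⟨k, hk⟩ := Subgroup.mem_zpowers_iff.1 (h1.le ⟨g, rfl⟩)
  exact ⟨ε ^ k, hι (by rw [← hk, map_zpow, map_zpow])⟩

end X59

theorem r_CONV : R_CONV := by
  intro hR n G _ _ E _ α β hα hβ j ⟨e6⟩ h2 P _ ι ⟨c1, c2, c3⟩ a b hab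
  obtain ⟨Ω, h3, h4, f, f1, f2⟩ := hR n G E α β (fun i => (hα i).1) fun i => (hβ i).1
  obtain ⟨ρ, hρ⟩ := c3 _ f f1
  have hι : ∀ v, Function.Injective (ι v) := fun v => (injective_iff_map_eq_one _).2 fun g hg =>
    f2 v g h4.some (by rw [← hρ, hg, map_one]; rfl)
  have hc : ∀ i, IsCyclic (E i) := fun i => by
    by_cases h : i = j
    · subst h
      exact isCyclic_of_surjective e6.symm e6.symm.surjective
    · have : Fact (Nat.Prime 2) := ⟨Nat.prime_two⟩
      exact isCyclic_of_prime_card (h2 i h)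
  choose ε hε using fun i => (hc i).exists_generator
  have ho : ∀ i, orderOf (ι _ (α i (ε i))) = Nat.card (E i) := fun i => by
    rw [orderOf_injective _ (hι _), orderOf_injective _ (hα i).1,
      orderOf_eq_card_of_forall_mem_zpowers (hε i)]
  have m1 : ∀ i, ι _ (α i (ε i)) ∈ (ι i.castSucc).range := fun i => ⟨_, rfl⟩
  have m2 : ∀ i, ι _ (α i (ε i)) ∈ (ι i.succ).range := fun i => ⟨_, (c1 i _).symm⟩
  have n1 := fun i => X59.range_ne (hα i).2 (hι _) (ε i)
  have n2 := fun i => X59.range_ne (hβ i).2 (hι _) (ε i)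
  simp only [← c1] at n2
  refine ⟨{
    H := fun v => (ι v).range
    out := fun i => if i.succ ≤ a then i.castSucc else i.succ
    inn := fun i => if i.succ ≤ a then i.succ else i.castSucc
    γ := fun i => ι _ (α i (ε i))
    root := a
    ht := fun v => (v.1 - a.1) + (a.1 - v.1)
    Ω := Ω
    ρ := ρ
    finH := fun v => Finite.of_surjective _ (ι v).rangeRestrict_surjective
    γ_out := fun i => iteInduction (motive := fun v => ι _ (α i (ε i)) ∈ (ι v).range)
      (fun _ => m1 i) fun _ => m2 i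
    γ_inn := fun i => iteInduction (motive := fun v => ι _ (α i (ε i)) ∈ (ι v).range)
      (fun _ => m2 i) fun _ => m1 i
    ht_root := by simp
    ht_out := fun i => by
      split_ifs with h <;> simp only [Fin.le_def, Fin.val_succ, Fin.val_castSucc] at h ⊢ <;> omega
    out_inj := fun i i' h => by
      simp only at h
      split_ifs at h with h1 h2 h2 <;>
        simp only [Fin.le_def, Fin.ext_iff, Fin.val_succ, Fin.val_castSucc] at h h1 h2 ⊢ <;> omega
    out_surj := fun v hv => by
      have hv' : v.1 ≠ a.1 := fun h => hv (Fin.ext h)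
      have := a.2
      have := v.2
      rcases lt_or_gt_of_ne hv' with h | h
      · exact ⟨⟨v.1, by omega⟩, if_pos (show v.1 + 1 ≤ a.1 from h)⟩
      · refine ⟨⟨v.1 - 1, by omega⟩, (if_neg ?_).trans (Fin.ext ?_)⟩
        · simp only [Fin.le_def, Fin.val_succ]
          omega
        · simp only [Fin.val_succ]
          omega
    gen := fun K hK => c2 K fun v g => hK v ⟨g, rfl⟩
    lift := fun Q _ F hF => by
      have key : ∀ i, F i.castSucc ⟨_, m1 i⟩ = F i.succ ⟨_, m2 i⟩ := fun i => by
        have h5 : ∀ v w (hv : ι _ (α i (ε i)) ∈ (ι v).range) (hw : ι _ (α i (ε i)) ∈ (ι w).range),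
            v = (if i.succ ≤ a then i.castSucc else i.succ) →
            w = (if i.succ ≤ a then i.succ else i.castSucc) →
            F v ⟨_, hv⟩ = F w ⟨_, hw⟩ := by
          rintro _ _ _ _ rfl rfl
          exact hF i
        by_cases h : i.succ ≤ a
        · exact h5 _ _ _ _ (if_pos h).symm (if_pos h).symm
        · exact (h5 _ _ _ _ (if_neg h).symm (if_neg h).symm).symm
      obtain ⟨φ, hφ⟩ := c3 Q (fun v => (F v).comp (ι v).rangeRestrict) fun i e => by
        obtain ⟨k, rfl⟩ := Subgroup.mem_zpowers_iff.1 (hε i e)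
        simp only [map_zpow]
        congr 1
        exact (key i).trans (congrArg _ (Subtype.ext (c1 i _)))
      refine ⟨φ, ?_⟩
      rintro v ⟨_, g, rfl⟩
      exact hφ v g
    finΩ := h3
    neΩ := h4
    free := by
      rintro v _ ⟨g, rfl⟩ ω h
      rw [f2 v g ω (hρ v g ▸ h), map_one] }, ⟨?_, ?_, fun e he => (ho e).trans (h2 e he),
        fun e => ?_⟩, rfl, ?_, fun v => ⟨MonoidHom.ofInjective (hι v)⟩⟩
  · rcases hab with ⟨rfl, -⟩ | ⟨rfl, -⟩
    · exact if_neg (not_le.2 Fin.castSucc_lt_succ)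
    · exact if_pos le_rfl
  · exact (ho j).trans ((Nat.card_congr e6.toEquiv).trans (by simp))
  · exact ⟨iteInduction (motive := fun v => (ι v).range ≠ Subgroup.zpowers (ι _ (α e (ε e))))
      (fun _ => n1 e) fun _ => n2 e,
      iteInduction (motive := fun v => (ι v).range ≠ Subgroup.zpowers (ι _ (α e (ε e))))
      (fun _ => n2 e) fun _ => n1 e⟩
  · rcases hab with ⟨rfl, rfl⟩ | ⟨rfl, rfl⟩
    · exact if_neg (not_le.2 Fin.castSucc_lt_succ)
    · exact if_pos le_rfl

end Pool.Agent.PDC
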