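import Pool.Agent.Lib.PDC.Blue

/-! Row CY2: permutation modules of an elementary abelian group of rank two. -/

namespace Pool.Agent.PDC

namespace X10

variable {P : Type} [Group P]

lemma mem_clo {g h : P} {p : ℕ} (hp : 0 < p) (hg : orderOf g = p) (hh : orderOf h = p)
    (c : Commute g h) {x : P} (hx : x ∈ Subgroup.closure {g, h}) :
    ∃ i < p, ∃ k < p, x = g ^ i * h ^ k := by
  have h1 : ∃ i k : ℕ, x = g ^ i * h ^ k := by
    induction hx using Subgroup.closure_induction with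
    | mem x hx =>
      rcases hx with rfl | rfl
      · exact ⟨1, 0, by simp⟩
      · exact ⟨0, 1, by simp⟩
    | one => exact ⟨0, 0, by simp⟩
    | mul x y _ _ ihx ihy =>
      obtain ⟨i, k, rfl⟩ := ihx
      obtain ⟨i', k', rfl⟩ := ihy
      exact ⟨i + i', k + k', by
        rw [pow_add, pow_add, (c.pow_pow i' k).symm.mul_mul_mul_comm]⟩
    | inv x _ ih =>
      obtain ⟨i, k, rfl⟩ := ih
      refine ⟨(p - 1) * i, (p - 1) * k, inv_eq_of_mul_eq_one_right ?_⟩
      have e : ∀ n : ℕ, n + (p - 1) * n = p * n := fun n => by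
        obtain ⟨q, rfl⟩ : ∃ q, p = q + 1 := ⟨p - 1, by omega⟩
        rw [Nat.add_sub_cancel]; ring
      have eg : g ^ p = 1 := by rw [← hg, pow_orderOf_eq_one]
      have eh : h ^ p = 1 := by rw [← hh, pow_orderOf_eq_one]
      rw [(c.pow_pow ((p - 1) * i) k).symm.mul_mul_mul_comm, ← pow_add, ← pow_add, e, e, pow_mul,
        pow_mul, eg, eh, one_pow, one_pow, mul_one]
  obtain ⟨i, k, rfl⟩ := h1
  refine ⟨i % p, Nat.mod_lt _ hp, k % p, Nat.mod_lt _ hp, ?_⟩
  rw [← pow_mod_orderOf g i, ← pow_mod_orderOf h k, hg, hh]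

lemma pow_pair_inj {g h : P} {p : ℕ} (hp : p.Prime) (hg : orderOf g = p) (hh : orderOf h = p)
    (hn : h ∉ Subgroup.zpowers g) {i k i' k' : ℕ} (hi : i < p) (hi' : i' < p) (hk' : k' < p)
    (hle : k ≤ k') (e : g ^ i * h ^ k = g ^ i' * h ^ k') : i = i' ∧ k = k' := by
  obtain ⟨d, rfl⟩ := Nat.exists_eq_add_of_le' hle
  rw [pow_add, ← mul_assoc, mul_left_inj] at e
  have hd : d = 0 := by
    by_contra hd
    have h1 : h ^ d ∈ Subgroup.zpowers g := by
      rw [← inv_mul_eq_iff_eq_mul] at e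
      rw [← e]
      exact mul_mem (inv_mem (Subgroup.npow_mem_zpowers g _)) (Subgroup.npow_mem_zpowers g _)
    have h2 : h ∈ Subgroup.zpowers (h ^ d) := by
      rw [mem_zpowers_pow_iff, hh]
      exact (Nat.coprime_of_lt_prime hd (by omega) hp).symm
    exact hn (Subgroup.zpowers_le.2 h1 h2)
  subst hd
  rw [pow_zero, mul_one] at e
  exact ⟨pow_injOn_Iio_orderOf (by simpa [hg] using hi) (by simpa [hg] using hi') e, by simp⟩

lemma exists_nS2 {g h : P} {p : ℕ} (hp : p.Prime) (hg : orderOf g = p) (hh : orderOf h = p)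
    (c : Commute g h) (hn : h ∉ Subgroup.zpowers g) :
    ∃ s : Finset P, (∀ x, x ∈ s ↔ x ∈ Subgroup.closure {g, h}) ∧ nS s = Ns g p * Ns h p := by
  classical
  refine ⟨(Finset.range p ×ˢ Finset.range p).image fun q => g ^ q.1 * h ^ q.2, fun x => ?_, ?_⟩
  · simp only [Finset.mem_image, Finset.mem_product, Finset.mem_range, Prod.exists]
    constructor
    · rintro ⟨i, k, -, rfl⟩
      exact mul_mem (pow_mem (Subgroup.subset_closure (by simp)) _)
        (pow_mem (Subgroup.subset_closure (by simp)) _)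
    · intro hx
      obtain ⟨i, hi, k, hk, rfl⟩ := mem_clo hp.pos hg hh c hx
      exact ⟨i, k, ⟨hi, hk⟩, rfl⟩
  · rw [nS, Finset.sum_image, Finset.sum_product, Ns, Ns, Finset.sum_mul_sum]
    · simp only [map_mul]
    · rintro ⟨i, k⟩ h1 ⟨i', k'⟩ h2 e
      simp only [Finset.coe_product, Finset.coe_range, Set.mem_prod, Set.mem_Iio] at h1 h2
      rcases le_total k k' with hle | hle
      · obtain ⟨a, b⟩ := pow_pair_inj hp hg hh hn h1.1 h2.1 h2.2 hle e
        rw [a, b]
      · obtain ⟨a, b⟩ := pow_pair_inj hp hg hh hn h2.1 h1.1 h1.2 hle e.symm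
        rw [a, b]

lemma o_pow_fix {g : P} {a : L P} (h : (o g - 1) * a = 0) (i : ℕ) : o (g ^ i) * a = a := by
  rw [sub_mul, one_mul, sub_eq_zero] at h
  induction i with
  | zero => simp
  | succ i ih => rw [pow_succ, map_mul, mul_assoc, h, ih]

end X10

open X10 in
theorem r_CY2 : R_CY2 := by
  intro h1 h2 P _ g h p hp hg hh c hn
  obtain ⟨s, hs, es⟩ := exists_nS2 hp hg hh c hn
  refine ⟨fun a ha => ?_, fun K hK a hr hga hha hf => ?_, ?_, fun f hf hf1 => ?_⟩
  · obtain ⟨μ, μ', -, -, e⟩ := h1 P g h s ⊥ hs inferInstance a (rInv_bot a) (by rwa [es])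
    exact ⟨μ, μ', e⟩
  · rw [← es]
    refine h2 P _ s K hs hK a hr (fun f hf => ?_) fun x => ?_
    · obtain ⟨i, -, k, -, rfl⟩ := mem_clo hp.pos hg hh c hf
      rw [map_mul, mul_assoc, o_pow_fix hha, o_pow_fix hga]
    · by_cases hx : a.coeff x = 0
      · rw [hx]; exact dvd_zero _
      · have : {f | f ∈ Subgroup.closure {g, h} ∧ x⁻¹ * f * x ∈ K} = {1} := by
          ext f
          refine ⟨fun h' => hf x hx f h'.1 h'.2, ?_⟩
          rintro rfl
          exact ⟨one_mem _, by simp⟩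
        rw [this, Set.ncard_singleton]
        exact one_dvd _
  · exact s.finite_toSet.subset fun x hx => (hs x).2 hx
  · obtain ⟨i, -, k, -, rfl⟩ := mem_clo hp.pos hg hh c hf
    have := Fact.mk hp
    refine orderOf_eq_prime ?_ hf1
    have eg : g ^ p = 1 := by rw [← hg, pow_orderOf_eq_one]
    have eh : h ^ p = 1 := by rw [← hh, pow_orderOf_eq_one]
    rw [(c.pow_pow i k).mul_pow, pow_right_comm, pow_right_comm h, eg, eh, one_pow, one_pow,
      mul_one]

end Pool.Agent.PDC
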