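import Pool.Agent.Lib.PDC.Blue

/-! Block CYC: permutation modules over a cyclic subgroup. -/

namespace Pool.Agent.PDC

open Pool.Agent.PD3

namespace X79

variable {P : Type} [Group P]

lemma lInv_zpowers {g : P} {a : L P} (h : (o g - 1) * a = 0) :
    ∀ f ∈ Subgroup.zpowers g, o f * a = a := by
  have h0 : o g * a = a := by
    rw [sub_mul, one_mul, sub_eq_zero] at h; exact h
  have h' : o g⁻¹ * a = a := by
    conv_lhs => rw [← h0]
    rw [← mul_assoc, o_inv_mul, one_mul]
  rintro _ ⟨k, rfl⟩
  induction k using Int.induction_on with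
  | zero => simp
  | succ k ih =>
    change o (g ^ _) * a = a
    change o (g ^ _) * a = a at ih
    rw [zpow_add_one, map_mul, mul_assoc, h0, ih]
  | pred k ih =>
    change o (g ^ _) * a = a
    change o (g ^ _) * a = a at ih
    rw [zpow_sub_one, map_mul, mul_assoc, h', ih]

lemma conj_nS (S : Finset P) (s : P) (h : ∀ x ∈ S, s * x * s⁻¹ ∈ S) :
    o s * nS S = nS S * o s := by
  classical
  have hinj : Function.Injective fun x : P => s * x * s⁻¹ := fun a b hab => by simpa using hab
  have himg : S.image (fun x => s * x * s⁻¹) = S := by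
    refine Finset.eq_of_subset_of_card_le (fun y hy => ?_) ?_
    · obtain ⟨x, hx, rfl⟩ := Finset.mem_image.1 hy
      exact h x hx
    · rw [Finset.card_image_of_injective _ hinj]
  conv_rhs => rw [← himg]
  rw [nS, nS, Finset.sum_image fun a _ b _ hab => hinj hab, Finset.mul_sum, Finset.sum_mul]
  refine Finset.sum_congr rfl fun x _ => ?_
  rw [← map_mul, ← map_mul, inv_mul_cancel_right]

end X79

theorem r_CYC : R_CYC := by
  intro h1 h2 P _ g n hn hg
  obtain ⟨S, hS, hN⟩ := exists_nS g n hn hg
  refine ⟨fun K hK a ha h0 => ?_, fun a h0 => ?_, fun hp K hK a ha h0 hd => ?_, fun s r hs => ?_⟩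
  · obtain ⟨μ, μ', hμ, hμ', h⟩ := h1 P g g S K (fun x => by
      rw [hS, Set.pair_eq_singleton, Subgroup.zpowers_eq_closure]) hK a ha (by rw [hN, h0])
    exact ⟨μ + μ', fun k hk => by rw [add_mul, hμ k hk, hμ' k hk], by rw [h, mul_add]⟩
  · obtain ⟨μ, -, h⟩ := h2 P (Subgroup.zpowers g) S ⊥ hS inferInstance a (rInv_bot a)
      (X79.lInv_zpowers h0) fun x => by
        have : {f | f ∈ Subgroup.zpowers g ∧ x⁻¹ * f * x ∈ (⊥ : Subgroup P)} = {1} := by
          ext f
          simp only [Set.mem_ofPred_eq, Subgroup.mem_bot, Set.mem_singleton_iff]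
          constructor
          · rintro ⟨-, hf⟩
            have : f = x * (x⁻¹ * f * x) * x⁻¹ := by group
            rw [this, hf]; group
          · rintro rfl
            exact ⟨Subgroup.one_mem _, by group⟩
        rw [this, Set.ncard_singleton]; simp
    exact ⟨μ, by rw [h, hN]⟩
  · obtain ⟨μ, hμ, h⟩ := h2 P (Subgroup.zpowers g) S K hS hK a ha
      (X79.lInv_zpowers h0) fun x => by
        by_cases hx : x⁻¹ * g * x ∈ K
        · have : {f | f ∈ Subgroup.zpowers g ∧ x⁻¹ * f * x ∈ K} = (Subgroup.zpowers g : Set P) := by
            ext f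
            simp only [Set.mem_ofPred_eq, SetLike.mem_coe, and_iff_left_iff_imp]
            rintro ⟨k, rfl⟩
            have : x⁻¹ * g ^ k * x = (x⁻¹ * g * x) ^ k := by
              have := conj_zpow (a := x⁻¹) (b := g) (i := k)
              rw [inv_inv] at this
              exact this.symm
            change x⁻¹ * g ^ k * x ∈ K
            rw [this]
            exact K.zpow_mem hx k
          rw [this, ← Nat.card_coe_set_eq]
          have hc : Nat.card (Subgroup.zpowers g : Set P) = n := by
            rw [← hg, ← Nat.card_zpowers]; rfl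
          rw [hc]
          exact hd x hx
        · have : {f | f ∈ Subgroup.zpowers g ∧ x⁻¹ * f * x ∈ K} = {1} := by
            ext f
            simp only [Set.mem_ofPred_eq, Set.mem_singleton_iff]
            constructor
            · rintro ⟨hf, hfK⟩
              by_contra hne
              apply hx
              have hcard : (Nat.card (Subgroup.zpowers g)).Prime := by
                rw [Nat.card_zpowers, hg]; exact hp
              have := Fact.mk hcard
              have hg' : (⟨g, Subgroup.mem_zpowers g⟩ : Subgroup.zpowers g) ∈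
                  Subgroup.zpowers (⟨f, hf⟩ : Subgroup.zpowers g) := by
                rw [zpowers_eq_top_of_prime_card rfl fun h => hne (congrArg Subtype.val h)]
                trivial
              obtain ⟨k, hk⟩ := hg'
              have hk' : f ^ k = g := by simpa using congrArg Subtype.val hk
              have : x⁻¹ * g * x = (x⁻¹ * f * x) ^ k := by
                have := conj_zpow (a := x⁻¹) (b := f) (i := k)
                rw [inv_inv, hk'] at this
                exact this.symm
              rw [this]
              exact K.zpow_mem hfK k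
            · rintro rfl
              exact ⟨Subgroup.one_mem _, by simp⟩
          rw [this, Set.ncard_singleton]; simp
    exact ⟨μ, hμ, by rw [h, hN]⟩
  · rw [← hN]
    refine X79.conj_nS S s fun x hx => ?_
    obtain ⟨k, rfl⟩ := (hS x).1 hx
    rw [hS]
    change s * g ^ k * s⁻¹ ∈ _
    rw [← conj_zpow, hs]
    exact Subgroup.zpow_mem _ (Subgroup.pow_mem _ (Subgroup.mem_zpowers g) r) k

end Pool.Agent.PDC
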