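import Pool.Agent.Lib.PDC.Blue

/-! Exactness of the Fox complex in degree one. -/

namespace Pool.Agent.PDC

open Pool.Agent.PD3

theorem r_EX1 : St_EX1 := by
  intro P _ ι κ _ _ _ x r hx y hy
  let W : Submodule (L P) (ι → L P) := Submodule.span (L P) (Set.range fun k => fox x (r k))
  let Q := (ι → L P) ⧸ W
  let τ : ι → Equiv.Perm Q := fun i =>
    { toFun := fun q => W.mkQ (Pi.single i 1) + o (x i) • q
      invFun := fun q => o (x i)⁻¹ • (q - W.mkQ (Pi.single i 1))
      left_inv := fun q => by simp [smul_smul, o_inv_mul]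
      right_inv := fun q => by simp [smul_smul, o_mul_inv] }
  have hτ : ∀ (w : FreeGroup ι) (q : Q),
      FreeGroup.lift τ w q = W.mkQ (fox x w) + o (FreeGroup.lift x w) • q := by
    intro w
    induction w using FreeGroup.induction_on with
    | C1 => simp
    | of i => intro q; simp [τ]
    | inv_of i _ =>
      intro q
      rw [fox_inv, map_inv (FreeGroup.lift τ), map_inv (FreeGroup.lift x), FreeGroup.lift_apply_of,
        FreeGroup.lift_apply_of, fox_of, map_neg, map_smul]
      change o (x i)⁻¹ • (q - _) = _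
      rw [smul_sub]; abel
    | mul a b ha hb =>
      intro q
      rw [map_mul, Equiv.Perm.mul_apply, ha, hb, fox_mul, map_add, map_smul, map_mul, map_mul,
        smul_add, smul_smul, add_assoc]
  obtain ⟨ρ, hρ⟩ := hx.2.2 (Equiv.Perm Q) τ fun k => by
    ext q
    have : W.mkQ (fox x (r k)) = 0 :=
      (Submodule.Quotient.mk_eq_zero W).2 (Submodule.subset_span ⟨k, rfl⟩)
    rw [hτ, this, hx.1 k]
    simp
  have hρ' : ∀ w, ρ (FreeGroup.lift x w) = FreeGroup.lift τ w := fun w => by
    change (ρ.comp (FreeGroup.lift x)) w = _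
    congr 1
    ext i : 1
    simp [hρ]
  have hH : ∀ g q, ρ g q = ρ g 0 + o g • q := fun g q => by
    obtain ⟨w, rfl⟩ := hx.2.1 g
    rw [hρ', hτ, hτ, smul_zero, add_zero]
  let D : L P →ₗ[ℤ] Q := (Finsupp.linearCombination ℤ fun g => ρ g 0) ∘ₗ
    (MonoidAlgebra.coeffLinearEquiv ℤ).toLinearMap
  have hD : ∀ g n, D (MonoidAlgebra.single g n) = n • ρ g 0 := fun g n => by simp [D]
  have h2 : ∀ (i) (a : L P), D (a * (o (x i) - 1)) = W.mkQ (Pi.single i a) := by
    intro i a
    induction a using MonoidAlgebra.induction_linear with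
    | zero => simp
    | add a b ha hb => rw [Pi.single_add, map_add, ← ha, ← hb, ← map_add, add_mul]
    | single g n =>
      have e1 : MonoidAlgebra.single g n = n • (o g • (1 : L P)) := by simp [o_def]
      rw [mul_sub, mul_one, o_def, MonoidAlgebra.single_mul_single, map_sub, hD, hD, map_mul,
        Equiv.Perm.mul_apply, hH g, mul_one, e1, Pi.single_smul, Pi.single_smul, map_zsmul,
        map_smul, hρ]
      simp [τ]
  have h3 : W.mkQ y = 0 := by
    rw [← Finset.univ_sum_single y, map_sum]
    simp only [← h2, ← map_sum, hy, map_zero]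
  obtain ⟨u, hu⟩ := (Submodule.mem_span_range_iff_exists_fun _).1
    ((Submodule.Quotient.mk_eq_zero W).1 h3)
  exact ⟨u, hu.symm⟩

end Pool.Agent.PDC
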