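import Pool.Agent.Lib.PDC.H82

/-! Block FIN1: centralisers of elements of prime order are finite. -/

namespace Pool.Agent.PDC

open Pool.Agent.PD3

theorem r_FIN1 : R_FIN1 := by
  intro hC P V Ed _ _ T ⟨Φ, hs, hk⟩ g p hp hg ⟨D0, h0, hne, _, hact⟩
  obtain ⟨l0, rfl⟩ := hs D0
  obtain ⟨ca, -, cc, -⟩ := hC P g p hp.pos hg
  have ha0 : T.Ainv ((Ns g p • l0 : T.Lat) : V → L P) := by rw [← hk, map_smul, h0]
  -- a fixed coset where the coefficient is not divisible by `p`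
  have hx : ∃ v x, x⁻¹ * g * x ∈ T.H v ∧ ¬ (p : ℤ) ∣ (Ns g p * (l0 : V → L P) v).coeff x := by
    by_contra hcon
    push Not at hcon
    have h1 : ∀ v, ∃ μ, RInv (T.H v) μ ∧ Ns g p * (l0 : V → L P) v = Ns g p * μ := fun v =>
      cc hp (T.H v) (T.finH v) _ (ha0 v)
        (by rw [← mul_assoc, X82.sub_mul_Ns_eq hg, zero_mul]) (hcon v)
    choose μ hμ h1 using h1
    have hμ' : T.Ainv μ := hμ
    let m : T.Lat := ⟨μ, hμ'.mem_lat⟩
    have hz : ∀ v, Ns g p * ((l0 - m : T.Lat) : V → L P) v = 0 := fun v => by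
      change Ns g p * ((l0 : V → L P) v - μ v) = 0
      rw [mul_sub, h1, sub_self]
    obtain ⟨l, hl⟩ := T.lat_div (o g - 1) ((l0 - m : T.Lat) : V → L P)
      (by
        obtain ⟨ν, -, hν⟩ := ca ⊥ inferInstance _ (rInv_bot _) (hz T.root)
        exact ⟨ν, hν⟩)
      (fun e => ca _ (T.fin_zp e) _ ((l0 - m).2 e) (by rw [mul_sub, hz, hz, sub_self]))
    have hl' : l0 - m = (o g - 1) • l := Subtype.ext hl
    refine hne (Φ l) ?_
    rw [← map_smul, ← hl', map_sub, (hk m).2 hμ', sub_zero]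
  obtain ⟨v, x, hx, hnd⟩ := hx
  have hfin : {z : P | Commute z g}.Finite := by
    refine Set.Finite.of_finite_image (f := fun z => z⁻¹ * x)
      ((Ns g p * (l0 : V → L P) v).coeff.support.finite_toSet.subset ?_)
      fun a _ b _ h => by simpa using h
    rintro _ ⟨z, hz, rfl⟩
    have hz' : z * g * z⁻¹ = g ^ 1 := by rw [pow_one, Commute.eq hz, mul_inv_cancel_right]
    obtain ⟨D, hD⟩ := hact z 1 hz'
    obtain ⟨c, hc⟩ := X82.act hC hs hk hp hg hz' hD hx
    rw [Finset.mem_coe, Finsupp.mem_support_iff]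
    intro h
    refine hnd ⟨-c, ?_⟩
    rw [h] at hc
    push_cast at hc
    linarith
  refine ⟨hfin, ⟨v, x, hx⟩, fun w => ?_⟩
  have hH : (T.H w : Set P).Finite := T.finH w
  refine (hH.biUnion (t := fun h => {y : P | y⁻¹ * g * y = h}) fun h _ => ?_).subset
    fun y hy => Set.mem_biUnion (x := y⁻¹ * g * y) hy rfl
  rcases Set.eq_empty_or_nonempty {y : P | y⁻¹ * g * y = h} with he | ⟨y0, hy0⟩
  · rw [he]; exact Set.finite_empty
  · refine (hfin.image (· * y0)).subset fun y hy => ⟨y * y0⁻¹, ?_, by simp⟩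
    have e : y⁻¹ * g * y = y0⁻¹ * g * y0 := hy.trans hy0.symm
    change y * y0⁻¹ * g = g * (y * y0⁻¹)
    calc y * y0⁻¹ * g = y * (y0⁻¹ * g * y0) * y0⁻¹ := by group
      _ = g * (y * y0⁻¹) := by rw [← e]; group

end Pool.Agent.PDC
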