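import Pool.Agent.Lib.PDC.H82

/-! Block FIN2: the normaliser of an element of prime order acts by a sign. -/

namespace Pool.Agent.PDC

open Pool.Agent.PD3

theorem r_FIN2 : R_FIN2 := by
  intro hC P V Ed _ _ T ⟨Φ, hs, hk⟩ g p hp hg ⟨D0, _, _, hgen, hact⟩ ⟨v, x, hx⟩ hfin s r hr
  classical
  obtain ⟨l0, rfl⟩ := hs D0
  obtain ⟨-, cb, cc, -⟩ := hC P g p hp.pos hg
  let b : V → L P := fun w => nS (hfin w).toFinset
  have hmem : ∀ w y, y ∈ (hfin w).toFinset ↔ y⁻¹ * g * y ∈ T.H w := fun w y =>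
    (hfin w).mem_toFinset
  have hb : T.Ainv b := fun w k hk' => X82.nS_mul_o fun y => by
    rw [hmem, hmem]
    have e : (y * k⁻¹)⁻¹ * g * (y * k⁻¹) = k * (y⁻¹ * g * y) * k⁻¹ := by group
    rw [e, Subgroup.mul_mem_cancel_right _ ((T.H w).inv_mem hk'),
      Subgroup.mul_mem_cancel_left _ hk']
  have hbg : ∀ w, (o g - 1) * b w = 0 := fun w => X82.o_mul_nS fun y => by
    rw [hmem, hmem]
    have e : (g⁻¹ * y)⁻¹ * g * (g⁻¹ * y) = y⁻¹ * g * y := by group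
    rw [e]
  obtain ⟨l, hl⟩ := T.lat_div (Ns g p) b (cb _ (hbg _)) fun e =>
    cc hp _ (T.fin_zp e) _ (hb.mem_lat e) (by rw [mul_sub, hbg, hbg, sub_self]) fun y hy => by
      rw [MonoidAlgebra.coeff_sub, Finsupp.sub_apply,
        X82.coeff_nS_mem ((hmem _ _).2 (Subgroup.zpowers_le.2 (T.γ_out e) hy)),
        X82.coeff_nS_mem ((hmem _ _).2 (Subgroup.zpowers_le.2 (T.γ_inn e) hy)), sub_self]
      exact dvd_zero _
  have hN : Ns g p • Φ l = 0 := by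
    rw [← map_smul, hk]
    change T.Ainv (Ns g p • (l : V → L P))
    rw [← hl]; exact hb
  obtain ⟨k, D, hD⟩ := hgen _ hN
  rw [← map_zsmul] at hD
  have h1 : ∀ y, y⁻¹ * g * y ∈ T.H v →
      ∃ c : ℤ, 1 = k * (Ns g p * (l0 : V → L P) v).coeff y + p * c := fun y hy => by
    obtain ⟨c, hc⟩ := X82.key hs hk hg hD hy
    refine ⟨c, ?_⟩
    have e : Ns g p * (l : V → L P) v = b v := by rw [hl]; rfl
    rw [e, X82.coeff_nS_mem ((hmem _ _).2 hy)] at hc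
    simp only [Submodule.coe_smul_of_tower, Pi.smul_apply] at hc
    rw [mul_smul_comm, MonoidAlgebra.coeff_smul_apply, smul_eq_mul] at hc
    exact hc
  obtain ⟨D', hD'⟩ := hact s r hr
  obtain ⟨c, hc⟩ := X82.act hC hs hk hp hg hr hD' hx
  obtain ⟨c1, hc1⟩ := h1 x hx
  obtain ⟨c2, hc2⟩ := h1 (s⁻¹ * x) (by
    have e : (s⁻¹ * x)⁻¹ * g * (s⁻¹ * x) = x⁻¹ * (s * g * s⁻¹) * x := by group
    have e2 : x⁻¹ * g ^ r * x = (x⁻¹ * g * x) ^ r := by
      have := conj_pow (i := r) (a := x⁻¹) (b := g)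
      simpa using this.symm
    rw [e, hr, e2]
    exact (T.H v).pow_mem hx r)
  rw [Nat.modEq_iff_dvd]
  refine ⟨k * c + c2 - (r : ℤ) ^ 2 * c1, ?_⟩
  push_cast
  rw [hc] at hc2
  linear_combination hc2 - (r : ℤ) ^ 2 * hc1

end Pool.Agent.PDC
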