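import Pool.Agent.Lib.PDC.H82

/-! Block FIN3: no elementary abelian subgroup of rank two. -/

namespace Pool.Agent.PDC

open Pool.Agent.PD3

theorem r_FIN3 : R_FIN3 := by
  intro hC P V Ed _ _ T ⟨Φ, hs, hk⟩ g h p hp hg hh hc hn ⟨v, x, hx⟩ hfin hz
  classical
  obtain ⟨-, c2, c3, c4⟩ := hC P g h p hp hg hh hc hn
  have hF : ∀ w, {y : P | ∃ f ∈ Subgroup.closure {g, h}, f ≠ 1 ∧ y⁻¹ * f * y ∈ T.H w}.Finite :=
    fun w => ((c3.subset (t := {f | f ∈ Subgroup.closure {g, h} ∧ f ≠ 1}) fun f hf => hf.1).biUnion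
      (t := fun f => {y : P | y⁻¹ * f * y ∈ T.H w}) fun f hf => hfin f (c4 f hf.1 hf.2) w).subset
        fun y ⟨f, h1, h2, h3⟩ => Set.mem_biUnion (x := f) ⟨h1, h2⟩ h3
  let b : V → L P := fun w => nS (hF w).toFinset
  have hmem : ∀ w y, y ∈ (hF w).toFinset ↔
      ∃ f ∈ Subgroup.closure {g, h}, f ≠ 1 ∧ y⁻¹ * f * y ∈ T.H w := fun w y =>
    (hF w).mem_toFinset
  have hb : T.Ainv b := fun w k hk' => X82.nS_mul_o fun y => by
    rw [hmem, hmem]
    refine exists_congr fun f => and_congr_right fun _ => and_congr_right fun _ => ?_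
    have e : (y * k⁻¹)⁻¹ * f * (y * k⁻¹) = k * (y⁻¹ * f * y) * k⁻¹ := by group
    rw [e, Subgroup.mul_mem_cancel_right _ ((T.H w).inv_mem hk'),
      Subgroup.mul_mem_cancel_left _ hk']
  have hstep : ∀ u ∈ Subgroup.closure {g, h}, ∀ w y, y ∈ (hF w).toFinset →
      u * y ∈ (hF w).toFinset := fun u hu w y hy => by
    obtain ⟨f, h1, h2, h3⟩ := (hmem w y).1 hy
    refine (hmem _ _).2 ⟨u * f * u⁻¹, Subgroup.mul_mem _ (Subgroup.mul_mem _ hu h1)
      (Subgroup.inv_mem _ hu), fun e => h2 (by simpa using e), ?_⟩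
    have e : (u * y)⁻¹ * (u * f * u⁻¹) * (u * y) = y⁻¹ * f * y := by group
    rwa [e]
  have hbu : ∀ u ∈ Subgroup.closure {g, h}, ∀ w, (o u - 1) * b w = 0 := fun u hu w =>
    X82.o_mul_nS fun y => ⟨fun hy => by simpa using hstep u hu w _ hy,
      hstep _ (Subgroup.inv_mem _ hu) w y⟩
  have hgF : g ∈ Subgroup.closure {g, h} := Subgroup.subset_closure (by simp)
  have hhF : h ∈ Subgroup.closure {g, h} := Subgroup.subset_closure (by simp)
  obtain ⟨l, hl⟩ := T.lat_div (Ns g p * Ns h p) b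
    (by
      obtain ⟨μ, -, hμ⟩ := c2 ⊥ inferInstance _ (rInv_bot _) (hbu g hgF T.root) (hbu h hhF T.root)
        fun y _ f _ hf => by
          have := Subgroup.mem_bot.1 hf
          calc f = y * (y⁻¹ * f * y) * y⁻¹ := by group
            _ = 1 := by rw [this]; group
      exact ⟨μ, hμ⟩)
    fun e => c2 _ (T.fin_zp e) _ (hb.mem_lat e)
      (by rw [mul_sub, hbu g hgF, hbu g hgF, sub_self])
      (by rw [mul_sub, hbu h hhF, hbu h hhF, sub_self]) fun y hy f hf hfy => by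
        by_contra hf1
        refine hy ?_
        rw [MonoidAlgebra.coeff_sub, Finsupp.sub_apply,
          X82.coeff_nS_mem ((hmem _ _).2 ⟨f, hf, hf1, Subgroup.zpowers_le.2 (T.γ_out e) hfy⟩),
          X82.coeff_nS_mem ((hmem _ _).2 ⟨f, hf, hf1, Subgroup.zpowers_le.2 (T.γ_inn e) hfy⟩),
          sub_self]
  have hN : (Ns g p * Ns h p) • Φ l = 0 := by
    rw [← map_smul, hk]
    change T.Ainv ((Ns g p * Ns h p) • (l : V → L P))
    rw [← hl]; exact hb
  obtain ⟨D, hD⟩ := hz _ hN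
  have hD' : Φ (Ns h p • l) = Φ 0 + (o g - 1) • D := by rw [map_smul, map_zero, zero_add, hD]
  obtain ⟨c, hc'⟩ := X82.key hs hk hg hD' hx
  have e : Ns g p * ((Ns h p • l : T.Lat) : V → L P) v = b v := by
    rw [hl]
    change Ns g p * (Ns h p * _) = Ns g p * Ns h p * _
    rw [mul_assoc]
  have hg1 : g ≠ 1 := fun h1 => by
    rw [h1, orderOf_one] at hg
    exact hp.one_lt.ne hg
  rw [e, X82.coeff_nS_mem ((hmem _ _).2 ⟨g, hgF, hg1, hx⟩)] at hc'
  have hd : (p : ℤ) ∣ 1 := ⟨c, by simpa using hc'⟩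
  exact hp.one_lt.ne' (Nat.dvd_one.1 (by exact_mod_cast hd))

end Pool.Agent.PDC
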