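import Pool.Agent.Lib.PDC.X43

namespace Pool.Agent.PDC

open Subgroup X43

theorem r_GA1 : St_GA1 := by
  intro G _ _ hP hP2 c hc hN
  obtain ⟨-, hs⟩ := six_ord hc
  have s3 : (c ^ 2) ^ 3 = 1 := hs ▸ pow_orderOf_eq_one _
  have hC : ∀ x, Commute x (c ^ 2) → x ∈ zpowers c := fun x hx =>
    hN x (by rw [hx.eq, mul_inv_cancel_right]; exact mem_zpowers _)
  obtain ⟨K, hK, ho, -, hg⟩ := burn hP Nat.prime_three hs (fun x hx h => six_three hc (hC x hx) h)
    fun x hx => (comm_of_mem (hN x hx) ((Commute.refl c).pow_left 2)).symm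
  refine ⟨K, hK, ?_, hg⟩
  have := Fact.mk Nat.prime_two
  have := Fact.mk Nat.prime_three
  refine IsPGroup.of_card (Nat.eq_prime_pow_of_unique_prime_dvd Nat.card_pos.ne' fun {p} hp hd => ?_)
  have := Fact.mk hp
  let _ : MulAction (zpowers (c ^ 2)) (Sylow p K) :=
    MulAction.compHom _ ((MulAut.conjNormal (H := K)).comp (zpowers (c ^ 2)).subtype)
  obtain ⟨Q, hQ⟩ := (IsPGroup.of_card (p := 3) (G := zpowers (c ^ 2)) (n := 1)
    (by rw [Nat.card_zpowers, hs, pow_one])).nonempty_fixed_point_of_prime_not_dvd_card (Sylow p K)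
    fun h => by
      obtain ⟨Q⟩ : Nonempty (Sylow p K) := inferInstance
      exact absurd (Nat.eq_one_of_dvd_coprimes ho
        (h.trans (Q.card_dvd_index.trans (index_dvd_card _))) dvd_rfl) (by norm_num)
  have h1 : MulAut.conjNormal (H := K) (c ^ 2) • Q = Q := hQ ⟨_, mem_zpowers _⟩
  obtain ⟨z, h2, h3, h4⟩ := central_elt hp Q.2 (Q.ne_bot_of_dvd_card hd)
  have h5 : MulAut.conjNormal (H := K) (c ^ 2) z ∈ (Q : Subgroup K) := by
    rw [← h1]
    exact Subgroup.smul_mem_pointwise_smul z _ (Q : Subgroup K) h2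
  have h6 : orderOf (z : G) = p := by rwa [orderOf_coe]
  have h7 := comm_three hP hP2 hp h6 s3 (congrArg Subtype.val (h4 _ h5).symm.eq)
  have h8 : p ∣ 2 * 3 := h6 ▸ orderOf_dvd_of_pow_eq_one (six_pow hc (hC _ h7))
  exact (Nat.prime_dvd_prime_iff_eq hp Nat.prime_two).1
    ((ho.coprime_dvd_left hd).dvd_of_dvd_mul_right h8)

end Pool.Agent.PDC
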