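import Pool.Agent.Lib.PDC.K17

/-! Row GA2: the quaternion group inside a group with a normal 3-complement. -/

namespace Pool.Agent.PDC

open Subgroup K17

namespace GA217

/-- fixed point free conjugation -/
lemma fpf {H : Type} [Group H] [Finite H] (N : Subgroup H) (hN : N.Normal) (s : H)
    (h : ∀ y ∈ N, Commute y s → y = 1) {x : H} (hx : x ∈ N) : ∃ y, x * s = y⁻¹ * s * y := by
  have inj : Function.Injective fun y : N => (⟨y⁻¹ * (s * y * s⁻¹),
      mul_mem (inv_mem y.2) (hN.conj_mem _ y.2 s)⟩ : N) := fun a b e => by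
    have e' : (a : H)⁻¹ * (s * a * s⁻¹) = (b : H)⁻¹ * (s * b * s⁻¹) := congrArg Subtype.val e
    have := h (b * (a : H)⁻¹) (mul_mem b.2 (inv_mem a.2)) (by
      change _ * _ = _ * _
      calc (b : H) * (a : H)⁻¹ * s = b * ((a : H)⁻¹ * (s * a * s⁻¹)) * s * (a : H)⁻¹ := by group
        _ = s * (b * (a : H)⁻¹) := by rw [e']; group)
    exact Subtype.ext (mul_inv_eq_one.1 this).symm
  obtain ⟨y, hy⟩ := Finite.injective_iff_surjective.1 inj ⟨x, hx⟩
  have e : (y : H)⁻¹ * (s * y * s⁻¹) = x := congrArg Subtype.val hy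
  exact ⟨y, by rw [← e]; group⟩

end GA217

theorem r_GA2 : St_GA2 := by
  intro G _ _ h1 c hc hC ne K nK hK dK
  have ht := ord_three hc
  have hs := ord_two hc
  have ts : Commute (c ^ 3) (c ^ 2) := Commute.pow_pow_self c 3 2
  have cs : ∀ y ∈ K, Commute y (c ^ 2) → y ∈ zpowers (c ^ 3) := fun y hy cm => by
    obtain ⟨k, hk⟩ := hK ⟨y, hy⟩
    exact mem_cube hc (hC y cm)
      (not_dvd_of_pow Nat.prime_two Nat.prime_three (by omega) (congrArg Subtype.val hk))
  have hg : ∀ {H : Subgroup G}, K ≤ H → c ∈ H → H = ⊤ := fun a b => eq_top_iff.2 fun g _ => by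
    obtain ⟨k, hk, d, rfl⟩ := dK g
    exact mul_mem (a hk) (pow_mem (pow_mem b 2) d)
  have tc : c ^ 3 ∈ zpowers c := npow_mem_zpowers c 3
  unfold StrA
  generalize c ^ 3 = t at *
  generalize c ^ 2 = s at *
  have tt : t * t = 1 := by rw [← sq, ← ht, pow_orderOf_eq_one]
  have t1 : t ≠ 1 := fun e => by rw [e, orderOf_one] at ht; omega
  have s3 : s ^ 3 = 1 := hs ▸ pow_orderOf_eq_one s
  have tK : t ∈ K := by
    obtain ⟨k, hk, d, e⟩ := dK t
    have e' : (QuotientGroup.mk' K t) ^ 3 = 1 := by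
      rw [e, map_mul, QuotientGroup.mk'_apply, (QuotientGroup.eq_one_iff k).2 hk, one_mul,
        ← map_pow, ← pow_mul, mul_comm, pow_mul, s3, one_pow, map_one]
    rwa [← map_pow, pow_succ, sq, tt, one_mul, QuotientGroup.mk'_apply,
      QuotientGroup.eq_one_iff] at e'
  have ct : ∀ g, Commute g t := fun g => by
    obtain ⟨k, hk, d, rfl⟩ := dK g
    exact (central h1 Nat.prime_two ht hK tK hk).mul_left (ts.symm.pow_left d)
  have two : ∀ w ∈ zpowers t, w = 1 ∨ w = t := fun w hw => by
    obtain ⟨k, hk, rfl⟩ := mem_lt ht hw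
    interval_cases k <;> simp
  have sq1 : ∀ y, y * y = 1 → y ∈ zpowers t := fun y e => by
    by_cases z : y = 1
    · rw [z]; exact one_mem _
    · exact h1 2 t y Nat.prime_two ht (orderOf_eq_prime (by rwa [sq]) z) (ct y).symm
  have nT : (zpowers t).Normal := ⟨fun w hw g => by
    obtain ⟨k, rfl⟩ := hw
    rw [((ct g).zpow_right k).eq, mul_inv_cancel_right]
    exact zpow_mem_zpowers t k⟩
  obtain ⟨π, hπ⟩ : ∃ π, π = QuotientGroup.mk' (zpowers t) := ⟨_, rfl⟩
  have ker : ∀ y, π y = 1 ↔ y ∈ zpowers t := fun y => by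
    rw [hπ, QuotientGroup.mk'_apply, QuotientGroup.eq_one_iff]
  have sur : Function.Surjective π := hπ ▸ QuotientGroup.mk'_surjective _
  have cube : ∀ x ∈ K, (x * s) ^ 3 ∈ zpowers t := fun x hx => by
    obtain ⟨y, hy⟩ := GA217.fpf (K.map π) (nK.map π sur) (π s) (by
      rintro _ ⟨y, hy, rfl⟩ cm
      have m : s * y * s⁻¹ * y⁻¹ ∈ zpowers t := (ker _).1 (by
        simp only [map_mul, map_inv]
        rw [← cm.eq]
        group)
      refine (ker y).2 (cs y hy ?_)
      rcases two _ m with e | e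
      · rw [mul_inv_eq_one, mul_inv_eq_iff_eq_mul] at e
        exact e.symm
      · exfalso
        rw [mul_inv_eq_iff_eq_mul] at e
        have a : ∀ z, s * (t * z) * s⁻¹ = t * (s * z * s⁻¹) := fun z => by
          rw [← mul_assoc s, ← ts.eq]; group
        have b : s * (s * (s * y * s⁻¹) * s⁻¹) * s⁻¹ = s ^ 3 * y * (s ^ 3)⁻¹ := by
          simp only [pow_succ, pow_zero, one_mul, mul_inv_rev, mul_assoc]
        rw [s3, e, a, e, a, a, e, ← mul_assoc, tt] at b
        exact t1 (by simpa using b)) (mem_map_of_mem π hx)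
    refine (ker _).1 ?_
    have := conj_pow (a := y⁻¹) (b := π s) (i := 3)
    rw [inv_inv] at this
    rw [map_pow, map_mul, hy, this, ← map_pow, s3, map_one, mul_one, inv_mul_cancel]
  have hP : IsPGroup 2 (K.map π) := hK.map π
  have : Nontrivial (K.map π) := by
    by_contra z
    rw [not_nontrivial_iff_subsingleton] at z
    refine ne (hg (fun y hy => zpowers_le.2 tc ((ker y).1 ?_)) (mem_zpowers c))
    exact congrArg Subtype.val (z.elim (⟨π y, mem_map_of_mem π hy⟩ : K.map π) 1)
  have := hP.center_nontrivial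
  obtain ⟨z, hz⟩ := exists_ne (1 : center (K.map π))
  obtain ⟨n, hn⟩ := IsPGroup.iff_orderOf.1 (hP.to_subgroup (center _)) z
  have d : 2 ∣ orderOf z := by
    rw [hn]
    refine dvd_pow_self 2 fun e => hz ?_
    rwa [e, pow_zero, orderOf_eq_one_iff] at hn
  obtain ⟨⟨⟨_, i, iK, rfl⟩, zc⟩, hw⟩ : ∃ w : center (K.map π), orderOf w = 2 :=
    ⟨_, pow_prime (orderOf_pos z).ne' d⟩
  rw [← orderOf_coe, ← orderOf_coe] at hw
  change orderOf (π i) = 2 at hw
  have iT : i ∉ zpowers t := fun m => by rw [(ker i).2 m, orderOf_one] at hw; omega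
  have ii : i * i = t := (two _ ((ker _).1 (by
    rw [map_mul, ← sq, ← hw, pow_orderOf_eq_one]))).resolve_left fun e => iT (sq1 i e)
  have ci : ∀ y ∈ K, y * i = i * y ∨ y * i = t * (i * y) := fun y hy => by
    have e : π y * π i = π i * π y :=
      congrArg Subtype.val (mem_center_iff.1 zc ⟨π y, mem_map_of_mem π hy⟩)
    have m : y * i * (i * y)⁻¹ ∈ zpowers t := (ker _).1 (by
      rw [map_mul, map_inv, map_mul, map_mul, e, mul_inv_cancel])
    exact (two _ m).imp mul_inv_eq_one.1 mul_inv_eq_iff_eq_mul.1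
  have st : s * t * s⁻¹ = t := by rw [← ts.eq, mul_inv_cancel_right]
  obtain ⟨j, hj⟩ : ∃ j, j = s * i * s⁻¹ := ⟨_, rfl⟩
  obtain ⟨k, hk⟩ : ∃ k, k = s * j * s⁻¹ := ⟨_, rfl⟩
  have jK : j ∈ K := hj ▸ nK.conj_mem i iK s
  have jj : j * j = t := by rw [← st, ← ii, hj]; group
  have kk : k * k = t := by rw [← st, ← jj, hk]; group
  have cj : ∀ y ∈ K, y * j = j * y ∨ y * j = t * (j * y) := fun y hy => by
    have a : y * j = s * (s⁻¹ * y * s⁻¹⁻¹ * i) * s⁻¹ := by rw [hj]; group
    have b : j * y = s * (i * (s⁻¹ * y * s⁻¹⁻¹)) * s⁻¹ := by rw [hj]; group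
    refine (ci _ (nK.conj_mem y hy s⁻¹)).imp (fun e => by rw [a, b, e]) fun e => ?_
    rw [a, b, e, ← mul_assoc s, ← ts.eq]
    group
  have ijk : i * j = k ∨ i * j = t * k := by
    have e : (i * s) ^ 3 = i * j * k := by
      rw [← mul_one (i * j * k), ← s3, hk, hj]
      simp only [pow_succ, pow_zero, one_mul, mul_assoc, inv_mul_cancel_left]
    have a : t * k * k = 1 := by rw [mul_assoc, kk, tt]
    rcases two _ (e ▸ cube i iK) with f | f
    · exact Or.inr (mul_right_cancel (f.trans a.symm))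
    · exact Or.inl (mul_right_cancel (f.trans kk.symm))
  have nc : j * i ≠ i * j := fun e => by
    have a : i * j * (i * j) = 1 := by
      rw [mul_assoc, ← mul_assoc j, e, mul_assoc, jj, ← mul_assoc, ii, tt]
    rcases ijk with f | f
    · rw [f, kk] at a
      exact t1 a
    · rw [f, mul_assoc, ← mul_assoc k, (ct k).eq, mul_assoc, kk, tt, mul_one] at a
      exact t1 a
  have ji : j * i = t * (i * j) := (ci j jK).resolve_left nc
  have ij : i * j = t * (j * i) := by rw [ji, ← mul_assoc, tt, one_mul]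
  have cen : ∀ (n : ℕ) (y : G), y ^ 2 ^ n = 1 → Commute y i → Commute y j → y ∈ zpowers t := by
    intro n
    induction n with
    | zero => intro y e _ _; rw [pow_zero, pow_one] at e; rw [e]; exact one_mem _
    | succ n ih =>
      intro y e a b
      rcases two _ (ih (y * y) (by rw [← sq, ← pow_mul, ← pow_succ', e]) (a.mul_left a)
        (b.mul_left b)) with f | f
      · exact sq1 y f
      · exfalso
        have m := sq1 (i * y) (by
          rw [mul_assoc, ← mul_assoc y, a.eq, mul_assoc, f, ← mul_assoc, ii, tt])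
        have cm : Commute (i * y) j := by
          obtain ⟨l, hl⟩ := m
          exact hl ▸ (ct j).symm.zpow_left l
        have := cm.mul_left b.inv_left
        rw [mul_inv_cancel_right] at this
        exact nc this.symm
  refine ⟨i, j, k, by rw [sq, ii], hj, hk, ji, ijk, ct i, hg (fun y hy => ?_)
    (subset_closure (by simp))⟩
  have mi : i ∈ closure {i, c} := subset_closure (by simp)
  have mt : t ∈ closure {i, c} := ii ▸ mul_mem mi mi
  have ms : s ∈ closure {i, c} :=
    zpowers_le.2 (subset_closure (by simp)) (hC s (Commute.refl s))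
  have mj : j ∈ closure {i, c} := hj ▸ mul_mem (mul_mem ms mi) (inv_mem ms)
  have fin : ∀ u ∈ closure {i, c}, u ∈ K → Commute (y * u) i → Commute (y * u) j →
      y ∈ closure {i, c} := fun u m uK a b => by
    obtain ⟨n, hn⟩ := hK ⟨y * u, mul_mem hy uK⟩
    exact (mul_mem_cancel_right m).1 (zpowers_le.2 mt (cen n _ (congrArg Subtype.val hn) a b))
  have ee : ∀ u v : G, y * v = v * y → u * v = v * u → Commute (y * u) v := fun u v a b =>
    Commute.mul_left a b
  have oo : ∀ u v : G, y * v = t * (v * y) → u * v = t * (v * u) → Commute (y * u) v :=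
    fun u v a b => by
      change _ * _ = _ * _
      rw [mul_assoc, b, ← mul_assoc, (ct y).eq, mul_assoc, ← mul_assoc y, a, mul_assoc,
        ← mul_assoc, tt, one_mul, mul_assoc]
  rcases ci y hy with a | a <;> rcases cj y hy with b | b
  · exact fin 1 (one_mem _) (one_mem _) (ee _ _ a (by simp)) (ee _ _ b (by simp))
  · exact fin i mi iK (ee _ _ a rfl) (oo _ _ b ij)
  · exact fin j mj jK (oo _ _ a ji) (ee _ _ b rfl)
  · refine fin (i * j) (mul_mem mi mj) (mul_mem iK jK) (oo _ _ a ?_) (oo _ _ b ?_)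
    · rw [mul_assoc, ji, ← mul_assoc, (ct i).eq, mul_assoc]
    · conv_lhs => rw [ij]
      simp only [mul_assoc]

end Pool.Agent.PDC
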