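import Pool.Agent.Lib.PDC.K17

/-! Row GB1: an element of order six whose cube has a cyclic centraliser. -/

namespace Pool.Agent.PDC

open Subgroup K17

theorem r_GB1 : St_GB1 := by
  intro G _ _ h1 h2 c hc hC ne
  have ht := ord_three hc
  have hs := ord_two hc
  have tt : c ^ 3 * c ^ 3 = 1 := by rw [← sq, ← ht, pow_orderOf_eq_one]
  have ts : Commute (c ^ 3) (c ^ 2) := Commute.pow_pow_self c 3 2
  obtain ⟨K, nK, k1, k2, k3⟩ := burn h1 Nat.prime_two ht
    (fun y hy ⟨k, hk⟩ => mem_cube hc (hC y hy)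
      (not_dvd_of_pow Nat.prime_two Nat.prime_three (by omega) hk)) fun x => comm_two ht
  -- commutators with the involution have odd order
  have wK : ∀ y, y * c ^ 3 * y⁻¹ * (c ^ 3)⁻¹ ∈ K := fun y => by
    obtain ⟨n, hn, j, rfl⟩ := k3 y
    have e : (c ^ 3) ^ j * c ^ 3 = c ^ 3 * (c ^ 3) ^ j := by group
    have := mul_mem hn (nK.conj_mem _ (inv_mem hn) (c ^ 3))
    rw [mul_assoc n, e]
    simpa only [mul_inv_rev, mul_assoc, mul_inv_cancel_left] using this
  -- an inverted element commuting with the element of order three has order prime to three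
  have inv3 : ∀ x, c ^ 3 * x * (c ^ 3)⁻¹ = x⁻¹ → Commute x (c ^ 2) → ¬ 3 ∣ orderOf x :=
    fun x i cm d => by
      have o := pow_prime (orderOf_pos x).ne' d
      have i' : c ^ 3 * x ^ (orderOf x / 3) * (c ^ 3)⁻¹ = (x ^ (orderOf x / 3))⁻¹ := by
        rw [← conj_pow, i, inv_pow]
      obtain ⟨j, hj⟩ := h1 3 _ _ Nat.prime_three hs o (cm.pow_left _).symm
      generalize x ^ (orderOf x / 3) = z at o i' hj
      have cz : Commute (c ^ 3) z := hj ▸ ts.zpow_right j
      rw [cz.eq, mul_inv_cancel_right, eq_inv_iff_mul_eq_one, ← sq] at i'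
      have := orderOf_dvd_of_pow_eq_one i'
      rw [o] at this
      omega
  obtain ⟨N, nN, n1, n2, n3⟩ := burn h1 Nat.prime_three hs
    (fun y hy ⟨k, hk⟩ => by
      obtain ⟨x, ⟨j, hj⟩, i, cm⟩ := dec tt (k1 _ (wK y))
      have cx : Commute x (c ^ 2) :=
        hj ▸ (((hy.mul_left ts).mul_left hy.inv_left).mul_left ts.inv_left).zpow_left j
      have yK : y ∈ K := k2 y (not_dvd_of_pow Nat.prime_three Nat.prime_two (by omega) hk)
      have xK : x ∈ K := hj ▸ zpow_mem (wK y) j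
      have hz := mem_sq hc (hC _ cm) (k1 _ (mul_mem (inv_mem xK) yK))
      obtain ⟨z, ez⟩ : ∃ z, z = x⁻¹ * y := ⟨_, rfl⟩
      rw [← ez] at hz
      have z3 : z ^ 3 = 1 := orderOf_dvd_iff_pow_eq_one.1 (hs ▸ orderOf_dvd_of_mem_zpowers hz)
      have cz : Commute y z := by
        obtain ⟨l, rfl⟩ := hz
        exact hy.zpow_right l
      have ex : x = y * z⁻¹ := by rw [ez]; group
      have x3 : x ^ 3 ^ (k + 1) = 1 := by
        rw [ex, cz.inv_right.mul_pow, pow_succ, pow_mul, hk, one_pow, mul_comm, pow_mul, inv_pow, z3]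
        simp
      have x1 : x = 1 := orderOf_eq_one_iff.1 (Nat.Coprime.eq_one_of_dvd
        ((Nat.prime_three.coprime_iff_not_dvd.2 (inv3 x i cx)).symm.pow_right _)
        (orderOf_dvd_of_pow_eq_one x3))
      rwa [ez, x1, inv_one, one_mul] at hz)
    (fun x hx => by
      obtain ⟨n, hn, j, rfl⟩ := k3 x
      have cj := ts.pow_left j
      suffices Commute n (c ^ 2) from this.mul_left cj
      rw [mul_assoc n, cj.eq, mul_inv_rev, mul_assoc, mul_assoc, mul_inv_cancel_left,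
        ← mul_assoc] at hx
      obtain ⟨k, hk, e⟩ := mem_lt hs hx
      generalize c ^ 2 = s at hs e
      have s3 : s ^ 3 = 1 := hs ▸ pow_orderOf_eq_one s
      have c2 : Commute (n ^ 2) s := by
        have : n * (n * s * n⁻¹) * n⁻¹ = s := by
          rw [e, ← conj_pow, e, ← pow_mul]
          interval_cases k
          · rw [pow_zero, conj_eq_one_iff] at e
            simp [e]
          · simp
          · rw [show 2 * 2 = 3 + 1 from rfl, pow_succ, s3, one_mul]
        change _ * _ = _ * _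
        conv_rhs => rw [← this]
        simp only [sq, mul_assoc, inv_mul_cancel_left, inv_mul_cancel, mul_one]
      obtain ⟨l, hl⟩ : ∃ l, orderOf n + 1 = 2 * l := ⟨(orderOf n + 1) / 2, by have := k1 n hn; omega⟩
      have := c2.pow_left l
      rwa [← pow_mul, ← hl, pow_succ, pow_orderOf_eq_one, one_mul] at this)
  have nU : (N ⊓ K).Normal := inferInstance
  obtain ⟨u, hu, gen⟩ := cyc_of_inv h1 (N ⊓ K) (c ^ 3) fun y hy => by
    obtain ⟨x, ⟨j, hj⟩, i, cm⟩ := dec tt (k1 _ (wK y))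
    have xU : x ∈ N ⊓ K := hj ▸ zpow_mem (by
      simpa only [mul_assoc] using mul_mem hy (nU.conj_mem _ (inv_mem hy) (c ^ 3))) j
    have zU := mul_mem (inv_mem xU) hy
    rwa [← inv_mul_eq_one.1 (eq_one hc (hC _ cm) (k1 _ zU.2) (n1 _ zU.1))]
  have all : ∀ g, ∃ i k : ℕ, g = u ^ i * c ^ k := fun g => by
    obtain ⟨n, hn, j, rfl⟩ := n3 g
    obtain ⟨m, hm, l, rfl⟩ := k3 n
    have tN : (c ^ 3) ^ l ∈ N := pow_mem (n2 _ (by rw [ht]; omega)) l
    obtain ⟨i, rfl⟩ := gen m ⟨(mul_mem_cancel_right tN).1 hn, hm⟩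
    exact ⟨i, 3 * l + 2 * j, by rw [pow_add, pow_mul, pow_mul, mul_assoc]⟩
  have u2 := k1 u hu.2
  have u3 := n1 u hu.1
  refine ⟨u, orderOf u, ?_, ?_, rfl, ?_, ?_, all⟩
  · refine lt_of_le_of_ne (orderOf_pos u) fun e => ne (eq_top_iff.2 fun g _ => ?_)
    obtain ⟨i, k, rfl⟩ := all g
    rw [orderOf_eq_one_iff.1 e.symm, one_pow, one_mul]
    exact npow_mem_zpowers c k
  · exact Nat.Coprime.mul_right (Nat.prime_two.coprime_iff_not_dvd.2 u2).symm
      (Nat.prime_three.coprime_iff_not_dvd.2 u3).symm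
  · obtain ⟨x, ⟨j, hj⟩, i, cm⟩ := dec tt (k1 _ (wK u))
    have xU : x ∈ N ⊓ K := hj ▸ zpow_mem (by
      simpa only [mul_assoc] using mul_mem hu (nU.conj_mem _ (inv_mem hu) (c ^ 3))) j
    have zU := mul_mem (inv_mem xU) hu
    rwa [← inv_mul_eq_one.1 (eq_one hc (hC _ cm) (k1 _ zU.2) (n1 _ zU.1))]
  · obtain ⟨r, hr⟩ := gen _ (nU.conj_mem u hu (c ^ 2))
    generalize c ^ 2 = s at hs hr
    have s3 : s ^ 3 = 1 := hs ▸ pow_orderOf_eq_one s
    have e3 : u ^ (r * r * r) = u ^ 1 := by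
      rw [pow_mul, pow_mul, ← hr, conj_pow, conj_pow, ← hr, conj_pow, ← hr, pow_one]
      have : s * (s * (s * u * s⁻¹) * s⁻¹) * s⁻¹ = s ^ 3 * u * (s ^ 3)⁻¹ := by
        simp only [pow_succ, pow_zero, one_mul, mul_inv_rev, mul_assoc]
      rw [this, s3]
      simp
    have d3 : (orderOf u : ℤ) ∣ ((r : ℤ) - 1) * (r * r + r + 1) := by
      have := (pow_eq_pow_iff_modEq.1 e3).symm.dvd
      push_cast at this
      exact this.trans (dvd_of_eq (by ring))
    have cp : IsCoprime (orderOf u : ℤ) ((r : ℤ) * r + r + 1) := by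
      have : ((r : ℤ) * r + r + 1) = ((r * r + r + 1 : ℕ) : ℤ) := by push_cast; ring
      rw [this, Nat.isCoprime_iff_coprime]
      refine Nat.Coprime.symm (Nat.coprime_of_dvd fun p hp a b => ?_)
      have o := pow_prime (orderOf_pos u).ne' b
      have q := (h2 p r _ s hp o (by rw [← conj_pow, hr, ← pow_mul, ← pow_mul, mul_comm])).symm.dvd
      have a' : (p : ℤ) ∣ (r : ℤ) * r + r + 1 := this ▸ Int.natCast_dvd_natCast.2 a
      push_cast at q
      have t : (p : ℤ) ∣ 3 := by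
        have := ((a'.mul_left (2 - r)).add (q.mul_left (r - 1))).trans (dvd_refl _)
        exact this.trans (dvd_of_eq (by ring))
      have := (Nat.prime_dvd_prime_iff_eq hp Nat.prime_three).1 (Int.natCast_dvd_natCast.1 t)
      exact u3 (this ▸ b)
    have m1 : 1 ≡ r [MOD orderOf u] := Nat.modEq_iff_dvd.2 (by
      simpa using cp.dvd_of_dvd_mul_right d3)
    rw [← pow_eq_pow_iff_modEq.2 m1, pow_one, mul_inv_eq_iff_eq_mul] at hr
    exact hr

end Pool.Agent.PDC
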