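import Pool.Agent.Lib.PDC.X43

namespace Pool.Agent.PDC

open Subgroup X43

theorem r_GB2 : St_GB2 := by
  rintro G _ _ c hc ⟨u, m, h1, h2, h3, h4, h5, h6⟩
  have hs : ∀ x, Commute x (c ^ 2) := fun x => by
    obtain ⟨i, k, rfl⟩ := h6 x
    exact (h5.symm.pow_left i).mul_left (Commute.pow_pow_self c k 2)
  obtain ⟨ht, hs3⟩ := six_ord hc
  obtain ⟨φ, a, b, d, -⟩ := exists_dih h3 h1 (h2.coprime_dvd_right (by norm_num))
    (ht ▸ pow_orderOf_eq_one (c ^ 3)) h4
  obtain ⟨e, e1, e2⟩ := exists_zhom (c ^ 2) hs3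
  have e3 : ∀ i, ∃ k : ℕ, e i = (c ^ 2) ^ k := fun i => ⟨i.toAdd.val, by rw [← e2]; simp⟩
  have e4 : ∀ x i, Commute (φ x) (e i) := fun x i => by
    obtain ⟨k, hk⟩ := e3 i
    exact hk ▸ (hs _).pow_right k
  refine ⟨⟨m, h1, h2, ⟨(MulEquiv.ofBijective (φ.noncommCoprod e e4) ⟨?_, fun g => ?_⟩).symm⟩⟩, hs⟩
  · rw [injective_iff_map_eq_one]
    rintro ⟨x, i⟩ h
    rw [MonoidHom.noncommCoprod_apply] at h
    have h7 : i ^ 3 = 1 := by simpa using pow_card_eq_one (x := i)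
    have h8 : φ (x ^ 3) = 1 := by
      have := congrArg (· ^ 3) h
      simpa only [(e4 x i).mul_pow, ← map_pow, h7, map_one, mul_one, one_pow] using this
    have h9 : x = 1 := eq_one_of_coprime (a := 3) (b := Nat.card (DihedralGroup m))
      (by
        rw [DihedralGroup.nat_card]
        exact Nat.Coprime.mul_right (by norm_num) (h2.coprime_dvd_right (by norm_num)).symm)
      ((injective_iff_map_eq_one φ).1 a _ h8) pow_card_eq_one'
    rw [h9, map_one, one_mul] at h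
    exact Prod.ext h9 ((injective_iff_map_eq_one e).1 e1 _ h)
  · have h7 : φ.range ≤ (φ.noncommCoprod e e4).range := by
      rintro _ ⟨x, rfl⟩
      exact ⟨(x, 1), by simp⟩
    have h8 : c ^ 2 ∈ (φ.noncommCoprod e e4).range :=
      ⟨(1, .ofAdd (1 : ℕ)), by rw [MonoidHom.noncommCoprod_apply, map_one, one_mul, e2, pow_one]⟩
    have h9 : c ∈ (φ.noncommCoprod e e4).range := by
      simpa [pow_succ] using mul_mem (h7 d) (inv_mem h8)
    obtain ⟨i, k, rfl⟩ := h6 g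
    exact mul_mem (pow_mem (h7 b) i) (pow_mem h9 k)

end Pool.Agent.PDC
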