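import Pool.Agent.Lib.PDC.X43

namespace Pool.Agent.PDC

open Subgroup X43

theorem r_GD : St_GD := by
  intro G _ _ hP t ht hC hne
  have h2 : t ^ 2 = 1 := ht ▸ pow_orderOf_eq_one t
  obtain ⟨K, hK, ho, -, hg⟩ := burn_two hP ht fun x hx _ => hC x hx
  obtain ⟨u, rfl, hu⟩ := cyc_inv hP hK ho h2 fun y hy hc =>
    eq_one_of_coprime ho (pow_card hy) (by rcases two_cases h2 (hC y hc) with e | e <;> simp [e, h2])
  rw [Nat.card_zpowers] at ho
  have h3 : 1 < orderOf u := by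
    refine lt_of_le_of_ne (orderOf_pos u) fun e => hne (eq_top_iff.2 fun g _ => ?_)
    obtain ⟨k, hk, d, rfl⟩ := hg g
    rw [orderOf_eq_one_iff.1 e.symm, zpowers_one_eq_bot, mem_bot] at hk
    rw [hk, one_mul]
    exact pow_mem (mem_zpowers t) d
  obtain ⟨φ, a, b, c, -⟩ := exists_dih rfl h3 ho h2 hu
  have h4 := Nat.coprime_two_right.1 ho
  refine ⟨_, h4, by obtain ⟨n, hn⟩ := h4; omega, ⟨(MulEquiv.ofBijective φ ⟨a, fun g => ?_⟩).symm⟩⟩
  obtain ⟨k, hk, d, rfl⟩ := hg g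
  exact mul_mem (zpowers_le.2 b hk) (pow_mem c d)

end Pool.Agent.PDC
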