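import Pool.Agent.Lib.PDC.Blue
import Pool.Agent.Lib.MP_f61c0f_gt.H4Indec

namespace Pool.Agent.PDC

namespace X59

open Monoid Monoid.CoprodI Monoid.CoprodI.NeWord H4Indec

variable {ι : Type} {G : ι → Type} [∀ i, Group (G i)]

theorem same_factor {i j : ι} {b : G i} {b' : G j} (hb : b ≠ 1) {x : CoprodI G}
    (h : x * of b = of b' * x) : i = j := by
  classical
  by_contra hij
  have := congrFun (congrArg (lift (MonoidHom.mulSingle G)) h) i
  simp [Pi.mulSingle_eq_of_ne hij, hb] at this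

theorem conj_mem {i : ι} {b b' : G i} (hb : b ≠ 1) {x : CoprodI G} (h : x * of b = of b' * x) :
    ∃ a : G i, x = of a := by
  have hb' : b' ≠ 1 := by
    rintro rfl
    exact prod_ne_one (singleton b hb) (by simpa using h)
  rcases exists_neWord x with rfl | ⟨j, k, w, rfl⟩
  · exact ⟨1, by simp⟩
  rcases dcoset i w with h1 | ⟨a, a', l, m, hl, hm, u, h1⟩
  · exact h1
  exfalso
  have e1 : a' * b * a'⁻¹ ≠ 1 := by simpa [mul_inv_eq_iff_eq_mul] using hb
  have e2 : a⁻¹ * b'⁻¹ * a ≠ 1 := by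
    intro e
    apply hb'
    have : b'⁻¹ = a * (a⁻¹ * b'⁻¹ * a) * a⁻¹ := by group
    rw [e] at this
    simpa using this
  refine prod_ne_one (append (append (append u hm (singleton _ e1)) hm.symm u.inv) hl
    (singleton _ e2)) ?_
  simp only [append_prod, prod_singleton, inv_prod, map_mul, map_inv]
  rw [h1] at h
  have : u.prod * (of a' * of b * (of a')⁻¹) = (of a)⁻¹ * of b' * of a * u.prod := by
    calc _ = (of a)⁻¹ * (of a * u.prod * of a' * of b) * (of a')⁻¹ := by group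
      _ = _ := by rw [h]; group
  rw [this]; group

theorem one_factor {P V Ed : Type} [Group P] (T : RT P V Ed) (hγ : ∀ e, T.γ e ≠ 1)
    (hN : ∀ v, Ncy (T.H v)) (f : P ≃* CoprodI G) : ∃ k, ∀ j, j ≠ k → ∀ b : G j, b = 1 := by
  have h1 : ∀ v, ∃ (c : CoprodI G) (k : ι), ∀ x ∈ T.H v, ∃ a : G k, f x = c * of a * c⁻¹ := by
    intro v
    obtain ⟨u, hu, hn⟩ := hN v
    have := T.finH v
    have h2 : f u ≠ 1 := by simpa using hu
    obtain ⟨c, k, a, h⟩ := torsion_conj (f u) h2 (orderOf u - 1) (by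
      rw [Nat.sub_add_cancel (orderOf_pos u), ← map_pow, ← Subgroup.coe_pow, pow_orderOf_eq_one]
      simp)
    refine ⟨c, k, fun x hx => ?_⟩
    obtain ⟨n, hn⟩ := Subgroup.mem_zpowers_iff.1 (hn ⟨x, hx⟩)
    have h3 : f u ^ n = f x * f u * (f x)⁻¹ := by
      simpa using congrArg (fun y : T.H v => f y) hn
    obtain ⟨b, hb⟩ := conj_mem (b := a) (b' := a ^ n) (x := c⁻¹ * f x * c)
      (by rintro rfl; simp [h] at h2) (by
        rw [h, conj_zpow] at h3
        calc _ = c⁻¹ * (f x * (c * of a * c⁻¹) * (f x)⁻¹) * f x * c := by group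
          _ = _ := by rw [← h3, map_zpow]; group)
    exact ⟨b, by rw [← hb]; group⟩
  obtain ⟨c, k, h0⟩ := h1 T.root
  have h2 : ∀ v, ∀ x ∈ T.H v, ∃ a : G k, f x = c * of a * c⁻¹ := by
    refine T.up h0 fun e ih x hx => ?_
    obtain ⟨c', k', h3⟩ := h1 (T.out e)
    obtain ⟨b, hb⟩ := ih _ (T.γ_inn e)
    obtain ⟨b', hb'⟩ := h3 _ (T.γ_out e)
    have h4 : b ≠ 1 := by
      rintro rfl
      exact hγ e (by simpa using hb)
    have h5 : c'⁻¹ * c * of b = of b' * (c'⁻¹ * c) := by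
      calc _ = c'⁻¹ * (c * of b * c⁻¹) * c := by group
        _ = _ := by rw [← hb, hb']; group
    obtain rfl := same_factor h4 h5
    obtain ⟨d, hd⟩ := conj_mem h4 h5
    obtain ⟨a, ha⟩ := h3 x hx
    exact ⟨d⁻¹ * a * d, by rw [ha, map_mul, map_mul, map_inv, ← hd]; group⟩
  have h3 := T.gen (((of : G k →* CoprodI G).range.map (MulAut.conj c).toMonoidHom).comap
    f.toMonoidHom) fun v x hx => by
      obtain ⟨a, ha⟩ := h2 v x hx
      exact ⟨of a, ⟨a, rfl⟩, ha.symm⟩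
  refine ⟨k, fun j hj b => by_contra fun hb => hj ?_⟩
  obtain ⟨_, ⟨a, rfl⟩, ha⟩ := h3.ge (Subgroup.mem_top (f.symm (c * of b * c⁻¹)))
  exact same_factor (b' := a) (x := 1) hb (by simpa using ha.symm)

end X59

theorem r_IND : St_IND := by
  intro P V Ed _ T h1 h2 A B _ _ ⟨e⟩
  obtain ⟨k, hk⟩ := X59.one_factor T h1 h2 (e.trans (H4Indec.famEquiv A B))
  cases k
  · exact Or.inl ⟨fun a b => (hk true (by simp) a).trans (hk true (by simp) b).symm⟩
  · exact Or.inr ⟨fun a b => (hk false (by simp) a).trans (hk false (by simp) b).symm⟩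

end Pool.Agent.PDC
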