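import Pool.Agent.Lib.PDC.Blue

/-! Block INF: a product of two elements on different sides of an edge has infinite order. -/

namespace Pool.Agent.PDC

open Pool.Agent.PD3 Monoid

namespace X81

variable {Q : Type} [Group Q]

/-- the inclusions of a subgroup in two copies of the group -/
def dbl (K : Subgroup Q) : ∀ i : Bool, K →* (fun _ : Bool => Q) i := fun _ => K.subtype

lemma exists_word (K : Subgroup Q) {A B : Q} (hA : A ∉ K) (hB : B ∉ K) (n : ℕ) :
    ∃ w : CoprodI.Word (fun _ : Bool => Q), w.fstIdx ≠ some true ∧ w.toList.length = 2 * n ∧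
      PushoutI.Reduced (dbl K) w ∧
      (PushoutI.ofCoprodI w.prod : PushoutI (dbl K)) =
        (PushoutI.of (φ := dbl K) false A * PushoutI.of (φ := dbl K) true B) ^ n := by
  have hA1 : A ≠ 1 := fun h => hA (h ▸ K.one_mem)
  have hB1 : B ≠ 1 := fun h => hB (h ▸ K.one_mem)
  induction n with
  | zero =>
    refine ⟨CoprodI.Word.empty, by simp [CoprodI.Word.fstIdx, CoprodI.Word.empty],
      by simp [CoprodI.Word.empty], fun g hg => ?_, by simp⟩
    simp [CoprodI.Word.empty] at hg
  | succ n ih =>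
    obtain ⟨w, h1, h2, h3, h4⟩ := ih
    have h5 : (CoprodI.Word.cons (i := true) B w h1 hB1).fstIdx ≠ some false := by
      simp [CoprodI.Word.fstIdx, CoprodI.Word.cons]
    refine ⟨CoprodI.Word.cons (i := false) A (CoprodI.Word.cons (i := true) B w h1 hB1) h5 hA1,
      by simp [CoprodI.Word.fstIdx, CoprodI.Word.cons], ?_, fun g hg => ?_, ?_⟩
    · simp only [CoprodI.Word.cons, List.length_cons, h2]; omega
    · simp only [CoprodI.Word.cons, List.mem_cons] at hg
      rcases hg with rfl | rfl | hg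
      · rintro ⟨y, hy⟩
        exact hA ((show (y : Q) = A from hy) ▸ y.2)
      · rintro ⟨y, hy⟩
        exact hB ((show (y : Q) = B from hy) ▸ y.2)
      · exact h3 g hg
    · rw [CoprodI.Word.prod_cons, CoprodI.Word.prod_cons, map_mul, map_mul, h4,
        PushoutI.ofCoprodI_of, PushoutI.ofCoprodI_of, pow_succ', mul_assoc]

lemma dbl_inf (K : Subgroup Q) {A B : Q} (hA : A ∉ K) (hB : B ∉ K) :
    ¬ IsOfFinOrder (PushoutI.of (φ := dbl K) false A * PushoutI.of (φ := dbl K) true B) := by
  intro h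
  obtain ⟨n, hn, h1⟩ := isOfFinOrder_iff_pow_eq_one.1 h
  obtain ⟨w, -, h2, h3, h4⟩ := exists_word K hA hB n
  have := h3.eq_empty_of_mem_range (φ := dbl K) (fun _ => K.subtype_injective)
    (by rw [h4, h1]; exact Subgroup.one_mem _)
  rw [this] at h2
  simp [CoprodI.Word.empty] at h2
  omega

end X81

theorem r_INF : St_INF := by
  intro P V Ed _ T e s hs a b ha hb hA hB hfin
  set K : Subgroup (Equiv.Perm T.Ω) := (Subgroup.zpowers (T.γ e)).map T.ρ with hK
  obtain ⟨Φ, hΦ⟩ := T.lift (PushoutI (X81.dbl K))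
    (fun v => (PushoutI.of (φ := X81.dbl K) (s v)).comp (T.ρ.comp (T.H v).subtype)) (by
      intro e'
      by_cases h : e' = e
      · subst h
        have hm : T.ρ (T.γ e') ∈ K := ⟨_, Subgroup.mem_zpowers _, rfl⟩
        exact (PushoutI.of_apply_eq_base (X81.dbl K) _ ⟨_, hm⟩).trans
          (PushoutI.of_apply_eq_base (X81.dbl K) _ ⟨_, hm⟩).symm
      · simp only [MonoidHom.comp_apply, Subgroup.coe_subtype]
        rw [hs e' h])
  have key : ∀ (i : Bool) (x : P), x ∈ ⨆ v : {v // s v = i}, T.H v →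
      Φ x = PushoutI.of (φ := X81.dbl K) i (T.ρ x) := by
    intro i x hx
    have : (⨆ v : {v // s v = i}, T.H v) ≤
        Φ.eqLocus ((PushoutI.of (φ := X81.dbl K) i).comp T.ρ) := by
      refine iSup_le fun v g hg => ?_
      obtain ⟨v, rfl⟩ := v
      exact hΦ v ⟨g, hg⟩
    exact this hx
  refine X81.dbl_inf K hA hB ?_
  rw [← key false a ha, ← key true b hb, ← map_mul]
  exact Φ.isOfFinOrder hfin

end Pool.Agent.PDC
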