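import Pool.Agent.Lib.PDC.X43

namespace Pool.Agent.PDC

open Subgroup X43

theorem r_INV : St_INV := by
  intro G _ _ hP a b ha hb
  have := Fact.mk Nat.prime_two
  obtain ⟨A, hA⟩ := exists_sylow Nat.prime_two ha
  obtain ⟨B, hB⟩ := exists_sylow Nat.prime_two hb
  obtain ⟨x, rfl⟩ := MulAction.exists_smul_eq G A B
  have h1 : x * a * x⁻¹ ∈ (x • A : Sylow 2 G) :=
    Subgroup.smul_mem_pointwise_smul a (MulAut.conj x) (A : Subgroup G) hA
  have h2 := (orderOf_conj x a).trans ha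
  rcases two_cases (hb ▸ pow_orderOf_eq_one b) (hP 2 b _ Nat.prime_two hb h2
    (central_of_P1 hP Nat.prime_two (x • A).2 hB hb _ h1).symm) with e | e
  · rw [e] at h2
    simp at h2
  · exact ⟨x, e⟩

end Pool.Agent.PDC
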