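import Pool.Agent.Lib.PDC.Blue

/-! The kernel of the second boundary map of a Swan presentation. -/

namespace Pool.Agent.PDC

open Pool.Agent.PD3 Module

namespace X28ker

variable {G : Type} [Group G] [Fintype G]

lemma coeff_nS (x : G) : (nS (Finset.univ : Finset G)).coeff x = 1 := by
  classical
  simp [nS, o_def, MonoidAlgebra.coeff_sum, Finsupp.single_apply]

lemma nS_mul_o (g : G) : nS Finset.univ * o g = nS Finset.univ := by
  ext x; rw [coeff_mul_o, coeff_nS, coeff_nS]

lemma nS_mul (b : L G) : nS Finset.univ * b = aug b • nS (Finset.univ : Finset G) := by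
  induction b using MonoidAlgebra.induction_linear with
  | zero => simp
  | add a b ha hb => rw [mul_add, ha, hb, map_add, add_smul]
  | single g n =>
    have e1 : MonoidAlgebra.single g n = n • o g := by simp [o_def]
    rw [aug_single, e1, mul_smul_comm, nS_mul_o]

/-- an element that is invariant modulo `m` -/
lemma split_mod (a : L G) (m : ℤ) (h : ∀ g, ∃ b : L G, a * (o g - 1) = m • b) :
    ∃ (k : ℤ) (a' : L G), a = k • nS Finset.univ + m • a' := by
  have h1 : ∀ x, ∃ c : ℤ, a.coeff x = a.coeff 1 + m * c := by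
    intro x
    obtain ⟨b, hb⟩ := h x⁻¹
    have := congrArg (fun u : L G => u.coeff 1) hb
    simp only [mul_sub, mul_one, MonoidAlgebra.coeff_sub, Finsupp.sub_apply, coeff_mul_o, inv_inv,
      one_mul, MonoidAlgebra.coeff_smul, Finsupp.smul_apply, smul_eq_mul] at this
    exact ⟨b.coeff 1, by linarith⟩
  choose c hc using h1
  refine ⟨a.coeff 1, MonoidAlgebra.ofCoeff (Finsupp.equivFunOnFinite.symm c), ?_⟩
  ext x
  simp only [MonoidAlgebra.coeff_add, Finsupp.add_apply, MonoidAlgebra.coeff_smul,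
    Finsupp.smul_apply, smul_eq_mul, coeff_nS, mul_one]
  simpa using hc x

lemma rk {R M N : Type} [CommRing R] [IsDomain R] [AddCommGroup M] [AddCommGroup N] [Module R M]
    [Module R N] [Module.Finite R M] (f : M →ₗ[R] N) :
    finrank R (LinearMap.range f) + finrank R (LinearMap.ker f) = finrank R M := by
  rw [← f.quotKerEquivRange.finrank_eq]
  exact Submodule.finrank_quotient_add_finrank _

end X28ker

open X28ker in
theorem r_KER : R_KER := by
  intro hE G _ _ x r z hS
  obtain ⟨hP, hz, haug, hgen⟩ := hS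
  have hb : ∀ a : L G, a • z = 0 ↔ ∃ k : ℤ, a = k • nS Finset.univ := by
    intro a
    constructor
    · intro h
      obtain ⟨k, a', h1⟩ := split_mod a 0 fun g => ⟨0, by
        obtain ⟨w, hw⟩ := hgen g
        have h2 : ∀ k, a * z k = 0 := fun k => congrFun h k
        simp only [hw, Finset.mul_sum, ← mul_assoc, h2, zero_mul, Finset.sum_const_zero, smul_zero]⟩
      exact ⟨k, by simpa using h1⟩
    · rintro ⟨k, rfl⟩
      funext i
      simp only [Pi.smul_apply, smul_eq_mul, smul_mul_assoc, nS_mul, haug, zero_smul, smul_zero,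
        Pi.zero_apply]
  refine ⟨fun y hy => ?_, hb⟩
  let d0 : L G →ₗ[ℤ] ℤ := (aug : L G →+* ℤ).toAddMonoidHom.toIntLinearMap
  let d1 : (Fin 2 → L G) →ₗ[ℤ] L G := AddMonoidHom.toIntLinearMap
    { toFun := fun y => ∑ i, y i * (o (x i) - 1)
      map_zero' := by simp
      map_add' := fun a b => by simp [add_mul, Finset.sum_add_distrib] }
  let d2 : (Fin 2 → L G) →ₗ[ℤ] (Fin 2 → L G) := AddMonoidHom.toIntLinearMap
    { toFun := fun y => ∑ k, y k • fox x (r k)
      map_zero' := by simp
      map_add' := fun a b => by simp only [Pi.add_apply, add_smul, Finset.sum_add_distrib] }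
  have hd3 : ∀ a : L G, a • z ∈ LinearMap.ker d2 := fun a => by
    change ∑ k, (a • z) k • fox x (r k) = 0
    simp only [Pi.smul_apply, smul_eq_mul, mul_smul, ← Finset.smul_sum, hz, smul_zero]
  let d3 : L G →ₗ[ℤ] LinearMap.ker d2 := AddMonoidHom.toIntLinearMap
    { toFun := fun a => ⟨a • z, hd3 a⟩
      map_zero' := by simp
      map_add' := fun a b => Subtype.ext (add_smul a b z) }
  have e0 : LinearMap.range d0 = ⊤ := LinearMap.range_eq_top.2 fun n => ⟨n, by simp [d0]⟩
  have e1 : LinearMap.range d1 = LinearMap.ker d0 := by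
    refine le_antisymm ?_ fun a ha => ?_
    · rintro _ ⟨y, rfl⟩
      change aug (∑ i, y i * (o (x i) - 1)) = 0
      simp
    · refine aug_ind (· ∈ LinearMap.range d1) (zero_mem _) (fun _ _ => add_mem) (fun g n => ?_) a ha
      obtain ⟨w, rfl⟩ := hP.2.1 g
      refine ⟨n • fox x w, ?_⟩
      rw [map_zsmul, ← zsmul_eq_mul']
      congr 1
      exact fox_fund x w
  have e2 : LinearMap.range d2 = LinearMap.ker d1 := by
    refine le_antisymm ?_ fun a ha => ?_
    · rintro _ ⟨y, rfl⟩
      change ∑ i, (∑ k, y k • fox x (r k)) i * (o (x i) - 1) = 0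
      simp only [Finset.sum_apply, Pi.smul_apply, smul_eq_mul, Finset.sum_mul, mul_assoc]
      rw [Finset.sum_comm]
      simp only [← Finset.mul_sum, fox_fund, hP.1, map_one, sub_self, mul_zero,
        Finset.sum_const_zero]
    · obtain ⟨u, hu⟩ := hE G (Fin 2) (Fin 2) x r hP a ha
      exact ⟨u, hu.symm⟩
  have e3 : finrank ℤ (LinearMap.ker d3) ≤ 1 := by
    refine finrank_le_one ⟨nS Finset.univ, Subtype.ext ((hb _).2 ⟨1, by simp⟩)⟩ fun a => ?_
    obtain ⟨k, hk⟩ := (hb a).1 (congrArg Subtype.val a.2)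
    exact ⟨k, Subtype.ext hk.symm⟩
  have r0 := rk d0
  have r1 := rk d1
  have r2 := rk d2
  have r3 := rk d3
  have r4 := Submodule.finrank_quotient_add_finrank (LinearMap.range d3)
  have r5 : finrank ℤ (Fin 2 → L G) = 2 * finrank ℤ (L G) := by
    rw [finrank_pi_fintype]; simp
  rw [e0, finrank_top, finrank_self] at r0
  rw [e1] at r1
  rw [e2] at r2
  have r6 : finrank ℤ (LinearMap.ker d2 ⧸ LinearMap.range d3) = 0 := by omega
  obtain ⟨m, hm, h1⟩ := finrank_eq_zero_iff.1 r6 (Submodule.Quotient.mk ⟨y, hy⟩)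
  rw [← Submodule.Quotient.mk_smul, Submodule.Quotient.mk_eq_zero] at h1
  obtain ⟨a, ha⟩ := h1
  have h2 : a • z = m • y := congrArg Subtype.val ha
  obtain ⟨k, a', h3⟩ := split_mod a m fun g => by
    obtain ⟨w, hw⟩ := hgen g
    have h4 : ∀ k, a * z k = m • y k := fun k => congrFun h2 k
    exact ⟨∑ k, y k * w k, by
      simp only [hw, Finset.mul_sum, ← mul_assoc, h4, Finset.smul_sum, smul_mul_assoc]⟩
  refine ⟨a', smul_right_injective _ hm ?_⟩
  change m • y = m • a' • z
  rw [← h2, h3, add_smul, (hb _).2 ⟨k, rfl⟩, zero_add, smul_assoc]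

end Pool.Agent.PDC
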