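import Pool.Agent.Lib.PDC.B_GA3

namespace Pool.Agent.PDC

open Subgroup X43 Pool.Agent.PD3 DihedralGroup

namespace X43

variable {G G' : Type} [Group G] [Group G']

theorem mem_zp_equiv (e : G ≃* G') {x c : G} : e x ∈ zpowers (e c) ↔ x ∈ zpowers c := by
  constructor
  · rintro ⟨k, hk⟩
    exact ⟨k, e.injective (by simpa using hk)⟩
  · rintro ⟨k, rfl⟩
    exact ⟨k, by simp⟩

theorem ncy_equiv (e : G ≃* G') (h : Ncy G') : Ncy G := by
  obtain ⟨u, h1, h2⟩ := h
  obtain ⟨u, rfl⟩ := e.surjective u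
  refine ⟨u, fun h => h1 (by simp [h]), fun x => (mem_zp_equiv e).1 ?_⟩
  simpa using h2 (e x)

theorem mal_equiv (e : G ≃* G') {c g : G} (h : Mal (e c) (e g)) : Mal c g := fun x hx =>
  (mem_zp_equiv e).1 (h _ (by simpa using (mem_zp_equiv e).2 hx))

theorem comm_equiv (e : G ≃* G') {g : G} (h : ∀ y, Commute y (e g)) (y : G) : Commute y g :=
  e.injective (by simpa using (h (e y)).eq)

theorem two_canc {m : ℕ} (hm : Odd m) {a : ZMod m} (h : a + a = 0) : a = 0 := by
  have : IsUnit ((2 : ℕ) : ZMod m) := (ZMod.isUnit_iff_coprime 2 m).2 (Nat.coprime_two_left.2 hm)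
  refine this.mul_right_eq_zero.1 ?_
  rw [← h]; push_cast; ring

theorem dih_mal {m : ℕ} (hm : Odd m) (i : ZMod m) : Mal (sr i) (sr i) := by
  have : NeZero m := ⟨by rintro rfl; simp at hm⟩
  intro y hy
  rcases two_cases (by simp [pow_two]) hy with h | h
  · rw [conj_eq_one_iff] at h
    cases h
  · rcases y with j | j
    · simp only [r_mul_sr, inv_r, sr_mul_r, sr.injEq] at h
      rw [two_canc hm (a := j) (by linear_combination -h)]
      exact one_mem _
    · simp only [sr_mul_sr, inv_sr, r_mul_sr, sr.injEq] at h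
      rw [sub_eq_zero.1 (two_canc hm (a := j - i) (by linear_combination h))]
      exact mem_zpowers _

theorem dih_two {m : ℕ} (hm : Odd m) {t : DihedralGroup m} (h : t * t = 1) (h1 : t ≠ 1) :
    ∃ i, t = sr i := by
  rcases t with j | j
  · rw [r_mul_r, one_def, r.injEq] at h
    exact absurd (by rw [two_canc hm h, one_def]) h1
  · exact ⟨j, rfl⟩

theorem sl_key : ∀ a < 24, ∀ b < 24, ∀ k < 6, elA a ^ 2 = 1 ∨ elA a ^ 3 ≠ mA1 ∨
    elA b * elA a ^ 2 ≠ elA a ^ k * elA b ∨ ∃ l < 6, elA b = elA a ^ l := by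
  have : ∀ a : Fin 24, ∀ b : Fin 24, ∀ k : Fin 6, elA a ^ 2 = 1 ∨ elA a ^ 3 ≠ mA1 ∨
      elA b * elA a ^ 2 ≠ elA a ^ k.1 * elA b ∨ ∃ l < 6, elA b = elA a ^ l := by decide +kernel
  exact fun a ha b hb k hk => this ⟨a, ha⟩ ⟨b, hb⟩ ⟨k, hk⟩

end X43

theorem r_LOC : St_LOC := by
  intro G _
  refine ⟨?_, ?_, ?_⟩
  · rintro ⟨e⟩
    have h0 : ∀ y : SL23, Commute y mA1 := fun y => by
      have : ∀ a < 24, elA a * mA1 = mA1 * elA a := by decide +kernel
      obtain ⟨a, b⟩ := idxA_ok y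
      rw [← b]
      exact this _ a
    refine ⟨ncy_equiv e ⟨mA1, by decide +kernel, fun x => ?_⟩, fun c hc => ?_⟩
    · rw [(h0 x).eq, mul_inv_cancel_right]; exact mem_zpowers _
    rw [← e.orderOf_eq] at hc
    have nd : ∀ n, ¬ 6 ∣ n → e c ^ n ≠ 1 := fun n hn h =>
      hn (by rwa [← hc, orderOf_dvd_iff_pow_eq_one])
    have h3 := sl_cube _ (nd 4 (by norm_num)) (nd 3 (by norm_num))
    refine ⟨mal_equiv e fun x hx => ?_, comm_equiv e fun y => by rw [map_pow, h3]; exact h0 y⟩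
    obtain ⟨k, hk⟩ := exists_nat hx
    rw [map_pow, mul_inv_eq_iff_eq_mul, ← pow_mod_orderOf (n := k), hc] at hk
    obtain ⟨a1, a2⟩ := idxA_ok (e c)
    obtain ⟨b1, b2⟩ := idxA_ok x
    have := sl_key _ a1 _ b1 _ (Nat.mod_lt k (by norm_num))
    rw [a2, b2] at this
    obtain ⟨l, -, hl⟩ :=
      ((this.resolve_left (nd 2 (by norm_num))).resolve_left (not_not.2 h3)).resolve_left
        (not_not.2 hk)
    exact hl ▸ pow_mem (mem_zpowers _) l
  · rintro ⟨m, h1, h2, ⟨e⟩⟩
    have hm : Odd m := Nat.coprime_two_right.1 (h2.coprime_dvd_right (by norm_num))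
    have : NeZero m := ⟨by omega⟩
    have h0 : ∀ (z : Multiplicative (ZMod 3)) (y : DihedralGroup m × Multiplicative (ZMod 3)),
        Commute y (1, z) := fun z y => Prod.ext (by simp) (by simp [mul_comm])
    refine ⟨ncy_equiv e ⟨(1, .ofAdd 1), by simp, fun x => ?_⟩, fun c hc => ?_⟩
    · rw [(h0 _ x).eq, mul_inv_cancel_right]; exact mem_zpowers _
    rw [← e.orderOf_eq] at hc
    have nd : ∀ n, ¬ 6 ∣ n → e c ^ n ≠ 1 := fun n hn h =>
      hn (by rwa [← hc, orderOf_dvd_iff_pow_eq_one])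
    have c6 : e c ^ 6 = 1 := hc ▸ pow_orderOf_eq_one _
    have z3 : ∀ z : Multiplicative (ZMod 3), z ^ 3 = 1 := by decide
    rcases hd : e c with ⟨d, z⟩
    rw [hd] at nd c6
    have d6 : d ^ 6 = 1 := congrArg Prod.fst c6
    have hd2 : d * d = 1 := by
      rcases d with j | j
      · have : (r j : DihedralGroup m) ^ m = 1 := by simp
        rw [eq_one_of_coprime h2 this d6, one_mul]
      · simp
    obtain ⟨i, rfl⟩ := dih_two hm hd2 fun h => nd 3 (by norm_num) (by simp [h, z3])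
    have e2 : ((sr i, z) : DihedralGroup m × Multiplicative (ZMod 3)) ^ 2 = (1, z ^ 2) := by
      simp [pow_two]
    have e3 : ((sr i, z) : DihedralGroup m × Multiplicative (ZMod 3)) ^ 3 = (sr i, 1) := by
      rw [pow_succ, e2, Prod.mk_mul_mk, one_mul, ← pow_succ, z3]
    refine ⟨mal_equiv e ?_, comm_equiv e fun y => by rw [map_pow, hd, e2]; exact h0 _ y⟩
    rw [map_pow, hd, e3]
    rintro ⟨y, w⟩ ⟨k, hk⟩
    have h5 : y ∈ zpowers (sr i) := dih_mal hm i y ⟨k, congrArg Prod.fst hk⟩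
    have h6 : ∀ z w : Multiplicative (ZMod 3), z ^ 2 ≠ 1 → ∃ l < 3, w = (z ^ 2) ^ l := by decide
    obtain ⟨l, -, rfl⟩ := h6 z w fun h => nd 2 (by norm_num) (by rw [e2, h]; rfl)
    have h7 : ((1, (z ^ 2) ^ l) : DihedralGroup m × Multiplicative (ZMod 3)) ∈
        zpowers (sr i, z) := by
      have := pow_mem (pow_mem (mem_zpowers
        ((sr i, z) : DihedralGroup m × Multiplicative (ZMod 3))) 2) l
      rwa [e2, Prod.pow_mk, one_pow] at this
    rcases two_cases (by simp [pow_two]) h5 with rfl | rfl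
    · exact h7
    · have := mul_mem (e3 ▸ pow_mem (mem_zpowers _) 3) h7
      simpa using this
  · rintro ⟨k, h1, h2, ⟨e⟩⟩
    refine ⟨ncy_equiv e ⟨r 1, fun h => ?_, fun x => ?_⟩, fun t ht => mal_equiv e ?_⟩
    · have := orderOf_r_one (n := k)
      rw [h, orderOf_one] at this
      omega
    · rcases x with j | j
      · have : (r j * r 1 * (r j)⁻¹ : DihedralGroup k) = r 1 := by simp
        rw [this]; exact mem_zpowers _
      · have : (sr j * r 1 * (sr j)⁻¹ : DihedralGroup k) = (r 1)⁻¹ := by simp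
        rw [this]; exact inv_mem (mem_zpowers _)
    · rw [← e.orderOf_eq] at ht
      obtain ⟨i, hi⟩ := dih_two h1 (t := e t) (by rw [← pow_two, ← ht, pow_orderOf_eq_one])
        fun h => by simp [h] at ht
      rw [hi]
      exact dih_mal h1 i

end Pool.Agent.PDC
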