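import Pool.Agent.Lib.PDC.Blue

namespace Pool.Agent.PDC

namespace X59

variable {P : Type} [Group P]

theorem mem_zp {H : Subgroup P} {x c : H} :
    x ∈ Subgroup.zpowers c ↔ (x : P) ∈ Subgroup.zpowers (c : P) := by
  simp only [Subgroup.mem_zpowers_iff, ← Subgroup.coe_zpow, Subtype.coe_inj]

theorem comm_coe {H : Subgroup P} {x y : H} : Commute x y ↔ Commute (x : P) (y : P) :=
  Subtype.ext_iff

theorem p1_sub (h : P1 P) (H : Subgroup P) : P1 H := fun p g k hp h1 h2 h3 =>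
  mem_zp.2 (h p g k hp (by simpa using h1) (by simpa using h2) (comm_coe.1 h3))

theorem p2_sub (h : P2 P) (H : Subgroup P) : P2 H := fun p r g s hp h1 h2 =>
  h p r g s hp (by simpa using h1) (by simpa using congrArg Subtype.val h2)

theorem zp_ne_top {H : Subgroup P} {c : P} (hc : c ∈ H) (h : H ≠ Subgroup.zpowers c) :
    Subgroup.zpowers (⟨c, hc⟩ : H) ≠ ⊤ := fun h' => h (le_antisymm
  (fun x hx => mem_zp.1 (h' ▸ Subgroup.mem_top (⟨x, hx⟩ : H))) (Subgroup.zpowers_le.2 hc))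

theorem fin_order (hF : FC P) {p : ℕ} {g x : P} (hp : p.Prime) (hg : orderOf g = p)
    (h : Commute (x ^ 2) g) : IsOfFinOrder x := by
  refine IsOfFinOrder.of_pow (n := 2) (by_contra fun hn => ?_) two_ne_zero
  exact Set.infinite_range_of_injective (injective_pow_iff_not_isOfFinOrder.2 hn)
    ((hF p g hp hg).subset (by rintro _ ⟨n, rfl⟩; exact h.pow_left n))

theorem comm_sq (h2 : P2 P) {p : ℕ} {g x : P} (hp : p.Prime) (hg : orderOf g = p)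
    (h : x * g * x⁻¹ ∈ Subgroup.zpowers g) : Commute (x ^ 2) g := by
  have hf : IsOfFinOrder g := orderOf_pos_iff.1 (hg ▸ hp.pos)
  obtain ⟨r, hr⟩ := (hf.mem_powers_iff_mem_zpowers).2 h
  have h3 := h2 p r g x hp hg hr.symm
  have h4 : x ^ 2 * g * (x ^ 2)⁻¹ = g := by
    calc x ^ 2 * g * (x ^ 2)⁻¹ = x * (x * g * x⁻¹) * x⁻¹ := by
          simp only [sq, mul_inv_rev, mul_assoc]
      _ = (x * g * x⁻¹) ^ r := by rw [conj_pow, ← hr]
      _ = g := by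
        rw [← hr, ← pow_mul, ← sq, ← pow_one g, ← pow_mul, one_mul, pow_eq_pow_iff_modEq, hg]
        exact h3
  exact mul_inv_eq_iff_eq_mul.1 h4

theorem conj_mul {g a b : P} (ha : a * g * a⁻¹ ∈ Subgroup.zpowers g)
    (hb : b * g * b⁻¹ ∈ Subgroup.zpowers g) : a * b * g * (a * b)⁻¹ ∈ Subgroup.zpowers g := by
  obtain ⟨k, hk⟩ := Subgroup.mem_zpowers_iff.1 hb
  have : a * b * g * (a * b)⁻¹ = (a * g * a⁻¹) ^ k := by
    rw [conj_zpow, hk]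
    group
  rw [this]
  exact Subgroup.zpow_mem _ ha k

variable {V Ed : Type} (T : RT P V Ed)

theorem not_mem_map {v : V} {a c : P} (ha : a ∈ T.H v) (hc : c ∈ T.H v)
    (h : a ∉ Subgroup.zpowers c) : T.ρ a ∉ (Subgroup.zpowers c).map T.ρ := by
  rintro ⟨z, hz, h1⟩
  exact h (T.rho_inj (Subgroup.zpowers_le.2 hc hz) ha h1 ▸ hz)

/-- the subgroup generated by the vertex groups of bounded height -/
def Kh (n : ℕ) : Subgroup P := ⨆ w : {w // T.ht w ≤ n}, T.H w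

theorem le_Kh {v : V} {n : ℕ} (h : T.ht v ≤ n) : T.H v ≤ Kh T n :=
  le_iSup (fun w : {w // T.ht w ≤ n} => T.H w) ⟨v, h⟩

theorem inf_edge (hI : St_INF) (e : Ed) {a b : P} (ha : a ∈ Kh T (T.ht (T.inn e)))
    (hb : b ∈ T.H (T.out e)) (h1 : T.ρ a ∉ (Subgroup.zpowers (T.γ e)).map T.ρ)
    (h2 : b ∉ Subgroup.zpowers (T.γ e)) : ¬ IsOfFinOrder (a * b) := by
  obtain ⟨s, s1, s2, s3⟩ := T.side e
  refine hI P V Ed T e s s3 a b ((iSup_le fun w => ?_ : Kh T _ ≤ _) ha)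
    (le_iSup (fun v : {v // s v = true} => T.H v) ⟨_, s1⟩ hb) h1
    (not_mem_map T hb (T.γ_out e) h2)
  refine le_iSup (fun v : {v // s v = false} => T.H v) ⟨w, Bool.eq_false_iff.2 fun h => ?_⟩
  have := s2 _ h
  have := w.2
  have := T.ht_out e
  omega

end X59

open X59 in
theorem r_NEC : R_NEC := by
  intro hI hV hD hB1 hB2 hA1 hA2 hA3 P V Ed _ _ T j ⟨hj, h6, h2, hr⟩ hF p1 p2
  have := T.finH
  have ht : orderOf (T.γ j ^ 3) = 2 := by rw [orderOf_pow_of_dvd (by norm_num) (h6 ▸ by norm_num), h6]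
  have hs : orderOf (T.γ j ^ 2) = 3 := by rw [orderOf_pow_of_dvd (by norm_num) (h6 ▸ by norm_num), h6]
  have e1 : (∀ x ∈ T.H (T.inn j), Commute x (T.γ j ^ 3) → x ∈ Subgroup.zpowers (T.γ j)) ∨
      ∀ x ∈ T.H (T.out j), Commute x (T.γ j ^ 3) → x ∈ Subgroup.zpowers (T.γ j) := by
    by_contra! h
    obtain ⟨⟨a, a1, a2, a3⟩, b, b1, b2, b3⟩ := h
    exact inf_edge T hI j (le_Kh T le_rfl a1) b1 (not_mem_map T a1 (T.γ_inn j) a3) b3
      (fin_order hF Nat.prime_two ht ((a2.mul_left b2).pow_left 2))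
  have e2 : (∀ x ∈ T.H (T.inn j), x * T.γ j ^ 2 * x⁻¹ ∈ Subgroup.zpowers (T.γ j ^ 2) →
      x ∈ Subgroup.zpowers (T.γ j)) ∨ ∀ x ∈ T.H (T.out j),
      x * T.γ j ^ 2 * x⁻¹ ∈ Subgroup.zpowers (T.γ j ^ 2) → x ∈ Subgroup.zpowers (T.γ j) := by
    by_contra! h
    obtain ⟨⟨a, a1, a2, a3⟩, b, b1, b2, b3⟩ := h
    exact inf_edge T hI j (le_Kh T le_rfl a1) b1 (not_mem_map T a1 (T.γ_inn j) a3) b3
      (fin_order hF Nat.prime_three hs (comm_sq p2 Nat.prime_three hs (conj_mul a2 b2)))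
  have fB : ∀ v (hv : T.γ j ∈ T.H v), T.H v ≠ Subgroup.zpowers (T.γ j) →
      (∀ x ∈ T.H v, Commute x (T.γ j ^ 3) → x ∈ Subgroup.zpowers (T.γ j)) → IsB (T.H v) ∧
      ¬ ∀ x ∈ T.H v, x * T.γ j ^ 2 * x⁻¹ ∈ Subgroup.zpowers (T.γ j ^ 2) →
        x ∈ Subgroup.zpowers (T.γ j) := by
    intro v hv h1 h3
    have h4 : orderOf (⟨T.γ j, hv⟩ : T.H v) = 6 := by simpa using h6
    obtain ⟨h5, h7⟩ := hB2 _ _ h4 (hB1 _ (p1_sub p1 _) (p2_sub p2 _) _ h4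
      (fun x hx => mem_zp.2 (h3 x x.2 (comm_coe.1 hx))) (zp_ne_top hv h1))
    refine ⟨h5, fun h => h1 (le_antisymm (fun x hx => h x hx ?_) (Subgroup.zpowers_le.2 hv))⟩
    have h8 : Commute x (T.γ j ^ 2) := comm_coe.1 (h7 ⟨x, hx⟩)
    rw [h8.mul_inv_cancel]
    exact Subgroup.mem_zpowers _
  have fA : ∀ v (hv : T.γ j ∈ T.H v), T.H v ≠ Subgroup.zpowers (T.γ j) →
      (∀ x ∈ T.H v, x * T.γ j ^ 2 * x⁻¹ ∈ Subgroup.zpowers (T.γ j ^ 2) →
        x ∈ Subgroup.zpowers (T.γ j)) → IsA (T.H v) := by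
    intro v hv h1 h3
    have h4 : orderOf (⟨T.γ j, hv⟩ : T.H v) = 6 := by simpa using h6
    obtain ⟨K, k1, k2, k3⟩ := hA1 _ (p1_sub p1 _) (p2_sub p2 _) _ h4
      fun x hx => mem_zp.2 (h3 x x.2 (mem_zp.1 hx))
    refine hA3 _ _ h4 (hA2 _ (p1_sub p1 _) _ h4 (fun x hx => mem_zp.2 (h3 x x.2 ?_))
      (zp_ne_top hv h1) K k1 k2 k3)
    have h8 : Commute (x : P) (T.γ j ^ 2) := comm_coe.1 hx
    rw [h8.mul_inv_cancel]
    exact Subgroup.mem_zpowers _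
  have cj : ∀ v, ∀ u ∈ T.H v, ∀ u' ∈ T.H v, orderOf u = 2 → orderOf u' = 2 →
      ∃ x ∈ T.H v, x * u * x⁻¹ = u' := fun v u hu u' hu' h3 h4 => by
    obtain ⟨x, hx⟩ := hV _ (p1_sub p1 (T.H v)) ⟨u, hu⟩ ⟨u', hu'⟩ (by simpa using h3)
      (by simpa using h4)
    exact ⟨x, x.2, congrArg Subtype.val hx⟩
  have hroot : T.γ j ∈ T.H T.root := hj ▸ T.γ_inn j
  have up : ∀ v, ∀ u ∈ T.H v, orderOf u = 2 →
      ∃ y ∈ Kh T (T.ht v), y * T.γ j ^ 3 * y⁻¹ = u := by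
    refine T.up (fun u hu h3 => ?_) fun e ih u hu h3 => ?_
    · obtain ⟨x, hx, h4⟩ := cj _ _ (pow_mem hroot 3) u hu ht h3
      exact ⟨x, le_Kh T le_rfl hx, h4⟩
    · obtain ⟨k, hk⟩ : ∃ k : ℕ, orderOf (T.γ e ^ k) = 2 := by
        by_cases h : e = j
        · exact ⟨3, h ▸ ht⟩
        · exact ⟨1, by rw [pow_one, h2 e h]⟩
      obtain ⟨y, hy, h4⟩ := ih _ (pow_mem (T.γ_inn e) k) hk
      obtain ⟨x, hx, h5⟩ := cj _ _ (pow_mem (T.γ_out e) k) u hu hk h3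
      refine ⟨x * y, mul_mem (le_Kh T le_rfl hx) ((iSup_le fun w => le_Kh T
        (w.2.trans (by rw [T.ht_out]; omega)) : Kh T _ ≤ _) hy), ?_⟩
      rw [← h5, ← h4]
      group
  refine ⟨?_, fun v h3 h4 => ?_⟩
  · rw [← hj]
    rcases e1 with e1 | e1
    · obtain ⟨h3, h4⟩ := fB _ (T.γ_inn j) (hr j).2 e1
      exact .inr ⟨h3, fA _ (T.γ_out j) (hr j).1 (e2.resolve_left h4)⟩
    · obtain ⟨h3, h4⟩ := fB _ (T.γ_out j) (hr j).1 e1
      exact .inl ⟨fA _ (T.γ_inn j) (hr j).2 (e2.resolve_right h4), h3⟩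
  · obtain ⟨e, rfl⟩ := T.out_surj v h3
    have he : e ≠ j := fun h => h4 (h ▸ rfl)
    refine hD _ (p1_sub p1 _) ⟨T.γ e, T.γ_out e⟩ (by simpa using h2 e he)
      (fun b hb => mem_zp.2 (by_contra fun hn => ?_)) (zp_ne_top _ (hr e).1)
    obtain ⟨y, hy, h5⟩ := up _ _ (T.γ_inn e) (h2 e he)
    have h7 : Commute (y * T.γ j * y⁻¹) (T.γ e) := by
      rw [← h5, ← conj_pow]
      exact Commute.self_pow _ _
    refine inf_edge T hI e (a := y * T.γ j * y⁻¹) (mul_mem (mul_mem hy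
      (le_Kh T (by rw [T.ht_root]; omega) hroot)) (inv_mem hy)) b.2 ?_ hn
      (fin_order hF Nat.prime_two (h2 e he) ((h7.mul_left (comm_coe.1 hb)).pow_left 2))
    rintro ⟨z, ⟨k, rfl⟩, hz⟩
    have h8 : T.ρ (T.γ j ^ 2) = T.ρ 1 := by
      have h9 : (T.γ e ^ k) ^ 2 = 1 := by
        rw [← zpow_natCast, ← zpow_mul, mul_comm, zpow_mul, zpow_natCast, ← h2 e he,
          pow_orderOf_eq_one, one_zpow]
      have h10 := congrArg (· ^ 2) hz
      simp only [← map_pow, h9, conj_pow] at h10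
      simpa [map_mul] using h10.symm
    have := T.rho_inj (pow_mem hroot 2) (one_mem _) h8
    rw [this, orderOf_one] at hs
    omega

end Pool.Agent.PDC
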