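import Pool.Agent.Lib.PDC.Blue
import Pool.Agent.Lib.MP_f61c0f_gt.H4Period

/-! A Swan presentation gives a periodic resolution of period four. -/

namespace Pool.Agent.PDC

open Pool.Agent.PD3

namespace X28p4

lemma step {R A B C : Type} [Ring R] [AddCommGroup A] [AddCommGroup B] [AddCommGroup C]
    [Module R A] [Module R B] [Module R C] [Module.Projective R B] (f : A →ₗ[R] B) (g : B →ₗ[R] C)
    (t : C →ₗ[R] B) (he : ∀ b, g b = 0 → ∃ a, f a = b) (ht : ∀ b, g (t (g b)) = g b) :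
    ∃ s : B →ₗ[R] A, ∀ b, f (s b) + t (g b) = b := by
  obtain ⟨s, hs⟩ := Module.projective_lifting_property f.rangeRestrict
    ((LinearMap.id - t ∘ₗ g).codRestrict (LinearMap.range f) fun b => he _ (by simp [ht]))
    f.surjective_rangeRestrict
  refine ⟨s, fun b => ?_⟩
  have h : f (s b) = b - t (g b) := congrArg Subtype.val (LinearMap.congr_fun hs b)
  rw [h, sub_add_cancel]

variable {G : Type} [Group G] {ι κ ν : Type}

/-- the map given by a matrix over the group ring -/
noncomputable def dm [Fintype ι] (m : ι → κ → L G) : (ι → L G) →ₗ[ℤ] (κ → L G) :=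
  AddMonoidHom.toIntLinearMap
    { toFun := fun y => ∑ i, y i • m i
      map_zero' := by simp
      map_add' := fun a b => by simp only [Pi.add_apply, add_smul, Finset.sum_add_distrib] }

lemma dm_apply [Fintype ι] (m : ι → κ → L G) (y : ι → L G) : dm m y = ∑ i, y i • m i := rfl

/-- basis vectors -/
noncomputable def bv [DecidableEq ι] (x : ι × G) : ι → L G := Pi.single x.1 (o x.2)

/-- coordinates -/
noncomputable def cf (v : ι → L G) (y : ι × G) : ℤ := (v y.1).coeff y.2

lemma cf_add (u v : ι → L G) (y : ι × G) : cf (u + v) y = cf u y + cf v y := by simp [cf]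

lemma cf_bv [DecidableEq ι] [DecidableEq G] (x y : ι × G) :
    cf (bv x) y = if x = y then 1 else 0 := by
  obtain ⟨i, a⟩ := x
  obtain ⟨j, b⟩ := y
  by_cases h : j = i
  · subst h
    simp [cf, bv, o_def, Finsupp.single_apply]
  · simp [cf, bv, h, Ne.symm h]

lemma inv_eq [Fintype ι] [DecidableEq ι] (m : ι → κ → L G) (x : ι × G) (y : κ × G) :
    H4Period.inv (fun i j g => (m i j).coeff g) x y = cf (dm m (bv x)) y := by
  rw [dm_apply, Finset.sum_eq_single x.1 (fun i _ hi => by simp [bv, hi]) (by simp)]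
  simp [H4Period.inv, cf, bv, coeff_o_mul]

lemma expand [Fintype G] [Fintype ι] [DecidableEq ι] (v : ι → L G) : v = ∑ y, cf v y • bv y := by
  classical
  funext j
  ext b
  change cf v (j, b) = cf _ (j, b)
  have h : ∀ s : Finset (ι × G), cf (∑ y ∈ s, cf v y • bv y) (j, b) =
      ∑ y ∈ s, cf v y * cf (bv y) (j, b) := fun s => by
    simp only [cf, Finset.sum_apply, Pi.smul_apply, MonoidAlgebra.coeff_sum, Finsupp.finsetSum_apply,
      MonoidAlgebra.coeff_smul, Finsupp.smul_apply, smul_eq_mul]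
  rw [h]
  simp [cf_bv]

lemma sum_cf [Fintype G] [Fintype ι] [DecidableEq ι] (v : ι → L G) (T : (ι → L G) →ₗ[ℤ] (κ → L G))
    (z : κ × G) : ∑ y, cf v y * cf (T (bv y)) z = cf (T v) z := by
  conv_rhs => rw [expand v, map_sum]
  simp only [cf, map_smul, Finset.sum_apply, Pi.smul_apply, MonoidAlgebra.coeff_sum,
    Finsupp.finsetSum_apply, MonoidAlgebra.coeff_smul, Finsupp.smul_apply, smul_eq_mul]

lemma coeff_univ [Fintype G] (x : G) : (nS (Finset.univ : Finset G)).coeff x = 1 := by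
  classical
  simp [nS, o_def, MonoidAlgebra.coeff_sum, Finsupp.single_apply]

lemma sum_cf_aug [Fintype G] (v : Unit → L G) : ∑ y, cf v y * 1 = aug (v ()) := by
  conv_rhs => rw [expand v]
  simp [bv]

end X28p4

open X28p4 in
theorem r_P4 : R_P4 := by
  intro hE hK G _ _ ⟨x, r, z, hS⟩ M n
  classical
  obtain ⟨ka, kb⟩ := hK G x r z hS
  let d0 : (Unit → L G) →ₗ[ℤ] ℤ := AddMonoidHom.toIntLinearMap
    { toFun := fun y => aug (y ())
      map_zero' := by simp
      map_add' := fun a b => by simp }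
  let t0 : ℤ →ₗ[ℤ] (Unit → L G) := LinearMap.toSpanSingleton ℤ _ fun _ => 1
  let d1 := dm fun (i : Fin 2) (_ : Unit) => o (x i) - 1
  let d2 := dm fun k : Fin 2 => fox x (r k)
  let d3 := dm fun _ : Unit => z
  let d4 : ℤ →ₗ[ℤ] (Unit → L G) := LinearMap.toSpanSingleton ℤ _ fun _ => nS Finset.univ
  have a1 : ∀ y, d1 y () = ∑ i, y i * (o (x i) - 1) := fun y => by
    simp only [d1, dm_apply, Finset.sum_apply, Pi.smul_apply, smul_eq_mul]
  have a3 : ∀ y, d3 y = y () • z := fun y => by simp [d3, dm_apply]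
  have z0 : ∀ y, d0 (d1 y) = 0 := fun y => by
    change aug (d1 y ()) = 0
    simp [a1]
  have z1 : ∀ y, d1 (d2 y) = 0 := fun y => funext fun u => by
    rw [a1]
    simp only [d2, dm_apply, Finset.sum_apply, Pi.smul_apply, smul_eq_mul, Finset.sum_mul, mul_assoc]
    rw [Finset.sum_comm]
    simp only [← Finset.mul_sum, fox_fund, hS.1.1, map_one, sub_self, mul_zero,
      Finset.sum_const_zero, Pi.zero_apply]
  have z2 : ∀ y, d2 (d3 y) = 0 := fun y => by
    simp only [a3, d2, dm_apply, Pi.smul_apply, smul_eq_mul, mul_smul, ← Finset.smul_sum, hS.2.1,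
      smul_zero]
  obtain ⟨s0, h0⟩ := step d1 d0 t0 (fun b hb => by
    obtain ⟨y, hy⟩ := aug_ind (fun a => ∃ y, d1 y () = a) ⟨0, by simp⟩
      (by rintro _ _ ⟨a, rfl⟩ ⟨b, rfl⟩; exact ⟨a + b, by simp⟩) (fun g n => by
        obtain ⟨w, rfl⟩ := hS.1.2.1 g
        refine ⟨n • fox x w, ?_⟩
        rw [map_zsmul, Pi.smul_apply, a1, fox_fund, zsmul_eq_mul']) (b ()) hb
    exact ⟨y, funext fun _ => hy⟩) fun b => by simp [d0, t0]
  obtain ⟨s1, h1⟩ := step d2 d1 s0 (fun b hb => by
    obtain ⟨u, hu⟩ := hE G (Fin 2) (Fin 2) x r hS.1 b (by rw [← a1, hb]; rfl)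
    exact ⟨u, hu.symm⟩) fun b => by simpa [z0] using h0 (d1 b)
  obtain ⟨s2, h2⟩ := step d3 d2 s1 (fun b hb => by
    obtain ⟨u, hu⟩ := ka b hb
    exact ⟨fun _ => u, by rw [a3, hu]⟩) fun b => by simpa [z1] using h1 (d2 b)
  obtain ⟨s3, h3⟩ := step d4 d3 s2 (fun b hb => by
    obtain ⟨k, hk⟩ := (kb (b ())).1 (by rw [← a3, hb])
    exact ⟨k, funext fun _ => hk.symm⟩) fun b => by simpa [z2] using h2 (d3 b)
  refine H4Period.period_of_mats (fun (i : Fin 2) (_ : Unit) g => (o (x i) - 1).coeff g)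
    (fun k i g => (fox x (r k) i).coeff g) (fun (_ : Unit) k g => (z k).coeff g)
    (fun _ y => cf (t0 1) y) (fun y y' => cf (s0 (bv y)) y') (fun y y' => cf (s1 (bv y)) y')
    (fun y y' => cf (s2 (bv y)) y') (fun y _ => s3 (bv y)) (fun y => ?_) (fun y y' => ?_)
    (fun y y' => ?_) (fun y' => ?_) (fun y y' => ?_) (fun y y' => ?_) (fun y y' => ?_)
    (fun y y' => ?_) M n
  · simp only [inv_eq fun (i : Fin 2) (_ : Unit) => o (x i) - 1, sum_cf_aug]
    exact z0 _
  · simp only [inv_eq fun (i : Fin 2) (_ : Unit) => o (x i) - 1, inv_eq fun k => fox x (r k), sum_cf]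
    rw [show dm _ (dm _ (bv y)) = 0 from z1 _]; rfl
  · simp only [inv_eq fun _ : Unit => z, inv_eq fun k => fox x (r k), sum_cf]
    rw [show dm _ (dm _ (bv y)) = 0 from z2 _]; rfl
  · have e : ∀ y : Unit × G, (1 : ℤ) = cf (fun _ => nS Finset.univ) y := fun y => (coeff_univ _).symm
    have e2 : ∑ y : Unit × G, cf (fun _ => nS Finset.univ) y * cf (d3 (bv y)) y' = 0 := by
      rw [sum_cf, a3, (kb _).2 ⟨1, by simp⟩]; rfl
    simp only [inv_eq fun _ : Unit => z]
    simpa only [← e] using e2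
  · simp only [inv_eq fun (i : Fin 2) (_ : Unit) => o (x i) - 1, sum_cf]
    rw [← cf_bv, ← congrArg (cf · y') (h0 (bv y))]
    have e : d0 (bv y) = 1 := by simp [d0, bv]
    simp only [cf_add, e, Finset.univ_unique, Finset.sum_singleton, one_mul, d1]
  · simp only [inv_eq fun (i : Fin 2) (_ : Unit) => o (x i) - 1, inv_eq fun k => fox x (r k), sum_cf]
    rw [← cf_bv, ← cf_add]
    exact congrArg (cf · y') (h1 _)
  · simp only [inv_eq fun _ : Unit => z, inv_eq fun k => fox x (r k), sum_cf]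
    rw [← cf_bv, ← cf_add]
    exact congrArg (cf · y') (h2 _)
  · simp only [inv_eq fun _ : Unit => z, sum_cf]
    rw [← cf_bv, ← congrArg (cf · y') (h3 (bv y))]
    simp only [cf_add, Finset.univ_unique, Finset.sum_singleton, d3]
    simp only [cf, d4, LinearMap.toSpanSingleton_apply, Pi.smul_apply, MonoidAlgebra.coeff_smul,
      Finsupp.smul_apply, coeff_univ, smul_eq_mul]

end Pool.Agent.PDC
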