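import Pool.Agent.Lib.PDC.Blue

/-! Block PDX: what Poincare duality gives for cochains. -/

namespace Pool.Agent.PDC

open Pool.Agent.PD3 Matrix

namespace X82

lemma sum_bar_single {P : Type} [Group P] {n : ℕ} (y : Fin n → L P) (a : Fin n) (r : L P) :
    ∑ e, y e * bar ((Pi.single a r : Fin n → L P) e) = y a * bar r := by
  rw [Finset.sum_eq_single a]
  · simp
  · intro b _ hb
    simp [hb]
  · simp

lemma vecMul_adj_bd2 (X : DeltaCx) (y : Fin X.n1 → L X.pi1) (t : Fin X.n2) :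
    (y ᵥ* adj X.bd2) t =
      y (X.d2 t 0) * o (X.gen (X.d2 t 2))⁻¹ - y (X.d2 t 1) + y (X.d2 t 2) := by
  have h := X.single_vecMul_bd2 t 1
  rw [Matrix.single_one_vecMul, one_mul] at h
  have h' : ∀ e, X.bd2 t e = (Pi.single (X.d2 t 0) (X.el (X.d2 t 2) 1) - Pi.single (X.d2 t 1) 1 +
      Pi.single (X.d2 t 2) 1 : Fin X.n1 → X.Lam) e := fun e => congrFun h e
  simp only [Matrix.vecMul, dotProduct, adj_apply, h', Pi.add_apply, Pi.sub_apply, map_add, map_sub,
    mul_add, mul_sub, Finset.sum_add_distrib, Finset.sum_sub_distrib, sum_bar_single, bar_one,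
    mul_one]
  rw [← bar_o]; rfl

/-- values on the generators -/
noncomputable def jmap (X : DeltaCx) : Der X.pi1 →ₗ[L X.pi1] (Fin X.n1 → L X.pi1) where
  toFun D := fun e => (D : X.pi1 → L X.pi1) (X.gen e)
  map_add' _ _ := rfl
  map_smul' _ _ := rfl

lemma jmap_inj (X : DeltaCx) : Function.Injective (jmap X) := by
  rw [injective_iff_map_eq_zero]
  rintro ⟨D, hD⟩ h
  have h1 : D 1 = 0 := by
    have := hD 1 1
    simpa using this
  let H : Subgroup X.pi1 :=
    { carrier := {g | D g = 0}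
      one_mem' := h1
      mul_mem' := fun {a b} ha hb => by
        change D _ = 0
        rw [hD a b, ha, hb, zero_mul, add_zero]
      inv_mem' := fun {a} ha => by
        have := hD a⁻¹ a
        rw [inv_mul_cancel, h1, ha, zero_mul, add_zero] at this
        exact this.symm }
  exact Subtype.ext (funext fun g => X.pi1_induction H (fun e => congrFun h e) g)

lemma jmap_exact (X : DeltaCx) :
    Function.Exact (jmap X) (Matrix.vecMulLinear (adj X.bd2)) := by
  intro y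
  constructor
  · intro hy
    let τ : Fin X.n1 → Equiv.Perm (L X.pi1) := fun e =>
      { toFun := fun q => y e + q * o (X.gen e)⁻¹
        invFun := fun q => (q - y e) * o (X.gen e)
        left_inv := fun q => by simp [mul_assoc, o_inv_mul]
        right_inv := fun q => by simp [mul_assoc, o_mul_inv] }
    have hτ : ∀ t, τ (X.d2 t 2) * τ (X.d2 t 0) = τ (X.d2 t 1) := by
      intro t
      refine Equiv.ext fun q => ?_
      have h1 : (y ᵥ* adj X.bd2) t = 0 := congrFun hy t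
      rw [vecMul_adj_bd2] at h1
      change y _ + (y _ + q * o _) * o _ = y _ + q * o _
      rw [add_mul, mul_assoc, ← map_mul, ← _root_.mul_inv_rev, X.gen_rel, ← add_assoc]
      congr 1
      rw [← sub_eq_zero, ← h1]; abel
    let ρ := X.lift τ hτ
    let H : Subgroup X.pi1 :=
      { carrier := {g | ∀ q, ρ g q = ρ g 0 + q * o g⁻¹}
        one_mem' := by simp
        mul_mem' := by
          intro g h hg hh q
          simp only [map_mul ρ, Equiv.Perm.mul_apply]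
          rw [hg, hh q, hg (ρ h 0), add_mul, mul_assoc, ← map_mul, ← _root_.mul_inv_rev, add_assoc]
        inv_mem' := by
          intro g hg q
          apply (ρ g).injective
          have e1 : ∀ q, ρ g (ρ g⁻¹ q) = q := fun q => by
            rw [← Equiv.Perm.mul_apply, ← map_mul]; simp
          rw [e1, hg, add_mul, inv_inv, mul_assoc, o_mul_inv, mul_one, ← add_assoc, ← hg, e1,
            zero_add] }
    have hH : ∀ g, ∀ q, ρ g q = ρ g 0 + q * o g⁻¹ := fun g => X.pi1_induction H (fun e q => by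
      simp [ρ, τ]) g
    refine ⟨⟨fun g => ρ g 0, fun a b => ?_⟩, funext fun e => ?_⟩
    · change ρ (a * b) 0 = ρ a 0 + ρ b 0 * o a⁻¹
      rw [map_mul, Equiv.Perm.mul_apply, hH a]
    · change ρ (X.gen e) 0 = y e
      simp [ρ, τ]
  · rintro ⟨⟨D, hD⟩, rfl⟩
    funext t
    change (_ ᵥ* adj X.bd2) t = 0
    rw [vecMul_adj_bd2]
    change D _ * _ - D _ + D _ = 0
    rw [← X.gen_rel t, hD]; abel

end X82

theorem r_PDX : St_PDX := by
  rintro X ⟨c, -, ⟨m1, -, -⟩, G0, G1, G2, G3, ⟨g1, g2, -⟩, ⟨H0, H1, H2, h0, h1, -, -⟩,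
    ⟨K0, K1, K2, k0, -, -, -⟩⟩
  have hb : ∀ x : Fin X.n1 → X.Lam, aug ((x ᵥ* X.bd1) ()) = 0 := fun x =>
    (X.aug_eq_zero_iff _).2 ⟨x, rfl⟩
  let ε : (Fin X.n3 → L X.pi1) →+ ℤ :=
    { toFun := fun y => aug ((y ᵥ* X.cap3 c) ())
      map_zero' := by simp
      map_add' := fun a b => by rw [Matrix.add_vecMul, Pi.add_apply, map_add] }
  refine ⟨X.n1, X.n2, X.n3, X82.jmap X, Matrix.vecMulLinear (adj X.bd2),
    Matrix.vecMulLinear (-adj X.bd3), ε, X82.jmap_inj X, X82.jmap_exact X, fun y => ⟨?_, ?_⟩,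
    fun y => ⟨?_, ?_⟩, fun n => ?_, fun g y => ?_⟩
  · intro hy
    change y ᵥ* (-adj X.bd3) = 0 at hy
    obtain ⟨u, hu⟩ := X.exact_one (y ᵥ* X.cap2 c) (by
      rw [Matrix.vecMul_vecMul, ← m1, ← Matrix.vecMul_vecMul, hy, Matrix.zero_vecMul])
    refine ⟨u ᵥ* G2 - y ᵥ* H1, ?_⟩
    change (u ᵥ* G2 - y ᵥ* H1) ᵥ* adj X.bd2 = y
    have e := congrArg (y ᵥ* ·) h1
    simp only [Matrix.vecMul_sub, Matrix.vecMul_add, Matrix.vecMul_one, ← Matrix.vecMul_vecMul,
      hy, Matrix.zero_vecMul, zero_add, ← hu] at e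
    rw [Matrix.sub_vecMul, ← e, Matrix.vecMul_vecMul, Matrix.vecMul_vecMul, g2]; abel
  · rintro ⟨u, rfl⟩
    change (u ᵥ* adj X.bd2) ᵥ* (-adj X.bd3) = 0
    rw [Matrix.vecMul_vecMul, Matrix.mul_neg, ← adj_mul, X.bd3_mul_bd2]; simp
  · intro hy
    obtain ⟨x, hx⟩ := (X.aug_eq_zero_iff _).1 hy
    have hx' : x ᵥ* X.bd1 = y ᵥ* X.cap3 c := funext fun _ => hx
    refine ⟨x ᵥ* G1 - y ᵥ* H0, ?_⟩
    change (x ᵥ* G1 - y ᵥ* H0) ᵥ* (-adj X.bd3) = y
    have e := congrArg (y ᵥ* ·) h0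
    simp only [Matrix.vecMul_sub, Matrix.vecMul_one, ← Matrix.vecMul_vecMul, ← hx'] at e
    rw [Matrix.sub_vecMul, ← e, Matrix.vecMul_vecMul, Matrix.vecMul_vecMul, g1]; abel
  · rintro ⟨w, rfl⟩
    change aug (((w ᵥ* (-adj X.bd3)) ᵥ* X.cap3 c) ()) = 0
    rw [Matrix.vecMul_vecMul, m1, ← Matrix.vecMul_vecMul, hb]
  · refine ⟨(fun _ => (n : X.Lam)) ᵥ* G0, ?_⟩
    change aug ((((fun _ => (n : X.Lam)) ᵥ* G0) ᵥ* X.cap3 c) ()) = n
    rw [Matrix.vecMul_vecMul, eq_add_of_sub_eq k0, Matrix.vecMul_add, Matrix.vecMul_one,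
      ← Matrix.vecMul_vecMul, Pi.add_apply, map_add, hb, zero_add, map_intCast, Int.cast_id]
  · change aug (((o g • y) ᵥ* X.cap3 c) ()) = aug ((y ᵥ* X.cap3 c) ())
    rw [Matrix.smul_vecMul, Pi.smul_apply, smul_eq_mul, map_mul, aug_o, one_mul]

end Pool.Agent.PDC
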