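import Pool.Agent.Lib.PDC.Blue

/-! The local data of a vertex group, read in the big group ring. -/

namespace Pool.Agent.PDC

open Pool.Agent.PD3

namespace X28pk

variable {G P : Type} [Group G] [Group P]

/-- change of group -/
noncomputable abbrev mp (φ : G →* P) : L G →+* L P := MonoidAlgebra.mapDomainRingHom ℤ φ

lemma mp_o (φ : G →* P) (g : G) : mp φ (o g) = o (φ g) := by simp [o_def]

lemma aug_mp (φ : G →* P) (a : L G) : aug (mp φ a) = aug a := by
  induction a using MonoidAlgebra.induction_linear with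
  | zero => simp
  | add a b ha hb => rw [map_add, map_add, map_add, ha, hb]
  | single g n => simp

lemma mp_Ns (φ : G →* P) (g : G) (n : ℕ) : mp φ (Ns g n) = Ns (φ g) n := by
  simp only [Ns, map_sum, mp_o, map_pow φ]

lemma lift_hom {ι : Type} (φ : G →* P) (x : ι → G) (w : FreeGroup ι) :
    FreeGroup.lift (fun i => φ (x i)) w = φ (FreeGroup.lift x w) := by
  change _ = (φ.comp (FreeGroup.lift x)) w
  congr 1; ext; simp

lemma sum_mp (φ : G →* P) (x : Fin 2 → G) (r : Fin 2 → FreeGroup (Fin 2)) (c : Fin 2 → L G)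
    (i : Fin 2) : (∑ k, mp φ (c k) • fox (fun i => φ (x i)) (r k)) i =
      mp φ ((∑ k, c k • fox x (r k)) i) := by
  simp only [Finset.sum_apply, Pi.smul_apply, smul_eq_mul, fox_hom, map_sum, map_mul]

lemma cel_map (φ : G →* P) {x : Fin 2 → G} {r : Fin 2 → FreeGroup (Fin 2)} {z : Fin 2 → L G}
    {γ : G} {n : ℕ} {R : L G} (h : Cel x r z γ n R) :
    Cel (fun i => φ (x i)) r (fun k => mp φ (z k)) (φ γ) n (mp φ R) := by
  obtain ⟨a, c, h1, h2, h3⟩ := h
  refine ⟨a, fun k => mp φ (c k), by rw [lift_hom, h1], funext fun i => ?_, funext fun k => ?_⟩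
  · rw [sum_mp, h2]
    simp only [Pi.smul_apply, smul_eq_mul, map_mul, mp_Ns, fox_hom]
  · simpa only [Pi.smul_apply, smul_eq_mul, map_mul, map_sub, mp_o, map_one] using
      congrArg (mp φ) (congrFun h3 k)

lemma swan_neg {x : Fin 2 → G} {r : Fin 2 → FreeGroup (Fin 2)} {z : Fin 2 → L G}
    (h : SwanD x r z) : SwanD x r (-z) := by
  refine ⟨h.1, ?_, fun k => by simp [h.2.2.1], fun g => ?_⟩
  · simp only [Pi.neg_apply, neg_smul, Finset.sum_neg_distrib, h.2.1, neg_zero]
  · obtain ⟨w, hw⟩ := h.2.2.2 g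
    exact ⟨-w, by simpa only [Pi.neg_apply, neg_mul_neg] using hw⟩

lemma comm_o {g : G} (hg : ∀ y, Commute y g) (a : L G) : Commute a (o g) := by
  induction a using MonoidAlgebra.induction_linear with
  | zero => exact Commute.zero_left _
  | add a b ha hb => exact ha.add_left hb
  | single y n =>
    have e1 : MonoidAlgebra.single y n = n • o y := by simp [o_def]
    rw [e1]
    exact ((hg y).map o).smul_left n

end X28pk

open X28pk in
theorem r_PK : R_PK := by
  intro hC hR P _ H _ hS c h n ho hn hh hp hM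
  have := Fintype.ofFinite H
  obtain ⟨x, r, z₀, hS₀⟩ := hS
  obtain ⟨R, h1, h2⟩ := (hR H c).2 h hh hp hM
  rw [ho] at h1
  obtain ⟨z, hz, hc⟩ : ∃ z, SwanD x r z ∧ Cel x r z c n (1 + R) := by
    rcases hC H x r z₀ hS₀ c n ho hn _ h1 with a | a
    · exact ⟨z₀, hS₀, a⟩
    · exact ⟨-z₀, swan_neg hS₀, a.2⟩
  refine ⟨fun i => H.subtype (x i), r, fun k => mp H.subtype (z k), mp H.subtype R,
    ⟨fun a => ?_, fun k => ?_, fun g hg => ?_, fun Q _ f hf => ?_, funext fun i => ?_,
      fun k => ?_, fun g hg => ?_⟩, ?_, ?_, fun g hg => ?_, fun γ hγ h3 => ?_⟩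
  · rw [lift_hom]; exact Subtype.property _
  · rw [lift_hom, hz.1.1, map_one]
  · obtain ⟨a, ha⟩ := hz.1.2.1 ⟨g, hg⟩
    exact ⟨a, by rw [lift_hom, ha]; rfl⟩
  · obtain ⟨φ, hφ⟩ := hz.1.2.2 Q f hf
    refine ⟨φ, fun a ha => ?_⟩
    have e : (⟨_, ha⟩ : H) = FreeGroup.lift x a := Subtype.ext (lift_hom _ _ _)
    rw [e, ← lift_hom]
    simp only [hφ]
  · rw [sum_mp, hz.2.1]; simp
  · rw [aug_mp, hz.2.2.1]
  · obtain ⟨w, hw⟩ := hz.2.2.2 ⟨g, hg⟩
    exact ⟨fun k => mp H.subtype (w k), by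
      have h3 := congrArg (mp H.subtype) hw
      simp only [map_sub, mp_o, map_one, map_sum, map_mul] at h3
      exact h3⟩
  · have h3 := cel_map H.subtype hc
    rw [map_add, map_one] at h3
    exact h3
  · have h3 := congrArg (mp H.subtype) h2
    simp only [map_sub, mp_o, map_one, map_mul, map_zero] at h3
    exact h3
  · have h3 := (comm_o hg R).map (mp H.subtype)
    rw [mp_o] at h3
    exact h3
  · have h4 : orderOf (⟨γ, hγ⟩ : H) = 2 := by rw [← Subgroup.orderOf_coe]; exact h3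
    obtain ⟨R', h5⟩ := (hR H ⟨γ, hγ⟩).1
    rw [h4] at h5
    rcases hC H x r z hz _ 2 h4 (Or.inl rfl) _ h5 with a | a
    · exact ⟨_, cel_map H.subtype a⟩
    · exact absurd a.1 (by norm_num)

end Pool.Agent.PDC
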