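import Pool.Agent.Lib.PDC.Blue
import Pool.Agent.Lib.MP_f61c0f_gt.Groups

namespace Pool.Agent.PDC

open Pool.Agent.PD3

theorem r_PRA : St_PRA := by
  refine ⟨![elA (la 0), elA (la 1)], fun k => ?_, fun g => ?_, fun Q _ f hf => ?_⟩
  · fin_cases k
    · simp only [relA, Fin.zero_eta, Matrix.cons_val_zero, map_mul, map_inv,
        FreeGroup.lift_apply_of, Matrix.cons_val_one]
      rw [mul_inv_eq_one]
      decide +kernel
    · simp only [relA, Fin.mk_one, Matrix.cons_val_zero, map_mul, map_inv,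
        FreeGroup.lift_apply_of, Matrix.cons_val_one]
      rw [mul_inv_eq_one]
      decide +kernel
  · have h1 : ∀ a < 24, wA (fun e => elA (la e)) a = elA a := by decide +kernel
    have h2 : elA (la 2) = elA (la 1) * elA (la 0) ∧ elA (la 3) = elA (la 0) * elA (la 1) := by
      decide +kernel
    obtain ⟨h3, h4⟩ := idxA_ok g
    change g ∈ (FreeGroup.lift ![elA (la 0), elA (la 1)]).range
    have m0 : elA (la 0) ∈ (FreeGroup.lift ![elA (la 0), elA (la 1)]).range :=
      ⟨.of 0, by simp⟩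
    have m1 : elA (la 1) ∈ (FreeGroup.lift ![elA (la 0), elA (la 1)]).range :=
      ⟨.of 1, by simp⟩
    rw [← h4, ← h1 _ h3, wA]
    refine Subgroup.list_prod_mem _ fun y hy => ?_
    obtain ⟨e, he, rfl⟩ := List.mem_map.1 hy
    have := (words_ok _ h3).1 e he
    interval_cases e
    · exact m0
    · exact m1
    · rw [h2.1]; exact mul_mem m1 m0
    · rw [h2.2]; exact mul_mem m0 m1
  · have f0 := hf 0
    have f1 := hf 1
    simp only [relA, Matrix.cons_val_zero, map_mul, map_inv, FreeGroup.lift_apply_of,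
      Matrix.cons_val_one, mul_inv_eq_one] at f0 f1
    let γ : ℕ → Q := fun e => if e = 0 then f 0 else if e = 1 then f 1 else
      if e = 2 then f 1 * f 0 else f 0 * f 1
    refine ⟨homOf 24 mA elA idxA idxA_ok idxA_elA elA_mul mA_lt (wA γ)
      (wA_mul γ ?_ ?_ ?_ ?_), fun i => ?_⟩
    · simpa [γ, mul_assoc] using f0
    · simp [γ]
    · simp [γ]
    · simpa [γ, mul_assoc] using f1
    · have w0 : wordA.getD (la 0) [] = [0] ∧ wordA.getD (la 1) [] = [1] ∧ la 0 < 24 ∧ la 1 < 24 := by
        decide +kernel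
      fin_cases i
      · change wA γ (idxA (elA (la 0))) = f 0
        rw [idxA_elA _ w0.2.2.1, wA, w0.1]; simp [γ]
      · change wA γ (idxA (elA (la 1))) = f 1
        rw [idxA_elA _ w0.2.2.2, wA, w0.2.1]; simp [γ]

end Pool.Agent.PDC
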