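import Pool.Agent.Lib.PDC.B_PRM2

/-! Elements of norm zero in permutation modules lie in the augmentation submodule. -/

namespace Pool.Agent.PDC

open X96

theorem r_PRM1 : St_PRM1 := by
  classical
  intro P _ g h s K hs hK
  obtain ⟨N, hN, hN', hc⟩ := exists_ind K
  let M : L P → Prop := fun a =>
    ∃ μ μ', RInv K μ ∧ RInv K μ' ∧ a = (o g - 1) * μ + (o h - 1) * μ'
  have z : RInv K (0 : L P) := fun k _ => zero_mul _
  have Madd : ∀ a b, M a → M b → M (a + b) := by
    rintro _ _ ⟨μ, μ', h1, h2, rfl⟩ ⟨ν, ν', h3, h4, rfl⟩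
    exact ⟨μ + ν, μ' + ν', rInv_add h1 h3, rInv_add h2 h4, by noncomm_ring⟩
  have Mf : ∀ f ∈ Subgroup.closure ({g, h} : Set P), ∀ μ, RInv K μ → M ((o f - 1) * μ) := by
    intro f hf
    induction hf using Subgroup.closure_induction with
    | mem f hf =>
      intro μ hμ
      rcases hf with rfl | rfl
      · exact ⟨μ, 0, hμ, z, by simp⟩
      · exact ⟨0, μ, z, hμ, by simp⟩
    | one => exact fun μ _ => ⟨0, 0, z, z, by simp⟩
    | mul f f' _ _ h1 h2 =>
      intro μ hμ
      have := Madd _ _ (h1 _ (rInv_mul hμ (o f'))) (h2 _ hμ)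
      convert this using 1
      rw [map_mul]; noncomm_ring
    | inv f _ h1 =>
      intro μ hμ
      have := h1 _ (rInv_mul hμ (-o f⁻¹))
      convert this using 1
      rw [← mul_assoc, sub_mul (o f), mul_neg, o_mul_inv]; noncomm_ring
  intro a
  induction hn : a.coeff.support.card using Nat.strong_induction_on generalizing a with
  | _ n ih =>
  intro ha h0
  by_cases ha0 : a = 0
  · exact ⟨0, 0, z, z, by simp [ha0]⟩
  obtain ⟨x, hx⟩ : a.coeff.support.Nonempty := by
    rw [Finsupp.support_nonempty_iff]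
    simpa using ha0
  have hx' := Finsupp.mem_support_iff.1 hx
  by_cases hy : ∃ f ∈ s, a.coeff (f⁻¹ * x) ≠ 0 ∧ x⁻¹ * (f⁻¹ * x) ∉ K
  · obtain ⟨f, hf, hy, hyK⟩ := hy
    have hf' := (Subgroup.closure ({g, h} : Set P)).inv_mem ((hs f).1 hf)
    set m : ℤ := a.coeff (f⁻¹ * x) with hm
    have hμ : RInv K ((m : L P) * (o x * N)) := rInv_mul (rInv_mul hN _) _
    have co : ∀ y, (a - (o f⁻¹ - 1) * ((m : L P) * (o x * N))).coeff y =
        a.coeff y - (m * (if (f⁻¹ * x)⁻¹ * y ∈ K then 1 else 0) -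
          m * (if x⁻¹ * y ∈ K then 1 else 0)) := fun y => by
      rw [coeff_sub', sub_mul, one_mul, coeff_sub', coeff_int_mul, hc, ← mul_assoc,
        ← (Int.cast_commute m (o f⁻¹)).eq, mul_assoc, ← mul_assoc (o f⁻¹), ← map_mul,
        coeff_int_mul, hc]
    have := ih _ (by
      rw [← hn]
      refine Finset.card_lt_card ⟨fun y hy' => ?_, fun h => ?_⟩
      · rw [Finsupp.mem_support_iff] at hy' ⊢
        rw [co] at hy'
        by_cases h1 : x⁻¹ * y ∈ K
        · rwa [← mul_inv_cancel_left x y, rInv_coeff ha x h1]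
        by_cases h2 : (f⁻¹ * x)⁻¹ * y ∈ K
        · rwa [← mul_inv_cancel_left (f⁻¹ * x) y, rInv_coeff ha _ h2]
        · rw [if_neg h1, if_neg h2] at hy'
          simpa using hy'
      · refine Finsupp.mem_support_iff.1 (h (Finsupp.mem_support_iff.2 hy)) ?_
        rw [co, if_neg hyK, inv_mul_cancel, if_pos K.one_mem]; ring)
      (a - (o f⁻¹ - 1) * ((m : L P) * (o x * N))) rfl (rInv_sub ha (rInv_mul hμ _))
      (by rw [mul_sub, h0, ← mul_assoc, mul_sub, nS_mul_o hs hf']; simp)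
    have := Madd _ _ this (Mf _ hf' _ hμ)
    rwa [sub_add_cancel] at this
  · exfalso
    push Not at hy
    have h1 : (nS s * a).coeff x * a.coeff x = 0 := by rw [h0]; simp
    rw [nS_mul_coeff, Finset.sum_mul] at h1
    refine absurd h1 (ne_of_gt (Finset.sum_pos' (fun f hf => ?_)
      ⟨1, (hs 1).2 (Subgroup.one_mem _), ?_⟩))
    · by_cases h2 : a.coeff (f⁻¹ * x) = 0
      · rw [h2, zero_mul]
      · rw [← mul_inv_cancel_left x (f⁻¹ * x), rInv_coeff ha x (hy f hf h2)]
        exact mul_self_nonneg _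
    · rw [inv_one, one_mul]
      exact mul_self_pos.2 hx'

end Pool.Agent.PDC
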