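import Pool.Agent.Lib.PDC.Blue

/-! Invariant elements of permutation modules are norms. -/

namespace Pool.Agent.PDC

namespace X96

variable {P : Type} [Group P]

lemma nS_mul_coeff (s : Finset P) (a : L P) (y : P) :
    (nS s * a).coeff y = ∑ f ∈ s, a.coeff (f⁻¹ * y) := by
  rw [nS, Finset.sum_mul, MonoidAlgebra.coeff_sum, Finsupp.finsetSum_apply]
  exact Finset.sum_congr rfl fun f _ => coeff_o_mul f a y

open Classical in
lemma nS_coeff (s : Finset P) (y : P) : (nS s).coeff y = if y ∈ s then 1 else 0 := by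
  rw [nS, MonoidAlgebra.coeff_sum, Finsupp.finsetSum_apply]
  simp only [o_def, MonoidAlgebra.coeff_single, Finsupp.single_apply]
  rw [Finset.sum_ite_eq']

lemma ext' {a b : L P} (h : ∀ y, a.coeff y = b.coeff y) : a = b :=
  MonoidAlgebra.ext (Finsupp.ext h)

lemma nS_mul_o {F : Subgroup P} {s : Finset P} (hs : ∀ x, x ∈ s ↔ x ∈ F) {f : P} (hf : f ∈ F) :
    nS s * o f = nS s := by
  refine ext' fun y => ?_
  rw [coeff_mul_o, nS_coeff, nS_coeff]
  have : y * f⁻¹ ∈ s ↔ y ∈ s := by rw [hs, hs, F.mul_mem_cancel_right (F.inv_mem hf)]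
  by_cases h : y ∈ s <;> simp [h, this]

lemma o_mul_nS {F : Subgroup P} {s : Finset P} (hs : ∀ x, x ∈ s ↔ x ∈ F) {f : P} (hf : f ∈ F) :
    o f * nS s = nS s := by
  refine ext' fun y => ?_
  rw [coeff_o_mul, nS_coeff, nS_coeff]
  have : f⁻¹ * y ∈ s ↔ y ∈ s := by rw [hs, hs, F.mul_mem_cancel_left (F.inv_mem hf)]
  by_cases h : y ∈ s <;> simp [h, this]

lemma rInv_coeff {K : Subgroup P} {a : L P} (h : RInv K a) (y : P) {k : P} (hk : k ∈ K) :
    a.coeff (y * k) = a.coeff y := by
  conv_lhs => rw [← h k hk, coeff_mul_o, mul_inv_cancel_right]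

lemma rInv_mul {K : Subgroup P} {a : L P} (h : RInv K a) (b : L P) : RInv K (b * a) :=
  fun k hk => by rw [mul_assoc, h k hk]

lemma rInv_add {K : Subgroup P} {a b : L P} (h : RInv K a) (h' : RInv K b) : RInv K (a + b) :=
  fun k hk => by rw [add_mul, h k hk, h' k hk]

lemma rInv_sub {K : Subgroup P} {a b : L P} (h : RInv K a) (h' : RInv K b) : RInv K (a - b) :=
  fun k hk => by rw [sub_mul, h k hk, h' k hk]

lemma coeff_sub' (a b : L P) (y : P) : (a - b).coeff y = a.coeff y - b.coeff y := by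
  simp

lemma coeff_int_mul (m : ℤ) (a : L P) (y : P) : ((m : L P) * a).coeff y = m * a.coeff y := by
  rw [← zsmul_eq_mul, MonoidAlgebra.coeff_smul_apply, smul_eq_mul]

open Classical in
/-- the coset sums -/
lemma exists_ind (K : Subgroup P) [Finite K] : ∃ N : L P, RInv K N ∧ (∀ k ∈ K, o k * N = N) ∧
    ∀ x y, (o x * N).coeff y = if x⁻¹ * y ∈ K then 1 else 0 := by
  have hK : ∀ x, x ∈ (Set.toFinite (K : Set P)).toFinset ↔ x ∈ K := fun x => by simp
  refine ⟨nS (Set.toFinite (K : Set P)).toFinset, fun k hk => nS_mul_o hK hk,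
    fun k hk => o_mul_nS hK hk, fun x y => ?_⟩
  rw [coeff_o_mul, nS_coeff]
  simp only [hK]

end X96

open X96

theorem r_PRM2 : St_PRM2 := by
  classical
  intro P _ F s K hs hK a
  obtain ⟨N, hN, -, hc⟩ := exists_ind K
  induction hn : a.coeff.support.card using Nat.strong_induction_on generalizing a with
  | _ n ih =>
  intro ha hF hd
  by_cases h0 : a = 0
  · exact ⟨0, fun k _ => zero_mul _, by rw [h0, mul_zero]⟩
  obtain ⟨x, hx⟩ : a.coeff.support.Nonempty := by
    rw [Finsupp.support_nonempty_iff]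
    simpa using h0
  obtain ⟨m, hm⟩ := hd x
  set b : L P := nS s * (o x * N) with hb
  have bK : RInv K b := rInv_mul (rInv_mul hN _) _
  have bF : ∀ f ∈ F, o f * b = b := fun f hf => by rw [hb, ← mul_assoc, o_mul_nS hs hf]
  have bx : b.coeff x = (Set.ncard {f | f ∈ F ∧ x⁻¹ * f * x ∈ K} : ℤ) := by
    rw [hb, nS_mul_coeff]
    simp only [hc]
    rw [Finset.sum_boole, ← Set.ncard_coe_finset]
    congr 2
    ext f
    simp only [Finset.coe_filter, Set.mem_ofPred_eq, hs]
    rw [← K.inv_mem_iff (x := x⁻¹ * f * x)]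
    simp [mul_assoc]
  have key : ∀ y, (a - (m : L P) * b).coeff y = 0 ∨
      (a - (m : L P) * b).coeff y = a.coeff y := fun y => by
    rw [coeff_sub', coeff_int_mul]
    by_cases hy : ∃ f ∈ F, x⁻¹ * (f⁻¹ * y) ∈ K
    · obtain ⟨f, hf, hk⟩ := hy
      have e : ∀ c : L P, RInv K c → (∀ f ∈ F, o f * c = c) → c.coeff y = c.coeff x :=
        fun c h1 h2 => by
          rw [← rInv_coeff h1 x hk, mul_inv_cancel_left, ← coeff_o_mul, h2 f hf]
      left
      rw [e a ha hF, e b bK bF, bx, hm]; ring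
    · right
      have : b.coeff y = 0 := by
        rw [hb, nS_mul_coeff]
        refine Finset.sum_eq_zero fun f hf => ?_
        rw [hc, if_neg fun h => hy ⟨f, (hs f).1 hf, h⟩]
      rw [this]; ring
  have hx0 : (a - (m : L P) * b).coeff x = 0 := by
    rw [coeff_sub', coeff_int_mul, bx, hm]; ring
  obtain ⟨μ, h1, h2⟩ := ih _ (by
      rw [← hn]
      refine Finset.card_lt_card ⟨fun y hy => ?_, fun h => ?_⟩
      · rw [Finsupp.mem_support_iff] at hy ⊢
        rcases key y with h | h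
        · exact absurd h hy
        · rwa [← h]
      · exact Finsupp.mem_support_iff.1 (h hx) hx0) (a - (m : L P) * b) rfl
    (rInv_sub ha (rInv_mul bK _))
    (fun f hf => by rw [mul_sub, hF f hf, ← mul_assoc, ← (Int.cast_commute m (o f)).eq, mul_assoc,
      bF f hf])
    (fun y => by
      rcases key y with h | h
      · rw [h]; exact dvd_zero _
      · rw [h]; exact hd y)
  refine ⟨μ + (m : L P) * (o x * N), rInv_add h1 (rInv_mul (rInv_mul hN _) _), ?_⟩
  rw [mul_add, ← h2, ← mul_assoc (nS s) (m : L P), ← (Int.cast_commute m (nS s)).eq,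
    mul_assoc (m : L P), ← hb, sub_add_cancel]

end Pool.Agent.PDC
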