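import Pool.Agent.Lib.PDC.Blue

/-! The top cohomology of the complex attached to a tree is infinite cyclic. -/

namespace Pool.Agent.PDC

open Pool.Agent.PD3

namespace QQ49

variable {P V Ed : Type} [Group P] [Fintype V] [Fintype Ed] [DecidableEq V]

theorem core (T : RT P V Ed) (j : Ed) (hS : T.Shape j) (Ro Ri : Ed → L P) {Q : Type}
    [AddCommGroup Q] (E1 : L P →+ Q) (F : Ed → L P →+ Q)
    (hF : ∀ e u, (o (T.γ e) - 1) * u = 0 → F e u = 0)
    (hR : ∀ v, ∀ g ∈ T.H v, ∀ y, ∃ uo ui : Ed → L P,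
      (∀ e, T.out e = v → (o (T.γ e) - 1) * uo e = Ro e * ((o g - 1) * y)) ∧
      (∀ e, T.inn e = v → (o (T.γ e) - 1) * ui e = Ri e * ((o g - 1) * y)) ∧
      E1 ((1 - ∑ e ∈ Finset.univ.filter (fun e => T.inn e = v), Ri e) * ((o g - 1) * y)) +
        ∑ e ∈ Finset.univ.filter (fun e => T.out e = v), F e (uo e) -
        ∑ e ∈ Finset.univ.filter (fun e => T.inn e = v), F e (ui e) = 0)
    (hRo : ∀ e, e ≠ j → (Ro e - 1) * (o (T.γ e) - 1) = 0)
    (hB1 : (Ro j - 1) * (o (T.γ j ^ 3) - 1) = 0) (_hB2 : Commute (Ro j) (o (T.γ j ^ 2)))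
    (hA1 : (Ri j - 1) * (o (T.γ j ^ 2) - 1) = 0) (hA2 : Commute (Ri j) (o (T.γ j ^ 3))) :
    (∀ e u, F e u = 0) ∧ ∀ a, aug a = 0 → E1 a = 0 := by
  classical
  have hF' : ∀ e u u', (o (T.γ e) - 1) * u = (o (T.γ e) - 1) * u' → F e u = F e u' :=
    fun e u u' h => by rw [← sub_eq_zero, ← map_sub]; exact hF e _ (by rw [mul_sub, h, sub_self])
  have loc : ∀ e, (∀ e', T.inn e' = T.out e → ∀ u, F e' u = -E1 ((o (T.γ e') - 1) * u)) →
      ∀ g ∈ T.H (T.out e), ∀ y u, (o (T.γ e) - 1) * u = Ro e * ((o g - 1) * y) →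
        E1 ((o g - 1) * y) + F e u = 0 := by
    intro e ih g hg y u hu
    obtain ⟨uo, ui, h1, h2, h3⟩ := hR _ g hg y
    have e1 : Finset.univ.filter (fun e' => T.out e' = T.out e) = {e} := by
      ext e'; simp [T.out_inj.eq_iff]
    have e2 : ∑ e' ∈ Finset.univ.filter (fun e' => T.inn e' = T.out e), F e' (ui e') =
        -E1 ((∑ e' ∈ Finset.univ.filter (fun e' => T.inn e' = T.out e), Ri e') *
          ((o g - 1) * y)) := by
      rw [Finset.sum_mul, map_sum, ← Finset.sum_neg_distrib]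
      refine Finset.sum_congr rfl fun e' he' => ?_
      rw [ih e' (Finset.mem_filter.1 he').2, h2 e' (Finset.mem_filter.1 he').2]
    rw [e1, e2, Finset.sum_singleton, sub_mul, one_mul, map_sub,
      hF' e (uo e) u (by rw [h1 e rfl, hu])] at h3
    rw [← h3]; abel
  have hne : ∀ e e', T.inn e' = T.out e → e' ≠ j := fun e e' h h' =>
    T.out_ne e (by rw [← h, h', hS.1])
  have hM : ∀ e, e ≠ j → ∀ u, F e u = -E1 ((o (T.γ e) - 1) * u) := by
    refine T.down fun e ih he u => ?_
    have := loc e (fun e' h => ih e' h (hne e e' h)) _ (T.γ_out e) u u (by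
      rw [← mul_assoc, ← sub_eq_zero, ← sub_mul, ← neg_eq_zero, ← neg_mul, neg_sub]
      have h := hRo e he
      rw [sub_mul, one_mul] at h
      rw [h, zero_mul])
    exact eq_neg_of_add_eq_zero_right this
  have loc' := fun e => loc e fun e' h => hM e' (hne e e' h)
  have top : ∀ g ∈ T.H T.root, ∀ y u, (o (T.γ j) - 1) * u = Ri j * ((o g - 1) * y) →
      E1 ((1 - Ri j) * ((o g - 1) * y)) = F j u := by
    intro g hg y u hu
    obtain ⟨uo, ui, -, h2, h3⟩ := hR _ g hg y
    have e1 : Finset.univ.filter (fun e' => T.out e' = T.root) = ∅ := by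
      ext e'; simp [T.out_ne]
    have hj : j ∈ Finset.univ.filter (fun e' => T.inn e' = T.root) := by simp [hS.1]
    have e2 : ∑ e' ∈ (Finset.univ.filter (fun e' => T.inn e' = T.root)).erase j, F e' (ui e') =
        -E1 ((∑ e' ∈ (Finset.univ.filter (fun e' => T.inn e' = T.root)).erase j, Ri e') *
          ((o g - 1) * y)) := by
      rw [Finset.sum_mul, map_sum, ← Finset.sum_neg_distrib]
      refine Finset.sum_congr rfl fun e' he' => ?_
      rw [hM e' (Finset.mem_erase.1 he').1, h2 e' (Finset.mem_filter.1 (Finset.mem_erase.1 he').2).2]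
    rw [e1, Finset.sum_empty, ← Finset.add_sum_erase _ _ hj, ← Finset.add_sum_erase _ _ hj, e2,
      sub_mul, add_mul, map_sub, map_add, hF' j (ui j) u (by rw [h2 j hS.1, hu])] at h3
    rw [← sub_eq_zero, ← h3, sub_mul, map_sub]; abel
  set c := o (T.γ j) with hc
  have m0 : T.γ j ∈ T.H T.root := hS.1 ▸ T.γ_inn j
  have s2 : o (T.γ j ^ 2) - 1 = (c - 1) * (c + 1) := by rw [map_pow]; noncomm_ring
  have s3 : o (T.γ j ^ 3) - 1 = (c - 1) * (c * c + c + 1) := by rw [map_pow]; noncomm_ring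
  have a1 : ∀ y, F j ((c + 1) * y) = 0 := fun y => by
    have h : (1 - Ri j) * ((o (T.γ j ^ 2) - 1) * y) = 0 := by
      rw [← mul_assoc, ← neg_sub, neg_mul, hA1, neg_zero, zero_mul]
    rw [← top _ (pow_mem m0 2) y _ ?_, h, map_zero]
    rw [sub_mul, one_mul, sub_eq_zero] at h
    rw [← h, s2, mul_assoc]
  have b1 : ∀ y, E1 ((o (T.γ j ^ 3) - 1) * y) = -F j ((c * c + c + 1) * y) := fun y => by
    refine eq_neg_of_add_eq_zero_left (loc' j _ (pow_mem (T.γ_out j) 3) y _ ?_)
    rw [sub_mul, one_mul, sub_eq_zero] at hB1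
    rw [← mul_assoc (Ro j), hB1, s3, mul_assoc]
  have a2 : ∀ y, F j ((c * c + c + 1) * y) = 0 := fun y => by
    have h1 : Commute (Ri j) (o (T.γ j ^ 3) - 1) := hA2.sub_right (Commute.one_right _)
    have h := top _ (pow_mem m0 3) y ((c * c + c + 1) * (Ri j * y)) (by
      rw [← mul_assoc, ← s3, ← mul_assoc, ← h1.eq, mul_assoc])
    rw [← mul_assoc, ((Commute.one_left _).sub_left h1).eq, mul_assoc, b1, sub_mul, one_mul,
      mul_sub, map_sub] at h
    rw [← neg_eq_zero, ← add_left_inj (F j ((c * c + c + 1) * (Ri j * y))), zero_add]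
    conv_rhs => rw [← h]
    abel
  have f0 : ∀ y, F j y = 0 := fun y => by
    have : y = (c * c + c + 1) * y - (c + 1) * (c * y) := by noncomm_ring
    rw [this, map_sub, a1, a2, sub_zero]
  have eB : ∀ g ∈ T.H (T.out j), ∀ y, E1 ((o g - 1) * y) = 0 := fun g hg y => by
    obtain ⟨uo, -, h1, -⟩ := hR _ g hg y
    simpa [f0] using loc' j g hg y _ (h1 j rfl)
  have eA : ∀ g ∈ T.H T.root, ∀ y, E1 ((o g - 1) * y) = 0 := fun g hg y => by
    obtain ⟨-, ui, -, h2, -⟩ := hR _ g hg y
    have h := top g hg y _ (h2 j hS.1)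
    rwa [f0, sub_mul, one_mul, ← h2 j hS.1, map_sub, eB _ (T.γ_out j), sub_zero] at h
  have eV : ∀ v, ∀ g ∈ T.H v, ∀ y, E1 ((o g - 1) * y) = 0 := by
    refine T.up eA fun e ih g hg y => ?_
    by_cases he : e = j
    · exact eB g (he ▸ hg) y
    · obtain ⟨uo, -, h1, -⟩ := hR _ g hg y
      have h := loc' e g hg y _ (h1 e rfl)
      rwa [hM e he, ih _ (T.γ_inn e), neg_zero, add_zero] at h
  let K : Subgroup P :=
    { carrier := {g | ∀ y, E1 ((o g - 1) * y) = 0}
      one_mem' := fun y => by simp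
      mul_mem' := fun {a b} ha hb y => by
        have : (o (a * b) - 1) * y = (o a - 1) * (o b * y) + (o b - 1) * y := by
          rw [map_mul]; noncomm_ring
        rw [this, map_add, ha, hb, add_zero]
      inv_mem' := fun {a} ha y => by
        have : (o a⁻¹ - 1) * y = -((o a - 1) * (o a⁻¹ * y)) := by
          rw [← mul_assoc, sub_mul (o a), o_mul_inv]; noncomm_ring
        rw [this, map_neg, ha, neg_zero] }
  have hK : ∀ g, g ∈ K := (Subgroup.eq_top_iff' K).1 (T.gen K eV)
  refine ⟨fun e u => ?_, aug_ind (fun a => E1 a = 0) (map_zero _)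
    (fun a b ha hb => by rw [map_add, ha, hb, add_zero]) fun g n => hK g n⟩
  by_cases he : e = j
  · rw [he, f0]
  · rw [hM e he, hK, neg_zero]

end QQ49

theorem r_QQ : R_QQ := by
  intro hC P V Ed _ _ _ _ T j hS z Ro Ri co ci hid hco hci hRo hB1 hB2 hA1 hA2 y0 y hy0
  classical
  let Θ : (V → Fin 2 → L P) × (Ed → L P) →+ L P × (Ed → L P) :=
    { toFun := fun w => (∑ v, (1 - ∑ e ∈ Finset.univ.filter (fun e => T.inn e = v), Ri e) *
          ∑ k, z v k * w.1 v k, fun e => ∑ k, co e k * w.1 (T.out e) k -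
            ∑ k, ci e k * w.1 (T.inn e) k - Ns (T.γ e) (orderOf (T.γ e)) * w.2 e)
      map_zero' := by ext <;> simp
      map_add' := fun a b => by
        refine Prod.ext ?_ (funext fun e => ?_)
        · simp only [Prod.fst_add, Pi.add_apply, mul_add, Finset.sum_add_distrib]
        · simp only [Prod.fst_add, Prod.snd_add, Pi.add_apply, mul_add, Finset.sum_add_distrib]
          abel }
  let q := QuotientAddGroup.mk' Θ.range
  have hq : ∀ w, q (Θ w) = 0 := fun w => (QuotientAddGroup.eq_zero_iff _).2 ⟨w, rfl⟩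
  let F : Ed → L P →+ _ := fun e =>
    q.comp ((AddMonoidHom.inr _ _).comp (AddMonoidHom.single (fun _ => L P) e))
  have hq' : ∀ a (b : Ed → L P), q (a, b) = q.comp (AddMonoidHom.inl _ _) a + ∑ e, F e (b e) := by
    intro a b
    simp only [F, AddMonoidHom.comp_apply, ← map_sum, ← map_add]
    congr 1
    simp [Finset.univ_sum_single]
  obtain ⟨h1, h2⟩ := QQ49.core T j hS Ro Ri (q.comp (AddMonoidHom.inl _ _)) F (fun e u hu => by
    have hpos : 0 < orderOf (T.γ e) := by
      by_cases he : e = j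
      · rw [he, hS.2.1]; omega
      · rw [hS.2.2.1 e he]; omega
    obtain ⟨μ, rfl⟩ := (hC P _ _ hpos rfl).2.1 u hu
    rw [← hq (0, Pi.single e (-μ))]
    refine congrArg q (Prod.ext (by simp [Θ]) (funext fun e' => ?_))
    by_cases h : e' = e
    · subst h; simp [Θ]
    · simp [Θ, h]) (fun v g hg y => by
    obtain ⟨w, hw⟩ := hid v g hg
    have hx : (o g - 1) * y = ∑ k, z v k * (w k * y) := by
      rw [hw, Finset.sum_mul]; simp only [mul_assoc]
    refine ⟨fun e => ∑ k, co e k * (w k * y), fun e => ∑ k, ci e k * (w k * y), ?_, ?_, ?_⟩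
    · rintro e rfl
      rw [hx, Finset.mul_sum, Finset.mul_sum]
      refine Finset.sum_congr rfl fun k _ => ?_
      rw [← mul_assoc, ← mul_assoc (Ro e)]
      exact congrArg (· * _) (congrFun (hco e) k)
    · rintro e rfl
      rw [hx, Finset.mul_sum, Finset.mul_sum]
      refine Finset.sum_congr rfl fun k _ => ?_
      rw [← mul_assoc, ← mul_assoc (Ri e)]
      exact congrArg (· * _) (congrFun (hci e) k)
    · rw [← hq (Pi.single v fun k => w k * y, 0), hx,
        ← Prod.mk.eta (p := Θ (Pi.single v fun k => w k * y, 0)), hq', add_sub_assoc,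
        Finset.sum_filter (fun e => T.out e = v), Finset.sum_filter (fun e => T.inn e = v)
          (fun e => F e _), ← Finset.sum_sub_distrib]
      congr 1
      · congr 1
        change _ = ∑ v', _
        rw [Finset.sum_eq_single v]
        · simp
        · intro b _ hb
          simp [hb]
        · simp
      · refine Finset.sum_congr rfl fun e _ => ?_
        change _ = F e (_ - _ - _)
        by_cases h1 : T.out e = v <;> by_cases h2 : T.inn e = v <;> simp [h1, h2]) hRo hB1 hB2 hA1 hA2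
  have h3 : q (y0, y) = 0 := by simp [hq', h1, h2 _ hy0]
  obtain ⟨w, hw⟩ := (QuotientAddGroup.eq_zero_iff _).1 h3
  exact ⟨w.1, w.2, (congrArg Prod.fst hw).symm, fun e => (congrFun (congrArg Prod.snd hw) e).symm⟩

end Pool.Agent.PDC
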