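import Pool.Agent.Lib.PDC.RL2

/-! Realisation of a presentation with cycles by a Delta-complex. -/

namespace Pool.Agent.PDC.RL

open Pool.Agent.PD3

variable {ι κ P : Type} [Group P] {ρ : κ → Tm ι} {SE : Set (Tm ι)} {ST : Set (Tg ι κ)}

lemma card_E [Fintype ι] [Fintype SE] (h : Cl ρ SE ST) :
    Fintype.card SE = Fintype.card ι + Fintype.card {a : SE // isGen a.1 = false} := by
  rw [← Fintype.card_sum]
  refine (Fintype.card_congr (Equiv.ofBijective
    (Sum.elim (fun i => ⟨.gen i, h.gen i⟩) Subtype.val) ⟨?_, ?_⟩)).symm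
  · rintro (i | ⟨⟨a, ha⟩, ha'⟩) (j | ⟨⟨b, hb⟩, hb'⟩) e <;>
      simp only [Sum.elim_inl, Sum.elim_inr, Subtype.mk.injEq] at e
    · cases e; rfl
    · subst e; simp [isGen] at hb'
    · subst e; simp [isGen] at ha'
    · subst e; rfl
  · rintro ⟨a, ha⟩
    by_cases hg : isGen a = false
    · exact ⟨.inr ⟨⟨a, ha⟩, hg⟩, rfl⟩
    · cases a <;> first | exact ⟨.inl _, rfl⟩ | simp [isGen] at hg

lemma card_T [Fintype κ] [Fintype SE] [Fintype ST] (h : Cl ρ SE ST) :
    Fintype.card ST = Fintype.card κ + (Fintype.card {a : SE // isGen a.1 = false} +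
      Fintype.card {T : ST // df T.1 = true}) := by
  rw [← Fintype.card_sum, ← Fintype.card_sum]
  refine (Fintype.card_congr (Equiv.ofBijective (Sum.elim (fun k => ⟨.rel k, h.rel k⟩)
    (Sum.elim (fun a => ⟨dt a.1.1, h.dt _ a.1.2⟩) Subtype.val)) ⟨?_, ?_⟩)).symm
  · rintro (i | ⟨⟨a, ha⟩, ha'⟩ | ⟨⟨S, hS⟩, hS'⟩) (j | ⟨⟨b, hb⟩, hb'⟩ | ⟨⟨T, hT⟩, hT'⟩) e <;>
      simp only [Sum.elim_inl, Sum.elim_inr, Subtype.mk.injEq] at e
    · cases e; rfl
    · cases b <;> cases e
    · subst e; simp [df] at hT'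
    · cases a <;> cases e
    · cases a <;> cases b <;> cases e <;> first | rfl | simp [isGen] at ha' hb'
    · subst e; cases a <;> simp [df, dt] at hT'
    · subst e; simp [df] at hS'
    · subst e; cases b <;> simp [df, dt] at hS'
    · subst e; rfl
  · rintro ⟨T, hT⟩
    have he := h.edge T hT
    cases T with
    | rel k => exact ⟨.inl k, rfl⟩
    | dO => exact ⟨.inr (.inl ⟨⟨.one, he.1⟩, rfl⟩), rfl⟩
    | dI a => exact ⟨.inr (.inl ⟨⟨.inv a, he.2.1⟩, rfl⟩), rfl⟩
    | dM a b => exact ⟨.inr (.inl ⟨⟨.mul a b, he.2.2⟩, rfl⟩), rfl⟩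
    | _ => exact ⟨.inr (.inr ⟨⟨_, hT⟩, rfl⟩), rfl⟩

/-- a family on the edges that respects the triangles comes from the generators -/
lemma lift_edge (h : Cl ρ SE ST) {Q : Type} [Group Q] (f : SE → Q)
    (hf : ∀ T (hT : T ∈ ST), f ⟨_, (h.edge T hT).1⟩ * f ⟨_, (h.edge T hT).2.1⟩ =
      f ⟨_, (h.edge T hT).2.2⟩) (a : Tm ι) (ha : a ∈ SE) :
    FreeGroup.lift (fun i => f ⟨.gen i, h.gen i⟩) a.wd = f ⟨a, ha⟩ := by
  have h1 : f ⟨.one, (h.edge _ h.dO).1⟩ = 1 := by
    have := hf _ h.dO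
    exact mul_left_cancel (this.trans (mul_one _).symm)
  induction a with
  | gen i => simp [Tm.wd]
  | one => rw [Tm.wd, map_one]; exact h1.symm
  | inv a ih =>
    have he := h.edge _ (h.dt _ ha)
    rw [Tm.wd, map_inv, ih he.1, inv_eq_iff_mul_eq_one]
    exact (hf _ (h.dt _ ha)).trans h1
  | mul a b iha ihb =>
    have he := h.edge _ (h.dt _ ha)
    rw [Tm.wd, map_mul, iha he.1, ihb he.2.1]
    exact hf _ (h.dt _ ha)

/-- a primitive on the edge-defining triangles -/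
def prim (φ : Tg ι κ → ℤ) : Tm ι → ℤ
  | .gen _ => 0
  | .one => φ .dO
  | .inv a => φ (.dI a) + φ .dO - prim φ a
  | .mul a b => prim φ a + prim φ b - φ (.dM a b)

lemma closed_eq [DecidableEq κ] [Fintype κ] (x : ι → P) (h : Cl ρ SE ST) (φ : Tg ι κ → ℤ)
    (hφ : ∀ T ∈ ST, df T = true → del x ρ (1 : P →* ℤ) φ (tet T) = 0) :
    ∃ w : κ → ℤ, ∀ T ∈ ST, sh ρ T = (.one, .one, .one) →
      φ T - φ .dO = ∑ k, aug (val x ρ T k) * w k := by
  let dψ : Tg ι κ → ℤ := fun T => prim φ (sh ρ T).2.1 - prim φ (sh ρ T).2.2 + prim φ (sh ρ T).1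
  let w : κ → ℤ := fun k => φ (.rel k) - dψ (.rel k)
  let f : (κ → L P) →+ ℤ :=
    { toFun := fun v => ∑ k, aug (v k) * w k
      map_zero' := by simp
      map_add' := fun a b => by simp [add_mul, Finset.sum_add_distrib] }
  have hf : ∀ (g : P) m, f (o g • m) = (1 : P →* ℤ) g • f m := fun g m => by simp [f]
  have := h.uniq (fun T => φ T - dψ T - f (val x ρ T)) (fun T _ hT => ?_) (fun T hT hd => ?_)
  · refine ⟨w, fun T hT hs => ?_⟩
    have h1 := this T hT
    simp only [dψ, hs, prim] at h1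
    change _ = f (val x ρ T)
    omega
  · rw [val, sol_bas _ _ _ _ _ hT]
    cases T with
    | rel k =>
      have : f (Pi.single k 1) = w k := by
        simp only [f, AddMonoidHom.coe_mk, ZeroHom.coe_mk]
        rw [Finset.sum_eq_single k] <;> simp +contextual
      simp [bas, this, w]
    | dO => simp [bas, dψ, sh, prim]
    | dI a => simp only [bas, dψ, sh, prim, map_zero]; omega
    | dM a b => simp only [bas, dψ, sh, prim, map_zero]; omega
    | _ => simp [df] at hT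
  · have h1 := hφ T hT hd
    have h2 := del_nat x ρ o 1 f hf (val x ρ) (tet T)
    rw [val, sol_del _ _ _ _ _ hd] at h2
    obtain ⟨e1, e2, e3, e4, e5, e6⟩ := mt_tet (h.ok T hT)
    simp only [del, MonoidHom.one_apply, one_smul, Pi.zero_apply, map_zero] at h1 h2
    simp only [dψ, e1, e2, e3, e4, e5, e6, val]
    omega

end Pool.Agent.PDC.RL

namespace Pool.Agent.PDC

open Pool.Agent.PD3 RL

theorem r_REAL : R_REAL := by
  intro hB P _ ι κ τ _ _ _ _ x r θ c j0 hP hθ hχ hc hj htop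
  classical
  choose ρ hρ using fun k => wd_surj (r k)
  obtain rfl : r = fun k => (ρ k).wd := (funext hρ).symm
  choose T0 ok0 sh0 val0 using fun j => re_cycle hP (θ j) (hθ j)
  obtain ⟨SE, ST, fE, fT, cl, m0⟩ := exists_cl T0 ok0
  have := fE.fintype
  have := fT.fintype
  let D := {T : ST // df T.1 = true}
  let F : D ⊕ τ → Fin 4 → Tg ι κ := Sum.elim (fun T => tet T.1.1) fun j => ![T0 j, .dO, .dO, .dO]
  have hF : ∀ s i, F s i ∈ ST := by
    rintro (T | j) i
    · exact cl.tet _ T.1.2 i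
    · fin_cases i
      exacts [m0 j, cl.dO, cl.dO, cl.dO]
  have mF : ∀ s, Mt (sh ρ (F s 0)) (sh ρ (F s 1)) (sh ρ (F s 2)) (sh ρ (F s 3)) := by
    rintro (T | j)
    · exact mt_tet (cl.ok _ T.1.2)
    · simp [F, Mt, sh, sh0]
  let d2 : ST → Fin 3 → SE := fun T => ![⟨_, (cl.edge T T.2).2.1⟩, ⟨_, (cl.edge T T.2).2.2⟩,
    ⟨_, (cl.edge T T.2).1⟩]
  let u : Tg ι κ → Tg ι κ →₀ ℤ := sol x ρ (1 : P →* ℤ) 0 fun T => Finsupp.single T 1
  let cc : D ⊕ τ → ℤ := Sum.elim (fun T => -∑ j, c j * del x ρ (1 : P →* ℤ) u (F (.inr j)) T.1.1) c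
  let ex : ∀ {M : Type} [Zero M], (D ⊕ τ → M) → Tg ι κ → M := fun y T =>
    if h : T ∈ ST ∧ df T = true then y (.inl ⟨⟨T, h.1⟩, h.2⟩) else 0
  have hex : ∀ {M : Type} [Zero M] (y : D ⊕ τ → M) (T : D), ex y T.1.1 = y (.inl T) :=
    fun y T => dif_pos ⟨T.1.2, T.2⟩
  have key : ∀ y : D ⊕ τ → ℤ, ∑ s, cc s * y s =
      ∑ j, c j * (y (.inr j) - del x ρ (1 : P →* ℤ) (sol x ρ (1 : P →* ℤ) 0 (ex y)) (F (.inr j))) := by
    intro y
    let f := (Finsupp.linearCombination ℤ (ex y)).toAddMonoidHom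
    have hf : ∀ (g : P) m, f ((1 : P →* ℤ) g • m) = (1 : P →* ℤ) g • f m := fun g m => by simp
    have h1 : ∀ w : Tg ι κ →₀ ℤ, f w = ∑ T : D, w T.1.1 * y (.inl T) := by
      intro w
      induction w using Finsupp.induction_linear with
      | zero => simp
      | add a b ha hb => simp [ha, hb, add_mul, Finset.sum_add_distrib]
      | single T n =>
        simp only [f, LinearMap.toAddMonoidHom_coe, Finsupp.linearCombination_single, smul_eq_mul]
        by_cases h : T ∈ ST ∧ df T = true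
        · rw [Finset.sum_eq_single ⟨⟨T, h.1⟩, h.2⟩]
          · simp [ex, h]
          · intro b _ hb
            rw [Finsupp.single_eq_of_ne, zero_mul]
            exact fun e => hb (Subtype.ext (Subtype.ext e))
          · simp
        · rw [Finset.sum_eq_zero]
          · simp [ex, h]
          · intro b _
            rw [Finsupp.single_eq_of_ne, zero_mul]
            exact fun e => h (e ▸ ⟨b.1.2, b.2⟩)
    have h2 : (fun T => f (u T)) = sol x ρ (1 : P →* ℤ) 0 (ex y) := funext fun T => by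
      rw [sol_nat x ρ 1 1 f hf]
      congr 1; funext T; simp [f]
    rw [← h2]
    simp only [← del_nat x ρ 1 1 f hf]
    simp only [h1, Fintype.sum_sum_type, cc, Sum.elim_inl,
      Sum.elim_inr, mul_sub, Finset.sum_sub_distrib, neg_mul, Finset.sum_neg_distrib,
      Finset.sum_mul, Finset.mul_sum, mul_assoc]
    rw [Finset.sum_comm]; abel
  refine hB P SE ST (D ⊕ τ) d2 (fun s i => ⟨F s i, hF s i⟩) (fun a => lab x a.1) cc (.inr j0)
    ?_ ?_ ?_ ?_ ?_ ?_ hj ?_
  · intro s i j hij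
    obtain ⟨e1, e2, e3, e4, e5, e6⟩ := mF s
    fin_cases i <;> fin_cases j <;> first | exact Subtype.ext (by assumption) | simp at hij
  · exact fun T => lab_ok hP.1 (cl.ok _ T.2)
  · intro K hK
    rw [eq_top_iff]
    rintro g -
    obtain ⟨w, rfl⟩ := hP.2.1 g
    exact (FreeGroup.range_lift_le (s := K) (by
      rintro _ ⟨i, rfl⟩; simpa using hK ⟨.gen i, cl.gen i⟩)) ⟨w, rfl⟩
  · intro Q _ f hf
    have h1 := lift_edge cl f fun T hT => hf ⟨T, hT⟩
    obtain ⟨φ, hφ⟩ := hP.2.2 Q (fun i => f ⟨.gen i, cl.gen i⟩) fun k => by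
      refine (h1 _ (cl.edge _ (cl.rel k)).1).trans ?_
      exact mul_right_cancel ((hf ⟨_, cl.rel k⟩).trans (one_mul _).symm)
    refine ⟨φ, fun a => ?_⟩
    rw [← h1 a.1 a.2]
    change (φ.comp (FreeGroup.lift x)) a.1.wd = _
    congr 1; ext1; simp [hφ]
  · intro φ
    let φ' : Tg ι κ → ℤ := fun T => if h : T ∈ ST then φ ⟨T, h⟩ else 0
    have h0 : ∀ s, φ ⟨F s 0, hF s 0⟩ - φ ⟨F s 1, hF s 1⟩ + φ ⟨F s 2, hF s 2⟩ - φ ⟨F s 3, hF s 3⟩ =
        del x ρ (1 : P →* ℤ) φ' (F s) := fun s => by simp [del, φ', hF]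
    simp only [h0]
    rw [key]
    obtain ⟨w, hw⟩ := closed_eq x cl
      (φ' - sol x ρ (1 : P →* ℤ) 0 (ex fun s => del x ρ (1 : P →* ℤ) φ' (F s))) fun T hT hd => by
        have h1 := sol_del x ρ (1 : P →* ℤ) 0 (ex fun s => del x ρ (1 : P →* ℤ) φ' (F s)) hd
        replace h1 := h1.trans
          (hex (fun s => del x ρ (1 : P →* ℤ) φ' (F s)) ⟨⟨T, hT⟩, hd⟩)
        simp only [del, F, Sum.elim_inl, MonoidHom.one_apply, one_smul, Pi.sub_apply] at h1 ⊢
        omega
    have h2 : ∀ j, del x ρ (1 : P →* ℤ) φ' (F (.inr j)) - del x ρ (1 : P →* ℤ)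
        (sol x ρ (1 : P →* ℤ) 0 (ex fun s => del x ρ (1 : P →* ℤ) φ' (F s))) (F (.inr j)) =
          ∑ k, aug (θ j k) * w k := fun j => by
      rw [← val0, ← hw _ (m0 j) (sh0 j)]
      simp only [del, F, Sum.elim_inr, MonoidHom.one_apply, one_smul, Pi.sub_apply,
        Matrix.cons_val]
      omega
    simp only [h2, Finset.mul_sum, ← mul_assoc]
    rw [Finset.sum_comm]
    simp only [← Finset.sum_mul, hc, zero_mul, Finset.sum_const_zero]
  · rw [Fintype.card_sum, card_E cl, card_T cl]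
    simp only [D]
    omega
  · intro y hy
    let φ1 := sol x ρ o 0 (ex y)
    have ha : ∀ (g : P) (m : L P), aug.toAddMonoidHom (o g • m) =
        (1 : P →* ℤ) g • aug.toAddMonoidHom m := fun g m => by simp
    obtain ⟨w, hw⟩ := htop (fun j => y (.inr j) - del x ρ o φ1 (F (.inr j))) (by
      have h1 := key fun s => aug (y s)
      have h2 : sol x ρ (1 : P →* ℤ) 0 (ex fun s => aug (y s)) =
          fun T => aug.toAddMonoidHom (φ1 T) := funext fun T => by
        rw [sol_nat x ρ o 1 _ ha]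
        congr 1
        funext T
        by_cases h : T ∈ ST ∧ df T = true <;> simp [ex, h]
      simp only [h2, ← del_nat x ρ o 1 _ ha] at h1
      simp only [mul_comm (aug _)] at hy ⊢
      rw [hy] at h1
      simpa using h1.symm)
    let f : (κ → L P) →+ L P :=
      { toFun := fun v => ∑ k, v k * w k
        map_zero' := by simp
        map_add' := fun a b => by simp [add_mul, Finset.sum_add_distrib] }
    have hf : ∀ (g : P) m, f (o g • m) = o g • f m := fun g m => by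
      simp [f, Finset.mul_sum, mul_assoc]
    refine ⟨fun T => φ1 T.1 + f (val x ρ T.1), fun s => ?_⟩
    have h3 : y s = del x ρ o φ1 (F s) + f (del x ρ o (val x ρ) (F s)) := by
      rcases s with T | j
      · change _ = del x ρ o φ1 (tet T.1.1) + f (del x ρ o (val x ρ) (tet T.1.1))
        rw [val, sol_del _ _ _ _ _ T.2, sol_del _ _ _ _ _ T.2, hex]; simp
      · have : del x ρ o (val x ρ) (F (.inr j)) = θ j := by
          rw [← val0]; simp [del, F, sh, val, sol, bas]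
        rw [this, ← sub_eq_iff_eq_add', hw]; rfl
    rw [h3, del_nat x ρ o o f hf]
    simp only [del, d2, Matrix.cons_val, smul_eq_mul, mul_add]
    abel

end Pool.Agent.PDC
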