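import Pool.Agent.Lib.PDC.Blue

/-! Sums of coset representatives. -/

namespace Pool.Agent.PDC

open Pool.Agent.PD3

namespace X28rep

variable {G : Type} [Group G]

open Classical in
lemma coeff_nS (s : Finset G) (x : G) : (nS s).coeff x = if x ∈ s then 1 else 0 := by
  simp [nS, o_def, MonoidAlgebra.coeff_sum, Finsupp.single_apply]

lemma o_mul_nS {F : Subgroup G} {s : Finset G} (hs : ∀ x, x ∈ s ↔ x ∈ F) {f : G} (hf : f ∈ F) :
    o f * nS s = nS s := by
  classical
  ext x
  rw [coeff_o_mul, coeff_nS, coeff_nS]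
  exact if_congr (by rw [hs, hs, F.mul_mem_cancel_left (F.inv_mem hf)]) rfl rfl

lemma nS_mul_o {F : Subgroup G} {s : Finset G} (hs : ∀ x, x ∈ s ↔ x ∈ F) {f : G} (hf : f ∈ F) :
    nS s * o f = nS s := by
  classical
  ext x
  rw [coeff_mul_o, coeff_nS, coeff_nS]
  exact if_congr (by rw [hs, hs, F.mul_mem_cancel_right (F.inv_mem hf)]) rfl rfl

lemma cj {x f : G} : x⁻¹ * f * x = 1 ↔ f = 1 := by
  rw [mul_assoc, inv_mul_eq_one, eq_comm, mul_eq_right]

end X28rep

open X28rep in
theorem r_REP : R_REP := by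
  intro hP G _ _ c
  obtain ⟨s, hs, hN⟩ := exists_nS c (orderOf c) (orderOf_pos c) rfl
  have hu : ∀ x : G, x ∈ (Finset.univ : Finset G) ↔ x ∈ (⊤ : Subgroup G) := by simp
  refine ⟨?_, fun h hh hp hM => ?_⟩
  · obtain ⟨μ, -, h1⟩ := hP G _ s ⊥ hs inferInstance (nS Finset.univ) (rInv_bot _)
      (fun f _ => o_mul_nS hu trivial) fun x => by
        have : {f | f ∈ Subgroup.zpowers c ∧ x⁻¹ * f * x ∈ (⊥ : Subgroup G)} = {1} := by
          ext f
          simp only [Set.mem_ofPred_eq, Subgroup.mem_bot, Set.mem_singleton_iff, cj]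
          exact ⟨fun h => h.2, fun h => ⟨h ▸ one_mem _, h⟩⟩
        rw [this]; simp
    exact ⟨μ, by rw [← hN, h1]⟩
  · have hK : Subgroup.zpowers h ≤ Subgroup.zpowers c := Subgroup.zpowers_le.2 hh
    obtain ⟨μ, h0, h1⟩ := hP G _ s (Subgroup.zpowers h) hs inferInstance (nS Finset.univ - nS s)
      (fun k hk => by rw [sub_mul, nS_mul_o hu trivial, nS_mul_o hs (hK hk)])
      (fun f hf => by rw [mul_sub, o_mul_nS hu trivial, o_mul_nS hs hf]) fun x => by
        by_cases hx : x ∈ s
        · simp [coeff_nS, hx]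
        have : {f | f ∈ Subgroup.zpowers c ∧ x⁻¹ * f * x ∈ Subgroup.zpowers h} = {1} := by
          ext f
          simp only [Set.mem_ofPred_eq, Set.mem_singleton_iff]
          refine ⟨fun hf => by_contra fun hf1 => hx ((hs x).2 (hM x ?_)), ?_⟩
          · have : Fact (Nat.card (Subgroup.zpowers h)).Prime := ⟨by rwa [Nat.card_zpowers]⟩
            have h2 : (⟨x⁻¹ * f * x, hf.2⟩ : Subgroup.zpowers h) ≠ 1 := fun h3 =>
              hf1 (cj.1 (congrArg Subtype.val h3))
            obtain ⟨i, hi⟩ := mem_zpowers_of_prime_card rfl h2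
              (g' := ⟨h, Subgroup.mem_zpowers h⟩)
            have h3 : (x⁻¹ * f * x) ^ i = h := congrArg Subtype.val hi
            have h4 : x * h * x⁻¹ = f ^ i := by
              rw [← h3, show x⁻¹ * f * x = x⁻¹ * f * x⁻¹⁻¹ by rw [inv_inv], conj_zpow]
              group
            rw [h4]
            exact zpow_mem hf.1 i
          · rintro rfl
            simp
        rw [this]; simp
    refine ⟨μ, ?_, ?_⟩
    · rw [← hN, mul_add, mul_one, ← h1, add_sub_cancel]
    · rw [mul_sub, h0 h (Subgroup.mem_zpowers h), mul_one, sub_self]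

end Pool.Agent.PDC
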