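import Pool.Agent.Lib.PDC.Blue

namespace Pool.Agent.PDC

namespace X59

variable {E Ω : Type} [Group E]

theorem free_prod (a : E →* Equiv.Perm Ω) (h : ∀ g ω, a g ω = ω → g = 1) :
    ∃ (Q : Type) (φ : Q × E ≃ Ω), ∀ q e e', φ (q, e * e') = a e (φ (q, e')) := by
  let : MulAction E Ω := MulAction.compHom Ω a
  refine ⟨MulAction.orbitRel.Quotient E Ω, Equiv.ofBijective (fun p => p.2 • p.1.out) ⟨?_, ?_⟩,
    fun q e e' => mul_smul e e' _⟩
  · rintro ⟨q, e⟩ ⟨q', e'⟩ (h1 : e • q.out = e' • q'.out)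
    have h2 : (e'⁻¹ * e) • q.out = q'.out := by rw [mul_smul, h1, inv_smul_smul]
    obtain rfl : q' = q := by
      rw [← q.out_eq, ← q'.out_eq]
      exact Quotient.sound ⟨_, h2⟩
    rw [Prod.mk.injEq, eq_self, true_and, eq_comm, ← inv_mul_eq_one]
    exact h _ _ h2
  · intro ω
    obtain ⟨e, he⟩ : (MulAction.orbitRel E Ω) ω (Quotient.mk _ ω : MulAction.orbitRel.Quotient E Ω).out :=
      Quotient.exact (Quotient.out_eq _).symm
    exact ⟨(_, e), he⟩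

theorem free_conj [Finite E] [Finite Ω] [Nonempty Ω] (a b : E →* Equiv.Perm Ω)
    (ha : ∀ g ω, a g ω = ω → g = 1) (hb : ∀ g ω, b g ω = ω → g = 1) :
    ∃ σ : Equiv.Perm Ω, ∀ e, b e = σ * a e * σ⁻¹ := by
  obtain ⟨Q, φ, h1⟩ := free_prod a ha
  obtain ⟨Q', φ', h2⟩ := free_prod b hb
  have := Finite.of_equiv _ φ.symm
  have := Finite.of_equiv _ φ'.symm
  have := Finite.prod_left (α := Q) E
  have := Finite.prod_left (α := Q') E
  have h3 := (Nat.card_congr φ).trans (Nat.card_congr φ').symm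
  rw [Nat.card_prod, Nat.card_prod, Nat.mul_left_inj Nat.card_pos.ne'] at h3
  obtain ⟨τ⟩ := Finite.card_eq.1 h3
  refine ⟨φ.symm.trans ((τ.prodCongr (Equiv.refl E)).trans φ'), fun e => ?_⟩
  rw [eq_mul_inv_iff_mul_eq]
  ext ω
  obtain ⟨⟨q, e'⟩, rfl⟩ := φ.surjective ω
  simp [← h1, ← h2]

end X59

theorem r_RHO : St_RHO := by
  classical
  intro n G _ _ E _ α β hα hβ
  let f : ∀ v, G v →* Equiv.Perm (∀ v, G v) := fun v =>
    (MulAction.toPermHom (∀ v, G v) (∀ v, G v)).comp (MonoidHom.mulSingle G v)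
  have hf : ∀ v g ω, f v g ω = ω → g = 1 := fun v g ω h => by
    simpa [f] using congrFun h v
  have step : ∀ (i : Fin n) (p : {f : G i.castSucc →* Equiv.Perm (∀ v, G v) //
      ∀ g ω, f g ω = ω → g = 1}), ∃ p' : {f : G i.succ →* Equiv.Perm (∀ v, G v) //
      ∀ g ω, f g ω = ω → g = 1}, ∀ e, p.1 (α i e) = p'.1 (β i e) := by
    intro i p
    have := Finite.of_injective _ (hα i)
    obtain ⟨σ, hσ⟩ := X59.free_conj ((f _).comp (β i)) (p.1.comp (α i))
      (fun g ω h => (map_eq_one_iff _ (hβ i)).1 (hf _ _ ω h))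
      fun g ω h => (map_eq_one_iff _ (hα i)).1 (p.2 _ ω h)
    refine ⟨⟨(MulAut.conj σ).toMonoidHom.comp (f _), fun g ω h => hf _ g (σ⁻¹ ω) ?_⟩, hσ⟩
    exact Equiv.Perm.eq_inv_iff_eq.2 h
  choose st hst using step
  let F : ∀ v, {f : G v →* Equiv.Perm (∀ v, G v) // ∀ g ω, f g ω = ω → g = 1} :=
    Fin.induction ⟨f 0, hf 0⟩ st
  refine ⟨_, inferInstance, inferInstance, fun v => (F v).1, fun i e => ?_, fun v => (F v).2⟩
  rw [hst i (F _) e]
  rfl

end Pool.Agent.PDC
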