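import Pool.Agent.Lib.PDC.Blue

/-! The complex attached to a tree of the listed groups. -/

namespace Pool.Agent.PDC

open Pool.Agent.PD3

theorem r_SUF : R_SUF := by
  intro hSA hSB hSD hSC hPK hLOC hQQ hASM P V Ed _ _ _ T j hS hA hB hD
  classical
  obtain ⟨hj, h6, h2, -⟩ := id hS
  have m0 : T.γ j ∈ T.H T.root := hj ▸ T.γ_inn j
  have six : ∀ (H : Subgroup P) (c : H), orderOf c = 6 →
      (orderOf (c ^ 2)).Prime ∧ (orderOf (c ^ 3)).Prime := fun H c h => by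
    rw [orderOf_pow' _ (by norm_num), orderOf_pow' _ (by norm_num), h]
    norm_num
  have key : ∀ v, ∃ (x : Fin 2 → P) (r : Fin 2 → FreeGroup (Fin 2)) (z : Fin 2 → L P) (R : L P),
      Loc (T.H v) x r z ∧ (∀ γ ∈ T.H v, orderOf γ = 2 → ∃ R', Cel x r z γ 2 R') ∧
      (∀ e, T.out e = v → Cel x r z (T.γ e) (orderOf (T.γ e)) (1 + R) ∧
        (e ≠ j → R * (o (T.γ e) - 1) = 0) ∧
        (e = j → R * (o (T.γ j ^ 3) - 1) = 0 ∧ Commute R (o (T.γ j ^ 2)))) ∧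
      (v = T.root → Cel x r z (T.γ j) 6 (1 + R) ∧ R * (o (T.γ j ^ 2) - 1) = 0 ∧
        Commute R (o (T.γ j ^ 3))) := by
    intro v
    have := T.finH v
    by_cases hv : v = T.root
    · subst hv
      have hc : orderOf (⟨T.γ j, m0⟩ : T.H T.root) = 6 := by rw [← Subgroup.orderOf_coe]; exact h6
      obtain ⟨l1, l2⟩ := ((hLOC _).1 hA).2 _ hc
      obtain ⟨x, r, z, R, k1, k2, k3, k4, k5⟩ := hPK P (T.H T.root) (hSC _ _ hA.some hSA) ⟨T.γ j, m0⟩
        (⟨T.γ j, m0⟩ ^ 2) 6 hc (Or.inr rfl)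
        (Subgroup.npow_mem_zpowers _ 2) (six _ _ hc).1 l1
      exact ⟨x, r, z, R, k1, k5, fun e he => absurd he (T.out_ne e), fun _ =>
        ⟨k2, by simpa only [SubmonoidClass.coe_pow] using k3,
          by simpa only [SubmonoidClass.coe_pow] using k4 _ l2⟩⟩
    obtain ⟨e, rfl⟩ := T.out_surj v hv
    by_cases he : e = j
    · subst he
      have hc : orderOf (⟨T.γ e, T.γ_out e⟩ : T.H (T.out e)) = 6 := by
        rw [← Subgroup.orderOf_coe]; exact h6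
      obtain ⟨l1, l2⟩ := ((hLOC _).2.1 hB).2 _ hc
      obtain ⟨m, -, hm, ⟨f⟩⟩ := hB
      obtain ⟨x, r, z, R, k1, k2, k3, k4, k5⟩ := hPK P (T.H (T.out e)) (hSC _ _ f (hSB m hm))
        ⟨T.γ e, T.γ_out e⟩ (⟨T.γ e, T.γ_out e⟩ ^ 3) 6 hc (Or.inr rfl)
        (Subgroup.npow_mem_zpowers _ 3) (six _ _ hc).2 l1
      refine ⟨x, r, z, R, k1, k5, fun e' he' => ?_, fun h => absurd h hv⟩
      obtain rfl := T.out_inj he'
      exact ⟨h6 ▸ k2, fun h => absurd rfl h, fun _ =>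
        ⟨by simpa only [SubmonoidClass.coe_pow] using k3,
          by simpa only [SubmonoidClass.coe_pow] using k4 _ l2⟩⟩
    · have hc : orderOf (⟨T.γ e, T.γ_out e⟩ : T.H (T.out e)) = 2 := by
        rw [← Subgroup.orderOf_coe]; exact h2 e he
      have hd := hD _ hv fun h => he (T.out_inj h)
      have l1 := ((hLOC _).2.2 hd).2 _ hc
      obtain ⟨m, hm, -, ⟨f⟩⟩ := hd
      obtain ⟨x, r, z, R, k1, k2, k3, -, k5⟩ := hPK P (T.H (T.out e)) (hSC _ _ f (hSD m hm))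
        ⟨T.γ e, T.γ_out e⟩ ⟨T.γ e, T.γ_out e⟩ 2 hc (Or.inl rfl)
        (Subgroup.mem_zpowers _) (hc ▸ Nat.prime_two) l1
      refine ⟨x, r, z, R, k1, k5, fun e' he' => ?_, fun h => absurd h hv⟩
      obtain rfl := T.out_inj he'
      exact ⟨h2 e' he ▸ k2, fun _ => k3, fun h => absurd h he⟩
  choose x r z R k1 k2 k3 k4 using key
  have inn : ∀ e, ∃ R', Cel (x (T.inn e)) (r (T.inn e)) (z (T.inn e)) (T.γ e) (orderOf (T.γ e)) R' ∧
      (e = j → R' = 1 + R T.root) := fun e => by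
    by_cases he : e = j
    · subst he
      rw [hj, h6]
      exact ⟨_, (k4 _ rfl).1, fun _ => rfl⟩
    · obtain ⟨R', h⟩ := k2 _ _ (T.γ_inn e) (h2 e he)
      exact ⟨R', h2 e he ▸ h, fun h => absurd h he⟩
  choose Ri hRi hRj using inn
  choose ai ci i1 i2 i3 using hRi
  choose ao co o1 o2 o3 using fun e => (k3 _ e rfl).1
  refine hASM P V Ed T x r z _ ao ai co ci _ k1 o1 i1 o2 i2
    (hQQ P V Ed T j hS z (fun e => 1 + R (T.out e)) Ri co ci (fun v => (k1 v).2.2.2.2.2.2) o3 i3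
      ?_ ?_ ?_ ?_ ?_)
  · intro e he
    simpa using (k3 _ e rfl).2.1 he
  · simpa using ((k3 _ j rfl).2.2 rfl).1
  · exact (Commute.one_left _).add_left ((k3 _ j rfl).2.2 rfl).2
  · simpa [hRj j rfl] using (k4 _ rfl).2.1
  · rw [hRj j rfl]
    exact (Commute.one_left _).add_left (k4 _ rfl).2.2

end Pool.Agent.PDC
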