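import Pool.Agent.Lib.PDC.S17

/-! The periodic resolution data for the binary tetrahedral group. -/

namespace Pool.Agent.PDC

open Pool.Agent.PD3 X17

theorem r_SWA : R_SWA := by
  rintro ⟨x, hx⟩
  have e0 : x 0 * x 1 * x 1 * x 0 * (x 1)⁻¹ = 1 := by simpa [relA] using hx.1 0
  have e1 : x 1 * x 0 * x 0 * x 1 * (x 0)⁻¹ = 1 := by simpa [relA] using hx.1 1
  have f0 : x 0 * x 1 * x 1 * x 0 = x 1 := mul_inv_eq_one.1 e0
  have f1 : x 1 * x 0 * x 0 * x 1 = x 0 := mul_inv_eq_one.1 e1
  have g0 : o (x 0) * o (x 1) * o (x 1) * o (x 0) = o (x 1) := by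
    simp only [← map_mul, f0]
  have g1 : o (x 1) * o (x 0) * o (x 0) * o (x 1) = o (x 0) := by
    simp only [← map_mul, f1]
  refine ⟨x, relA, ![1 - o (x 1 * x 0), 1 - o (x 0 * x 1)], hx, ?_, ?_, RI_top hx.2.1 ?_⟩
  · have a00 : fox x (relA 0) 0 = 1 + o (x 0) * o (x 1) * o (x 1) := by
      simp [relA, fox_mul, fox_inv]
    have a01 : fox x (relA 0) 1 = o (x 0) + o (x 0) * o (x 1) - 1 := by
      simp [relA, fox_mul, fox_inv, g0, o_mul_inv, sub_eq_add_neg]
    have a10 : fox x (relA 1) 0 = o (x 1) + o (x 1) * o (x 0) - 1 := by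
      simp [relA, fox_mul, fox_inv, g1, o_mul_inv, sub_eq_add_neg]
    have a11 : fox x (relA 1) 1 = 1 + o (x 1) * o (x 0) * o (x 0) := by
      simp [relA, fox_mul, fox_inv]
    funext i
    fin_cases i
    · simp only [Fin.sum_univ_two, Pi.add_apply, Pi.smul_apply, smul_eq_mul, Fin.zero_eta,
        Matrix.cons_val_zero, Matrix.cons_val_one, a00, a10, map_mul, Pi.zero_apply]
      generalize o (x 0) = A at *
      generalize o (x 1) = B at *
      have : (1 - B * A) * (1 + A * B * B) + (1 - A * B) * (B + B * A - 1) =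
          -((B * A * A * B - A) * B) - (A * B * B * A - B) := by noncomm_ring
      rw [this, g0, g1]; simp
    · simp only [Fin.sum_univ_two, Pi.add_apply, Pi.smul_apply, smul_eq_mul, Fin.mk_one,
        Matrix.cons_val_zero, Matrix.cons_val_one, a01, a11, map_mul, Pi.zero_apply]
      generalize o (x 0) = A at *
      generalize o (x 1) = B at *
      have : (1 - B * A) * (A + A * B - 1) + (1 - A * B) * (1 + B * A * A) =
          -((A * B * B * A - B) * A) - (B * A * A * B - A) := by noncomm_ring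
      rw [this, g0, g1]; simp
  · intro k
    fin_cases k <;> simp
  · have hba : x 1 * x 0 ∈ RI ![1 - o (x 1 * x 0), 1 - o (x 0 * x 1)] :=
      ⟨![-1, 0], by simp⟩
    have hab : x 0 * x 1 ∈ RI ![1 - o (x 1 * x 0), 1 - o (x 0 * x 1)] :=
      ⟨![0, -1], by simp⟩
    intro i
    fin_cases i
    · have := Subgroup.mul_mem _ hba hab
      rw [← mul_assoc, f1] at this
      exact this
    · have := Subgroup.mul_mem _ hab hba
      rw [← mul_assoc, f0] at this
      exact this

end Pool.Agent.PDC
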