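import Pool.Agent.Lib.PDC.S17

/-! The periodic resolution data for odd dihedral groups and their products with `C3`. -/

namespace Pool.Agent.PDC

open Pool.Agent.PD3 X17

theorem X17.swan_of (h1 : St_SWB1) (h2 : St_SWB2) {G : Type} [Group G] {z w : G} {s d : ℕ}
    (μ : ℕ) (hp : Pres ![z, w] (relB s d)) (hz : z ^ (2 * d) = 1) (hw : w ^ (2 * s + 1) = 1)
    (hc : z * w = w⁻¹ * z) (hμ : d * μ = 2 * s ∨ d * μ = 2 * s + 2) : Swan G := by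
  obtain ⟨⟨a, b, h3⟩, a', b', h4⟩ := h2 G z w s d μ hz hw hc hμ
  refine ⟨![z, w], relB s d, ![zB0 z w s d μ, zB1 z w s d μ], hp, h1 G z w s d μ hz hw hc,
    Fin.forall_fin_two.2 ⟨by simp [zB0], by simp [zB1]⟩,
    RI_top hp.2.1 (Fin.forall_fin_two.2 ⟨⟨![a, b], ?_⟩, ⟨![a', b'], ?_⟩⟩)⟩
  · simpa using h3
  · simpa using h4

theorem r_SWB : R_SWB := by
  intro hp h1 h2
  refine ⟨fun m hm => ?_, ?_⟩
  · have a2 : Nat.Coprime m 2 := hm.coprime_dvd_right (by norm_num)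
    have a3 : Nat.Coprime m 3 := hm.coprime_dvd_right (by norm_num)
    obtain ⟨s, rfl⟩ := Nat.coprime_two_right.1 a2
    have a4 : ¬ 3 ∣ 2 * s + 1 := (Nat.Prime.coprime_iff_not_dvd Nat.prime_three).1 a3.symm
    obtain ⟨-, z, w, a, b, c, e⟩ := hp s
    obtain ⟨μ, hμ⟩ : ∃ μ, 3 * μ = 2 * s ∨ 3 * μ = 2 * s + 2 := ⟨(2 * s + 2) / 3, by omega⟩
    exact swan_of h1 h2 μ a b c e hμ
  · rintro k ⟨s, rfl⟩
    obtain ⟨⟨z, w, a, b, c, e⟩, -⟩ := hp s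
    exact swan_of h1 h2 (2 * s) a b c e (Or.inl (one_mul _))

end Pool.Agent.PDC
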