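import Pool.Agent.Lib.PDC.Blue

/-! Row SWB2: the entries of the cycle generate the augmentation ideal. -/

namespace Pool.Agent.PDC

namespace X10

variable {G : Type} [Group G]

lemma Ns_sub_cast (g : G) (n : ℕ) : ∃ c : L G, Ns g n = n • (1 : L G) + (o g - 1) * c := by
  induction n with
  | zero => exact ⟨0, by simp [Ns]⟩
  | succ n ih =>
    obtain ⟨c, hc⟩ := ih
    refine ⟨c + Ns g n, ?_⟩
    rw [Ns_succ, mul_add, sub_mul_Ns, add_smul, one_smul]
    conv_lhs => rw [hc]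
    abel

lemma comm_o_Ns {a g : G} (c : Commute a g) (n : ℕ) : Commute (o a : L G) (Ns g n) :=
  Commute.sum_right _ _ _ fun i _ => (c.pow_right i).map o

lemma N_mul_pow {w : G} {m : ℕ} (hw : w ^ m = 1) (i : ℕ) : Ns w m * o w ^ i = Ns w m := by
  have h1 : Ns w m * o w = Ns w m := by
    have := Ns_mul_sub w m
    rwa [← map_pow, hw, map_one, sub_self, mul_sub, mul_one, sub_eq_zero] at this
  induction i with
  | zero => simp
  | succ i ih => rw [pow_succ, ← mul_assoc, ih, h1]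

lemma N_mul_Ns {w : G} {m : ℕ} (hw : w ^ m = 1) (k : ℕ) : Ns w m * Ns w k = k • Ns w m := by
  induction k with
  | zero => simp [Ns]
  | succ k ih => rw [Ns_succ, mul_add, ih, N_mul_pow hw, add_smul, one_smul]

lemma conj_pow' {z w : G} (h : z * w = w⁻¹ * z) (i : ℕ) : z * w ^ i = (w ^ i)⁻¹ * z := by
  induction i with
  | zero => simp
  | succ i ih => rw [pow_succ', ← mul_assoc, h, mul_assoc, ih, ← pow_succ', pow_succ, mul_inv_rev,
      mul_assoc]

lemma comm_z_N {z w : G} {m : ℕ} (hw : w ^ m = 1) (h : z * w = w⁻¹ * z) :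
    Commute (o z : L G) (Ns w m) := by
  have e : ∑ i ∈ Finset.range m, (o (w ^ i)⁻¹ : L G) = Ns w m := by
    rw [← N_mul_pow hw 1, pow_one, Ns, ← Finset.sum_range_reflect (fun i => (o (w ^ i) : L G)),
      Finset.sum_mul]
    refine Finset.sum_congr rfl fun i hi => ?_
    rw [← map_mul, ← pow_succ]
    refine congrArg o (inv_eq_of_mul_eq_one_right ?_)
    rw [← pow_add, ← hw]
    have := Finset.mem_range.1 hi
    exact congrArg _ (by omega)
  change o z * Ns w m = Ns w m * o z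
  conv_rhs => rw [← e]
  rw [Ns, Finset.mul_sum, Finset.sum_mul]
  exact Finset.sum_congr rfl fun i _ => by rw [← map_mul, ← map_mul, conj_pow' h]

lemma Ns_add (g : G) (a b : ℕ) : Ns g (a + b) = Ns g a + Ns g b * o g ^ a := by
  induction b with
  | zero => simp [Ns]
  | succ b ih => rw [← add_assoc, Ns_succ, ih, Ns_succ, add_mul, ← pow_add, add_comm b a, add_assoc]

end X10

open X10 in
theorem r_SWB2 : St_SWB2 := by
  intro G _ z w s d μ hz hw h hd
  let J : AddSubgroup (L G) :=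
    { carrier := {x | ∃ a b, x = zB0 z w s d μ * a + zB1 z w s d μ * b}
      zero_mem' := ⟨0, 0, by simp⟩
      add_mem' := by
        rintro _ _ ⟨a, b, rfl⟩ ⟨a', b', rfl⟩
        exact ⟨a + a', b + b', by rw [mul_add, mul_add]; abel⟩
      neg_mem' := by
        rintro _ ⟨a, b, rfl⟩
        exact ⟨-a, -b, by rw [mul_neg, mul_neg, neg_add]⟩ }
  have mulJ : ∀ {x : L G}, x ∈ J → ∀ y, x * y ∈ J := by
    rintro _ ⟨a, b, rfl⟩ y
    exact ⟨a * y, b * y, by rw [add_mul, mul_assoc, mul_assoc]⟩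
  have j0 : zB0 z w s d μ ∈ J := ⟨1, 0, by simp⟩
  have j1 : zB1 z w s d μ ∈ J := ⟨0, 1, by simp⟩
  have eqJ : ∀ {x y : L G}, x ∈ J → y = x → y ∈ J := fun hx e => e ▸ hx
  have cq : Commute (z ^ 2) w := by
    have h' : z * w⁻¹ = w * z := by
      rw [mul_inv_eq_iff_eq_mul, mul_assoc, h, mul_inv_cancel_left]
    change z ^ 2 * w = w * z ^ 2
    rw [sq, mul_assoc, h, ← mul_assoc, h', mul_assoc]
  have cZN := comm_z_N hw h
  have cWk : ∀ k, Commute (o w : L G) (Ns w k) := comm_o_Ns (Commute.refl w)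
  have cWD : Commute (o w : L G) (Ns (z ^ 2) d) := comm_o_Ns cq.symm d
  have cZD : Commute (o z : L G) (Ns (z ^ 2) d) := comm_o_Ns (Commute.self_pow z 2) d
  have ckD : ∀ k, Commute (Ns w k) (Ns (z ^ 2) d) := fun k =>
    Commute.sum_left _ _ _ fun i _ => comm_o_Ns (cq.symm.pow_left i) d
  have ckN : ∀ k, Commute (Ns w k) (Ns w (2 * s + 1)) := fun k =>
    Commute.sum_left _ _ _ fun i _ => comm_o_Ns (Commute.pow_self w i) _
  have cqW : Commute (o z ^ 2 : L G) (o w) := by rw [← map_pow]; exact cq.map o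
  have DZ : Ns (z ^ 2) d * (o z * o z) = Ns (z ^ 2) d := by
    have := N_mul_pow (w := z ^ 2) (m := d) (by rw [← pow_mul, hz]) 1
    rwa [pow_one, map_pow, sq (o z)] at this
  have NP : ∀ i x, Ns w (2 * s + 1) * (o w ^ i * x) = Ns w (2 * s + 1) * x := fun i x => by
    rw [← mul_assoc, N_mul_pow hw]
  have NN : ∀ k x, Ns w (2 * s + 1) * (Ns w k * x) = k • (Ns w (2 * s + 1) * x) := fun k x => by
    rw [← mul_assoc, N_mul_Ns hw, smul_mul_assoc]
  have SV : Ns w (s + 1) * (1 + o w ^ (s + 1)) = Ns w (2 * s + 1) + 1 := by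
    rw [mul_add, mul_one, ← Ns_add, show s + 1 + (s + 1) = 2 * s + 1 + 1 by ring, Ns_succ,
      ← map_pow, hw, map_one]
  have vvi : (o w ^ (s + 1) * o w ^ s : L G) = 1 := by
    rw [← pow_add, ← map_pow, show s + 1 + s = 2 * s + 1 by ring, hw, map_one]
  have zvi : (o z * o w ^ s : L G) = o w ^ (s + 1) * o z := by
    rw [← map_pow, ← map_pow, ← map_mul, ← map_mul, conj_pow' h]
    refine congrArg o (congrArg (· * z) (inv_eq_of_mul_eq_one_right ?_))
    rw [← pow_add, show s + (s + 1) = 2 * s + 1 by ring, hw]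
  obtain ⟨cD, eD⟩ := Ns_sub_cast (z ^ 2) d
  obtain ⟨cM, eM⟩ := Ns_sub_cast w μ
  obtain ⟨cN, eN⟩ := Ns_sub_cast w (2 * s + 1)
  rw [map_pow] at eD
  have geo := (cqW.pow_right μ).mul_geom_sum₂ d
  rw [← pow_mul, ← pow_mul, ← map_pow o z (2 * d), hz, map_one] at geo
  have e0 : zB0 z w s d μ = Ns w (s + 1) * (o z ^ 2 - o w ^ μ) + (Ns w (2 * s + 1) +
      (s • ((1 + o w ^ (s + 1)) * Ns w μ) - μ • Ns w (2 * s + 1)) * Ns (z ^ 2) d) * (1 - o z) := by
    rw [zB0, nsmul_eq_mul, nsmul_eq_mul, mul_assoc (s : L G)]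
  have e1 : zB1 z w s d μ = Ns w μ * Ns (z ^ 2) d * (o w ^ (s + 1) - o z) +
      Ns w (2 * s + 1) * (o z - 1) := rfl
  have uM := sub_mul_Ns w μ
  have vM := sub_mul_Ns w (s + 1)
  have NW := N_mul_pow hw
  have NK := N_mul_Ns hw
  have cvD := (cWD.pow_left (s + 1)).eq
  have cvM := ((cWk μ).pow_left (s + 1)).eq
  have cWN := cWk (2 * s + 1)
  have cSN := ckN (s + 1)
  have cMN := ckN μ
  have cND := ckD (2 * s + 1)
  have cNN := Commute.refl (Ns w (2 * s + 1))
  have c0 : Commute (zB0 z w s d μ) (Ns w (2 * s + 1)) := by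
    rw [e0]
    exact (cSN.mul_left ((cZN.pow_left 2).sub_left (cWN.pow_left μ))).add_left
      ((cNN.add_left ((((((Commute.one_left _).add_left (cWN.pow_left _)).mul_left
        cMN).smul_left s).sub_left (cNN.smul_left μ)).mul_left cND.symm)).mul_left
        ((Commute.one_left _).sub_left cZN))
  have c1 : Commute (zB1 z w s d μ) (Ns w (2 * s + 1)) := by
    rw [e1]
    exact ((cMN.mul_left cND.symm).mul_left ((cWN.pow_left _).sub_left cZN)).add_left
      (cNN.mul_left (cZN.sub_left (Commute.one_left _)))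
  have cuv : Commute (o z ^ 2 - o w ^ μ : L G) (1 + o w ^ (s + 1)) :=
    (Commute.one_right _).add_right
      ((cqW.pow_right _).sub_left ((Commute.refl (o w)).pow_pow μ (s + 1)))
  have a0 := mulJ j0 (Ns w (2 * s + 1))
  have a1 := mulJ j1 (Ns w (2 * s + 1))
  rw [c0.eq] at a0
  rw [c1.eq] at a1
  rw [e0] at j0 a0
  rw [e1] at j1 a1
  have NDv : Ns w (2 * s + 1) * (Ns (z ^ 2) d * o w ^ (s + 1)) =
      Ns w (2 * s + 1) * Ns (z ^ 2) d := by rw [← cvD, NP]
  have cZD' := cZD.eq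
  have hdZ : ((2 * s + 1 : ℕ) : ℤ) - d * μ = 1 ∨ ((2 * s + 1 : ℕ) : ℤ) - d * μ = -1 := by
    rcases hd with hd | hd
    · left; rw [← Nat.cast_mul, hd]; push_cast; ring
    · right; rw [← Nat.cast_mul, hd]; push_cast; ring
  have unit : ∀ x : L G, (((2 * s + 1 : ℕ) : ℤ) - d * μ) • x ∈ J → x ∈ J := fun x hx => by
    rcases hdZ with e | e
    · rwa [e, one_smul] at hx
    · rwa [e, neg_smul, one_smul, neg_mem_iff] at hx
  have hW : (o w : L G) ^ (2 * s + 1) = 1 := by rw [← map_pow, hw, map_one]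
  generalize (∑ i ∈ Finset.range d, _ : L G) = gs at geo
  change o z - 1 ∈ J ∧ o w - 1 ∈ J
  clear_value J
  clear c0 c1 e0 e1 cuv
  have cuv : Commute (o z ^ 2 - o w ^ μ : L G) (1 + o w ^ (s + 1)) :=
    (Commute.one_right _).add_right
      ((cqW.pow_right _).sub_left ((Commute.refl (o w)).pow_pow μ (s + 1)))
  set N := Ns w (2 * s + 1)
  set D := Ns (z ^ 2) d
  set M := Ns w μ
  set S := Ns w (s + 1)
  set Z : L G := o z
  have NS : ∀ x, N * (S * x) = (s + 1) • (N * x) := NN _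
  have NM : ∀ x, N * (M * x) = μ • (N * x) := NN _
  have NN' : ∀ x, N * (N * x) = (2 * s + 1) • (N * x) := NN _
  have NN1 : N * N = (2 * s + 1) • N := NK _
  have b1 : (2 * s + 1) • (N * (Z - 1)) - μ • (N * (D * (Z - 1))) ∈ J := eqJ a1 (by
    simp only [mul_add, mul_sub, mul_assoc, mul_one, NM, NN', NN1, NDv]
    module)
  have b0 : (s + 1) • (N * (Z * Z - 1)) ∈ J := eqJ (add_mem a0 b1) (by
    simp only [mul_add, add_mul, mul_sub, sub_mul, mul_assoc, mul_one, one_mul, smul_mul_assoc,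
      mul_smul_comm, NS, NM, NN', NN1, NP, NW, sq]
    module)
  have b2 : (2 * s + 1) • (N * (Z * Z - 1)) ∈ J := eqJ (mulJ b1 (Z + 1)) (by
    simp only [mul_add, mul_sub, sub_mul, mul_assoc, mul_one, smul_mul_assoc, DZ]
    module)
  have b3 : N * (Z * Z - 1) ∈ J := eqJ (sub_mem (nsmul_mem b0 2) b2) (by module)
  have b4 : N * (Z - 1) ∈ J := unit _ (eqJ (add_mem b1 (nsmul_mem (mulJ b3 (cD * (Z - 1))) μ)) (by
    rw [eD]
    simp only [add_mul, mul_add, mul_assoc, one_mul, smul_mul_assoc, mul_smul_comm, sq]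
    module))
  have b5 : M * D * (o w ^ (s + 1) - Z) ∈ J := eqJ (sub_mem j1 b4) (by abel)
  have b6 : (1 + o w ^ (s + 1)) * M * D * (1 - Z) ∈ J := eqJ (mulJ b5 (1 + o w ^ s)) (by
    have : (o w ^ (s + 1) - Z) * (1 + o w ^ s) = (1 + o w ^ (s + 1)) * (1 - Z) := by
      simp only [mul_add, add_mul, mul_sub, sub_mul, mul_one, one_mul, vvi, zvi]
      abel
    rw [mul_assoc (M * D), this, ← mul_assoc]
    refine congrArg (· * (1 - Z)) ?_
    rw [add_mul, add_mul, mul_add, one_mul, mul_one, cvM, mul_assoc M _ D, cvD, mul_assoc])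
  have b7 : S * (Z ^ 2 - o w ^ μ) ∈ J :=
    eqJ (sub_mem (sub_mem (add_mem j0 b4) (nsmul_mem b6 s)) (nsmul_mem (mulJ b4 D) μ)) (by
      simp only [add_mul, mul_sub, sub_mul, mul_assoc, mul_one, one_mul, smul_mul_assoc, cZD']
      module)
  have b8 : Z ^ 2 - o w ^ μ ∈ J := eqJ (sub_mem (mulJ b7 (1 + o w ^ (s + 1))) b3) (by
    rw [mul_assoc, cuv.eq, ← mul_assoc, SV]
    simp only [add_mul, mul_sub, mul_one, one_mul, NW, sq]
    abel)
  have b9 : 1 - o w ^ (μ * d) ∈ J := eqJ (mulJ b8 gs) geo.symm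
  have bw : o w - 1 ∈ J := by
    rw [mul_comm] at b9
    rcases hd with hd | hd
    · exact eqJ (mulJ b9 (o w)) (by rw [hd, sub_mul, one_mul, ← pow_succ, hW])
    · exact eqJ (neg_mem b9) (by rw [hd, pow_succ, hW, one_mul, neg_sub])
  refine ⟨unit _ ?_, bw⟩
  have bu : o w ^ μ - 1 ∈ J := eqJ (mulJ bw M) uM.symm
  have bv : o w ^ (s + 1) - 1 ∈ J := eqJ (mulJ bw S) vM.symm
  have bq : Z ^ 2 - 1 ∈ J := eqJ (add_mem b8 bu) (by abel)
  have c1 : μ • (D * (o w ^ (s + 1) - Z)) ∈ J :=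
    eqJ (sub_mem b5 (mulJ bw (cM * (D * (o w ^ (s + 1) - Z))))) (by
      rw [eM]
      simp only [add_mul, mul_assoc, one_mul, smul_mul_assoc]
      abel)
  have c2 : μ • d • (o w ^ (s + 1) - Z) ∈ J :=
    eqJ (sub_mem c1 (nsmul_mem (mulJ bq (cD * (o w ^ (s + 1) - Z))) μ)) (by
      rw [eD]
      simp only [add_mul, mul_assoc, one_mul, smul_mul_assoc]
      module)
  have c3 : (2 * s + 1) • (Z - 1) ∈ J := eqJ (sub_mem b4 (mulJ bw (cN * (Z - 1)))) (by
    rw [eN]
    simp only [add_mul, mul_assoc, one_mul, smul_mul_assoc]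
    abel)
  exact eqJ (sub_mem (add_mem c3 c2) (nsmul_mem (nsmul_mem bv d) μ)) (by module)

end Pool.Agent.PDC
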