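import Pool.Agent.Lib.PDC.S17

/-! Transport of the periodic resolution data along an isomorphism. -/

namespace Pool.Agent.PDC

open Pool.Agent.PD3 X17

theorem r_SWC : St_SWC := by
  rintro G G' _ _ e ⟨x, r, z, ⟨h1, h2, h3⟩, h4, h5, h6⟩
  let φ : G' →* G := e.symm.toMonoidHom
  refine ⟨fun i => φ (x i), r, fun k => MonoidAlgebra.mapDomainRingHom ℤ φ (z k),
    ⟨fun k => by rw [lift_comp, h1, map_one], fun g => ?_, fun Q _ f hf => ?_⟩, ?_,
    fun k => by rw [aug_map, h5], fun g => ?_⟩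
  · obtain ⟨a, ha⟩ := h2 (e g)
    exact ⟨a, by rw [lift_comp, ha]; simp [φ]⟩
  · obtain ⟨ψ, hψ⟩ := h3 Q f hf
    exact ⟨ψ.comp e.toMonoidHom, fun i => by simp [φ, hψ]⟩
  · funext i
    have := congrArg (MonoidAlgebra.mapDomainRingHom ℤ φ) (congrFun h4 i)
    simp only [Finset.sum_apply, Pi.smul_apply, smul_eq_mul, map_sum, map_mul, Pi.zero_apply,
      map_zero] at this ⊢
    simp only [fox_hom]
    exact this
  · obtain ⟨w, hw⟩ := h6 (e g)
    refine ⟨fun k => MonoidAlgebra.mapDomainRingHom ℤ φ (w k), ?_⟩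
    have := congrArg (MonoidAlgebra.mapDomainRingHom ℤ φ) hw
    simp only [map_sub, map_one, map_o, map_sum, map_mul] at this
    rw [← this]
    simp [φ]

end Pool.Agent.PDC
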