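import Pool.Agent.Lib.PDC.Blue
import Pool.Agent.Lib.MP_f61c0f_gt.H4VFree

namespace Pool.Agent.PDC

namespace X59

theorem orbit_rep {P Ω : Type} [Group P] (ρ : P →* Equiv.Perm Ω) (H : Subgroup P) :
    ∃ b : Ω → Ω, (∀ ω, ∃ h ∈ H, ρ h (b ω) = ω) ∧ ∀ h ∈ H, ∀ ω, b (ρ h ω) = b ω := by
  refine ⟨fun ω => (Quotient.mk (MulAction.orbitRel (H.map ρ) Ω) ω).out, fun ω => ?_,
    fun h hh ω => congrArg Quotient.out (Quotient.sound ⟨⟨_, h, hh, rfl⟩, rfl⟩)⟩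
  obtain ⟨⟨_, h, hh, rfl⟩, h1⟩ : (MulAction.orbitRel (H.map ρ) Ω) ω
      (Quotient.mk (MulAction.orbitRel (H.map ρ) Ω) ω).out :=
    Quotient.exact (Quotient.out_eq _).symm
  exact ⟨h, hh, h1⟩

end X59

theorem r_VF : St_VF := by
  intro P V Ed _ T
  choose b hb1 hb2 using X59.orbit_rep T.ρ
  choose r hr1 hr2 using hb1
  have hr : ∀ v, ∀ g ∈ T.H v, ∀ ω, r (T.H v) (T.ρ g ω) = g * r (T.H v) ω := by
    intro v g hg ω
    rw [← inv_mul_eq_one]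
    refine T.free v _ (mul_mem (inv_mem (hr1 _ _)) (mul_mem hg (hr1 _ _))) (b (T.H v) ω) ?_
    rw [map_mul, map_mul, map_inv, Equiv.Perm.mul_apply, Equiv.Perm.mul_apply, hr2,
      Equiv.Perm.inv_eq_iff_eq, ← hb2 _ g hg ω, hr2]
  let x : Ed → T.Ω → FreeGroup (Ed × T.Ω) := fun e ω => .of (e, b (Subgroup.zpowers (T.γ e)) ω)
  obtain ⟨g, g0, g1⟩ := T.rec_up (M := T.Ω → FreeGroup (Ed × T.Ω)) 1 fun e m ω => m ω * x e ω
  let lam : FreeGroup (Ed × T.Ω) →* P :=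
    FreeGroup.lift fun p => (r (T.H (T.inn p.1)) p.2)⁻¹ * r (T.H (T.out p.1)) p.2
  have l1 : ∀ e ω, lam (x e ω) = (r (T.H (T.inn e)) ω)⁻¹ * r (T.H (T.out e)) ω := by
    intro e ω
    have h1 := hr1 (Subgroup.zpowers (T.γ e)) ω
    conv_rhs => rw [← hr2 (Subgroup.zpowers (T.γ e)) ω,
      hr _ _ (Subgroup.zpowers_le.2 (T.γ_inn e) h1), hr _ _ (Subgroup.zpowers_le.2 (T.γ_out e) h1)]
    simp [lam, x, mul_assoc]
  have l2 : ∀ v ω, lam (g v ω) = (r (T.H T.root) ω)⁻¹ * r (T.H v) ω :=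
    T.up (by simp [g0]) fun e ih ω => by simp [g1, ih, l1, mul_assoc]
  obtain ⟨Φ, hΦ⟩ := T.lift _ (fun v => H4VFree.permHom
    (fun (h : T.H v) (p : T.Ω × FreeGroup (Ed × T.Ω)) =>
      (T.ρ h p.1, g v (T.ρ h p.1) * (g v p.1)⁻¹ * p.2)) (by simp) (by simp [mul_assoc]))
    fun e => by
      ext1 p
      simp [H4VFree.permHom, g1, x, hb2 _ _ (Subgroup.mem_zpowers (T.γ e)), mul_assoc]
  let K : Subgroup P :=
    { carrier := {p | ∀ ω, ∃ c, (∀ f, Φ p (ω, f) = (T.ρ p ω, c * f)) ∧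
        lam c = (r (T.H T.root) (T.ρ p ω))⁻¹ * p * r (T.H T.root) ω}
      one_mem' := fun ω => ⟨1, by simp, by simp⟩
      mul_mem' := fun {p q} hp hq ω => by
        obtain ⟨c, hc, hc'⟩ := hq ω
        obtain ⟨e, he, he'⟩ := hp (T.ρ q ω)
        exact ⟨e * c, fun f => by simp [hc, he, mul_assoc], by simp [hc', he', mul_assoc]⟩
      inv_mem' := fun {p} hp ω => by
        obtain ⟨c, hc, hc'⟩ := hp (T.ρ p⁻¹ ω)
        refine ⟨c⁻¹, fun f => ?_, by simp [hc', mul_assoc]⟩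
        rw [map_inv, Equiv.Perm.inv_eq_iff_eq, hc]
        simp }
  have hK : K = ⊤ := T.gen K fun v h hh ω =>
    ⟨g v (T.ρ h ω) * (g v ω)⁻¹, fun f => by simp [hΦ v ⟨h, hh⟩, H4VFree.permHom],
      by simp [l2, hr v h hh, mul_assoc]⟩
  obtain ⟨ω⟩ := T.neΩ
  have := T.finΩ
  refine ⟨T.ρ.ker, inferInstance, ?_⟩
  have hk : ∀ p : T.ρ.ker, (∀ f, Φ p (ω, f) = (ω, (Φ p (ω, 1)).2 * f)) ∧
      lam (Φ p (ω, 1)).2 = (r (T.H T.root) ω)⁻¹ * p * r (T.H T.root) ω := by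
    intro p
    obtain ⟨c, hc, hc'⟩ := hK.ge (Subgroup.mem_top p.1) ω
    have h0 : T.ρ p = 1 := p.2
    simp only [h0, Equiv.Perm.coe_one, id] at hc hc'
    simp only [hc, mul_one, implies_true, true_and, hc']
  let κ : T.ρ.ker →* FreeGroup (Ed × T.Ω) :=
    { toFun := fun p => (Φ p (ω, 1)).2
      map_one' := by simp
      map_mul' := fun p q => by
        rw [Subgroup.coe_mul, map_mul, Equiv.Perm.mul_apply, (hk q).1, (hk p).1, mul_one] }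
  have hκ : Function.Injective κ := fun p q h => Subtype.ext (by
    have h1 := (hk p).2.symm.trans ((congrArg lam h).trans (hk q).2)
    simpa using h1)
  exact ((IsFreeGroup.basis κ.range).map (MonoidHom.ofInjective hκ).symm).isFreeGroup

end Pool.Agent.PDC
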