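import Pool.Agent.Lib.PDC.Blue

/-! Block ZIG: the zigzag through the duality complex for an element of prime order. -/

namespace Pool.Agent.PDC

open Pool.Agent.PD3

namespace X79

variable {P : Type} [Group P]

lemma Ns_eq_add (g : P) (r : ℕ) : ∃ c : L P, Ns g r = (r : L P) + (o g - 1) * c := by
  induction r with
  | zero => exact ⟨0, by simp [Ns]⟩
  | succ r ih =>
    obtain ⟨c, hc⟩ := ih
    refine ⟨c + Ns g r, ?_⟩
    rw [Ns_succ, mul_add, sub_mul_Ns, Nat.cast_succ]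
    nth_rewrite 1 [hc]
    abel

lemma eps_Ns {M : Type} [AddCommGroup M] [Module (L P) M] (ε : M →+ ℤ)
    (hε : ∀ (g : P) y, ε (o g • y) = ε y) (g : P) (n : ℕ) (y : M) :
    ε (Ns g n • y) = n * ε y := by
  rw [Ns, Finset.sum_smul, map_sum]
  simp only [hε]
  simp

end X79

theorem r_ZIG : R_ZIG := by
  intro hC P _ hP g p hp hg
  obtain ⟨k1, k2, k3, j, d1, d2, ε, hj, e1, e2, e3, hs, hε⟩ := hP
  obtain ⟨ca, cb, -, cd⟩ := hC P g p hp.pos hg
  have hgp : o g ^ p = (1 : L P) := by rw [← map_pow, ← hg, pow_orderOf_eq_one, map_one]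
  have hTN : (o g - 1) * Ns g p = 0 := by rw [sub_mul_Ns, hgp, sub_self]
  have hNT : Ns g p * (o g - 1) = 0 := by rw [Ns_mul_sub, hgp, sub_self]
  have hMT : ∀ r, Ns g r * (o g - 1) = (o g - 1) * Ns g r := fun r => by
    rw [Ns_mul_sub, sub_mul_Ns]
  have hsT : ∀ (s : P) (r : ℕ), s * g * s⁻¹ = g ^ r →
      o s * (o g - 1) = (o g - 1) * Ns g r * o s := fun s r h => by
    rw [sub_mul_Ns, ← map_pow, ← h, mul_sub, sub_mul, ← map_mul, ← map_mul, inv_mul_cancel_right,
      mul_one, one_mul]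
  have hεT : ∀ y, ε ((o g - 1) • y) = 0 := fun y => by
    rw [sub_smul, one_smul, map_sub, hε, sub_self]
  have hεN : ∀ y, ε (Ns g p • y) = p * ε y := X79.eps_Ns ε hε g p
  have hadd := X79.Ns_eq_add g
  unfold ZigAt
  generalize o g - 1 = T at *
  generalize hNd : Ns g p = N at *
  have va : ∀ {k : ℕ} (y : Fin k → L P), N • y = 0 → ∃ μ : Fin k → L P, y = T • μ := by
    intro k y h
    choose μ _ hμ using fun i => ca ⊥ inferInstance (y i) (rInv_bot _) (congrFun h i)
    exact ⟨μ, funext hμ⟩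
  have vb : ∀ {k : ℕ} (y : Fin k → L P), T • y = 0 → ∃ μ : Fin k → L P, y = N • μ := by
    intro k y h
    choose μ hμ using fun i => cb (y i) (congrFun h i)
    exact ⟨μ, funext hμ⟩
  have z1 : ∀ D, d1 (j D) = 0 := e1.apply_apply_eq_zero
  have z2 : ∀ y, d2 (d1 y) = 0 := e2.apply_apply_eq_zero
  have z3 : ∀ y, ε (d2 y) = 0 := e3.apply_apply_eq_zero
  obtain ⟨x3, h3⟩ := hs 1
  obtain ⟨x2, h2⟩ := (e3 (T • x3)).1 (hεT x3)
  obtain ⟨x1, h1⟩ := (e2 (N • x2)).1 (by rw [map_smul, h2, smul_smul, hNT, zero_smul])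
  obtain ⟨D0, h0⟩ := (e1 (T • x1)).1 (by rw [map_smul, h1, smul_smul, hTN, zero_smul])
  refine ⟨D0, hj ?_, fun D' hD => ?_, fun D hD => ?_, fun s r hsr => ?_⟩
  · rw [map_smul, h0, smul_smul, hNT, zero_smul, map_zero]
  · obtain ⟨u1, hu1⟩ := vb (x1 - j D') (by rw [smul_sub, ← h0, hD, map_smul, sub_self])
    have a1 := congrArg d1 hu1
    rw [map_sub, z1, sub_zero, h1, map_smul] at a1
    obtain ⟨u2, hu2⟩ := va (x2 - d1 u1) (by rw [smul_sub, a1, sub_self])
    have a2 := congrArg d2 hu2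
    rw [map_sub, z2, sub_zero, h2, map_smul] at a2
    obtain ⟨u3, hu3⟩ := vb (x3 - d2 u2) (by rw [smul_sub, a2, sub_self])
    have a3 := congrArg ε hu3
    rw [map_sub, z3, sub_zero, h3, hεN] at a3
    have : (p : ℤ) ∣ 1 := ⟨_, a3⟩
    exact hp.one_lt.ne' (Nat.eq_one_of_dvd_one (by exact_mod_cast this))
  · obtain ⟨y1, hy1⟩ := va (j D) (by rw [← map_smul, hD, map_zero])
    obtain ⟨y2, hy2⟩ := vb (d1 y1) (by rw [← map_smul, ← hy1, z1])
    obtain ⟨y3, hy3⟩ := va (d2 y2) (by rw [← map_smul, ← hy2, z2])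
    obtain ⟨u2, hu2⟩ := (e3 (y3 - ε y3 • x3)).1 (by
      rw [map_sub, map_zsmul, h3, smul_eq_mul, mul_one, sub_self])
    obtain ⟨u1, hu1⟩ := (e2 (y2 - ε y3 • x2 - T • u2)).1 (by
      rw [map_sub, map_sub, map_zsmul, map_smul, hy3, h2, hu2, smul_sub, smul_comm T (ε y3),
        sub_self])
    obtain ⟨D', hD'⟩ := (e1 (y1 - ε y3 • x1 - N • u1)).1 (by
      rw [map_sub, map_sub, map_zsmul, map_smul, hy2, h1, hu1, smul_sub, smul_sub,
        smul_comm N (ε y3), smul_smul, hNT, zero_smul, sub_zero, sub_self])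
    refine ⟨ε y3, D', hj ?_⟩
    rw [map_add, map_zsmul, map_smul, hy1, h0, hD', smul_sub, smul_sub, smul_comm T (ε y3),
      smul_smul, hTN, zero_smul]
    abel
  · obtain ⟨c, hc⟩ := hadd r
    have hsN := cd s r hsr
    have hsT' := hsT s r hsr
    have hMT' := hMT r
    generalize Ns g r = M at *
    have hNM : N * M = (r : L P) * N := by
      rw [hc, mul_add, ← mul_assoc, hNT, zero_mul, add_zero, Nat.cast_comm]
    obtain ⟨u, hu⟩ := (e3 (o s • x3 - x3)).1 (by rw [map_sub, hε, sub_self])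
    obtain ⟨u', hu'⟩ := (e2 (o s • x2 - M • x2 - (T * M) • u)).1 (by
      rw [map_sub, map_sub, map_smul, map_smul, map_smul, h2, hu, smul_smul, smul_smul, hsT', hMT',
        smul_sub, smul_smul, sub_self])
    obtain ⟨D'', hD''⟩ := (e1 (o s • x1 - (r : L P) • x1 - N • u')).1 (by
      rw [map_sub, map_sub, map_smul, map_smul, map_smul, h1, hu', smul_sub, smul_sub, smul_smul,
        smul_smul, smul_smul, smul_smul, smul_smul, hsN, hNM, ← mul_assoc, hNT, zero_mul,
        zero_smul, sub_zero, sub_self])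
    refine ⟨((r : L P) * c) • D0 + M • D'', hj ?_⟩
    have hx : o s • x1 = (r : L P) • x1 + N • u' + j D'' := by rw [hD'']; abel
    have hr : (((r : ℤ) ^ 2 : ℤ)) • (T • x1) = ((r : L P) * (r : L P)) • (T • x1) := by
      rw [← Int.cast_smul_eq_zsmul (L P)]; push_cast; rw [sq]
    have hk : T * M * (r : L P) = ((r : L P) * r + T * ((r : L P) * c)) * T := by
      rw [← hMT', hc, ← Nat.cast_comm, ← mul_assoc, mul_add, ← mul_assoc T, ← Nat.cast_comm r T,
        mul_assoc (r : L P) T c]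
    rw [map_add, map_zsmul, map_smul, map_smul, map_add, map_smul, map_smul, h0, hr, smul_smul,
      hsT', mul_smul, hx, smul_add, smul_add, smul_smul, smul_smul, hk, ← hMT', mul_assoc M, hTN,
      mul_zero, zero_smul, add_zero, hMT', smul_add, mul_smul _ T x1, add_smul, mul_smul T _ (T • x1),
      mul_smul T M, add_assoc]

end Pool.Agent.PDC
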