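import Pool.Agent.Lib.PDC.K10

/-! Row ZIG2: dimension shifting for an elementary abelian group of rank two. -/

namespace Pool.Agent.PDC

namespace X10

variable {P : Type} [Group P]

lemma comm_T_Ns {g h : P} (c : Commute g h) (n : ℕ) : Commute (o g - 1 : L P) (Ns h n) := by
  refine Commute.sub_left ?_ (Commute.one_left _)
  exact Commute.sum_right _ _ _ fun i _ => (c.pow_right i).map o

lemma comm_Ns_Ns {g h : P} (c : Commute g h) (m n : ℕ) : Commute (Ns g m : L P) (Ns h n) :=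
  Commute.sum_left _ _ _ fun i _ => Commute.sum_right _ _ _ fun k _ => (c.pow_pow i k).map o

end X10

open X10 in
theorem r_ZIG2 : R_ZIG2 := by
  intro hC P _ ⟨k1, k2, k3, j, d1, d2, ε, hj, e1, e2, e3, _, hε⟩ g h p hp hg hh hc hn D hD
  obtain ⟨ca, cb, -, -⟩ := hC P g h p hp hg hh hc hn
  have va : ∀ {k : ℕ} (y : Fin k → L P), (Ns g p * Ns h p) • y = 0 →
      ∃ u u', y = (o g - 1) • u + (o h - 1) • u' := fun y hy => by
    choose u u' hu using fun i => ca (y i) (congrFun hy i)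
    exact ⟨u, u', funext hu⟩
  have vb : ∀ {k : ℕ} (y : Fin k → L P), (o g - 1) • y = 0 → (o h - 1) • y = 0 →
      ∃ u, y = (Ns g p * Ns h p) • u := fun y hy hy' => by
    have : ∀ i, ∃ μ, y i = Ns g p * Ns h p * μ := fun i => by
      obtain ⟨μ, -, hμ⟩ := cb ⊥ inferInstance (y i) (rInv_bot _) (congrFun hy i) (congrFun hy' i)
        (fun x _ f _ hf => by
          have h1 : x⁻¹ * f * x = 1 := Subgroup.mem_bot.1 hf
          have h2 : f = x * (x⁻¹ * f * x) * x⁻¹ := by group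
          rw [h2, h1, mul_one, mul_inv_cancel])
      exact ⟨μ, hμ⟩
    choose u hu using this
    exact ⟨u, funext hu⟩
  have TN := T_mul_N hg
  have NT := N_mul_T hg
  have TN' := T_mul_N hh
  have NT' := N_mul_T hh
  have cT := (comm_T_Ns hc p).eq
  have z1 : ∀ D, d1 (j D) = 0 := fun D => (e1 _).2 ⟨D, rfl⟩
  have z2 : ∀ y, d2 (d1 y) = 0 := fun y => (e2 _).2 ⟨y, rfl⟩
  obtain ⟨y, y', a1⟩ := va (j D) (by rw [← map_smul, hD, map_zero])
  have b1 : j (Ns h p • D) = (o g - 1) • Ns h p • y := by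
    rw [map_smul, a1, smul_add, smul_smul, smul_smul, NT', zero_smul, add_zero, ← cT, mul_smul]
  obtain ⟨u, a2⟩ := vb (d1 (Ns h p • y)) (by rw [← map_smul, ← b1, z1])
    (by rw [← map_smul, smul_smul, TN', zero_smul, map_zero])
  obtain ⟨a, a', a3⟩ := va (d2 u) (by rw [← map_smul, ← a2, z2])
  obtain ⟨u2, b3⟩ := (e3 (Ns h p • a - Ns g p • a)).1 (by
    rw [map_sub, eps_Ns ε hε, eps_Ns ε hε, sub_self])
  obtain ⟨u1, b2⟩ := (e2 (Ns h p • u - (o g - 1) • u2)).1 (by
    rw [map_sub, map_smul, map_smul, a3, b3, smul_add, smul_sub, smul_smul, smul_smul, smul_smul,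
      smul_smul, NT', TN, zero_smul, zero_smul, cT]
    abel)
  obtain ⟨D', b0⟩ := (e1 (Ns h p • y - Ns g p • u1)).1 (by
    rw [map_sub, a2, map_smul, b2, smul_sub, smul_smul, smul_smul, NT, zero_smul]
    abel)
  refine ⟨D', hj ?_⟩
  rw [b1, map_smul, b0, smul_sub, smul_smul (o g - 1) (Ns g p), TN, zero_smul, sub_zero]

end Pool.Agent.PDC
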