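import Pool.Agent.Lib.PDC.Defs

/-! Linear trees of finite groups with one edge group of order six. -/

namespace Pool.Agent.PDC

open Pool.Agent.PD3

/-- Edge groups and edge maps that make `G 0, ..., G n` a reduced linear tree of groups in which
the edge group between `G j` and `G (j+1)` is cyclic of order six and all other edge groups have
order two. -/
structure EdgeData {n : ℕ} (G : Fin (n + 1) → Type) [∀ v, Group (G v)] (j : Fin n) where
  E : Fin n → Type
  [grp : ∀ i, Group (E i)]
  α : ∀ i, E i →* G i.castSucc
  β : ∀ i, E i →* G i.succ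
  hα : ∀ i, Function.Injective (α i) ∧ ¬ Function.Surjective (α i)
  hβ : ∀ i, Function.Injective (β i) ∧ ¬ Function.Surjective (β i)
  six : Nonempty (E j ≃* Multiplicative (ZMod 6))
  two : ∀ i, i ≠ j → Nat.card (E i) = 2

instance {n : ℕ} {G : Fin (n + 1) → Type} [∀ v, Group (G v)] {j : Fin n} (D : EdgeData G j)
    (i : Fin n) : Group (D.E i) := D.grp i

/-- All vertex groups have period dividing four, and the fundamental group of the tree of groups
is the (indecomposable, finitely generated, virtually free) fundamental group of a finite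
orientable Poincare duality complex of dimension three. -/
def EdgeData.Realised {n : ℕ} {G : Fin (n + 1) → Type} [∀ v, Group (G v)] [∀ v, Fintype (G v)]
    {j : Fin n} (D : EdgeData G j) : Prop :=
  (∀ v, PeriodFour (G v)) ∧ ∃ X : DeltaCx, X.IsPD3 ∧ Indecomposable X.pi1 ∧ Group.FG X.pi1 ∧
    (∃ S : Subgroup X.pi1, S.FiniteIndex ∧ IsFreeGroup S) ∧ Nonempty (X.pi1 ≃* TreePi D.α D.β)

end Pool.Agent.PDC
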