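import Pool.Agent.Lib.PDC.Blue
import Pool.Agent.Lib.PDC.Defs2

/-! Edge data exist for the listed groups. -/

namespace Pool.Agent.PDC

/-- a proper cyclic subgroup of order `q` -/
def Has (q : ℕ) (G : Type) [Group G] : Prop :=
  ∃ φ : Multiplicative (ZMod q) →* G, Function.Injective φ ∧ ¬ Function.Surjective φ

lemma has_of {G G' : Type} [Group G] [Group G'] (e : G ≃* G') {q : ℕ} [NeZero q] (g : G')
    (hg : orderOf g = q) (hc : Nat.card G' ≠ q) : Has q G := by
  subst hg
  have hf : IsOfFinOrder g := orderOf_pos_iff.1 (NeZero.pos _)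
  have h1 : Nat.card (Subgroup.zpowers g) = Nat.card (Multiplicative (ZMod (orderOf g))) := by
    simp
  let f := e.symm.toMonoidHom.comp ((Subgroup.zpowers g).subtype.comp
    (mulEquivOfCyclicCardEq h1).symm.toMonoidHom)
  have hi : Function.Injective f :=
    e.symm.injective.comp (Subtype.val_injective.comp (MulEquiv.injective _))
  refine ⟨f, hi, fun hs => hc ?_⟩
  rw [← Nat.card_congr e.toEquiv, ← Nat.card_congr (Equiv.ofBijective f ⟨hi, hs⟩)]
  simp

lemma card_SL : Nat.card SL23 = 24 := by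
  rw [Nat.card_eq_fintype_card]; decide +kernel

lemma IsA.has {G : Type} [Group G] (h : IsA G) : Has 6 G ∧ Has 2 G := by
  obtain ⟨g, hg⟩ : ∃ g : SL23, g ^ 6 = 1 ∧ g ^ 2 ≠ 1 ∧ g ^ 3 ≠ 1 := by decide +kernel
  have h6 : orderOf g = 6 := by
    refine orderOf_eq_of_pow_and_pow_div_prime (by norm_num) hg.1 fun p hp hd => ?_
    have := Nat.le_of_dvd (by norm_num) hd
    interval_cases p <;> simp_all (config := { decide := true })
  exact ⟨has_of h.some g h6 (by rw [card_SL]; norm_num), has_of h.some (g ^ 3)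
    (by rw [orderOf_pow' _ (by norm_num), h6]; norm_num) (by rw [card_SL]; norm_num)⟩

lemma IsB.has {G : Type} [Group G] (h : IsB G) : Has 6 G ∧ Has 2 G := by
  obtain ⟨m, hm, -, ⟨e⟩⟩ := h
  have hc : Nat.card (DihedralGroup m × Multiplicative (ZMod 3)) = 2 * m * 3 := by
    simp [DihedralGroup.nat_card]
  have h3 : orderOf (Multiplicative.ofAdd (1 : ZMod 3)) = 3 := by
    rw [orderOf_ofAdd_eq_addOrderOf, ZMod.addOrderOf_one]
  exact ⟨has_of e (.sr 0, .ofAdd 1) (by rw [Prod.orderOf]; simp [h3]; rfl) (by omega),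
    has_of e (.sr 0, 1) (by rw [Prod.orderOf]; simp) (by omega)⟩

lemma IsD.has {G : Type} [Group G] (h : IsD G) : Has 2 G := by
  obtain ⟨m, -, hm, ⟨e⟩⟩ := h
  exact has_of e (.sr 0) (by simp) (by rw [DihedralGroup.nat_card]; omega)

theorem edgeData_of {n : ℕ} {G : Fin (n + 1) → Type} [∀ v, Group (G v)] {j : Fin n}
    {a b : Fin (n + 1)} (hab : (a = j.castSucc ∧ b = j.succ) ∨ (a = j.succ ∧ b = j.castSucc))
    (hA : IsA (G a)) (hB : IsB (G b)) (hD : ∀ v, v ≠ a → v ≠ b → IsD (G v)) :
    Nonempty (EdgeData G j) := by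
  have h2 : ∀ v, Has 2 (G v) := fun v => by
    by_cases h : v = a
    · exact h ▸ hA.has.2
    by_cases h' : v = b
    · exact h' ▸ hB.has.2
    · exact (hD v h h').has
  have h6 : Has 6 (G j.castSucc) ∧ Has 6 (G j.succ) := by
    rcases hab with ⟨rfl, rfl⟩ | ⟨rfl, rfl⟩
    exacts [⟨hA.has.1, hB.has.1⟩, ⟨hB.has.1, hA.has.1⟩]
  have h : ∀ i : Fin n, Has (if i = j then 6 else 2) (G i.castSucc) ∧
      Has (if i = j then 6 else 2) (G i.succ) := fun i => by
    by_cases h : i = j
    · rw [if_pos h, h]; exact h6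
    · rw [if_neg h]; exact ⟨h2 _, h2 _⟩
  exact ⟨{ E := fun i => Multiplicative (ZMod (if i = j then 6 else 2))
           α := fun i => (h i).1.choose
           β := fun i => (h i).2.choose
           hα := fun i => (h i).1.choose_spec
           hβ := fun i => (h i).2.choose_spec
           six := by rw [if_pos rfl]; exact ⟨MulEquiv.refl _⟩
           two := fun i hi => by simp [hi] }⟩

end Pool.Agent.PDC
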