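import Pool.Agent.Lib.PDC.Blue

/-! Assembly of the classification from the blocks. -/

namespace Pool.Agent.PDC

open Pool.Agent.PD3

lemma IsA.congr {G G' : Type} [Group G] [Group G'] (e : G ≃* G') (h : IsA G') : IsA G :=
  ⟨e.trans h.some⟩

lemma IsB.congr {G G' : Type} [Group G] [Group G'] (e : G ≃* G') (h : IsB G') : IsB G := by
  obtain ⟨m, h1, h2, ⟨f⟩⟩ := h
  exact ⟨m, h1, h2, ⟨e.trans f⟩⟩

lemma IsD.congr {G G' : Type} [Group G] [Group G'] (e : G ≃* G') (h : IsD G') : IsD G := by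
  obtain ⟨m, h1, h2, ⟨f⟩⟩ := h
  exact ⟨m, h1, h2, ⟨e.trans f⟩⟩

section

variable {n : ℕ} {G : Fin (n + 1) → Type} [∀ v, Group (G v)] {E : Fin n → Type}
  [∀ i, Group (E i)] (α : ∀ i, E i →* G i.castSucc) (β : ∀ i, E i →* G i.succ)

lemma colim_treePi : Colim α β (P := TreePi α β)
    fun _ => (QuotientGroup.mk' _).comp Monoid.CoprodI.of := by
  refine ⟨fun i e => ?_, fun K hK => ?_, fun Q _ f hf => ?_⟩
  · rw [← mul_inv_eq_one]
    simp only [MonoidHom.comp_apply]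
    rw [← map_inv, ← map_mul]
    exact (QuotientGroup.eq_one_iff _).2 (Subgroup.subset_normalClosure ⟨i, e, rfl⟩)
  · rw [eq_top_iff]
    rintro x -
    obtain ⟨y, rfl⟩ := QuotientGroup.mk'_surjective _ x
    induction y using Monoid.CoprodI.induction_on with
    | one => rw [map_one]; exact K.one_mem
    | of v g => exact hK v g
    | mul a b ha hb => rw [map_mul]; exact K.mul_mem ha hb
  · refine ⟨QuotientGroup.lift _ (Monoid.CoprodI.lift f) ?_,
      fun v g => Monoid.CoprodI.lift_of f g⟩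
    refine Subgroup.normalClosure_le_normal ?_
    rintro _ ⟨i, e, rfl⟩
    simp [hf i e]

lemma Colim.congr {P P' : Type} [Group P] [Group P'] {ι : ∀ v, G v →* P} (h : Colim α β ι)
    (e : P ≃* P') : Colim α β fun v => e.toMonoidHom.comp (ι v) := by
  obtain ⟨h1, h2, h3⟩ := h
  refine ⟨fun i x => congrArg e (h1 i x), fun K hK => ?_, fun Q _ f hf => ?_⟩
  · rw [eq_top_iff]
    rintro x -
    have := h2 (K.comap e.toMonoidHom) hK
    have hx : e.symm x ∈ K.comap e.toMonoidHom := by rw [this]; trivial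
    simpa using hx
  · obtain ⟨φ, hφ⟩ := h3 Q f hf
    exact ⟨φ.comp e.symm.toMonoidHom, fun v g => by simp [hφ]⟩

end

theorem main (hPDX : St_PDX) (hTRE : St_TRE) (hZIG : St_ZIG) (hZIG2 : St_ZIG2) (hF1 : St_FIN1)
    (hF2 : St_FIN2) (hF3 : St_FIN3) (hNEC : St_NEC) (hCONV : St_CONV) (hP4 : St_P4)
    (hSWA : St_SWA) (hSWB : St_SWB) (hSWD : St_SWD) (hSWC : St_SWC) (hLOC : St_LOC)
    (hSUF : St_SUF) (hVF : St_VF) (hIND : St_IND)
    (n : ℕ) (G : Fin (n + 1) → Type) [∀ v, Group (G v)] [∀ v, Fintype (G v)] (E : Fin n → Type)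
    [∀ i, Group (E i)] (α : ∀ i, E i →* G i.castSucc) (β : ∀ i, E i →* G i.succ)
    (hα : ∀ i, Function.Injective (α i) ∧ ¬ Function.Surjective (α i))
    (hβ : ∀ i, Function.Injective (β i) ∧ ¬ Function.Surjective (β i))
    (j : Fin n) (hj : Nonempty (E j ≃* Multiplicative (ZMod 6)))
    (h2 : ∀ i, i ≠ j → Nat.card (E i) = 2) :
    ((∀ v, PeriodFour (G v)) ∧ ∃ X : DeltaCx, X.IsPD3 ∧ Indecomposable X.pi1 ∧ Group.FG X.pi1 ∧
      (∃ S : Subgroup X.pi1, S.FiniteIndex ∧ IsFreeGroup S) ∧ Nonempty (X.pi1 ≃* TreePi α β)) ↔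
    ∃ a b : Fin (n + 1), ((a = j.castSucc ∧ b = j.succ) ∨ (a = j.succ ∧ b = j.castSucc)) ∧
      IsA (G a) ∧ IsB (G b) ∧ ∀ v, v ≠ a → v ≠ b → IsD (G v) := by
  constructor
  · rintro ⟨-, X, hX, -, -, -, ⟨e⟩⟩
    obtain ⟨T, hT, hr, ho, hG⟩ := hCONV n G E α β hα hβ j hj h2 X.pi1 _
      ((colim_treePi α β).congr α β e.symm) _ _ (Or.inl ⟨rfl, rfl⟩)
    have hD := hPDX X hX
    have hT' := hTRE _ _ _ T
    have k1 := fun g p hp hg => hF1 _ _ _ T hT' g p hp hg (hZIG _ hD g p hp hg)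
    have hFC : FC X.pi1 := fun p g hp hg => (k1 g p hp hg).1
    have hP2 : P2 X.pi1 := fun p r g s hp hg h =>
      hF2 _ _ _ T hT' g p hp hg (hZIG _ hD g p hp hg) (k1 g p hp hg).2.1 (k1 g p hp hg).2.2 s r h
    have hP1 : P1 X.pi1 := fun p g h hp hg hh hc => by
      by_contra hn
      exact hF3 _ _ _ T hT' g h p hp hg hh hc hn (k1 g p hp hg).2.1
        (fun f hf => (k1 f p hp hf).2.2) (hZIG2 _ hD g h p hp hg hh hc hn)
    obtain ⟨h1, h3⟩ := hNEC _ _ _ T j hT hFC hP1 hP2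
    rw [hr, ho] at h1 h3
    rcases h1 with ⟨hA, hB⟩ | ⟨hB, hA⟩
    · exact ⟨_, _, Or.inl ⟨rfl, rfl⟩, hA.congr (hG _).some, hB.congr (hG _).some,
        fun v h h' => (h3 v h h').congr (hG _).some⟩
    · exact ⟨_, _, Or.inr ⟨rfl, rfl⟩, hA.congr (hG _).some, hB.congr (hG _).some,
        fun v h h' => (h3 v h' h).congr (hG _).some⟩
  · rintro ⟨a, b, hab, hA, hB, hD⟩
    have hcase : ∀ v, IsA (G v) ∨ IsB (G v) ∨ IsD (G v) := fun v => by
      by_cases h : v = a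
      · exact Or.inl (h ▸ hA)
      by_cases h' : v = b
      · exact Or.inr (Or.inl (h' ▸ hB))
      · exact Or.inr (Or.inr (hD v h h'))
    refine ⟨fun v => hP4 _ ?_, ?_⟩
    · rcases hcase v with ⟨⟨e⟩⟩ | ⟨m, -, hm, ⟨e⟩⟩ | ⟨k, hk, -, ⟨e⟩⟩
      · exact hSWC _ _ e hSWA
      · exact hSWC _ _ e (hSWB m hm)
      · exact hSWC _ _ e (hSWD k hk)
    obtain ⟨T, hT, hr, ho, hG⟩ := hCONV n G E α β hα hβ j hj h2 _ _ (colim_treePi α β) a b hab
    obtain ⟨X, hX, ⟨e⟩⟩ := hSUF _ _ _ T j hT (by rw [hr]; exact hA.congr (hG _).some.symm)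
      (by rw [ho]; exact hB.congr (hG _).some.symm)
      fun v h h' => (hD v (hr ▸ h) (ho ▸ h')).congr (hG _).some.symm
    refine ⟨X, hX, fun A B _ _ ⟨f⟩ => ?_,
      Group.fg_iff.2 ⟨_, PresentedGroup.closure_range_of _, Set.finite_range _⟩, ?_, ⟨e⟩⟩
    · refine hIND _ _ _ T (fun i hi => ?_) (fun v => ?_) A B ⟨e.symm.trans f⟩
      · by_cases h : i = j
        · have := hT.2.1
          rw [← h, hi, orderOf_one] at this; omega
        · have := hT.2.2.1 i h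
          rw [hi, orderOf_one] at this; omega
      · rcases hcase v with h | h | h
        · exact ((hLOC _).1 (h.congr (hG _).some.symm)).1
        · exact ((hLOC _).2.1 (h.congr (hG _).some.symm)).1
        · exact ((hLOC _).2.2 (h.congr (hG _).some.symm)).1
    · obtain ⟨S, h1, h3⟩ := hVF _ _ _ T
      refine ⟨S.comap e.toMonoidHom, ⟨?_⟩, ?_⟩
      · rw [Subgroup.index_comap_of_surjective (f := e.toMonoidHom) S e.surjective]
        exact h1.index_ne_zero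
      · exact IsFreeGroup.ofMulEquiv (e.subgroupMap (S.comap e.toMonoidHom) |>.trans
          (MulEquiv.subgroupCongr (Subgroup.map_comap_eq_self_of_surjective e.surjective S))).symm

end Pool.Agent.PDC
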