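import Pool.Agent.Lib.PDC.Blue

/-! Spare for row SWB1: the explicit cycle for `D × C_d`. -/

namespace Pool.Agent.PDC.X28s

open Pool.Agent.PD3

variable {G : Type} [Group G]

lemma ns_add (g : G) (a b : ℕ) : Ns g (a + b) = Ns g a + o g ^ a * Ns g b := by
  simp only [Ns, Finset.sum_range_add, Finset.mul_sum, pow_add, map_pow]

lemma comm_ns {g : G} {x : L G} (h : Commute x (o g)) (n : ℕ) : Commute x (Ns g n) := by
  simp only [Ns, map_pow]
  exact Commute.sum_right _ _ _ fun i _ => h.pow_right i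

lemma fix_pow {N x : L G} (h : N * x = N) (n : ℕ) : N * x ^ n = N := by
  induction n with
  | zero => simp
  | succ n ih => rw [pow_succ, ← mul_assoc, ih, h]

lemma fix_ns {N : L G} {g : G} (h : N * o g = N) (n : ℕ) : N * Ns g n = (n : L G) * N := by
  simp only [Ns, map_pow, Finset.mul_sum, fix_pow h, Finset.sum_const, Finset.card_range,
    nsmul_eq_mul]

lemma ns_two (g : G) (d : ℕ) : Ns g (2 * d) = Ns (g ^ 2) d * (1 + o g) := by
  induction d with
  | zero => simp [Ns]
  | succ d ih =>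
    rw [show 2 * (d + 1) = 2 * d + 1 + 1 by ring, Ns_succ, Ns_succ, Ns_succ, ih, map_pow,
      ← pow_mul, pow_succ]
    noncomm_ring

theorem r_SWB1 : St_SWB1 := by
  intro G _ z w s d μ hz hw hzw
  have hp : ∀ i : ℕ, z * w ^ i = (w ^ i)⁻¹ * z := fun i => by
    rw [← inv_pow]; exact SemiconjBy.pow_right (a := z) (x := w) (y := w⁻¹) hzw i
  have hwz : w * z = z * w⁻¹ := by
    rw [eq_mul_inv_iff_mul_eq, mul_assoc, hzw, mul_inv_cancel_left]
  have hc : Commute (z ^ 2) w := by
    change z ^ 2 * w = w * z ^ 2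
    have h1 : z * w⁻¹ = w * z := hwz.symm
    rw [pow_two, mul_assoc, hzw, ← mul_assoc, h1, mul_assoc]
  have hinv : (w ^ (s + 1))⁻¹ = w ^ s := by
    rw [inv_eq_iff_mul_eq_one, ← pow_add, ← hw]; congr 1; ring
  have hinv' : (w ^ s)⁻¹ = w ^ (s + 1) := by rw [← hinv, inv_inv]
  have hconj : z * w ^ (s + 1) * z⁻¹ = w ^ s := by rw [hp, hinv, mul_inv_cancel_right]
  set Z := o z with hZ
  set W := o w with hW
  set N := Ns w (2 * s + 1) with hN
  set D := Ns (z ^ 2) d with hD
  set A := Ns w (s + 1) with hA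
  set B := Ns w s with hB
  set M := Ns w μ with hM
  have hNW : N * W = N := by
    have := Ns_mul_sub w (2 * s + 1)
    rw [← map_pow, hw, map_one, sub_self, mul_sub, mul_one, sub_eq_zero] at this
    exact this
  have hWN : W * N = N := by
    have := sub_mul_Ns w (2 * s + 1)
    rw [← map_pow, hw, map_one, sub_self, sub_mul, one_mul, sub_eq_zero] at this
    exact this
  have hZN : Z * N = N * Z := by
    have h1 : Z * N = W * (∑ i ∈ Finset.range (2 * s + 1), o (w ^ (2 * s + 1 - 1 - i))) * Z := by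
      rw [hN, Ns, Finset.mul_sum, Finset.mul_sum, Finset.sum_mul]
      refine Finset.sum_congr rfl fun i hi => ?_
      rw [hZ, hW, ← map_mul, ← map_mul, ← map_mul, hp]
      congr 2
      rw [inv_eq_iff_mul_eq_one, ← pow_succ', ← pow_add, ← hw]
      congr 1
      have := Finset.mem_range.1 hi
      omega
    rw [h1, Finset.sum_range_reflect (fun i => o (w ^ i))]
    change W * N * Z = _
    rw [hWN]
  have hDc : D * Z ^ 2 = D := by
    have := Ns_mul_sub (z ^ 2) d
    rw [← map_pow, ← pow_mul, hz, map_one, sub_self, mul_sub, mul_one, sub_eq_zero, map_pow] at this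
    exact this
  have cZD : Commute Z D := comm_ns (by rw [map_pow]; exact (Commute.refl Z).pow_right 2) d
  have cWc : Commute W (Z ^ 2) := by
    rw [hW, hZ, ← map_pow]; exact (hc.symm.map o)
  have cWD : Commute W D := comm_ns (by rw [map_pow]; exact cWc) d
  have cND : N * D = D * N := (comm_ns cWD.symm _).symm.eq
  have cAc : Z ^ 2 * A = A * Z ^ 2 := (comm_ns cWc.symm _).eq
  have cNc : Z ^ 2 * N = N * Z ^ 2 := (comm_ns cWc.symm _).eq
  have cMW : Commute M W := (comm_ns (Commute.refl W) μ).symm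
  have cAW : Commute A W := (comm_ns (Commute.refl W) (s + 1)).symm
  have cNM : N * M = M * N := (comm_ns (comm_ns (Commute.refl W) μ).symm _).symm.eq
  have cNA : N * A = A * N := (comm_ns (comm_ns (Commute.refl W) _).symm _).symm.eq
  have hZu : Z * W ^ s = W ^ (s + 1) * Z := by
    rw [hZ, hW, ← map_pow, ← map_pow, ← map_mul, ← map_mul, hp, hinv']
  have hvZ : W ^ (s + 1) * Z = Z * W ^ s := hZu.symm
  have hvu : W ^ (s + 1) * W ^ s = 1 := by
    rw [hW, ← map_pow, ← map_pow, ← map_mul, ← hinv, mul_inv_cancel, map_one]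
  have hN1 : N = A + W ^ (s + 1) * B := by
    rw [hN, show 2 * s + 1 = (s + 1) + s by ring, ns_add]
  have hN2 : N = B + W ^ s * A := by
    rw [hN, show 2 * s + 1 = s + (s + 1) by ring, ns_add]
  have hAW : A * (W - 1) = W ^ (s + 1) - 1 := Ns_mul_sub w (s + 1)
  have hWM : (W - 1) * M = W ^ μ - 1 := sub_mul_Ns w μ
  have hNA : N * A = ((s : L G) + 1) * N := by rw [fix_ns hNW]; push_cast; rfl
  have hNB : N * B = (s : L G) * N := fix_ns hNW s
  have hNM : N * M = (μ : L G) * N := fix_ns hNW μ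
  have hNN : N * N = (2 * (s : L G) + 1) * N := by rw [fix_ns hNW]; push_cast; rfl
  have hNv : N * W ^ (s + 1) = N := fix_pow hNW _
  have hNu : N * W ^ s = N := fix_pow hNW _
  have hvN : W ^ (s + 1) * N = N := by
    rw [((comm_ns (Commute.refl W) (2 * s + 1)).pow_left (s + 1)).eq, hNv]
  have hmN : W ^ μ * N = N := by
    rw [((comm_ns (Commute.refl W) (2 * s + 1)).pow_left μ).eq, fix_pow hNW]
  have f0 : fox ![z, w] (relB s d 0) = ![D * (1 + Z), -N] := by
    funext i
    simp only [relB, Matrix.cons_val_zero, fox_mul, fox_inv, fox_pow, fox_of, map_pow,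
      FreeGroup.lift_apply_of, Matrix.cons_val_one, hz, hw, inv_one, map_one, one_smul, ns_two]
    fin_cases i <;> simp [hD, hZ, hN]
  have f1 : fox ![z, w] (relB s d 1) = ![1 - W ^ s, Z * A - B] := by
    have h1 : o (z * w ^ (s + 1)) * o z⁻¹ = W ^ s := by rw [← map_mul, hconj, map_pow]
    have h2 : o (z * w ^ (s + 1) * z⁻¹) * o (w ^ s)⁻¹ = 1 := by rw [hconj, o_mul_inv]
    funext i
    simp only [relB, Matrix.cons_val_zero, fox_mul, fox_inv, fox_pow, fox_of,
      map_mul (FreeGroup.lift _), map_pow (FreeGroup.lift _), map_inv (FreeGroup.lift ![z, w]),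
      FreeGroup.lift_apply_of, Matrix.cons_val_one, Matrix.cons_val_fin_one, smul_neg,
      smul_smul, ← mul_assoc, h1, h2, one_mul]
    fin_cases i <;> simp [hZ, hW, hA, hB, sub_eq_add_neg]
  have e0 : zB0 z w s d μ * (D * (1 + Z)) + zB1 z w s d μ * (1 - W ^ s) = 0 := by
    have a1 : (1 - Z) * (D * (1 + Z)) = 0 := by
      linear_combination (norm := noncomm_ring) -hDc - cZD.eq * (1 + Z)
    have a2 : (Z ^ 2 - W ^ μ) * D = -((W - 1) * M * D) := by
      rw [hWM, sub_mul, (cZD.pow_left 2).eq, hDc]; noncomm_ring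
    have a3 : (Z - 1) * (1 - W ^ s) = (1 - W ^ (s + 1)) * Z - (1 - W ^ s) := by
      linear_combination (norm := noncomm_ring) -hZu
    have a4 : N * ((Z - 1) * (1 - W ^ s)) = 0 := by
      rw [a3]; linear_combination (norm := noncomm_ring) -hNv * Z + hNu
    have a5 : (W ^ (s + 1) - Z) * (1 - W ^ s) = (W ^ (s + 1) - 1) * (1 + Z) := by
      linear_combination (norm := noncomm_ring) hZu - hvu
    have a6 : M * D * W ^ (s + 1) = W ^ (s + 1) * (M * D) :=
      ((cMW.mul_left cWD.symm).pow_right _).eq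
    simp only [zB0, zB1, ← hZ, ← hW, ← hN, ← hD, ← hA, ← hM]
    rw [add_mul (A * _), add_mul (M * D * _), mul_assoc _ (1 - Z), a1, mul_zero, add_zero,
      mul_assoc N, a4, add_zero, mul_assoc (M * D), a5, mul_assoc A, ← mul_assoc _ D, a2]
    generalize W ^ (s + 1) = v at *
    linear_combination (norm := noncomm_ring) a6 * (1 + Z) - hAW * (M * D * (1 + Z))
  have e1 : zB0 z w s d μ * (-N) + zB1 z w s d μ * (Z * A - B) = 0 := by
    have cs : ∀ (n : ℕ) (x : L G), x * (n : L G) = (n : L G) * x := fun n x =>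
      (Nat.cast_comm n x).symm
    have b1 : A * (Z ^ 2 - W ^ μ) * N = ((s : L G) + 1) * N * (Z ^ 2 - 1) := by
      rw [mul_assoc, sub_mul, hmN, cNc, ← hNA, cNA]; noncomm_ring
    have b2 : (1 - Z) * N = N * (1 - Z) := by
      linear_combination (norm := noncomm_ring) -hZN
    have b3 : (1 + W ^ (s + 1)) * M * N = 2 * (μ : L G) * N := by
      rw [mul_assoc, ← cNM, hNM, ← mul_assoc, cs, mul_assoc, add_mul, hvN]; noncomm_ring
    have b4 : ((s : L G) * (1 + W ^ (s + 1)) * M - (μ : L G) * N) * D * N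
        = -((μ : L G) * N * D) := by
      have h1 : (s : L G) * (μ : L G) = (μ : L G) * s := cs μ _
      rw [mul_assoc, ← cND, ← mul_assoc, sub_mul, mul_assoc (μ : L G), hNN, mul_assoc (s : L G),
        mul_assoc (s : L G), b3]
      linear_combination (norm := noncomm_ring) 2 * h1 * N * D
    have b5 : N * ((Z - 1) * (Z * A - B))
        = ((s : L G) + 1) * N * Z ^ 2 - (2 * (s : L G) + 1) * N * Z + s * N := by
      have h1 : N * Z * A = ((s : L G) + 1) * N * Z := by
        rw [← hZN, mul_assoc, hNA, ← mul_assoc, mul_add, cs, mul_assoc _ N, ← hZN]; noncomm_ring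
      have h2 : N * Z * B = (s : L G) * N * Z := by
        rw [← hZN, mul_assoc, hNB, ← mul_assoc, cs, mul_assoc, hZN, mul_assoc]
      linear_combination (norm := noncomm_ring) N * cAc + hNA * Z ^ 2 - h1 - h2 + hNB
    have b6 : D * ((W ^ (s + 1) - Z) * (Z * A - B)) = D * N * (Z - 1) := by
      have h1 : W ^ (s + 1) * Z * A + Z * B = N * Z := by
        rw [hvZ, ← hZN, hN2]; noncomm_ring
      generalize W ^ (s + 1) = v at *
      linear_combination (norm := noncomm_ring) D * h1 - hDc * A + D * hN1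
    have b7 : M * (D * N) = (μ : L G) * N * D := by rw [← cND, ← mul_assoc, ← cNM, hNM]
    simp only [zB0, zB1, ← hZ, ← hW, ← hN, ← hD, ← hA, ← hM]
    rw [mul_neg, add_mul (A * _), add_mul (M * D * _), b1, mul_assoc _ (1 - Z), b2,
      ← mul_assoc _ N (1 - Z), add_mul N, b4, hNN, mul_assoc N (Z - 1), b5, mul_assoc (M * D),
      mul_assoc M, b6, ← mul_assoc M, b7]
    noncomm_ring
  funext i
  simp only [Fin.sum_univ_two, Matrix.cons_val_zero, Matrix.cons_val_one, Matrix.cons_val_fin_one,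
    f0, f1]
  fin_cases i
  · simpa using e0
  · simpa using e1

end Pool.Agent.PDC.X28s
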