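import Pool.Agent.Lib.PDC.B_ASM
import Pool.Agent.Lib.PDC.B_BRG
import Pool.Agent.Lib.PDC.B_CEL
import Pool.Agent.Lib.PDC.B_CONV
import Pool.Agent.Lib.PDC.B_CY2
import Pool.Agent.Lib.PDC.B_CYC
import Pool.Agent.Lib.PDC.B_EX1
import Pool.Agent.Lib.PDC.B_FIN1
import Pool.Agent.Lib.PDC.B_FIN2
import Pool.Agent.Lib.PDC.B_FIN3
import Pool.Agent.Lib.PDC.B_GA1
import Pool.Agent.Lib.PDC.B_GA2
import Pool.Agent.Lib.PDC.B_GA3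
import Pool.Agent.Lib.PDC.B_GB1
import Pool.Agent.Lib.PDC.B_GB2
import Pool.Agent.Lib.PDC.B_GD
import Pool.Agent.Lib.PDC.B_IND
import Pool.Agent.Lib.PDC.B_INF
import Pool.Agent.Lib.PDC.B_INV
import Pool.Agent.Lib.PDC.B_KER
import Pool.Agent.Lib.PDC.B_LOC
import Pool.Agent.Lib.PDC.B_NEC
import Pool.Agent.Lib.PDC.B_P4
import Pool.Agent.Lib.PDC.B_PDX
import Pool.Agent.Lib.PDC.B_PK
import Pool.Agent.Lib.PDC.B_PRA
import Pool.Agent.Lib.PDC.B_PRB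
import Pool.Agent.Lib.PDC.B_PRM1
import Pool.Agent.Lib.PDC.B_PRM2
import Pool.Agent.Lib.PDC.B_QQ
import Pool.Agent.Lib.PDC.B_REAL
import Pool.Agent.Lib.PDC.B_REP
import Pool.Agent.Lib.PDC.B_RHO
import Pool.Agent.Lib.PDC.B_SUF
import Pool.Agent.Lib.PDC.B_SWA
import Pool.Agent.Lib.PDC.B_SWB
import Pool.Agent.Lib.PDC.SWB28
import Pool.Agent.Lib.PDC.B_SWB2
import Pool.Agent.Lib.PDC.B_SWC
import Pool.Agent.Lib.PDC.B_TRE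
import Pool.Agent.Lib.PDC.B_VF
import Pool.Agent.Lib.PDC.B_ZIG
import Pool.Agent.Lib.PDC.B_ZIG2
import Pool.Agent.Lib.PDC.Main
import Pool.Agent.Lib.PDC.Exist

/-! All blocks together. -/

namespace Pool.Agent.PDC

theorem iff_list {n : ℕ} {G : Fin (n + 1) → Type} [∀ v, Group (G v)] [∀ v, Fintype (G v)]
    {j : Fin n} (D : EdgeData G j) : D.Realised ↔
    ∃ a b : Fin (n + 1), ((a = j.castSucc ∧ b = j.succ) ∨ (a = j.succ ∧ b = j.castSucc)) ∧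
      IsA (G a) ∧ IsB (G b) ∧ ∀ v, v ≠ a → v ≠ b → IsD (G v) :=
  have cyc := r_CYC r_PRM1 r_PRM2
  have cy2 := r_CY2 r_PRM1 r_PRM2
  have ker := r_KER r_EX1
  have swb := r_SWB r_PRB X28s.r_SWB1 r_SWB2
  main r_PDX r_TRE (r_ZIG cyc) (r_ZIG2 cy2) (r_FIN1 cyc) (r_FIN2 cyc) (r_FIN3 cy2)
    (r_NEC r_INF r_INV r_GD r_GB1 r_GB2 r_GA1 r_GA2 (r_GA3 r_PRA)) (r_CONV r_RHO)
    (r_P4 r_EX1 ker) (r_SWA r_PRA) swb.1 swb.2 r_SWC r_LOC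
    (r_SUF (r_SWA r_PRA) swb.1 swb.2 r_SWC (r_PK (r_CEL cyc r_EX1 ker) (r_REP r_PRM2)) r_LOC
      (r_QQ cyc) (r_ASM (r_REAL r_BRG))) r_VF r_IND
    n G D.E D.α D.β D.hα D.hβ j D.six D.two

end Pool.Agent.PDC
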