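import Pool.Agent.Lib.PDC.Blue

/-! Assembly of the two-complex and the three-cells of a tree of groups. -/

namespace Pool.Agent.PDC

open Pool.Agent.PD3

namespace X28asm

variable {P V : Type} [Group P] [DecidableEq V]

/-- extension by zero -/
noncomputable def extv (v : V) : (Fin 2 → L P) →ₗ[L P] (V × Fin 2 → L P) where
  toFun y p := if p.1 = v then y p.2 else 0
  map_add' a b := by funext p; by_cases h : p.1 = v <;> simp [h]
  map_smul' a b := by funext p; by_cases h : p.1 = v <;> simp [h]

omit [DecidableEq V] in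
lemma lift_inc {Q : Type} [Group Q] (f : V × Fin 2 → Q) (v : V) (a : FreeGroup (Fin 2)) :
    FreeGroup.lift f (FreeGroup.map (fun k => (v, k)) a) = FreeGroup.lift (fun k => f (v, k)) a := by
  change ((FreeGroup.lift f).comp (FreeGroup.map fun k => (v, k))) a = _
  congr 1
  ext k
  simp

lemma fox_inc (x : V → Fin 2 → P) (v : V) (a : FreeGroup (Fin 2)) :
    fox (fun p : V × Fin 2 => x p.1 p.2) (FreeGroup.map (fun k => (v, k)) a) =
      extv v (fox (x v) a) := by
  induction a using FreeGroup.induction_on with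
  | C1 => simp
  | of i =>
    rw [FreeGroup.map.of, fox_of, fox_of]
    funext p
    obtain ⟨v', k⟩ := p
    by_cases h : v' = v <;> by_cases h' : k = i <;> simp [extv, h, h']
  | inv_of i h => rw [map_inv, fox_inv, fox_inv, h, lift_inc, map_neg, map_smul]
  | mul a b ha hb => rw [map_mul, fox_mul, fox_mul, ha, hb, lift_inc, map_add, map_smul]

end X28asm

open X28asm in
theorem r_ASM : R_ASM := by
  intro hR P V Ed _ _ _ _ T x r z lam ao ai co ci N hL hao hai hco hci hQ
  classical
  let R : (V × Fin 2) ⊕ Ed → FreeGroup (V × Fin 2) := fun k => k.elim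
    (fun p => FreeGroup.map (fun k => (p.1, k)) (r p.1 p.2))
    fun e => FreeGroup.map (fun k => (T.out e, k)) (ao e) *
      (FreeGroup.map (fun k => (T.inn e, k)) (ai e))⁻¹
  let θ : Option Ed → (V × Fin 2) ⊕ Ed → L P := fun j k => j.elim
    (k.elim (fun p => lam p.1 * z p.1 p.2) fun _ => 0)
    fun e => k.elim (fun p => (if p.1 = T.out e then co e p.2 else 0) -
      if p.1 = T.inn e then ci e p.2 else 0) fun e' => -(if e' = e then N e else 0)
  have hfox : ∀ e, fox (fun p : V × Fin 2 => x p.1 p.2) (R (.inr e)) =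
      extv (T.out e) (fox (x (T.out e)) (ao e)) - extv (T.inn e) (fox (x (T.inn e)) (ai e)) := by
    intro e
    simp only [R, Sum.elim_inr]
    rw [fox_mul, fox_inv, fox_inc, fox_inc, lift_inc, lift_inc, hao, hai, smul_neg, smul_smul,
      o_mul_inv, one_smul, sub_eq_add_neg]
  refine hR P (V × Fin 2) ((V × Fin 2) ⊕ Ed) (Option Ed) (fun p => x p.1 p.2) R θ
    (fun j => j.elim 1 fun _ => 0) none ⟨?_, ?_, ?_⟩ ?_ ?_ ?_ rfl ?_
  · rintro (⟨v, k⟩ | e)
    · simp only [R, Sum.elim_inl, lift_inc]
      exact (hL v).2.1 k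
    · simp only [R, Sum.elim_inr, map_mul, map_inv, lift_inc, hao, hai, mul_inv_cancel]
  · rw [← MonoidHom.range_eq_top]
    refine T.gen _ fun v g hg => ?_
    obtain ⟨a, rfl⟩ := (hL v).2.2.1 g hg
    exact ⟨FreeGroup.map (fun k => (v, k)) a, lift_inc _ _ _⟩
  · intro Q _ f hf
    choose φ hφ using fun v => (hL v).2.2.2.1 Q (fun k => f (v, k)) fun k => by
      simpa only [R, Sum.elim_inl, lift_inc] using hf (.inl (v, k))
    obtain ⟨ψ, hψ⟩ := T.lift Q φ fun e => by
      have h1 := hφ (T.out e) (ao e) ((hL _).1 _)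
      have h2 := hφ (T.inn e) (ai e) ((hL _).1 _)
      have h3 := hf (.inr e)
      simp only [R, Sum.elim_inr, map_mul, map_inv, lift_inc, mul_inv_eq_one] at h3
      simp only [hao] at h1
      simp only [hai] at h2
      rw [h1, h2, h3]
    refine ⟨ψ, fun p => ?_⟩
    have h1 := hφ p.1 (FreeGroup.of p.2) ((hL _).1 _)
    rw [← hψ] at h1
    simpa using h1
  · rintro (_ | e)
    · simp only [θ, Option.elim_none, Fintype.sum_sum_type, Sum.elim_inl, Sum.elim_inr, zero_smul,
        Finset.sum_const_zero, add_zero, Fintype.sum_prod_type, R, fox_inc, mul_smul,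
        ← Finset.smul_sum, ← map_smul, ← map_sum]
      refine Finset.sum_eq_zero fun v _ => ?_
      rw [(hL v).2.2.2.2.1]
      simp
    · simp only [Fintype.sum_sum_type, hfox]
      simp only [θ, Option.elim_some, Sum.elim_inl, Sum.elim_inr, Fintype.sum_prod_type, R, fox_inc,
        sub_smul, ite_smul, zero_smul, neg_smul, Finset.sum_sub_distrib, Finset.sum_neg_distrib,
        Finset.sum_ite_eq', Finset.mem_univ, if_true, Finset.sum_ite_irrel, Finset.sum_const_zero]
      simp only [← map_smul, ← map_sum, hco, hci, smul_sub]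
      abel
  · simp only [Fintype.card_sum, Fintype.card_option]
    omega
  · rintro (⟨v, k⟩ | e) <;> simp [θ, Fintype.sum_option, (hL _).2.2.2.2.2.1]
  · intro y hy
    obtain ⟨w, w', h1, h2⟩ := hQ (y none) (fun e => y (some e)) (by simpa [Fintype.sum_option] using hy)
    refine ⟨fun k => k.elim (fun p => w p.1 p.2) w', ?_⟩
    rintro (_ | e)
    · rw [h1]
      simp only [θ, Option.elim_none, Fintype.sum_sum_type, Sum.elim_inl, Sum.elim_inr, zero_mul,
        Finset.sum_const_zero, add_zero, Fintype.sum_prod_type, Finset.mul_sum, mul_assoc]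
    · rw [h2]
      simp only [θ, Option.elim_some, Fintype.sum_sum_type, Sum.elim_inl, Sum.elim_inr,
        Fintype.sum_prod_type, sub_mul, ite_mul, zero_mul, neg_mul, Finset.sum_sub_distrib,
        Finset.sum_neg_distrib, Finset.sum_ite_eq', Finset.mem_univ, if_true, Finset.sum_ite_irrel,
        Finset.sum_const_zero]
      abel

end Pool.Agent.PDC
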