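import Pool.Agent.Lib.PDC.X43
import Pool.Agent.Lib.MP_f61c0f_gt.Groups

namespace Pool.Agent.PDC

open Subgroup X43 Pool.Agent.PD3

namespace X43

/-- the central involution -/
def mA1 : SL23 := elA (idx4 2 0 0 2)

theorem sl_cube (g : SL23) (h2 : g ^ 4 ≠ 1) (h3 : g ^ 3 ≠ 1) : g ^ 3 = mA1 := by
  have : ∀ a < 24, elA a ^ 4 ≠ 1 → elA a ^ 3 ≠ 1 → elA a ^ 3 = mA1 := by decide +kernel
  obtain ⟨a, b⟩ := idxA_ok g
  rw [← b] at h2 h3 ⊢
  exact this _ a h2 h3

theorem sl_min (g : SL23) : g = 1 ∨ g = mA1 ∨ g * g = mA1 ∨ g * g * g = mA1 ∨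
    ∃ h : SL23, h ^ 4 = 1 ∧ (g * h * g * g * h ^ 3) ^ 2 = mA1 := by
  have : ∀ a < 24, elA a = 1 ∨ elA a = mA1 ∨ elA a * elA a = mA1 ∨ elA a * elA a * elA a = mA1 ∨
      ∃ b < 24, elA b ^ 4 = 1 ∧ (elA a * elA b * elA a * elA a * elA b ^ 3) ^ 2 = mA1 := by
    decide +kernel
  obtain ⟨a, b⟩ := idxA_ok g
  rw [← b]
  rcases this _ a with h | h | h | h | ⟨_, -, h⟩
  · exact .inl h
  · exact .inr (.inl h)
  · exact .inr (.inr (.inl h))
  · exact .inr (.inr (.inr (.inl h)))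
  · exact .inr (.inr (.inr (.inr ⟨_, h⟩)))

end X43

theorem r_GA3 : R_GA3 := by
  rintro ⟨x, -, -, hx⟩ G _ c hc ⟨i, j, k, h1, h2, h3, h4, h5, h6, h7⟩
  have c6 : c ^ 6 = 1 := hc ▸ pow_orderOf_eq_one c
  obtain ⟨t, ht⟩ : ∃ t, t = c ^ 3 := ⟨_, rfl⟩
  obtain ⟨s, hs⟩ : ∃ s, s = c ^ 2 := ⟨_, rfl⟩
  have tt : t * t = 1 := by rw [ht, ← pow_add, c6]
  have sss : s * s * s = 1 := by rw [hs, ← pow_add, ← pow_add, c6]
  have ec : c = t * s⁻¹ := by rw [ht, hs]; group
  have tc : ∀ y, t * y = y * t := fun y => by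
    have : y ∈ centralizer {t} := by
      refine (show closure {i, c} ≤ centralizer {t} from ?_) (h7 ▸ mem_top y)
      rw [closure_le]
      rintro z (rfl | rfl)
      · exact mem_centralizer_singleton_iff.2 (ht ▸ h6.eq)
      · exact mem_centralizer_singleton_iff.2 (ht ▸ (Commute.self_pow _ 3).eq)
    exact (mem_centralizer_singleton_iff.1 this).symm
  have tl : ∀ y z, y * (t * z) = t * (y * z) := fun y z => by
    rw [← mul_assoc, ← tc y, mul_assoc]
  have tr : ∀ y, t * (t * y) = y := fun y => by rw [← mul_assoc, tt, one_mul]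
  rw [← ht] at h1 h5
  rw [← hs] at h2 h3
  have ii : i * i = t := by rw [← h1, pow_two]
  have jj : j * j = t := by
    rw [h2]
    calc _ = s * (i * i) * s⁻¹ := by group
      _ = t := by rw [ii, ← tc, mul_inv_cancel_right]
  have s2 : s⁻¹ = s * s := by rw [inv_eq_iff_mul_eq_one, ← mul_assoc, sss]
  have ei : i = s⁻¹ * j * s := by rw [h2]; group
  have ek : k = s⁻¹ * i * s := by
    rw [h3, h2]
    calc _ = (s * s) * i * (s * s)⁻¹ := by simp only [mul_inv_rev, mul_assoc]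
      _ = _ := by rw [← s2, inv_inv]
  have iinv : i⁻¹ = t * i := by rw [inv_eq_iff_mul_eq_one, tl, ii, tt]
  have eq : i * k = j ∨ i * k = t * j := by
    rcases h5 with h | h
    · right; rw [← h, ← mul_assoc, ii]
    · left
      have : k = t * (i * j) := by rw [h, tr]
      rw [this, tl, ← mul_assoc i, ii, tr]
  have eb : i * c * i⁻¹ = i * k * s⁻¹ := by
    rw [ec, iinv, ek]
    simp only [mul_assoc, tl i, tl s⁻¹, tr, mul_inv_cancel, mul_one]
  have r0 : s⁻¹ * (j * (s⁻¹ * (j * (s⁻¹ * s⁻¹)))) = i * k * s⁻¹ := by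
    rw [ek]
    nth_rewrite 1 [ei]
    nth_rewrite 1 [ei]
    have : s * s⁻¹ * s⁻¹ = s⁻¹ := by group
    have s3 : s⁻¹ * s⁻¹ = s := by rw [← mul_inv_rev, ← s2, inv_inv]
    simp only [mul_assoc, mul_inv_cancel, mul_one, mul_inv_cancel_left, s3]
  have r1 : j * (s⁻¹ * (s⁻¹ * (s⁻¹ * (j * s⁻¹)))) = t * s⁻¹ := by
    have s3 : ∀ y, s⁻¹ * (s⁻¹ * (s⁻¹ * y)) = y := fun y => by
      rw [← mul_assoc, ← mul_assoc, ← mul_inv_rev, ← mul_inv_rev, ← mul_assoc, sss, inv_one,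
        one_mul]
    rw [s3, ← mul_assoc, jj]
  obtain ⟨φ, hφ⟩ := hx G ![c, i * c * i⁻¹] fun n => by
    fin_cases n
    · simp only [relA, Fin.zero_eta, Matrix.cons_val_zero, map_mul, map_inv,
        FreeGroup.lift_apply_of, Matrix.cons_val_one]
      rw [mul_inv_eq_one, eb]
      nth_rewrite 3 [← r0]
      rw [ec]
      rcases eq with h | h <;> simp only [h, mul_assoc, tl s⁻¹, tl j, tr]
    · simp only [relA, Fin.mk_one, Matrix.cons_val_zero, map_mul, map_inv,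
        FreeGroup.lift_apply_of, Matrix.cons_val_one]
      rw [mul_inv_eq_one, eb, ec]
      nth_rewrite 3 [← r1]
      rcases eq with h | h <;> simp only [h, mul_assoc, tl s⁻¹, tl j, tr]
  have p0 : φ (x 0) = c := hφ 0
  have p1 : φ (x 1) = i * c * i⁻¹ := hφ 1
  have nd : ∀ n, ¬ 6 ∣ n → x 0 ^ n ≠ 1 := fun n hn h => by
    apply hn
    rw [← hc, orderOf_dvd_iff_pow_eq_one, ← p0, ← map_pow, h, map_one]
  have pm : φ mA1 ≠ 1 := by
    rw [← sl_cube _ (nd 4 (by norm_num)) (nd 3 (by norm_num)), map_pow, p0,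
      Ne, ← orderOf_dvd_iff_pow_eq_one, hc]
    norm_num
  refine ⟨(MulEquiv.ofBijective φ ⟨?_, ?_⟩).symm⟩
  · rw [injective_iff_map_eq_one]
    intro g hg
    rcases sl_min g with h | h | h | h | ⟨h, a, b⟩
    · exact h
    · exact absurd (h ▸ hg) pm
    · exact absurd (by rw [← h, map_mul, hg, one_mul]) pm
    · exact absurd (by rw [← h, map_mul, map_mul, hg, one_mul, one_mul]) pm
    · refine absurd ?_ pm
      rw [← b, map_pow, map_mul, map_mul, map_mul, map_mul, hg, one_mul, mul_one, mul_one,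
        ← map_mul, ← pow_succ', a, map_one, one_pow]
  · rw [← MonoidHom.range_eq_top, eq_top_iff, ← h7, closure_le]
    have mc : c ∈ φ.range := ⟨_, p0⟩
    have mb : i * k * s⁻¹ ∈ φ.range := ⟨_, p1.trans eb⟩
    have ms : s ∈ φ.range := hs ▸ pow_mem mc 2
    have mt : t ∈ φ.range := ht ▸ pow_mem mc 3
    have mq : i * k ∈ φ.range := by simpa using mul_mem mb ms
    have mj : j ∈ φ.range := by
      rcases eq with h | h
      · exact h ▸ mq
      · rw [← tr j, ← h]; exact mul_mem mt mq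
    rintro z (rfl | rfl)
    · rw [ei]; exact mul_mem (mul_mem (inv_mem ms) mj) ms
    · exact mc

end Pool.Agent.PDC
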