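import Pool.Agent.Lib.PDC.S17

/-! Balanced presentations of odd dihedral groups and of their products with `C3`. -/

namespace Pool.Agent.PDC

open Pool.Agent.PD3 DihedralGroup

namespace X17

variable {Q : Type} [Group Q]

lemma cyc_hom {m : ℕ} [NeZero m] {W : Q} (h : W ^ m = 1) :
    ∃ e : Multiplicative (ZMod m) →* Q,
      (∀ k : ℕ, e (Multiplicative.ofAdd (k : ZMod m)) = W ^ k) ∧ ∀ i, ∃ k : ℕ, e i = W ^ k := by
  have h1 : ∀ k : ℕ, W ^ (k : ZMod m).val = W ^ k := fun k => by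
    rw [ZMod.val_natCast, ← pow_eq_pow_mod k h]
  refine ⟨MonoidHom.mk' (fun i => W ^ i.toAdd.val) fun a b => ?_, h1, fun i => ⟨_, rfl⟩⟩
  rw [← pow_add, ← h1 (_ + _)]
  simp

lemma dih_hom {m : ℕ} [NeZero m] {W Y : Q} (h : W ^ m = 1) (hY : Y * Y = 1)
    (hc : Y * W * Y⁻¹ = W⁻¹) :
    ∃ φ : DihedralGroup m →* Q, φ (r 1) = W ∧ φ (sr 0) = Y ∧
      ∀ C, Commute W C → Commute Y C → ∀ g, Commute (φ g) C := by
  obtain ⟨e, he, he'⟩ := cyc_hom h
  have hY' : Y⁻¹ = Y := inv_eq_of_mul_eq_one_right hY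
  have h2 : ∀ i, e i * Y = Y * e i⁻¹ := fun i => by
    obtain ⟨k, hk⟩ := he' i
    have : Y * W ^ k * Y⁻¹ = (W ^ k)⁻¹ := by rw [← conj_pow, hc, inv_pow]
    rw [map_inv, hk, ← this, hY', ← mul_assoc, ← mul_assoc, hY, one_mul]
  let F : DihedralGroup m → Q := fun g => match g with
    | r i => e (Multiplicative.ofAdd i)
    | sr i => Y * e (Multiplicative.ofAdd i)
  refine ⟨MonoidHom.mk' F ?_, ?_, ?_, ?_⟩
  · rintro (i | i) (j | j)
    · simp only [r_mul_r, F, ofAdd_add, map_mul]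
    · simp only [r_mul_sr, F]
      rw [← mul_assoc, h2, mul_assoc, ← map_mul, ofAdd_sub, div_eq_inv_mul]
    · simp only [sr_mul_r, F, ofAdd_add, map_mul, mul_assoc]
    · simp only [sr_mul_sr, F]
      rw [mul_assoc, ← mul_assoc (e _), h2, ← mul_assoc, ← mul_assoc, hY, one_mul, ← map_mul,
        ofAdd_sub, div_eq_inv_mul]
  · simpa [F] using he 1
  · simp [F]
  · rintro C h1 h3 (i | i)
    · obtain ⟨k, hk⟩ := he' (Multiplicative.ofAdd i)
      change Commute (e _) C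
      rw [hk]; exact h1.pow_left k
    · obtain ⟨k, hk⟩ := he' (Multiplicative.ofAdd i)
      change Commute (Y * e _) C
      rw [hk]; exact h3.mul_left (h1.pow_left k)

lemma relB_iff (s d : ℕ) (f : Fin 2 → Q) : (∀ k, FreeGroup.lift f (relB s d k) = 1) ↔
    f 0 ^ (2 * d) = f 1 ^ (2 * s + 1) ∧ f 0 * f 1 ^ (s + 1) * (f 0)⁻¹ = f 1 ^ s := by
  simp [Fin.forall_fin_two, relB, mul_inv_eq_one]

lemma relB_cons {s d : ℕ} {Z W : Q} (h0 : Z ^ (2 * d) = W ^ (2 * s + 1))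
    (h1 : Z * W ^ (s + 1) * Z⁻¹ = W ^ s) :
    Z ^ (2 * d) = 1 ∧ W ^ (2 * s + 1) = 1 ∧ Z * W * Z⁻¹ = W⁻¹ := by
  have h2 : Z * W ^ (2 * s + 1) * Z⁻¹ = W ^ (2 * s + 1) := by
    rw [← h0]; group
  have h3 : W ^ (2 * s + 1) = 1 := by
    have e1 : Z * (W ^ (s + 1)) ^ (2 * s + 1) * Z⁻¹ = (W ^ s) ^ (2 * s + 1) := by
      rw [← conj_pow, h1]
    rw [← pow_mul, mul_comm (s + 1), pow_mul, ← conj_pow, h2, ← pow_mul (n := 2 * s + 1),
      mul_comm s, pow_mul, pow_succ] at e1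
    exact mul_eq_left.1 e1
  refine ⟨h0.trans h3, h3, ?_⟩
  have e2 : W = (W ^ (s + 1)) ^ 2 := by
    rw [← pow_mul, show (s + 1) * 2 = 2 * s + 1 + 1 by ring, pow_succ, h3, one_mul]
  conv_lhs => rw [e2, ← conj_pow, h1]
  rw [eq_inv_iff_mul_eq_one, ← pow_mul, ← pow_succ, mul_comm s, h3]

lemma relB_of {s d : ℕ} {Z W : Q} (h0 : Z ^ (2 * d) = 1) (h1 : W ^ (2 * s + 1) = 1)
    (h2 : Z * W = W⁻¹ * Z) (k : Fin 2) : FreeGroup.lift ![Z, W] (relB s d k) = 1 := by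
  revert k
  rw [relB_iff]
  refine ⟨h0.trans h1.symm, ?_⟩
  change Z * W ^ (s + 1) * Z⁻¹ = W ^ s
  rw [← conj_pow, h2, mul_inv_cancel_right, inv_pow, inv_eq_iff_mul_eq_one, ← pow_add, ← h1]
  congr 1; ring

lemma surj_of {G : Type} [Group G] (z w : G) (h : ∀ K : Subgroup G, z ∈ K → w ∈ K → ∀ g, g ∈ K) :
    Function.Surjective (FreeGroup.lift ![z, w]) := fun g =>
  h (FreeGroup.lift ![z, w]).range ⟨FreeGroup.of 0, by simp⟩ ⟨FreeGroup.of 1, by simp⟩ g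

lemma dih_gen {m : ℕ} [NeZero m] (K : Subgroup (DihedralGroup m)) (h0 : sr 0 ∈ K) (h1 : r 1 ∈ K)
    (g : DihedralGroup m) : g ∈ K := by
  have h2 : ∀ i, r i ∈ K := fun i => by
    have := K.pow_mem h1 i.val
    rwa [r_one_pow, ZMod.natCast_zmod_val] at this
  rcases g with i | i
  · exact h2 i
  · simpa using K.mul_mem h0 (h2 i)

end X17

open X17

theorem r_PRB : St_PRB := by
  intro s
  have w1 : (r 1 : DihedralGroup (2 * s + 1)) ^ (2 * s + 1) = 1 := r_one_pow_n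
  have z1 : (sr 0 : DihedralGroup (2 * s + 1)) ^ 2 = 1 := by rw [sq, sr_mul_self]
  have c1 : (sr 0 : DihedralGroup (2 * s + 1)) * r 1 = (r 1)⁻¹ * sr 0 := by simp
  constructor
  · refine ⟨sr 0, r 1, ⟨relB_of z1 w1 c1, surj_of _ _ dih_gen, fun Q _ f hf => ?_⟩, z1, w1, c1⟩
    obtain ⟨a, b, c⟩ := relB_cons ((relB_iff s 1 f).1 hf).1 ((relB_iff s 1 f).1 hf).2
    obtain ⟨φ, h1, h2, -⟩ := dih_hom b (by rwa [← sq]) c
    exact ⟨φ, Fin.forall_fin_two.2 ⟨h2, h1⟩⟩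
  · have t3 : (Multiplicative.ofAdd (1 : ZMod 3)) ^ 3 = 1 := by decide
    have z3 : ((sr 0, Multiplicative.ofAdd 1) :
        DihedralGroup (2 * s + 1) × Multiplicative (ZMod 3)) ^ (2 * 3) = 1 := by
      refine Prod.ext ?_ ?_
      · change (sr 0 : DihedralGroup (2 * s + 1)) ^ (2 * 3) = 1
        rw [pow_mul, z1, one_pow]
      · change (Multiplicative.ofAdd (1 : ZMod 3)) ^ (2 * 3) = 1
        decide
    have w3 : ((r 1, 1) : DihedralGroup (2 * s + 1) × Multiplicative (ZMod 3)) ^ (2 * s + 1) = 1 :=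
      Prod.ext w1 (one_pow _)
    have c3 : ((sr 0, Multiplicative.ofAdd 1) :
        DihedralGroup (2 * s + 1) × Multiplicative (ZMod 3)) * (r 1, 1) =
          (r 1, 1)⁻¹ * (sr 0, Multiplicative.ofAdd 1) := Prod.ext c1 (by simp)
    refine ⟨_, _, ⟨relB_of z3 w3 c3, surj_of _ _ fun K h0 h1 => ?_, fun Q _ f hf => ?_⟩,
      z3, w3, c3⟩
    · have a3 : ((sr 0, 1) : DihedralGroup (2 * s + 1) × Multiplicative (ZMod 3)) ∈ K := by
        have := K.pow_mem h0 3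
        rwa [Prod.pow_mk, t3, pow_succ, z1, one_mul] at this
      have a4 : ((1, Multiplicative.ofAdd 1) :
          DihedralGroup (2 * s + 1) × Multiplicative (ZMod 3)) ∈ K := by
        simpa using K.mul_mem a3 h0
      rintro ⟨g, t⟩
      have a5 : ((g, 1) : DihedralGroup (2 * s + 1) × Multiplicative (ZMod 3)) ∈ K :=
        dih_gen (K.comap (MonoidHom.inl (DihedralGroup (2 * s + 1)) (Multiplicative (ZMod 3))))
          (Subgroup.mem_comap.2 a3) (Subgroup.mem_comap.2 h1) g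
      have a6 : ∃ k : ℕ, t = Multiplicative.ofAdd 1 ^ k :=
        ⟨t.toAdd.val, by revert t; decide⟩
      obtain ⟨k, rfl⟩ := a6
      simpa using K.mul_mem a5 (K.pow_mem a4 k)
    · obtain ⟨a, b, c⟩ := relB_cons ((relB_iff s 3 f).1 hf).1 ((relB_iff s 3 f).1 hf).2
      have c2 : f 0 ^ 2 * f 1 * (f 0 ^ 2)⁻¹ = f 1 := by
        have : f 0 ^ 2 * f 1 * (f 0 ^ 2)⁻¹ = f 0 * (f 0 * f 1 * (f 0)⁻¹) * (f 0)⁻¹ := by
          simp [sq, mul_assoc]
        rw [this, c, ← conj_inv, c, inv_inv]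
      have c2' : Commute (f 0 ^ 2) (f 1) := mul_inv_eq_iff_eq_mul.1 c2
      obtain ⟨φ, h1, h2, h3⟩ := dih_hom (m := 2 * s + 1) (Y := f 0 ^ 3) b
        (by rw [← pow_add]; exact a) (by
          have : f 0 ^ 3 * f 1 * (f 0 ^ 3)⁻¹ =
            f 0 * (f 0 ^ 2 * f 1 * (f 0 ^ 2)⁻¹) * (f 0)⁻¹ := by group
          rw [this, c2, c])
      obtain ⟨e, he, he'⟩ := cyc_hom (m := 3) (W := f 0 ^ 4)
        (by rw [← pow_mul, show 4 * 3 = 2 * 3 * 2 from rfl, pow_mul, a, one_pow])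
      have hc : ∀ g t, Commute (φ g) (e t) := fun g t => by
        obtain ⟨k, hk⟩ := he' t
        rw [hk]
        refine (h3 _ ?_ (Commute.pow_pow_self _ _ _) g).pow_right k
        rw [show 4 = 2 * 2 from rfl, pow_mul]
        exact (c2'.pow_left 2).symm
      refine ⟨φ.noncommCoprod e hc, Fin.forall_fin_two.2 ⟨?_, ?_⟩⟩
      · have := he 1
        rw [Nat.cast_one, pow_one] at this
        change φ (sr 0) * e (Multiplicative.ofAdd 1) = f 0
        rw [h2, this, ← pow_add, show 3 + 4 = 2 * 3 + 1 from rfl, pow_succ, a, one_mul]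
      · change φ (r 1) * e 1 = f 1
        rw [h1, map_one, mul_one]

end Pool.Agent.PDC
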