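import Pool.Agent.Lib.PDC.T17

/-! The cycle for odd dihedral groups and their products with `C3`. -/

namespace Pool.Agent.PDC

open Pool.Agent.PD3 X17

theorem r_SWB1 : St_SWB1 := by
  intro G _ z w s d μ hz hw hc
  have hw1 : w ^ (s + (s + 1)) = 1 := by rw [← hw]; congr 1; ring
  have hw2 : w ^ (s + 1 + s) = 1 := by rw [← hw]; congr 1; ring
  have k1 : z * w ^ (s + 1) * z⁻¹ = w ^ s := by
    rw [conj_pow_eq hc, mul_inv_cancel_right, inv_eq_iff_mul_eq_one, ← pow_add, hw2]
  have f00 : fox ![z, w] (relB s d 0) 0 = Ns (z ^ 2) d * (1 + o z) := by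
    simp [relB, fox_mul, fox_inv, fox_pow, Ns_two_mul]
  have f01 : fox ![z, w] (relB s d 0) 1 = -Ns w (2 * s + 1) := by
    simp only [relB, fox_mul, fox_inv, fox_pow, Matrix.cons_val_zero, map_pow,
      FreeGroup.lift_apply_of, Matrix.cons_val_one, hz, hw, inv_one, map_one, one_smul]
    simp
  have f10 : fox ![z, w] (relB s d 1) 0 = 1 - o w ^ s := by
    rw [← map_pow, ← k1]
    simp [relB, fox_mul, fox_inv, fox_pow, sub_eq_add_neg]
  have f11 : fox ![z, w] (relB s d 1) 1 = o z * Ns w (s + 1) - Ns w s := by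
    simp only [relB, fox_mul, fox_inv, fox_pow, Matrix.cons_val_zero, map_pow (FreeGroup.lift _),
      map_mul (FreeGroup.lift _), map_inv, FreeGroup.lift_apply_of, Matrix.cons_val_one, k1,
      smul_neg, smul_smul, ← mul_assoc, o_mul_inv]
    simp [sub_eq_add_neg]
  have hN := o_mul_Ns hw
  have c1 := (z_comm_N hc hw).symm
  have cw : Commute (o w) (Ns (z ^ 2) d) :=
    comm_Ns (by rw [map_pow]; exact (o_sq_comm hc).symm) d
  have cz : Commute (o z) (Ns (z ^ 2) d) :=
    comm_Ns (by rw [map_pow]; exact Commute.self_pow _ 2) d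
  have hD := o_mul_Ns (g := z ^ 2) (n := d) (by rw [← pow_mul, hz])
  have hD' : Ns (z ^ 2) d * o z ^ 2 = Ns (z ^ 2) d := by
    rw [← (cz.pow_left 2).eq, ← map_pow, hD]
  have zu := z_mul_pow hc hw1
  have zv := z_mul_pow hc hw2
  have vu : o w ^ (s + 1) * o w ^ s = 1 := by rw [← pow_add, ← map_pow, hw2, map_one]
  rw [map_pow] at hD
  funext i
  fin_cases i
  · simp only [Fin.sum_univ_two, Pi.add_apply, Pi.smul_apply, smul_eq_mul, Fin.zero_eta,
      Matrix.cons_val_zero, Matrix.cons_val_one, f00, f10, Pi.zero_apply]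
    have cN := (comm_Ns (Commute.refl (o w)) (2 * s + 1)).symm
    have n1 : Ns w (2 * s + 1) * o w ^ s = Ns w (2 * s + 1) := by
      rw [(cN.pow_right s).eq, pow_abs hN]
    have n2 : Ns w (2 * s + 1) * o w ^ (s + 1) = Ns w (2 * s + 1) := by
      rw [(cN.pow_right _).eq, pow_abs hN]
    have p1 := sub_mul_Ns w μ
    have p2 := Ns_mul_sub w (s + 1)
    have c2 := (comm_Ns ((Commute.refl (o w)).pow_left (s + 1)) μ).eq
    have c3 := (cw.pow_left (s + 1)).eq
    have cz := cz.eq
    rw [zB0, zB1]
    generalize (s : L G) * (1 + o w ^ (s + 1)) * Ns w μ - (μ : L G) * Ns w (2 * s + 1) = q at *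
    generalize Ns w (2 * s + 1) = N at *
    generalize Ns w (s + 1) = A at *
    generalize Ns w μ = M at *
    generalize Ns (z ^ 2) d = D at *
    generalize o w ^ (s + 1) = v at *
    generalize o w ^ s = u at *
    generalize o w ^ μ = P at *
    generalize o w = W at *
    generalize o z = Z at *
    have t1 : (1 - Z) * (D * (1 + Z)) = 0 := by
      linear_combination (norm := noncomm_ring) -cz * (1 + Z) - hD'
    have t2 : A * (Z ^ 2 - P) * D = M * D * (1 - v) := by
      linear_combination (norm := noncomm_ring) A * hD + A * p1 * D - p2 * (M * D) - c2 * D -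
        M * c3
    have t3 : (v - Z) * (1 - u) = (v - 1) * (1 + Z) := by
      linear_combination (norm := noncomm_ring) zu - vu
    have t4 : N * (Z - 1) * (1 - u) = 0 := by
      linear_combination (norm := noncomm_ring) n1 - N * zu - n2 * Z
    linear_combination (norm := noncomm_ring) t2 * (1 + Z) + (N + q * D) * t1 + M * D * t3 + t4
  · simp only [Fin.sum_univ_two, Pi.add_apply, Pi.smul_apply, smul_eq_mul, Fin.mk_one,
      Matrix.cons_val_zero, Matrix.cons_val_one, f01, f11, Pi.zero_apply]
    rw [mul_neg, zB0_mul hc μ hw, zB1]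
    have e1 : Ns w (2 * s + 1) = Ns w s + o w ^ s * Ns w (s + 1) := by
      rw [← Ns_add]; congr 1; ring
    have e2 : Ns w (2 * s + 1) = Ns w (s + 1) + o w ^ (s + 1) * Ns w s := by
      rw [← Ns_add]; congr 1; ring
    have cN := (comm_Ns (Commute.refl (o w)) (2 * s + 1)).symm
    have a1 : Ns w (2 * s + 1) * Ns w (s + 1) = (s + 1) * Ns w (2 * s + 1) := by
      rw [(comm_Ns cN _).eq, Ns_abs hN, Nat.cast_succ]
    have a2 : Ns w (2 * s + 1) * Ns w s = s * Ns w (2 * s + 1) := by
      rw [(comm_Ns cN _).eq, Ns_abs hN]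
    have a3 := Ns_abs hN μ
    have c2 : Commute (Ns w (2 * s + 1)) (Ns (z ^ 2) d) :=
      comm_Ns (by rw [map_pow]; exact c1.pow_right 2) d
    have c4 := (c2.mul_right (c1.sub_right (Commute.one_right _))).eq
    have c5 := (Nat.cast_commute s (o z)).eq
    have c1 := c1.eq
    have zu' : o w ^ (s + 1) * o z = o z * o w ^ s := zu.symm
    generalize Ns w (2 * s + 1) = N at *
    generalize Ns w (s + 1) = A at *
    generalize Ns w s = B at *
    generalize Ns w μ = M at *
    generalize Ns (z ^ 2) d = D at *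
    generalize o w ^ (s + 1) = v at *
    generalize o w ^ s = u at *
    generalize o z = Z at *
    generalize (s : L G) = S at *
    generalize (μ : L G) = U at *
    have s3 : D * (v - Z) * (Z * A - B) = D * (Z - 1) * N := by
      linear_combination (norm := noncomm_ring) D * zu' * A - hD' * A - D * Z * e1 + D * e2
    have s4 : M * (D * (Z - 1) * N) = U * (D * (Z - 1) * N) := by
      linear_combination (norm := noncomm_ring) -M * c4 + a3 * (D * (Z - 1)) + U * c4
    have s5 : N * (Z - 1) * (Z * A - B) = (Z - 1) * (Z * (S + 1) - S) * N := by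
      linear_combination (norm := noncomm_ring) c1 * (Z * A - B) + (Z - 1) * c1 * A +
        (Z - 1) * Z * a1 - (Z - 1) * a2
    linear_combination (norm := noncomm_ring) M * s3 + s4 + s5 - c5 * Z * N - Z * c5 * N +
      2 * c5 * N

end Pool.Agent.PDC
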