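import Pool.Agent.Lib.PDC.Blue

namespace Pool.Agent.PDC

namespace X59

variable {P V Ed : Type} [Group P]

theorem der_one (D : Der P) : D.1 1 = 0 := by
  simpa using D.2 1 1

theorem der_ext (T : RT P V Ed) {D D' : Der P} (h : ∀ v, ∀ g ∈ T.H v, D.1 g = D'.1 g) :
    D = D' := by
  rw [← sub_eq_zero]
  let K : Subgroup P :=
    { carrier := {g | (D - D').1 g = 0}
      one_mem' := der_one _
      mul_mem' := fun {a b} ha hb => by
        rw [Set.mem_ofPred_eq] at ha hb ⊢
        rw [(D - D').2, ha, hb, zero_mul, add_zero]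
      inv_mem' := fun {a} ha => by
        have := (D - D').2 a⁻¹ a
        rw [Set.mem_ofPred_eq] at ha ⊢
        rwa [inv_mul_cancel, der_one, ha, zero_mul, add_zero, eq_comm] at this }
  have hK : K = ⊤ := T.gen K fun v g hg => sub_eq_zero.2 (h v g hg)
  exact Subtype.ext (funext fun g => (hK.ge (Subgroup.mem_top g) :))

/-- the affine action attached to an inner derivation -/
noncomputable def aff (l : L P) : P →* Equiv.Perm (L P) where
  toFun g :=
    { toFun := fun q => (q + l) * o g⁻¹ - l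
      invFun := fun q => (q + l) * o g - l
      left_inv := fun q => by simp [mul_assoc, o_inv_mul]
      right_inv := fun q => by simp [mul_assoc, o_mul_inv] }
  map_one' := by ext1 q; simp
  map_mul' a b := by ext1 q; simp [mul_assoc]

theorem aff_apply (l : L P) (g : P) (q : L P) : aff l g q = l * (o g⁻¹ - 1) + q * o g⁻¹ := by
  change (q + l) * o g⁻¹ - l = _
  noncomm_ring

theorem exists_der (T : RT P V Ed) (l : T.Lat) :
    ∃ D : Der P, ∀ v, ∀ g ∈ T.H v, D.1 g = l.1 v * (o g⁻¹ - 1) := by
  obtain ⟨φ, hφ⟩ := T.lift _ (fun v => (aff (l.1 v)).comp (T.H v).subtype) fun e => by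
    ext1 q
    have := l.2 e _ (inv_mem (Subgroup.mem_zpowers _))
    simp only [MonoidHom.comp_apply, Subgroup.subtype_apply, aff_apply, add_left_inj]
    rw [← sub_eq_zero, ← sub_mul, mul_sub, this, mul_one, sub_self]
  let K : Subgroup P :=
    { carrier := {g | ∀ q, φ g q = φ g 0 + q * o g⁻¹}
      one_mem' := fun q => by simp
      mul_mem' := fun {a b} ha hb q => by
        simp only [map_mul, Equiv.Perm.mul_apply, mul_inv_rev]
        rw [ha, hb, ha (φ b 0), add_mul, mul_assoc, add_assoc]
      inv_mem' := fun {a} ha q => by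
        have h1 : ∀ q, φ a⁻¹ q = (q - φ a 0) * o a := fun q => by
          rw [map_inv, Equiv.Perm.inv_eq_iff_eq, ha, mul_assoc, o_mul_inv, mul_one, add_sub_cancel]
        rw [h1, h1, inv_inv]
        noncomm_ring }
  have hK : K = ⊤ := T.gen K fun v g hg q => by
    simp [hφ v ⟨g, hg⟩, aff_apply]
  refine ⟨⟨fun g => φ g 0, fun a b => ?_⟩, fun v g hg => by simp [hφ v ⟨g, hg⟩, aff_apply]⟩
  simp only [map_mul, Equiv.Perm.mul_apply]
  exact hK.ge (Subgroup.mem_top a) _

theorem inner (H : Subgroup P) [Finite H] (D : Der P) :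
    ∃ l : L P, ∀ g ∈ H, D.1 g = l * (o g⁻¹ - 1) := by
  let r : P → P := fun y => (QuotientGroup.mk y : P ⧸ H).out
  have h1 : ∀ y, (r y)⁻¹ * y ∈ H := fun y => QuotientGroup.eq.1 (QuotientGroup.out_eq' _)
  have h2 : ∀ y, ∀ g ∈ H, r (y * g) = r y := fun y g hg => by
    simp only [r, QuotientGroup.mk_mul_of_mem y hg]
  have h3 : (Function.support fun y => (D.1 ((r y)⁻¹ * y)).coeff (r y)).Finite := by
    refine (Set.finite_iUnion fun g : H =>
      (D.1 g).coeff.support.finite_toSet.image (· * (g : P))).subset fun y hy => ?_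
    exact Set.mem_iUnion.2 ⟨⟨_, h1 y⟩, r y, Finsupp.mem_support_iff.2 hy, by simp⟩
  refine ⟨.ofCoeff (Finsupp.ofSupportFinite _ h3), fun g hg => ?_⟩
  ext y
  rw [mul_sub, mul_one, MonoidAlgebra.coeff_sub, Finsupp.sub_apply, coeff_mul_o, inv_inv]
  simp only [Finsupp.ofSupportFinite_coe, h2 y g hg, ← mul_assoc]
  rw [D.2 _ g, MonoidAlgebra.coeff_add, Finsupp.add_apply, coeff_mul_o]
  simp

end X59

open X59 in
theorem r_TRE : St_TRE := by
  intro P V Ed _ T
  choose F hF using exists_der T
  refine ⟨{ toFun := F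
            map_add' := fun a b => der_ext T fun v g hg => by
              simp [hF _ v g hg, add_mul]
            map_smul' := fun c a => der_ext T fun v g hg => by
              simp [hF _ v g hg, mul_assoc] }, fun D => ?_, fun l => ⟨fun h v g hg => ?_,
    fun h => der_ext T fun v g hg => ?_⟩⟩
  · have := T.finH
    choose l hl using fun v => inner (T.H v) D
    refine ⟨⟨l, fun e k hk => ?_⟩, der_ext T fun v g hg => (hF _ v g hg).trans (hl v g hg).symm⟩
    have h1 := hl _ _ (inv_mem (Subgroup.zpowers_le.2 (T.γ_out e) hk))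
    have h2 := hl _ _ (inv_mem (Subgroup.zpowers_le.2 (T.γ_inn e) hk))
    rw [h1, inv_inv, ← sub_eq_zero, ← sub_mul, mul_sub, mul_one, sub_eq_zero] at h2
    exact h2
  · have h1 := hF l v _ (inv_mem hg)
    rw [show F l = 0 from h, inv_inv, mul_sub, mul_one] at h1
    exact sub_eq_zero.1 h1.symm
  · refine (hF l v g hg).trans ?_
    rw [mul_sub, h v _ (inv_mem hg), mul_one, sub_self]
    rfl

end Pool.Agent.PDC
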