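import Pool.Agent.Lib.MP_f61c0f_gt.Defs

/-! The fundamental group of a linear tree of groups. -/

namespace Pool.Agent.PDC

/-- The fundamental group of the linear tree of groups with vertex groups `G 0, ..., G n`, edge
groups `E 0, ..., E (n-1)` and edge maps `α i : E i →* G i`, `β i : E i →* G (i+1)`: the free
product of the vertex groups modulo the relations `α i e = β i e`. -/
abbrev TreePi {n : ℕ} {G : Fin (n + 1) → Type} [∀ v, Group (G v)] {E : Fin n → Type}
    [∀ i, Group (E i)] (α : ∀ i, E i →* G i.castSucc) (β : ∀ i, E i →* G i.succ) : Type :=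
  Monoid.CoprodI G ⧸ Subgroup.normalClosure
    {x | ∃ (i : Fin n) (e : E i), x = Monoid.CoprodI.of (α i e) * (Monoid.CoprodI.of (β i e))⁻¹}

end Pool.Agent.PDC
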