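import Pool.Agent.Lib.MP_f61c0f_gt.General
import Pool.Agent.Lib.PDC.Defs

/-! Blueprint: trees of finite groups with an edge group of order six. -/

namespace Pool.Agent.PDC

open Pool.Agent.PD3

/-! ### group rings -/

abbrev L (P : Type) [Group P] : Type := MonoidAlgebra ℤ P

section Ring

variable {P : Type} [Group P]

/-- a group element in the group ring -/
noncomputable def o : P →* L P := MonoidAlgebra.of ℤ P

lemma o_def (g : P) : o g = MonoidAlgebra.single g (1 : ℤ) := rfl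

@[simp] lemma aug_o (g : P) : aug (o g) = 1 := by simp [o_def]

@[simp] lemma bar_o (g : P) : bar (o g) = o g⁻¹ := by simp [o_def]

lemma o_mul_inv (g : P) : o g * o g⁻¹ = (1 : L P) := by rw [← map_mul, mul_inv_cancel, map_one]

lemma o_inv_mul (g : P) : o g⁻¹ * o g = (1 : L P) := by rw [← map_mul, inv_mul_cancel, map_one]

lemma coeff_o_mul (g : P) (a : L P) (x : P) : (o g * a).coeff x = a.coeff (g⁻¹ * x) := by
  rw [o_def, MonoidAlgebra.coeff_single_mul_apply, one_mul]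

lemma coeff_mul_o (g : P) (a : L P) (x : P) : (a * o g).coeff x = a.coeff (x * g⁻¹) := by
  rw [o_def, MonoidAlgebra.coeff_mul_single_apply, mul_one]

/-- `1 + g + ... + g ^ (n - 1)` -/
noncomputable def Ns (g : P) (n : ℕ) : L P := ∑ i ∈ Finset.range n, o (g ^ i)

/-- the sum of a finite set of group elements -/
noncomputable def nS (s : Finset P) : L P := ∑ g ∈ s, o g

lemma Ns_succ (g : P) (n : ℕ) : Ns g (n + 1) = Ns g n + o g ^ n := by
  rw [Ns, Finset.sum_range_succ, map_pow]; rfl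

lemma sub_mul_Ns (g : P) (n : ℕ) : (o g - 1) * Ns g n = o g ^ n - 1 := by
  simp only [Ns, map_pow]; exact mul_geom_sum _ _

lemma Ns_mul_sub (g : P) (n : ℕ) : Ns g n * (o g - 1) = o g ^ n - 1 := by
  simp only [Ns, map_pow]; exact geom_sum_mul _ _

@[simp] lemma aug_Ns (g : P) (n : ℕ) : aug (Ns g n) = n := by simp [Ns]

lemma exists_nS (g : P) (n : ℕ) (hn : 0 < n) (h : orderOf g = n) :
    ∃ s : Finset P, (∀ x, x ∈ s ↔ x ∈ Subgroup.zpowers g) ∧ nS s = Ns g n := by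
  classical
  have hf : IsOfFinOrder g := by rw [← orderOf_pos_iff, h]; exact hn
  refine ⟨(Finset.range n).image (g ^ ·), fun x => ?_, ?_⟩
  · rw [hf.mem_zpowers_iff_mem_range_orderOf, h]
  · rw [nS, Finset.sum_image]
    · rfl
    · intro a ha b hb hab
      exact pow_injOn_Iio_orderOf (by simpa [h] using ha) (by simpa [h] using hb) hab

/-- every element of augmentation zero is a combination of the `g - 1` -/
lemma aug_ind (M : L P → Prop) (h0 : M 0) (hadd : ∀ a b, M a → M b → M (a + b))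
    (hg : ∀ (g : P) (n : ℤ), M ((o g - 1) * n)) (a : L P) (ha : aug a = 0) : M a := by
  have h : ∀ a : L P, M (a - (aug a : L P)) := by
    intro a
    induction a using MonoidAlgebra.induction_linear with
    | zero => simpa using h0
    | add a b h1 h2 =>
      have := hadd _ _ h1 h2
      rwa [← add_sub_add_comm, ← Int.cast_add, ← map_add] at this
    | single g n =>
      have := hg g n
      simpa [sub_mul, o_def, MonoidAlgebra.intCast_def, MonoidAlgebra.single_mul_single] using this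
  simpa [ha] using h a

/-- right invariance under a subgroup -/
def RInv (K : Subgroup P) (a : L P) : Prop := ∀ k ∈ K, a * o k = a

lemma rInv_bot (a : L P) : RInv ⊥ a := fun k hk => by
  rw [Subgroup.mem_bot.1 hk, map_one, mul_one]

lemma rInv_zpowers {g : P} {a : L P} (h : a * o g = a) : RInv (Subgroup.zpowers g) a := by
  have h' : a * o g⁻¹ = a := by
    conv_lhs => rw [← h]
    rw [mul_assoc, o_mul_inv, mul_one]
  rintro _ ⟨k, rfl⟩
  induction k using Int.induction_on with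
  | zero => simp
  | succ k ih =>
    change a * o (g ^ _) = a
    change a * o (g ^ _) = a at ih
    rw [zpow_add_one, map_mul, ← mul_assoc, ih, h]
  | pred k ih =>
    change a * o (g ^ _) = a
    change a * o (g ^ _) = a at ih
    rw [zpow_sub_one, map_mul, ← mul_assoc, ih, h']

/-- derivations of the group in its group ring -/
def Der (P : Type) [Group P] : Submodule (L P) (P → L P) where
  carrier := {D | ∀ a b, D (a * b) = D a + D b * o a⁻¹}
  zero_mem' := by simp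
  add_mem' := fun {D D'} h h' a b => by
    simp only [Pi.add_apply, h a b, h' a b, add_mul]; abel
  smul_mem' := fun r D h a b => by
    simp only [Pi.smul_apply, smul_eq_mul, h a b, mul_add, mul_assoc]

end Ring

/-! ### Fox calculus and presentations -/

section Fox

variable {P : Type} [Group P] {ι : Type} [DecidableEq ι]

/-- affine permutation attached to a generator -/
noncomputable def foxPerm (x : ι → P) (i : ι) : Equiv.Perm (ι → L P) where
  toFun q := Pi.single i 1 + o (x i) • q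
  invFun q := o (x i)⁻¹ • (q - Pi.single i 1)
  left_inv q := by simp [smul_smul, o_inv_mul]
  right_inv q := by simp [smul_smul, o_mul_inv]

/-- the vector of Fox derivatives of a word -/
noncomputable def fox (x : ι → P) (w : FreeGroup ι) : ι → L P := FreeGroup.lift (foxPerm x) w 0

lemma foxPerm_apply (x : ι → P) (w : FreeGroup ι) (q : ι → L P) :
    FreeGroup.lift (foxPerm x) w q = fox x w + o (FreeGroup.lift x w) • q := by
  induction w using FreeGroup.induction_on generalizing q with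
  | C1 => simp [fox]
  | of i => simp [fox, foxPerm]
  | inv_of i _ =>
    simp only [fox, map_inv, FreeGroup.lift_apply_of]
    change o (x i)⁻¹ • (q - _) = o (x i)⁻¹ • (0 - _) + _
    rw [smul_sub, smul_sub, smul_zero]; abel
  | mul a b ha hb =>
    simp only [fox, map_mul, Equiv.Perm.mul_apply] at *
    rw [ha, hb, ha (FreeGroup.lift (foxPerm x) b 0), smul_add, smul_smul, add_assoc]

@[simp] lemma fox_one (x : ι → P) : fox x 1 = 0 := by simp [fox]

@[simp] lemma fox_of (x : ι → P) (i : ι) : fox x (FreeGroup.of i) = Pi.single i 1 := by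
  simp [fox, foxPerm]

lemma fox_mul (x : ι → P) (a b : FreeGroup ι) :
    fox x (a * b) = fox x a + o (FreeGroup.lift x a) • fox x b := by
  rw [← foxPerm_apply, fox, map_mul]; rfl

lemma fox_inv (x : ι → P) (a : FreeGroup ι) :
    fox x a⁻¹ = -(o (FreeGroup.lift x a)⁻¹ • fox x a) := by
  have h := fox_mul x a⁻¹ a
  rw [inv_mul_cancel, fox_one, map_inv] at h
  exact eq_neg_of_add_eq_zero_left h.symm

lemma fox_pow (x : ι → P) (a : FreeGroup ι) (n : ℕ) :
    fox x (a ^ n) = Ns (FreeGroup.lift x a) n • fox x a := by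
  induction n with
  | zero => simp [Ns]
  | succ n ih => rw [pow_succ, fox_mul, ih, Ns_succ, add_smul, map_pow, map_pow]

/-- the fundamental formula -/
lemma fox_fund [Fintype ι] (x : ι → P) (w : FreeGroup ι) :
    ∑ i, fox x w i * (o (x i) - 1) = o (FreeGroup.lift x w) - 1 := by
  induction w using FreeGroup.induction_on with
  | C1 => simp
  | of i =>
    rw [fox_of, Finset.sum_eq_single i] <;> simp +contextual
  | inv_of i h =>
    simp only [fox_inv, Pi.neg_apply, Pi.smul_apply, smul_eq_mul, neg_mul, mul_assoc,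
      Finset.sum_neg_distrib, ← Finset.mul_sum, h, map_inv]
    rw [mul_sub, o_inv_mul, mul_one]
    abel
  | mul a b ha hb =>
    simp only [fox_mul, Pi.add_apply, Pi.smul_apply, smul_eq_mul, add_mul, mul_assoc,
      Finset.sum_add_distrib, ← Finset.mul_sum, ha, hb, map_mul]
    rw [mul_sub, mul_one]
    abel

lemma fox_hom {Q : Type} [Group Q] (φ : P →* Q) (x : ι → P) (w : FreeGroup ι) (i : ι) :
    fox (fun i => φ (x i)) w i = MonoidAlgebra.mapDomainRingHom ℤ φ (fox x w i) := by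
  have hl : ∀ w, FreeGroup.lift (fun i => φ (x i)) w = φ (FreeGroup.lift x w) := fun w => by
    change _ = (φ.comp (FreeGroup.lift x)) w
    congr 1; ext; simp
  have ho : ∀ g, MonoidAlgebra.mapDomainRingHom ℤ φ (o g) = o (φ g) := fun g => by simp [o_def]
  induction w using FreeGroup.induction_on with
  | C1 => simp
  | of j => by_cases h : i = j <;> simp [h]
  | inv_of j h => simp only [fox_inv, Pi.neg_apply, Pi.smul_apply, smul_eq_mul, h, hl, map_neg,
      map_mul, ho, map_inv]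
  | mul a b ha hb => simp only [fox_mul, Pi.add_apply, Pi.smul_apply, smul_eq_mul, ha, hb, hl,
      map_add, map_mul, ho]

end Fox

/-- `x`, `r` is a presentation of `P` -/
def Pres {P : Type} [Group P] {ι κ : Type} (x : ι → P) (r : κ → FreeGroup ι) : Prop :=
  (∀ k, FreeGroup.lift x (r k) = 1) ∧ Function.Surjective (FreeGroup.lift x) ∧
    ∀ (Q : Type) [Group Q] (f : ι → Q), (∀ k, FreeGroup.lift f (r k) = 1) →
      ∃ φ : P →* Q, ∀ i, φ (x i) = f i

/-- a balanced presentation and a cycle whose entries generate the augmentation ideal -/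
def SwanD {G : Type} [Group G] (x : Fin 2 → G) (r : Fin 2 → FreeGroup (Fin 2))
    (z : Fin 2 → L G) : Prop :=
  Pres x r ∧ ∑ k, z k • fox x (r k) = 0 ∧ (∀ k, aug (z k) = 0) ∧
    ∀ g, ∃ w : Fin 2 → L G, o g - 1 = ∑ k, z k * w k

def Swan (G : Type) [Group G] : Prop := ∃ x r z, SwanD (G := G) x r z

/-- the same data for a subgroup, read in the big group ring -/
def Loc {P : Type} [Group P] (H : Subgroup P) (x : Fin 2 → P) (r : Fin 2 → FreeGroup (Fin 2))
    (z : Fin 2 → L P) : Prop :=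
  (∀ a, FreeGroup.lift x a ∈ H) ∧ (∀ k, FreeGroup.lift x (r k) = 1) ∧
    (∀ g ∈ H, ∃ a, FreeGroup.lift x a = g) ∧
    (∀ (Q : Type) [Group Q] (f : Fin 2 → Q), (∀ k, FreeGroup.lift f (r k) = 1) →
      ∃ φ : H →* Q, ∀ a h, φ ⟨FreeGroup.lift x a, h⟩ = FreeGroup.lift f a) ∧
    ∑ k, z k • fox x (r k) = 0 ∧ (∀ k, aug (z k) = 0) ∧
    ∀ g ∈ H, ∃ w : Fin 2 → L P, o g - 1 = ∑ k, z k * w k

/-- a two-chain bounding the `n`-th power of `γ` -/
def Cel {P : Type} [Group P] (x : Fin 2 → P) (r : Fin 2 → FreeGroup (Fin 2)) (z : Fin 2 → L P)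
    (γ : P) (n : ℕ) (R : L P) : Prop :=
  ∃ (a : FreeGroup (Fin 2)) (c : Fin 2 → L P), FreeGroup.lift x a = γ ∧
    ∑ k, c k • fox x (r k) = Ns γ n • fox x a ∧ (o γ - 1) • c = R • z

/-! ### the finite groups -/

abbrev SL23 : Type := Matrix.SpecialLinearGroup (Fin 2) (ZMod 3)

def IsA (G : Type) [Group G] : Prop := Nonempty (G ≃* SL23)

def IsB (G : Type) [Group G] : Prop :=
  ∃ m : ℕ, 1 < m ∧ Nat.Coprime m 6 ∧ Nonempty (G ≃* DihedralGroup m × Multiplicative (ZMod 3))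

def IsD (G : Type) [Group G] : Prop := ∃ k : ℕ, Odd k ∧ 3 ≤ k ∧ Nonempty (G ≃* DihedralGroup k)

def FC (P : Type) [Group P] : Prop :=
  ∀ (p : ℕ) (g : P), p.Prime → orderOf g = p → {z : P | Commute z g}.Finite

def P1 (G : Type) [Group G] : Prop :=
  ∀ (p : ℕ) (g h : G), p.Prime → orderOf g = p → orderOf h = p → Commute g h →
    h ∈ Subgroup.zpowers g

def P2 (G : Type) [Group G] : Prop :=
  ∀ (p r : ℕ) (g s : G), p.Prime → orderOf g = p → s * g * s⁻¹ = g ^ r → r ^ 2 ≡ 1 [MOD p]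

/-- `x g x⁻¹ ∈ ⟨c⟩` only for `x ∈ ⟨c⟩` -/
def Mal {G : Type} [Group G] (c g : G) : Prop :=
  ∀ x, x * g * x⁻¹ ∈ Subgroup.zpowers c → x ∈ Subgroup.zpowers c

/-- there is a nontrivial cyclic normal subgroup -/
def Ncy (G : Type) [Group G] : Prop :=
  ∃ u : G, u ≠ 1 ∧ ∀ x, x * u * x⁻¹ ∈ Subgroup.zpowers u

/-! ### rooted trees of finite subgroups with cyclic edge groups -/

structure RT (P V Ed : Type) [Group P] where
  H : V → Subgroup P
  out : Ed → V
  inn : Ed → V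
  γ : Ed → P
  root : V
  ht : V → ℕ
  Ω : Type
  ρ : P →* Equiv.Perm Ω
  finH : ∀ v, Finite (H v)
  γ_out : ∀ e, γ e ∈ H (out e)
  γ_inn : ∀ e, γ e ∈ H (inn e)
  ht_root : ht root = 0
  ht_out : ∀ e, ht (out e) = ht (inn e) + 1
  out_inj : Function.Injective out
  out_surj : ∀ v, v ≠ root → ∃ e, out e = v
  gen : ∀ K : Subgroup P, (∀ v, H v ≤ K) → K = ⊤
  lift : ∀ (Q : Type) [Group Q] (f : ∀ v, H v →* Q),
    (∀ e, f (out e) ⟨γ e, γ_out e⟩ = f (inn e) ⟨γ e, γ_inn e⟩) →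
      ∃ φ : P →* Q, ∀ v (g : H v), φ g = f v g
  finΩ : Finite Ω
  neΩ : Nonempty Ω
  free : ∀ v, ∀ g ∈ H v, ∀ ω, ρ g ω = ω → g = 1

namespace RT

variable {P V Ed : Type} [Group P] (T : RT P V Ed)

lemma out_ne (e : Ed) : T.out e ≠ T.root := fun h => by
  have := T.ht_out e
  rw [h, T.ht_root] at this; omega

lemma out_ne_inn (e : Ed) : T.out e ≠ T.inn e := fun h => by
  have := T.ht_out e
  rw [h] at this; omega

/-- induction from the root -/
lemma up {M : V → Prop} (h0 : M T.root) (h1 : ∀ e, M (T.inn e) → M (T.out e)) (v : V) : M v := by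
  induction h : T.ht v using Nat.strong_induction_on generalizing v with
  | _ n ih =>
    by_cases hv : v = T.root
    · rwa [hv]
    · obtain ⟨e, rfl⟩ := T.out_surj v hv
      exact h1 e (ih _ (by rw [← h, T.ht_out]; omega) _ rfl)

/-- induction from the leaves -/
lemma down [Finite V] {M : Ed → Prop} (h : ∀ e, (∀ e', T.inn e' = T.out e → M e') → M e)
    (e : Ed) : M e := by
  obtain ⟨B, hB⟩ := (Set.finite_range T.ht).bddAbove
  induction hn : B - T.ht (T.out e) using Nat.strong_induction_on generalizing e with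
  | _ n ih =>
    refine h e fun e' he' => ih _ ?_ e' rfl
    have h1 := hB ⟨T.out e', rfl⟩
    have h2 := T.ht_out e'
    rw [he'] at h2
    omega

/-- recursion from the root -/
lemma rec_up {M : Type} (m : M) (step : Ed → M → M) :
    ∃ l : V → M, l T.root = m ∧ ∀ e, l (T.out e) = step e (l (T.inn e)) := by
  classical
  let F : ℕ → V → M := fun n => Nat.rec (fun _ => m) (fun _ f v =>
    if h : v = T.root then m else
      step (T.out_surj v h).choose (f (T.inn (T.out_surj v h).choose))) n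
  refine ⟨fun v => F (T.ht v) v, by simp [F, T.ht_root], fun e => ?_⟩
  have h1 : (T.out_surj _ (T.out_ne e)).choose = e := T.out_inj (T.out_surj _ (T.out_ne e)).choose_spec
  simp only [T.ht_out, F, dif_neg (T.out_ne e), h1]

include T in
lemma card_eq [Fintype V] [Fintype Ed] : Fintype.card V = Fintype.card Ed + 1 := by
  rw [← Fintype.card_option]
  refine (Fintype.card_congr (Equiv.ofBijective (fun e : Option Ed => e.elim T.root T.out)
    ⟨?_, fun v => ?_⟩)).symm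
  · rintro (_ | a) (_ | b) h
    · rfl
    · exact absurd h.symm (T.out_ne b)
    · exact absurd h (T.out_ne a)
    · exact congrArg some (T.out_inj h)
  · by_cases hv : v = T.root
    · exact ⟨none, hv.symm⟩
    · obtain ⟨e, rfl⟩ := T.out_surj v hv
      exact ⟨some e, rfl⟩

/-- the two sides of an edge -/
lemma side (e : Ed) : ∃ s : V → Bool, s (T.out e) = true ∧
    (∀ v, s v = true → T.ht (T.out e) ≤ T.ht v) ∧ ∀ e', e' ≠ e → s (T.out e') = s (T.inn e') := by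
  classical
  obtain ⟨s, h0, h1⟩ := T.rec_up false fun e' b => if e' = e then true else b
  refine ⟨s, by simp [h1], T.up (by simp [h0]) fun e' ih hs => ?_, fun e' h => by simp [h1, h]⟩
  by_cases h : e' = e
  · rw [h]
  · rw [h1, if_neg h] at hs
    have := ih hs
    have := T.ht_out e'
    omega

lemma rho_inj {v : V} {a b : P} (ha : a ∈ T.H v) (hb : b ∈ T.H v) (h : T.ρ a = T.ρ b) : a = b := by
  obtain ⟨ω⟩ := T.neΩ
  rw [← inv_mul_eq_one]
  refine T.free v _ ((T.H v).mul_mem ((T.H v).inv_mem ha) hb) ω ?_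
  rw [map_mul, map_inv, h, inv_mul_cancel]; rfl

lemma fin_zp (e : Ed) : Finite (Subgroup.zpowers (T.γ e)) :=
  haveI := T.finH (T.out e)
  Finite.of_injective _ (Subgroup.inclusion_injective ((Subgroup.zpowers_le (H := T.H (T.out e))).2 (T.γ_out e)))

/-- families whose differences along edges are invariant under the edge groups -/
def Lat : Submodule (L P) (V → L P) where
  carrier := {l | ∀ e, RInv (Subgroup.zpowers (T.γ e)) (l (T.out e) - l (T.inn e))}
  zero_mem' := fun e k _ => by simp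
  add_mem' := fun {a b} ha hb e k hk => by
    have h1 := ha e k hk
    have h2 := hb e k hk
    simp only [Pi.add_apply]
    rw [add_sub_add_comm, add_mul, h1, h2]
  smul_mem' := fun r a ha e k hk => by
    simp only [Pi.smul_apply, smul_eq_mul]
    rw [← mul_sub, mul_assoc, ha e k hk]

/-- families invariant under the vertex groups -/
def Ainv (l : V → L P) : Prop := ∀ v, RInv (T.H v) (l v)

lemma Ainv.mem_lat {T : RT P V Ed} {l : V → L P} (h : T.Ainv l) : l ∈ T.Lat := fun e k hk => by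
  rw [sub_mul, h _ k (Subgroup.zpowers_le.2 (T.γ_out e) hk),
    h _ k (Subgroup.zpowers_le.2 (T.γ_inn e) hk)]

lemma lat_div (N : L P) (b : V → L P) (h0 : ∃ μ, b T.root = N * μ)
    (h1 : ∀ e, ∃ μ, RInv (Subgroup.zpowers (T.γ e)) μ ∧ b (T.out e) - b (T.inn e) = N * μ) :
    ∃ l : T.Lat, b = N • (l : V → L P) := by
  obtain ⟨μ0, h0⟩ := h0
  choose μ hμ h1 using h1
  obtain ⟨l, l0, l1⟩ := T.rec_up μ0 fun e m => m + μ e
  refine ⟨⟨l, fun e => by rw [l1, add_sub_cancel_left]; exact hμ e⟩, funext (T.up ?_ ?_)⟩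
  · simp [l0, h0]
  · intro e ih
    simp only [Pi.smul_apply, smul_eq_mul] at ih ⊢
    rw [l1, mul_add, ← ih, ← h1, add_sub_cancel]

/-- the edge `j` at the root has order six, the others order two, and the tree is reduced -/
def Shape (j : Ed) : Prop :=
  T.inn j = T.root ∧ orderOf (T.γ j) = 6 ∧ (∀ e, e ≠ j → orderOf (T.γ e) = 2) ∧
    ∀ e, T.H (T.out e) ≠ Subgroup.zpowers (T.γ e) ∧ T.H (T.inn e) ≠ Subgroup.zpowers (T.γ e)

/-- every derivation comes from a family in `Lat` -/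
def TreeData : Prop :=
  ∃ Φ : T.Lat →ₗ[L P] Der P, Function.Surjective Φ ∧ ∀ l, Φ l = 0 ↔ T.Ainv l

end RT

/-- what is used of Poincare duality -/
def PDdata (P : Type) [Group P] : Prop :=
  ∃ (k1 k2 k3 : ℕ) (j : Der P →ₗ[L P] (Fin k1 → L P)) (d1 : (Fin k1 → L P) →ₗ[L P] (Fin k2 → L P))
    (d2 : (Fin k2 → L P) →ₗ[L P] (Fin k3 → L P)) (ε : (Fin k3 → L P) →+ ℤ),
    Function.Injective j ∧ Function.Exact j d1 ∧ Function.Exact d1 d2 ∧ Function.Exact d2 ε ∧
      Function.Surjective ε ∧ ∀ (g : P) y, ε (o g • y) = ε y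

def ZigAt {P : Type} [Group P] (g : P) (p : ℕ) : Prop :=
  ∃ D0 : Der P, Ns g p • D0 = 0 ∧ (∀ D' : Der P, D0 ≠ (o g - 1) • D') ∧
    (∀ D : Der P, Ns g p • D = 0 → ∃ (k : ℤ) (D' : Der P), D = k • D0 + (o g - 1) • D') ∧
    ∀ (s : P) (r : ℕ), s * g * s⁻¹ = g ^ r →
      ∃ D' : Der P, o s • D0 = ((r : ℤ) ^ 2) • D0 + (o g - 1) • D'

/-- universal property of the fundamental group of a linear tree of groups -/
def Colim {n : ℕ} {G : Fin (n + 1) → Type} [∀ v, Group (G v)] {E : Fin n → Type}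
    [∀ i, Group (E i)] (α : ∀ i, E i →* G i.castSucc) (β : ∀ i, E i →* G i.succ)
    {P : Type} [Group P] (ι : ∀ v, G v →* P) : Prop :=
  (∀ i e, ι i.castSucc (α i e) = ι i.succ (β i e)) ∧
    (∀ K : Subgroup P, (∀ v g, ι v g ∈ K) → K = ⊤) ∧
    ∀ (Q : Type) [Group Q] (f : ∀ v, G v →* Q),
      (∀ i e, f i.castSucc (α i e) = f i.succ (β i e)) → ∃ φ : P →* Q, ∀ v g, φ (ι v g) = f v g

/-! ### block statements: permutation modules -/

def St_PRM1 : Prop :=
  ∀ (P : Type) [Group P] (g h : P) (s : Finset P) (K : Subgroup P),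
    (∀ x, x ∈ s ↔ x ∈ Subgroup.closure {g, h}) → Finite K → ∀ a : L P, RInv K a → nS s * a = 0 →
      ∃ μ μ', RInv K μ ∧ RInv K μ' ∧ a = (o g - 1) * μ + (o h - 1) * μ'

def St_PRM2 : Prop :=
  ∀ (P : Type) [Group P] (F : Subgroup P) (s : Finset P) (K : Subgroup P),
    (∀ x, x ∈ s ↔ x ∈ F) → Finite K → ∀ a : L P, RInv K a → (∀ f ∈ F, o f * a = a) →
      (∀ x, (Set.ncard {f | f ∈ F ∧ x⁻¹ * f * x ∈ K} : ℤ) ∣ a.coeff x) →
        ∃ μ, RInv K μ ∧ a = nS s * μ

/-- cyclic groups -/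
def St_CYC : Prop :=
  ∀ (P : Type) [Group P] (g : P) (n : ℕ), 0 < n → orderOf g = n →
    (∀ K : Subgroup P, Finite K → ∀ a, RInv K a → Ns g n * a = 0 →
      ∃ μ, RInv K μ ∧ a = (o g - 1) * μ) ∧
    (∀ a, (o g - 1) * a = 0 → ∃ μ, a = Ns g n * μ) ∧
    (n.Prime → ∀ K : Subgroup P, Finite K → ∀ a, RInv K a → (o g - 1) * a = 0 →
      (∀ x, x⁻¹ * g * x ∈ K → (n : ℤ) ∣ a.coeff x) → ∃ μ, RInv K μ ∧ a = Ns g n * μ) ∧
    ∀ (s : P) (r : ℕ), s * g * s⁻¹ = g ^ r → o s * Ns g n = Ns g n * o s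

/-- elementary abelian groups of rank two -/
def St_CY2 : Prop :=
  ∀ (P : Type) [Group P] (g h : P) (p : ℕ), p.Prime → orderOf g = p → orderOf h = p →
    Commute g h → h ∉ Subgroup.zpowers g →
    (∀ a, Ns g p * Ns h p * a = 0 → ∃ μ μ', a = (o g - 1) * μ + (o h - 1) * μ') ∧
    (∀ K : Subgroup P, Finite K → ∀ a, RInv K a → (o g - 1) * a = 0 → (o h - 1) * a = 0 →
      (∀ x, a.coeff x ≠ 0 → ∀ f ∈ Subgroup.closure {g, h}, x⁻¹ * f * x ∈ K → f = 1) →
        ∃ μ, RInv K μ ∧ a = Ns g p * Ns h p * μ) ∧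
    (Subgroup.closure {g, h} : Set P).Finite ∧
    ∀ f ∈ Subgroup.closure {g, h}, f ≠ 1 → orderOf f = p

/-! ### block statements: necessity -/

def St_PDX : Prop := ∀ X : DeltaCx, X.IsPD3 → PDdata X.pi1

def St_TRE : Prop := ∀ (P V Ed : Type) [Group P] (T : RT P V Ed), T.TreeData

def St_ZIG : Prop :=
  ∀ (P : Type) [Group P], PDdata P → ∀ (g : P) (p : ℕ), p.Prime → orderOf g = p → ZigAt g p

def St_ZIG2 : Prop :=
  ∀ (P : Type) [Group P], PDdata P → ∀ (g h : P) (p : ℕ), p.Prime → orderOf g = p →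
    orderOf h = p → Commute g h → h ∉ Subgroup.zpowers g →
      ∀ D : Der P, (Ns g p * Ns h p) • D = 0 → ∃ D' : Der P, Ns h p • D = (o g - 1) • D'

def St_FIN1 : Prop :=
  ∀ (P V Ed : Type) [Group P] [Fintype V] (T : RT P V Ed), T.TreeData →
    ∀ (g : P) (p : ℕ), p.Prime → orderOf g = p → ZigAt g p →
      {z : P | Commute z g}.Finite ∧ (∃ v x, x⁻¹ * g * x ∈ T.H v) ∧
        ∀ v, {x : P | x⁻¹ * g * x ∈ T.H v}.Finite

def St_FIN2 : Prop :=
  ∀ (P V Ed : Type) [Group P] [Fintype V] (T : RT P V Ed), T.TreeData →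
    ∀ (g : P) (p : ℕ), p.Prime → orderOf g = p → ZigAt g p → (∃ v x, x⁻¹ * g * x ∈ T.H v) →
      (∀ v, {x : P | x⁻¹ * g * x ∈ T.H v}.Finite) →
        ∀ (s : P) (r : ℕ), s * g * s⁻¹ = g ^ r → r ^ 2 ≡ 1 [MOD p]

def St_FIN3 : Prop :=
  ∀ (P V Ed : Type) [Group P] [Fintype V] (T : RT P V Ed), T.TreeData →
    ∀ (g h : P) (p : ℕ), p.Prime → orderOf g = p → orderOf h = p → Commute g h →
      h ∉ Subgroup.zpowers g → (∃ v x, x⁻¹ * g * x ∈ T.H v) →
      (∀ f, orderOf f = p → ∀ v, {x : P | x⁻¹ * f * x ∈ T.H v}.Finite) →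
      (∀ D : Der P, (Ns g p * Ns h p) • D = 0 → ∃ D' : Der P, Ns h p • D = (o g - 1) • D') → False

def St_INF : Prop :=
  ∀ (P V Ed : Type) [Group P] (T : RT P V Ed) (e : Ed) (s : V → Bool),
    (∀ e', e' ≠ e → s (T.out e') = s (T.inn e')) → ∀ a b : P,
      a ∈ ⨆ v : {v // s v = false}, T.H v → b ∈ ⨆ v : {v // s v = true}, T.H v →
      T.ρ a ∉ (Subgroup.zpowers (T.γ e)).map T.ρ → T.ρ b ∉ (Subgroup.zpowers (T.γ e)).map T.ρ →
        ¬ IsOfFinOrder (a * b)

def St_INV : Prop :=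
  ∀ (G : Type) [Group G] [Finite G], P1 G → ∀ a b : G, orderOf a = 2 → orderOf b = 2 →
    ∃ x, x * a * x⁻¹ = b

def St_GD : Prop :=
  ∀ (G : Type) [Group G] [Finite G], P1 G → ∀ t : G, orderOf t = 2 →
    (∀ x, Commute x t → x ∈ Subgroup.zpowers t) → Subgroup.zpowers t ≠ ⊤ → IsD G

/-- structure of the group `D × C3` -/
def StrB (G : Type) [Group G] (c : G) : Prop :=
  ∃ (u : G) (m : ℕ), 1 < m ∧ Nat.Coprime m 6 ∧ orderOf u = m ∧ c ^ 3 * u * (c ^ 3)⁻¹ = u⁻¹ ∧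
    Commute (c ^ 2) u ∧ ∀ g, ∃ i k : ℕ, g = u ^ i * c ^ k

def St_GB1 : Prop :=
  ∀ (G : Type) [Group G] [Finite G], P1 G → P2 G → ∀ c : G, orderOf c = 6 →
    (∀ x, Commute x (c ^ 3) → x ∈ Subgroup.zpowers c) → Subgroup.zpowers c ≠ ⊤ → StrB G c

def St_GB2 : Prop :=
  ∀ (G : Type) [Group G] [Finite G] (c : G), orderOf c = 6 → StrB G c →
    IsB G ∧ ∀ x, Commute x (c ^ 2)

def St_GA1 : Prop :=
  ∀ (G : Type) [Group G] [Finite G], P1 G → P2 G → ∀ c : G, orderOf c = 6 →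
    (∀ x, x * c ^ 2 * x⁻¹ ∈ Subgroup.zpowers (c ^ 2) → x ∈ Subgroup.zpowers c) →
      ∃ K : Subgroup G, K.Normal ∧ IsPGroup 2 K ∧ ∀ g, ∃ k ∈ K, ∃ d : ℕ, g = k * (c ^ 2) ^ d

/-- structure of the binary tetrahedral group -/
def StrA (G : Type) [Group G] (c : G) : Prop :=
  ∃ i j k : G, i ^ 2 = c ^ 3 ∧ j = c ^ 2 * i * (c ^ 2)⁻¹ ∧ k = c ^ 2 * j * (c ^ 2)⁻¹ ∧
    j * i = c ^ 3 * (i * j) ∧ (i * j = k ∨ i * j = c ^ 3 * k) ∧ Commute i (c ^ 3) ∧
    Subgroup.closure {i, c} = ⊤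

def St_GA2 : Prop :=
  ∀ (G : Type) [Group G] [Finite G], P1 G → ∀ c : G, orderOf c = 6 →
    (∀ x, Commute x (c ^ 2) → x ∈ Subgroup.zpowers c) → Subgroup.zpowers c ≠ ⊤ →
    ∀ K : Subgroup G, K.Normal → IsPGroup 2 K → (∀ g, ∃ k ∈ K, ∃ d : ℕ, g = k * (c ^ 2) ^ d) →
      StrA G c

/-- the two relators `a b b a b⁻¹` and `b a a b a⁻¹` -/
def relA : Fin 2 → FreeGroup (Fin 2) :=
  ![.of 0 * .of 1 * .of 1 * .of 0 * (.of 1)⁻¹, .of 1 * .of 0 * .of 0 * .of 1 * (.of 0)⁻¹]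

def St_PRA : Prop := ∃ x : Fin 2 → SL23, Pres x relA

def St_GA3 : Prop := ∀ (G : Type) [Group G] (c : G), orderOf c = 6 → StrA G c → IsA G

def St_NEC : Prop :=
  ∀ (P V Ed : Type) [Group P] [Fintype V] (T : RT P V Ed) (j : Ed), T.Shape j →
    FC P → P1 P → P2 P →
      ((IsA (T.H T.root) ∧ IsB (T.H (T.out j))) ∨ (IsB (T.H T.root) ∧ IsA (T.H (T.out j)))) ∧
        ∀ v, v ≠ T.root → v ≠ T.out j → IsD (T.H v)

/-! ### block statements: from linear trees to rooted trees -/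

def St_RHO : Prop :=
  ∀ (n : ℕ) (G : Fin (n + 1) → Type) [∀ v, Group (G v)] [∀ v, Finite (G v)] (E : Fin n → Type)
    [∀ i, Group (E i)] (α : ∀ i, E i →* G i.castSucc) (β : ∀ i, E i →* G i.succ),
    (∀ i, Function.Injective (α i)) → (∀ i, Function.Injective (β i)) →
      ∃ (Ω : Type) (_ : Finite Ω) (_ : Nonempty Ω) (f : ∀ v, G v →* Equiv.Perm Ω),
        (∀ i e, f i.castSucc (α i e) = f i.succ (β i e)) ∧ ∀ v g ω, f v g ω = ω → g = 1

def St_CONV : Prop :=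
  ∀ (n : ℕ) (G : Fin (n + 1) → Type) [∀ v, Group (G v)] [∀ v, Finite (G v)] (E : Fin n → Type)
    [∀ i, Group (E i)] (α : ∀ i, E i →* G i.castSucc) (β : ∀ i, E i →* G i.succ),
    (∀ i, Function.Injective (α i) ∧ ¬ Function.Surjective (α i)) →
    (∀ i, Function.Injective (β i) ∧ ¬ Function.Surjective (β i)) →
    ∀ j : Fin n, Nonempty (E j ≃* Multiplicative (ZMod 6)) → (∀ i, i ≠ j → Nat.card (E i) = 2) →
    ∀ (P : Type) [Group P] (ι : ∀ v, G v →* P), Colim α β ι →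
    ∀ a b : Fin (n + 1), (a = j.castSucc ∧ b = j.succ) ∨ (a = j.succ ∧ b = j.castSucc) →
      ∃ T : RT P (Fin (n + 1)) (Fin n), T.Shape j ∧ T.root = a ∧ T.out j = b ∧
        ∀ v, Nonempty (G v ≃* T.H v)

/-! ### block statements: sufficiency -/

def St_EX1 : Prop :=
  ∀ (P : Type) [Group P] (ι κ : Type) [Fintype ι] [DecidableEq ι] [Fintype κ] (x : ι → P)
    (r : κ → FreeGroup ι), Pres x r → ∀ y : ι → L P, ∑ i, y i * (o (x i) - 1) = 0 →
      ∃ u : κ → L P, y = ∑ k, u k • fox x (r k)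

def St_KER : Prop :=
  ∀ (G : Type) [Group G] [Fintype G] x r z, SwanD (G := G) x r z →
    (∀ y : Fin 2 → L G, ∑ k, y k • fox x (r k) = 0 → ∃ a : L G, y = a • z) ∧
    ∀ a : L G, a • z = 0 ↔ ∃ k : ℤ, a = k • nS Finset.univ

def St_P4 : Prop := ∀ (G : Type) [Group G] [Fintype G], Swan G → PeriodFour G

def St_SWA : Prop := Swan SL23

def St_SWD : Prop := ∀ k : ℕ, Odd k → Swan (DihedralGroup k)

/-- the relators `z ^ (2 d) w ^ (-m)` and `z w ^ (s + 1) z⁻¹ w ^ (-s)`, `m = 2 s + 1` -/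
def relB (s d : ℕ) : Fin 2 → FreeGroup (Fin 2) :=
  ![.of 0 ^ (2 * d) * (.of 1 ^ (2 * s + 1))⁻¹, .of 0 * .of 1 ^ (s + 1) * (.of 0)⁻¹ * (.of 1 ^ s)⁻¹]

def St_PRB : Prop :=
  ∀ s : ℕ, (∃ z w : DihedralGroup (2 * s + 1), Pres ![z, w] (relB s 1) ∧
      z ^ (2 * 1) = 1 ∧ w ^ (2 * s + 1) = 1 ∧ z * w = w⁻¹ * z) ∧
    ∃ z w : DihedralGroup (2 * s + 1) × Multiplicative (ZMod 3), Pres ![z, w] (relB s 3) ∧
      z ^ (2 * 3) = 1 ∧ w ^ (2 * s + 1) = 1 ∧ z * w = w⁻¹ * z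

/-- first entry of the cycle for `D × C_d` -/
noncomputable def zB0 {G : Type} [Group G] (z w : G) (s d μ : ℕ) : L G :=
  Ns w (s + 1) * (o z ^ 2 - o w ^ μ) + (Ns w (2 * s + 1) +
    ((s : L G) * (1 + o w ^ (s + 1)) * Ns w μ - (μ : L G) * Ns w (2 * s + 1)) *
      Ns (z ^ 2) d) * (1 - o z)

/-- second entry of the cycle for `D × C_d` -/
noncomputable def zB1 {G : Type} [Group G] (z w : G) (s d μ : ℕ) : L G :=
  Ns w μ * Ns (z ^ 2) d * (o w ^ (s + 1) - o z) + Ns w (2 * s + 1) * (o z - 1)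

def St_SWB1 : Prop :=
  ∀ (G : Type) [Group G] (z w : G) (s d μ : ℕ), z ^ (2 * d) = 1 → w ^ (2 * s + 1) = 1 →
    z * w = w⁻¹ * z → ∑ k, ![zB0 z w s d μ, zB1 z w s d μ] k • fox ![z, w] (relB s d k) = 0

def St_SWB2 : Prop :=
  ∀ (G : Type) [Group G] (z w : G) (s d μ : ℕ), z ^ (2 * d) = 1 → w ^ (2 * s + 1) = 1 →
    z * w = w⁻¹ * z → (d * μ = 2 * s ∨ d * μ = 2 * s + 2) →
      (∃ a b, o z - 1 = zB0 z w s d μ * a + zB1 z w s d μ * b) ∧
        ∃ a b, o w - 1 = zB0 z w s d μ * a + zB1 z w s d μ * b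

def St_SWB : Prop :=
  ∀ m : ℕ, Nat.Coprime m 6 → Swan (DihedralGroup m × Multiplicative (ZMod 3))

def St_SWC : Prop := ∀ (G G' : Type) [Group G] [Group G'], (G ≃* G') → Swan G' → Swan G

def St_CEL : Prop :=
  ∀ (G : Type) [Group G] [Fintype G] x r z, SwanD (G := G) x r z → ∀ (γ : G) (n : ℕ),
    orderOf γ = n → (n = 2 ∨ n = 6) → ∀ R : L G, Ns γ n * R = nS Finset.univ →
      Cel x r z γ n R ∨ (n = 6 ∧ Cel x r (-z) γ n R)

def St_REP : Prop :=
  ∀ (G : Type) [Group G] [Fintype G] (c : G),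
    (∃ R : L G, Ns c (orderOf c) * R = nS Finset.univ) ∧
    ∀ h ∈ Subgroup.zpowers c, (orderOf h).Prime → Mal c h →
      ∃ R : L G, Ns c (orderOf c) * (1 + R) = nS Finset.univ ∧ R * (o h - 1) = 0

def St_PK : Prop :=
  ∀ (P : Type) [Group P] (H : Subgroup P) [Finite H], Swan H → ∀ (c h : H) (n : ℕ),
    orderOf c = n → (n = 2 ∨ n = 6) → h ∈ Subgroup.zpowers c → (orderOf h).Prime → Mal c h →
      ∃ (x : Fin 2 → P) (r : Fin 2 → FreeGroup (Fin 2)) (z : Fin 2 → L P) (R : L P),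
        Loc H x r z ∧ Cel x r z c n (1 + R) ∧ R * (o (h : P) - 1) = 0 ∧
        (∀ g : H, (∀ y : H, Commute y g) → Commute R (o (g : P))) ∧
        ∀ γ ∈ H, orderOf γ = 2 → ∃ R', Cel x r z γ 2 R'

def St_LOC : Prop :=
  ∀ (G : Type) [Group G],
    (IsA G → Ncy G ∧ ∀ c : G, orderOf c = 6 → Mal c (c ^ 2) ∧ ∀ y, Commute y (c ^ 3)) ∧
    (IsB G → Ncy G ∧ ∀ c : G, orderOf c = 6 → Mal c (c ^ 3) ∧ ∀ y, Commute y (c ^ 2)) ∧
    (IsD G → Ncy G ∧ ∀ t : G, orderOf t = 2 → Mal t t)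

def St_QQ : Prop :=
  ∀ (P V Ed : Type) [Group P] [Fintype V] [Fintype Ed] [DecidableEq V] (T : RT P V Ed) (j : Ed),
    T.Shape j → ∀ (z : V → Fin 2 → L P) (Ro Ri : Ed → L P) (co ci : Ed → Fin 2 → L P),
      (∀ v, ∀ g ∈ T.H v, ∃ w : Fin 2 → L P, o g - 1 = ∑ k, z v k * w k) →
      (∀ e, (o (T.γ e) - 1) • co e = Ro e • z (T.out e)) →
      (∀ e, (o (T.γ e) - 1) • ci e = Ri e • z (T.inn e)) →
      (∀ e, e ≠ j → (Ro e - 1) * (o (T.γ e) - 1) = 0) →
      (Ro j - 1) * (o (T.γ j ^ 3) - 1) = 0 → Commute (Ro j) (o (T.γ j ^ 2)) →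
      (Ri j - 1) * (o (T.γ j ^ 2) - 1) = 0 → Commute (Ri j) (o (T.γ j ^ 3)) →
      ∀ (y0 : L P) (y : Ed → L P), aug y0 = 0 →
        ∃ (w : V → Fin 2 → L P) (w' : Ed → L P),
          y0 = ∑ v, (1 - ∑ e ∈ Finset.univ.filter (fun e => T.inn e = v), Ri e) *
            ∑ k, z v k * w v k ∧
          ∀ e, y e = ∑ k, co e k * w (T.out e) k - ∑ k, ci e k * w (T.inn e) k -
            Ns (T.γ e) (orderOf (T.γ e)) * w' e

def St_REAL : Prop :=
  ∀ (P : Type) [Group P] (ι κ τ : Type) [Fintype ι] [Fintype κ] [Fintype τ] [DecidableEq ι]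
    (x : ι → P) (r : κ → FreeGroup ι) (θ : τ → κ → L P) (c : τ → ℤ) (j0 : τ), Pres x r →
    (∀ j, ∑ k, θ j k • fox x (r k) = 0) →
    Fintype.card ι + Fintype.card τ = Fintype.card κ + 1 →
    (∀ k, ∑ j, c j * aug (θ j k) = 0) → c j0 = 1 →
    (∀ y : τ → L P, ∑ j, aug (y j) * c j = 0 → ∃ w : κ → L P, ∀ j, y j = ∑ k, θ j k * w k) →
      ∃ X : DeltaCx, X.IsPD3 ∧ Nonempty (X.pi1 ≃* P)

def St_BRG : Prop :=
  ∀ (P : Type) [Group P] (E T S : Type) [Fintype E] [Fintype T] [Fintype S]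
    (d2 : T → Fin 3 → E) (d3 : S → Fin 4 → T) (lab : E → P) (c : S → ℤ) (s0 : S),
    (∀ (s : S) (i j : Fin 3), i ≤ j → d2 (d3 s j.succ) i = d2 (d3 s i.castSucc) j) →
    (∀ t, lab (d2 t 2) * lab (d2 t 0) = lab (d2 t 1)) →
    (∀ K : Subgroup P, (∀ e, lab e ∈ K) → K = ⊤) →
    (∀ (Q : Type) [Group Q] (f : E → Q), (∀ t, f (d2 t 2) * f (d2 t 0) = f (d2 t 1)) →
      ∃ φ : P →* Q, ∀ e, φ (lab e) = f e) →
    (∀ φ : T → ℤ, ∑ s, c s * (φ (d3 s 0) - φ (d3 s 1) + φ (d3 s 2) - φ (d3 s 3)) = 0) →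
    Fintype.card E + Fintype.card S = Fintype.card T + 1 → c s0 = 1 →
    (∀ y : S → L P, ∑ s, aug (y s) * c s = 0 → ∃ φ : T → L P, ∀ s, y s =
      o (lab (d2 (d3 s 3) 2)) * φ (d3 s 0) - φ (d3 s 1) + φ (d3 s 2) - φ (d3 s 3)) →
      ∃ X : DeltaCx, X.IsPD3 ∧ Nonempty (X.pi1 ≃* P)

def St_ASM : Prop :=
  ∀ (P V Ed : Type) [Group P] [Fintype V] [Fintype Ed] [DecidableEq V] (T : RT P V Ed)
    (x : V → Fin 2 → P) (r : V → Fin 2 → FreeGroup (Fin 2)) (z : V → Fin 2 → L P)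
    (lam : V → L P) (ao ai : Ed → FreeGroup (Fin 2)) (co ci : Ed → Fin 2 → L P) (N : Ed → L P),
    (∀ v, Loc (T.H v) (x v) (r v) (z v)) →
    (∀ e, FreeGroup.lift (x (T.out e)) (ao e) = T.γ e) →
    (∀ e, FreeGroup.lift (x (T.inn e)) (ai e) = T.γ e) →
    (∀ e, ∑ k, co e k • fox (x (T.out e)) (r (T.out e) k) = N e • fox (x (T.out e)) (ao e)) →
    (∀ e, ∑ k, ci e k • fox (x (T.inn e)) (r (T.inn e) k) = N e • fox (x (T.inn e)) (ai e)) →
    (∀ (y0 : L P) (y : Ed → L P), aug y0 = 0 → ∃ (w : V → Fin 2 → L P) (w' : Ed → L P),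
      y0 = ∑ v, lam v * ∑ k, z v k * w v k ∧
        ∀ e, y e = ∑ k, co e k * w (T.out e) k - ∑ k, ci e k * w (T.inn e) k - N e * w' e) →
      ∃ X : DeltaCx, X.IsPD3 ∧ Nonempty (X.pi1 ≃* P)

def St_SUF : Prop :=
  ∀ (P V Ed : Type) [Group P] [Fintype V] [Fintype Ed] (T : RT P V Ed) (j : Ed), T.Shape j →
    IsA (T.H T.root) → IsB (T.H (T.out j)) → (∀ v, v ≠ T.root → v ≠ T.out j → IsD (T.H v)) →
      ∃ X : DeltaCx, X.IsPD3 ∧ Nonempty (X.pi1 ≃* P)

def St_VF : Prop :=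
  ∀ (P V Ed : Type) [Group P] (_ : RT P V Ed), ∃ S : Subgroup P, S.FiniteIndex ∧ IsFreeGroup S

def St_IND : Prop :=
  ∀ (P V Ed : Type) [Group P] (T : RT P V Ed), (∀ e, T.γ e ≠ 1) → (∀ v, Ncy (T.H v)) →
    Indecomposable P

/-! ### what each block proves -/

def R_CYC : Prop := St_PRM1 → St_PRM2 → St_CYC
def R_CY2 : Prop := St_PRM1 → St_PRM2 → St_CY2
def R_ZIG : Prop := St_CYC → St_ZIG
def R_ZIG2 : Prop := St_CY2 → St_ZIG2
def R_FIN1 : Prop := St_CYC → St_FIN1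
def R_FIN2 : Prop := St_CYC → St_FIN2
def R_FIN3 : Prop := St_CY2 → St_FIN3
def R_GA3 : Prop := St_PRA → St_GA3
def R_NEC : Prop :=
  St_INF → St_INV → St_GD → St_GB1 → St_GB2 → St_GA1 → St_GA2 → St_GA3 → St_NEC
def R_CONV : Prop := St_RHO → St_CONV
def R_KER : Prop := St_EX1 → St_KER
def R_P4 : Prop := St_EX1 → St_KER → St_P4
def R_SWA : Prop := St_PRA → St_SWA
def R_SWB : Prop := St_PRB → St_SWB1 → St_SWB2 → St_SWB ∧ St_SWD
def R_CEL : Prop := St_CYC → St_EX1 → St_KER → St_CEL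
def R_REP : Prop := St_PRM2 → St_REP
def R_PK : Prop := St_CEL → St_REP → St_PK
def R_QQ : Prop := St_CYC → St_QQ
def R_REAL : Prop := St_BRG → St_REAL
def R_ASM : Prop := St_REAL → St_ASM
def R_SUF : Prop :=
  St_SWA → St_SWB → St_SWD → St_SWC → St_PK → St_LOC → St_QQ → St_ASM → St_SUF

end Pool.Agent.PDC
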