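import Pool.Agent.Lib.PDC.Blue

/-! Helpers for the blocks FIN1, FIN2, FIN3. -/

namespace Pool.Agent.PDC.X82

open Pool.Agent.PD3

variable {P : Type} [Group P]

lemma coeff_nS [DecidableEq P] (s : Finset P) (x : P) :
    (nS s).coeff x = if x ∈ s then 1 else 0 := by
  rw [nS, MonoidAlgebra.coeff_sum, Finsupp.finsetSum_apply]
  simp only [o_def, MonoidAlgebra.coeff_single, Finsupp.single_apply]
  rw [Finset.sum_ite_eq']

lemma coeff_nS_mem {s : Finset P} {x : P} (h : x ∈ s) : (nS s).coeff x = 1 := by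
  classical
  rw [coeff_nS, if_pos h]

lemma nS_mul_o {s : Finset P} {k : P} (h : ∀ x, x * k⁻¹ ∈ s ↔ x ∈ s) : nS s * o k = nS s := by
  classical
  ext x
  rw [coeff_mul_o, coeff_nS, coeff_nS]
  exact if_congr (h x) rfl rfl

lemma o_mul_nS {s : Finset P} {k : P} (h : ∀ x, k⁻¹ * x ∈ s ↔ x ∈ s) :
    (o k - 1) * nS s = 0 := by
  classical
  rw [sub_mul, one_mul, sub_eq_zero]
  ext x
  rw [coeff_o_mul, coeff_nS, coeff_nS]
  exact if_congr (h x) rfl rfl

lemma coeff_Ns_mul {K : Subgroup P} {a : L P} (ha : RInv K a) {g y : P} (hy : y⁻¹ * g * y ∈ K)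
    (n : ℕ) : (Ns g n * a).coeff y = n * a.coeff y := by
  rw [Ns, Finset.sum_mul, MonoidAlgebra.coeff_sum, Finsupp.finsetSum_apply]
  have h : ∀ i ∈ Finset.range n, (o (g ^ i) * a).coeff y = a.coeff y := fun i _ => by
    have h1 := ha _ (K.pow_mem hy i)
    have h2 : (y⁻¹ * g * y) ^ i = y⁻¹ * g ^ i * y := by
      have := conj_pow (i := i) (a := y⁻¹) (b := g)
      simpa using this
    conv_rhs => rw [← h1]
    rw [coeff_o_mul, coeff_mul_o, h2]
    congr 1
    group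
  rw [Finset.sum_congr rfl h, Finset.sum_const, Finset.card_range, nsmul_eq_mul]

lemma Ns_mul_sub_eq {g : P} {p : ℕ} (hg : orderOf g = p) : Ns g p * (o g - 1) = 0 := by
  rw [Ns_mul_sub, ← map_pow, ← hg, pow_orderOf_eq_one, map_one, sub_self]

lemma sub_mul_Ns_eq {g : P} {p : ℕ} (hg : orderOf g = p) : (o g - 1) * Ns g p = 0 := by
  rw [sub_mul_Ns, ← map_pow, ← hg, pow_orderOf_eq_one, map_one, sub_self]

lemma RInv.sub {K : Subgroup P} {a b : L P} (ha : RInv K a) (hb : RInv K b) : RInv K (a - b) :=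
  fun k hk => by rw [sub_mul, ha k hk, hb k hk]

section Tree

variable {V Ed : Type} {T : RT P V Ed} {Φ : T.Lat →ₗ[L P] Der P}

/-- two lifts of derivations that agree up to a multiple of `g - 1` -/
lemma key (hs : Function.Surjective Φ) (hk : ∀ l, Φ l = 0 ↔ T.Ainv l) {g : P} {p : ℕ}
    (hg : orderOf g = p) {l1 l2 : T.Lat} {D : Der P} (h : Φ l1 = Φ l2 + (o g - 1) • D)
    {v : V} {y : P} (hy : y⁻¹ * g * y ∈ T.H v) :
    ∃ c : ℤ, (Ns g p * (l1 : V → L P) v).coeff y = (Ns g p * (l2 : V → L P) v).coeff y + p * c := by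
  obtain ⟨l, rfl⟩ := hs D
  have ha : T.Ainv ((l1 - l2 - (o g - 1) • l : T.Lat) : V → L P) := by
    rw [← hk, map_sub, map_sub, map_smul, h]; abel
  refine ⟨(((l1 - l2 - (o g - 1) • l : T.Lat) : V → L P) v).coeff y, ?_⟩
  rw [← coeff_Ns_mul (ha v) hy p]
  have e : Ns g p * (l1 : V → L P) v = Ns g p * (l2 : V → L P) v +
      Ns g p * ((l1 - l2 - (o g - 1) • l : T.Lat) : V → L P) v := by
    simp only [Submodule.coe_sub, Submodule.coe_smul, Pi.sub_apply, Pi.smul_apply, smul_eq_mul]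
    rw [mul_sub, mul_sub, ← mul_assoc, Ns_mul_sub_eq hg, zero_mul]; abel
  rw [e, MonoidAlgebra.coeff_add, Finsupp.add_apply]

/-- the action of the normaliser on the fundamental class, read at a fixed coset -/
lemma act (hC : St_CYC) (hs : Function.Surjective Φ) (hk : ∀ l, Φ l = 0 ↔ T.Ainv l) {g : P} {p : ℕ}
    (hp : p.Prime) (hg : orderOf g = p) {l0 : T.Lat} {s : P} {r : ℕ} (hr : s * g * s⁻¹ = g ^ r)
    {D : Der P} (h : o s • Φ l0 = ((r : ℤ) ^ 2) • Φ l0 + (o g - 1) • D)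
    {v : V} {y : P} (hy : y⁻¹ * g * y ∈ T.H v) :
    ∃ c : ℤ, (Ns g p * (l0 : V → L P) v).coeff (s⁻¹ * y) =
      (r : ℤ) ^ 2 * (Ns g p * (l0 : V → L P) v).coeff y + p * c := by
  rw [← map_smul, ← map_zsmul] at h
  obtain ⟨c, hc⟩ := key hs hk hg h hy
  refine ⟨c, ?_⟩
  have h4 := (hC P g p hp.pos hg).2.2.2 s r hr
  simp only [Submodule.coe_smul, Submodule.coe_smul_of_tower, Pi.smul_apply, smul_eq_mul] at hc
  rw [← mul_assoc, ← h4, mul_assoc, coeff_o_mul, mul_smul_comm, MonoidAlgebra.coeff_smul_apply,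
    smul_eq_mul] at hc
  exact hc

end Tree

end Pool.Agent.PDC.X82
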