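import Pool.Agent.Lib.PDC.Blue

/-! Norm elements and augmentations: small lemmas. -/

namespace Pool.Agent.PDC

namespace X10

variable {P : Type} [Group P]

lemma eps_Ns {k : ℕ} (ε : (Fin k → L P) →+ ℤ) (hε : ∀ (g : P) y, ε (o g • y) = ε y) (g : P)
    (n : ℕ) (y : Fin k → L P) : ε (Ns g n • y) = n * ε y := by
  rw [Ns, Finset.sum_smul, map_sum]
  simp only [hε, Finset.sum_const, Finset.card_range, nsmul_eq_mul]

lemma eps_T {k : ℕ} (ε : (Fin k → L P) →+ ℤ) (hε : ∀ (g : P) y, ε (o g • y) = ε y) (g : P)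
    (y : Fin k → L P) : ε ((o g - 1) • y) = 0 := by
  rw [sub_smul, one_smul, map_sub, hε, sub_self]

lemma T_mul_N {g : P} {n : ℕ} (h : orderOf g = n) : (o g - 1) * Ns g n = (0 : L P) := by
  rw [sub_mul_Ns, ← map_pow, ← h, pow_orderOf_eq_one, map_one, sub_self]

lemma N_mul_T {g : P} {n : ℕ} (h : orderOf g = n) : Ns g n * (o g - 1) = (0 : L P) := by
  rw [Ns_mul_sub, ← map_pow, ← h, pow_orderOf_eq_one, map_one, sub_self]

lemma Ns_mul_N {g : P} {n : ℕ} (h : orderOf g = n) (r : ℕ) :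
    Ns g r * Ns g n = (r : L P) * Ns g n := by
  have h1 : o g * Ns g n = Ns g n := by
    have := T_mul_N h
    rwa [sub_mul, one_mul, sub_eq_zero] at this
  have h2 : ∀ i : ℕ, o g ^ i * Ns g n = Ns g n := fun i => by
    induction i with
    | zero => simp
    | succ i ih => rw [pow_succ, mul_assoc, h1, ih]
  induction r with
  | zero => simp [Ns]
  | succ r ih => rw [Ns_succ, add_mul, ih, h2, Nat.cast_succ, add_mul, one_mul]

lemma vec_div {k : ℕ} {A B : L P} (h : ∀ a, A * a = 0 → ∃ μ, a = B * μ) (y : Fin k → L P)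
    (hy : A • y = 0) : ∃ u, y = B • u := by
  choose u hu using fun i => h (y i) (congrFun hy i)
  exact ⟨u, funext hu⟩

end X10

end Pool.Agent.PDC
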