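import Pool.Agent.Lib.PDC.Blue

/-! Finite groups in which commuting elements of the same prime order generate the same subgroup. -/

namespace Pool.Agent.PDC.K17

open Subgroup

variable {G : Type} [Group G]

lemma p1_sub (h : P1 G) (H : Subgroup G) : P1 H := fun p a b hp ha hb hc => by
  obtain ⟨k, hk⟩ := h p a b hp ((orderOf_coe a).trans ha) ((orderOf_coe b).trans hb)
    (congrArg Subtype.val hc.eq)
  exact ⟨k, Subtype.ext (by simpa using hk)⟩

/-- a power of prime order -/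
lemma pow_prime {x : G} {p : ℕ} (h0 : orderOf x ≠ 0) (hp : p ∣ orderOf x) :
    orderOf (x ^ (orderOf x / p)) = p := orderOf_pow_orderOf_div h0 hp

/-- an element of prime order is central in every `p`-subgroup which contains it -/
lemma central [Finite G] (h : P1 G) {p : ℕ} (hp : p.Prime) {g : G} (hg : orderOf g = p)
    {Q : Subgroup G} (hQ : IsPGroup p Q) (m : g ∈ Q) {y : G} (hy : y ∈ Q) : Commute y g := by
  have := Fact.mk hp
  have : Nontrivial Q := ⟨⟨⟨g, m⟩, 1, fun e => by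
    have : g = 1 := congrArg Subtype.val e
    rw [this, orderOf_one] at hg
    exact hp.one_lt.ne hg⟩⟩
  have := hQ.center_nontrivial
  obtain ⟨z, hz⟩ := exists_ne (1 : center Q)
  obtain ⟨k, hk⟩ := IsPGroup.iff_orderOf.1 (hQ.to_subgroup (center Q)) z
  have d : p ∣ orderOf z := by
    rw [hk]
    refine dvd_pow_self p fun e => hz ?_
    rwa [e, pow_zero, orderOf_eq_one_iff] at hk
  obtain ⟨w, hw⟩ : ∃ w : center Q, orderOf w = p := ⟨_, pow_prime (orderOf_pos z).ne' d⟩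
  have c : ∀ x ∈ Q, Commute x (w : G) := fun x hx =>
    congrArg Subtype.val (mem_center_iff.1 w.2 ⟨x, hx⟩)
  obtain ⟨j, rfl⟩ := h p w g hp (by rw [orderOf_coe, orderOf_coe, hw]) hg (c g m).symm
  exact (c y hy).zpow_right j

/-- Burnside's normal complement for a Sylow subgroup of prime order -/
lemma burn [Finite G] (h : P1 G) {p : ℕ} (hp : p.Prime) {g : G} (hg : orderOf g = p)
    (h1 : ∀ y, Commute y g → (∃ k, y ^ p ^ k = 1) → y ∈ zpowers g)
    (h2 : ∀ x, x * g * x⁻¹ ∈ zpowers g → Commute x g) :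
    ∃ N : Subgroup G, N.Normal ∧ (∀ y ∈ N, ¬ p ∣ orderOf y) ∧
      (∀ y, ¬ p ∣ orderOf y → y ∈ N) ∧ ∀ y, ∃ n ∈ N, ∃ j : ℕ, y = n * g ^ j := by
  have := Fact.mk hp
  have hz : IsPGroup p (zpowers g) := IsPGroup.of_card (n := 1) (by rw [Nat.card_zpowers, hg, pow_one])
  obtain ⟨Q, hQ⟩ := hz.exists_le_sylow
  have m : g ∈ Q := hQ (mem_zpowers g)
  have e : ∀ y ∈ Q, y ∈ zpowers g := fun y hy => h1 y (central h hp hg Q.2 m hy) (by
    obtain ⟨k, hk⟩ := Q.2 ⟨y, hy⟩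
    exact ⟨k, congrArg Subtype.val hk⟩)
  have hN : normalizer (Q : Set G) ≤ centralizer (Q : Set G) := fun x hx y hy => by
    obtain ⟨j, rfl⟩ := e y hy
    exact ((h2 x (e _ ((mem_normalizer_iff.1 hx g).1 m))).zpow_right j).symm.eq
  refine ⟨(MonoidHom.transferSylow Q hN).ker, inferInstance, fun y hy d =>
    MonoidHom.not_dvd_card_ker_transferSylow Q hN (d.trans (orderOf_dvd_natCard _ hy)),
    fun y hy => ?_, fun y => ?_⟩
  · obtain ⟨k, hk⟩ := IsPGroup.iff_orderOf.1 Q.2 (MonoidHom.transferSylow Q hN y)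
    have d := orderOf_map_dvd (MonoidHom.transferSylow Q hN) y
    rw [hk] at d
    rcases k with _ | k
    · exact orderOf_eq_one_iff.1 hk
    · exact absurd ((dvd_pow_self p k.succ_ne_zero).trans d) hy
  · obtain ⟨⟨n, q⟩, hq⟩ := (MonoidHom.ker_transferSylow_isComplement' Q hN).2 y
    obtain ⟨j, hj⟩ := (mem_powers_iff_mem_zpowers.2 (e q q.2))
    exact ⟨n, n.2, j, by rw [← hq]; exact congrArg (n.1 * ·) hj.symm⟩

/-- abelian groups are cyclic -/
lemma cyc {A : Type} [CommGroup A] [Finite A] (h : P1 A) : ∃ u : A, ∀ y, y ∈ zpowers u := by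
  obtain ⟨u, hu⟩ := Monoid.exists_orderOf_eq_exponent (Monoid.ExponentExists.of_finite (G := A))
  refine ⟨u, fun y => ?_⟩
  induction hn : orderOf y using Nat.strong_induction_on generalizing y with
  | _ n ih =>
    by_cases h1 : n = 1
    · rw [orderOf_eq_one_iff.1 (hn.trans h1)]
      exact one_mem _
    obtain ⟨p, hp, d⟩ := Nat.exists_prime_and_dvd h1
    have := Fact.mk hp
    have n0 : 0 < n := hn ▸ orderOf_pos y
    obtain ⟨k, hk⟩ := mem_powers_iff_mem_zpowers.2 (ih _ (by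
      rw [orderOf_pow_of_dvd hp.ne_zero (hn ▸ d), hn]
      exact Nat.div_lt_self n0 hp.one_lt) (y ^ p) rfl)
    have d1 : orderOf y ∣ orderOf u := hu ▸ Monoid.order_dvd_exponent y
    have d2 : p ∣ orderOf u := (hn ▸ d).trans d1
    obtain ⟨m, hm⟩ := d2
    have m0 : 0 < m := Nat.pos_of_mul_pos_left (hm ▸ orderOf_pos u)
    have d3 : p ∣ k := by
      refine Nat.dvd_of_mul_dvd_mul_right m0 (hm ▸ orderOf_dvd_of_pow_eq_one ?_)
      change u ^ k = _ at hk
      rw [pow_mul, hk, ← pow_mul, ← hm]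
      exact orderOf_dvd_iff_pow_eq_one.1 d1
    obtain ⟨j, rfl⟩ := d3
    have e : (y * (u ^ j)⁻¹) ^ p = 1 := by
      change u ^ (p * j) = _ at hk
      rw [mul_pow, ← hk, inv_pow, ← pow_mul, mul_comm j, mul_inv_cancel]
    have f : y * (u ^ j)⁻¹ ∈ zpowers u := by
      by_cases z : y * (u ^ j)⁻¹ = 1
      · rw [z]; exact one_mem _
      · exact zpowers_le.2 (npow_mem_zpowers u _) (h p _ _ hp
          (pow_prime (orderOf_pos u).ne' ⟨m, hm⟩) (orderOf_eq_prime e z) (Commute.all _ _))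
    simpa using mul_mem f (npow_mem_zpowers u j)

/-- a subgroup inverted by an element is cyclic -/
lemma cyc_of_inv [Finite G] (h : P1 G) (U : Subgroup G) (t : G)
    (hi : ∀ y ∈ U, t * y * t⁻¹ = y⁻¹) : ∃ u ∈ U, ∀ y ∈ U, ∃ i : ℕ, y = u ^ i := by
  let _ : CommGroup U := { (inferInstance : Group U) with
    mul_comm := fun a b => Subtype.ext (inv_injective (by
      change (a.1 * b.1)⁻¹ = (b.1 * a.1)⁻¹
      rw [← hi _ (mul_mem a.2 b.2), mul_inv_rev b.1, ← hi _ a.2, ← hi _ b.2]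
      group)) }
  obtain ⟨u, hu⟩ := cyc (p1_sub h U)
  refine ⟨u, u.2, fun y hy => ?_⟩
  obtain ⟨i, hi⟩ := mem_powers_iff_mem_zpowers.2 (hu ⟨y, hy⟩)
  exact ⟨i, (congrArg Subtype.val hi).symm⟩

/-- an inverted part and a fixed part -/
lemma dec {t y : G} (ht : t * t = 1) (ho : ¬ 2 ∣ orderOf (y * t * y⁻¹ * t⁻¹)) :
    ∃ x ∈ zpowers (y * t * y⁻¹ * t⁻¹), t * x * t⁻¹ = x⁻¹ ∧ Commute (x⁻¹ * y) t := by
  obtain ⟨w, hw⟩ : ∃ w, w = y * t * y⁻¹ * t⁻¹ := ⟨_, rfl⟩
  rw [← hw] at ho ⊢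
  have ti : t⁻¹ = t := inv_eq_of_mul_eq_one_right ht
  obtain ⟨k, hk⟩ : ∃ k, orderOf w + 1 = k + k := ⟨(orderOf w + 1) / 2, by omega⟩
  have e : w ^ k * w ^ k = w := by rw [← pow_add, ← hk, pow_succ, pow_orderOf_eq_one, one_mul]
  have i : t * w * t⁻¹ = w⁻¹ := by
    rw [hw]
    simp only [mul_inv_rev, inv_inv, ti, mul_assoc, ht, mul_one]
  have i' : t * w ^ k * t⁻¹ = (w ^ k)⁻¹ := by rw [← conj_pow, i, inv_pow]
  refine ⟨w ^ k, npow_mem_zpowers w k, i', ?_⟩
  generalize w ^ k = x at e i'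
  have a : t * x⁻¹ = x * t := by
    rw [← i']
    simp only [← mul_assoc, ht, one_mul, ti]
  have b : y * t = x * x * t * y := by
    rw [e, hw]
    simp only [mul_assoc, inv_mul_cancel, mul_one]
  change _ * _ = _ * _
  rw [← mul_assoc, a, mul_assoc, b]
  group

lemma mem_lt [Finite G] {g w : G} {n : ℕ} (h : orderOf g = n) (hw : w ∈ zpowers g) :
    ∃ k < n, w = g ^ k := by
  obtain ⟨k, rfl⟩ := mem_powers_iff_mem_zpowers.2 hw
  exact ⟨k % n, Nat.mod_lt _ (h ▸ orderOf_pos g), by rw [← h, pow_mod_orderOf]⟩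

/-- an element which normalises the group generated by an involution commutes with it -/
lemma comm_two [Finite G] {t x : G} (ht : orderOf t = 2) (h : x * t * x⁻¹ ∈ zpowers t) :
    Commute x t := by
  obtain ⟨k, hk, e⟩ := mem_lt ht h
  interval_cases k
  · rw [pow_zero, conj_eq_one_iff] at e
    rw [e]
    exact Commute.one_right x
  · rw [pow_one, mul_inv_eq_iff_eq_mul] at e
    exact e

section Six

variable {c y : G} (hc : orderOf c = 6)
include hc

lemma ord_three : orderOf (c ^ 3) = 2 := by rw [orderOf_pow_of_dvd (by omega) (by omega), hc]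

lemma ord_two : orderOf (c ^ 2) = 3 := by rw [orderOf_pow_of_dvd (by omega) (by omega), hc]

lemma ord_dvd (hy : y ∈ zpowers c) : orderOf y ∣ 6 := hc ▸ orderOf_dvd_of_mem_zpowers hy

lemma mem_sq (hy : y ∈ zpowers c) (ho : ¬ 2 ∣ orderOf y) : y ∈ zpowers (c ^ 2) := by
  have d := ord_dvd hc hy
  have e : y ^ 3 = 1 := orderOf_dvd_iff_pow_eq_one.1
    (Nat.Coprime.dvd_of_dvd_mul_left (m := 2) ((Nat.prime_two.coprime_iff_not_dvd.2 ho).symm) d)
  obtain ⟨k, rfl⟩ := hy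
  refine ⟨2 * k, ?_⟩
  simp only at e ⊢
  conv_rhs => rw [← one_mul (c ^ k), ← e]
  group

lemma mem_cube (hy : y ∈ zpowers c) (ho : ¬ 3 ∣ orderOf y) : y ∈ zpowers (c ^ 3) := by
  have d := ord_dvd hc hy
  have e : y ^ 2 = 1 := orderOf_dvd_iff_pow_eq_one.1
    (Nat.Coprime.dvd_of_dvd_mul_left (m := 3) ((Nat.prime_three.coprime_iff_not_dvd.2 ho).symm) d)
  obtain ⟨k, rfl⟩ := hy
  refine ⟨k, ?_⟩
  simp only at e ⊢
  conv_rhs => rw [← one_mul (c ^ k), ← e]
  group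

lemma eq_one (hy : y ∈ zpowers c) (h2 : ¬ 2 ∣ orderOf y) (h3 : ¬ 3 ∣ orderOf y) : y = 1 :=
  orderOf_eq_one_iff.1 (Nat.Coprime.eq_one_of_dvd (Nat.Coprime.mul_right
    (Nat.prime_two.coprime_iff_not_dvd.2 h2).symm (Nat.prime_three.coprime_iff_not_dvd.2 h3).symm)
    (ord_dvd hc hy))

end Six

lemma not_dvd_of_pow {y : G} {p q k : ℕ} (hp : p.Prime) (hq : q.Prime) (ne : q ≠ p)
    (h : y ^ p ^ k = 1) : ¬ q ∣ orderOf y := fun d =>
  ne ((Nat.prime_dvd_prime_iff_eq hq hp).1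
    (hq.dvd_of_dvd_pow (d.trans (orderOf_dvd_of_pow_eq_one h))))

end Pool.Agent.PDC.K17
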