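import Pool.Agent.Lib.PDC.Blue

/-! Block PRB: balanced presentations of `D` and `D × C3`. -/

namespace Pool.Agent.PDC.X82

open Pool.Agent.PD3 DihedralGroup

variable {Q : Type} [Group Q]

lemma exists_cyc (W : Q) (m : ℕ) (h : W ^ m = 1) :
    ∃ e : Multiplicative (ZMod m) →* Q, ∀ k : ℤ, e (Multiplicative.ofAdd (k : ZMod m)) = W ^ k := by
  let f : ZMod m →+ Additive Q := ZMod.lift m ⟨zmultiplesHom (Additive Q) (Additive.ofMul W), by
    change Additive.ofMul (W ^ (m : ℤ)) = 0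
    rw [zpow_natCast, h]; rfl⟩
  refine ⟨AddMonoidHom.toMultiplicativeLeft f, fun k => ?_⟩
  change Additive.toMul (f (k : ZMod m)) = _
  rw [ZMod.lift_coe]; rfl

lemma exists_dihedral (T W : Q) (m : ℕ) (hT : T * T = 1) (hW : W ^ m = 1)
    (h : T * W * T⁻¹ = W⁻¹) :
    ∃ φ : DihedralGroup m →* Q, (∀ k : ℤ, φ (r k) = W ^ k) ∧ ∀ k : ℤ, φ (sr k) = T * W ^ k := by
  obtain ⟨e, he⟩ := exists_cyc W m hW
  have h1 : ∀ i : ZMod m, e (.ofAdd i) * T = T * e (.ofAdd (-i)) := fun i => by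
    obtain ⟨k, rfl⟩ := ZMod.intCast_surjective i
    rw [← Int.cast_neg, he, he]
    have : T * W ^ (-k) * T⁻¹ = W ^ k := by rw [← conj_zpow, h, inv_zpow', neg_neg]
    rw [← this, inv_mul_cancel_right]
  have h2 : ∀ i j : ZMod m, e (.ofAdd (-i)) * e (.ofAdd j) = e (.ofAdd (j - i)) := fun i j => by
    rw [← map_mul, ← ofAdd_add, neg_add_eq_sub]
  let F : DihedralGroup m → Q := fun x => match x with
    | r i => e (.ofAdd i)
    | sr i => T * e (.ofAdd i)
  refine ⟨MonoidHom.mk' F ?_, he, fun k => congrArg (T * ·) (he k)⟩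
  rintro (i | i) (j | j)
  · change e (.ofAdd (i + j)) = e _ * e _
    rw [ofAdd_add, map_mul]
  · change T * e (.ofAdd (j - i)) = e _ * (T * e _)
    rw [← mul_assoc, h1, mul_assoc, h2]
  · change T * e (.ofAdd (i + j)) = T * e _ * e _
    rw [ofAdd_add, map_mul, mul_assoc]
  · change e (.ofAdd (j - i)) = T * e _ * (T * e _)
    rw [mul_assoc, ← mul_assoc (e _), h1, mul_assoc, h2, ← mul_assoc, hT, one_mul]

lemma rel_iff (f : Fin 2 → Q) (s d : ℕ) : (∀ k, FreeGroup.lift f (relB s d k) = 1) ↔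
    f 0 ^ (2 * d) = 1 ∧ f 1 ^ (2 * s + 1) = 1 ∧ f 0 * f 1 * (f 0)⁻¹ = (f 1)⁻¹ := by
  have e : (∀ k, FreeGroup.lift f (relB s d k) = 1) ↔
      f 0 ^ (2 * d) = f 1 ^ (2 * s + 1) ∧ f 0 * f 1 ^ (s + 1) * (f 0)⁻¹ = f 1 ^ s := by
    simp [Fin.forall_fin_two, relB, mul_inv_eq_one]
  rw [e]
  generalize f 0 = Z
  generalize f 1 = W
  constructor
  · rintro ⟨h0, h1⟩
    have hc : Commute Z (W ^ (2 * s + 1)) := h0 ▸ (Commute.refl Z).pow_right _
    have h2 : W ^ (2 * s + 1) = 1 := by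
      have h3 : Z * (W ^ (2 * s + 1)) ^ (s + 1) * Z⁻¹ = (W ^ (2 * s + 1)) ^ s := by
        rw [← pow_mul, mul_comm (2 * s + 1), pow_mul, ← conj_pow, h1, ← pow_mul, mul_comm s,
          pow_mul]
      rw [(hc.pow_right _).eq, mul_inv_cancel_right, pow_succ] at h3
      exact mul_eq_left.1 h3
    refine ⟨h0.trans h2, h2, ?_⟩
    have h4 : W = (W ^ (s + 1)) ^ 2 := by
      rw [← pow_mul, show (s + 1) * 2 = 2 * s + 1 + 1 by ring, pow_succ, h2, one_mul]
    rw [eq_inv_iff_mul_eq_one, ← h2]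
    conv_lhs => rw [h4, ← conj_pow, h1, ← h4]
    rw [← pow_mul, ← pow_succ, mul_comm s]
  · rintro ⟨h0, h1, h2⟩
    refine ⟨h0.trans h1.symm, ?_⟩
    rw [← conj_pow, h2, inv_pow, inv_eq_iff_mul_eq_one, ← pow_add, ← h1]
    congr 1; ring

lemma top_of (m : ℕ) {G : Type} [Group G] (ι : DihedralGroup m →* G) (K : Subgroup G)
    (h1 : ι (r 1) ∈ K) (h2 : ι (sr 0) ∈ K) (x : DihedralGroup m) : ι x ∈ K := by
  have h3 : ∀ i : ZMod m, ι (r i) ∈ K := fun i => by
    obtain ⟨k, rfl⟩ := ZMod.intCast_surjective i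
    rw [← r_one_zpow, map_zpow]; exact K.zpow_mem h1 k
  rcases x with i | i
  · exact h3 i
  · have : sr i = sr 0 * r i := by simp
    rw [this, map_mul]; exact K.mul_mem h2 (h3 i)

theorem r_PRB : St_PRB := fun s => by
  have hz : (sr 0 : DihedralGroup (2 * s + 1)) ^ 2 = 1 := by rw [pow_two, sr_mul_self]
  have hw : (r 1 : DihedralGroup (2 * s + 1)) ^ (2 * s + 1) = 1 := r_one_pow_n
  have hzw : (sr 0 : DihedralGroup (2 * s + 1)) * r 1 = (r 1)⁻¹ * sr 0 := by simp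
  constructor
  · refine ⟨sr 0, r 1, ⟨(rel_iff _ s 1).2 ⟨hz, hw, mul_inv_eq_iff_eq_mul.2 hzw⟩, fun x => ?_,
      fun Q _ f hf => ?_⟩, hz, hw, hzw⟩
    · exact top_of _ (MonoidHom.id _) (FreeGroup.lift ![sr 0, r 1]).range ⟨.of 1, by simp⟩
        ⟨.of 0, by simp⟩ x
    · obtain ⟨h0, h1, h2⟩ := (rel_iff f s 1).1 hf
      obtain ⟨φ, p1, p2⟩ := exists_dihedral (f 0) (f 1) _ (by simpa [pow_two] using h0) h1 h2
      exact ⟨φ, Fin.forall_fin_two.2 ⟨by simpa using p2 0, by simpa using p1 1⟩⟩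
  · let u : Multiplicative (ZMod 3) := .ofAdd 1
    let z : DihedralGroup (2 * s + 1) × Multiplicative (ZMod 3) := (sr 0, u)
    let w : DihedralGroup (2 * s + 1) × Multiplicative (ZMod 3) := (r 1, 1)
    have hz' : z ^ (2 * 3) = 1 := Prod.ext (by
      change (sr 0 : DihedralGroup (2 * s + 1)) ^ (2 * 3) = 1
      rw [pow_mul, hz, one_pow]) (by change u ^ (2 * 3) = 1; decide)
    have hw' : w ^ (2 * s + 1) = 1 := Prod.ext hw (one_pow _)
    have hzw' : z * w = w⁻¹ * z := Prod.ext hzw (by change u * 1 = 1⁻¹ * u; decide)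
    refine ⟨z, w, ⟨(rel_iff _ s 3).2 ⟨hz', hw', mul_inv_eq_iff_eq_mul.2 hzw'⟩, fun x => ?_,
      fun Q _ f hf => ?_⟩, hz', hw', hzw'⟩
    · let K := (FreeGroup.lift ![z, w]).range
      have kz : z ∈ K := ⟨.of 0, by simp⟩
      have kw : w ∈ K := ⟨.of 1, by simp⟩
      have e3 : z ^ 3 = (sr 0, 1) := Prod.ext (by
        change (sr 0 : DihedralGroup (2 * s + 1)) ^ (2 + 1) = sr 0
        rw [pow_succ, hz, one_mul]) (by change u ^ 3 = 1; decide)
      have e4 : z ^ 4 = (1, u) := Prod.ext (by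
        change (sr 0 : DihedralGroup (2 * s + 1)) ^ (2 * 2) = 1
        rw [pow_mul, hz, one_pow]) (by change u ^ 4 = u; decide)
      have k1 := top_of _ (MonoidHom.inl _ _) K kw (by
        change (sr 0, 1) ∈ K
        rw [← e3]; exact K.pow_mem kz 3) x.1
      obtain ⟨k, hk⟩ : ∃ k : Fin 3, x.2 = u ^ (k : ℕ) := by
        generalize x.2 = y
        revert y; decide
      have k2 : ((1, x.2) : DihedralGroup (2 * s + 1) × Multiplicative (ZMod 3)) ∈ K := by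
        have := K.pow_mem (K.pow_mem kz 4) k
        rwa [e4, Prod.pow_mk, one_pow, ← hk] at this
      have k3 : x ∈ K := by simpa using K.mul_mem k1 k2
      exact k3
    · obtain ⟨h0, h1, h2⟩ := (rel_iff f s 3).1 hf
      have h3 : f 0 * (f 1)⁻¹ * (f 0)⁻¹ = f 1 := by rw [← conj_inv, h2, inv_inv]
      have h4 : Commute (f 0 ^ 2) (f 1) := by
        change _ * _ = _ * _
        rw [← mul_inv_eq_iff_eq_mul]
        calc f 0 ^ 2 * f 1 * (f 0 ^ 2)⁻¹ = f 0 * (f 0 * f 1 * (f 0)⁻¹) * (f 0)⁻¹ := by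
              rw [pow_two]; group
          _ = f 1 := by rw [h2, h3]
      obtain ⟨φ, p1, p2⟩ := exists_dihedral (f 0 ^ 3) (f 1) _ (by rw [← pow_add]; exact h0) h1 (by
        calc f 0 ^ 3 * f 1 * (f 0 ^ 3)⁻¹ = f 0 * (f 0 ^ 2 * f 1) * (f 0 ^ 3)⁻¹ := by group
          _ = f 0 * f 1 * (f 0)⁻¹ := by rw [h4.eq]; group
          _ = _ := h2)
      obtain ⟨ψ, q1⟩ := exists_cyc (f 0 ^ 4) 3 (by
        rw [← pow_mul, show 4 * 3 = 2 * 3 * 2 from rfl, pow_mul, h0, one_pow])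
      have c1 : Commute (f 1) (f 0 ^ 4) := by
        rw [show 4 = 2 * 2 from rfl, pow_mul]; exact (h4.pow_left 2).symm
      have hc : ∀ a b, Commute (φ a) (ψ b) := fun a b => by
        obtain ⟨k, hk⟩ := ZMod.intCast_surjective (Multiplicative.toAdd b)
        have hb : b = .ofAdd (k : ZMod 3) := by rw [hk]; rfl
        rw [hb, q1]
        refine Commute.zpow_right ?_ k
        rcases a with i | i <;> obtain ⟨j, rfl⟩ := ZMod.intCast_surjective i
        · rw [p1]; exact c1.zpow_left j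
        · rw [p2]; exact (Commute.pow_pow_self _ 3 4).mul_left (c1.zpow_left j)
      refine ⟨φ.noncommCoprod ψ hc, Fin.forall_fin_two.2 ⟨?_, ?_⟩⟩
      · change φ (sr 0) * ψ u = f 0
        have a1 : φ (sr 0) = f 0 ^ 3 := by simpa using p2 0
        have a2 : ψ u = f 0 ^ 4 := by simpa using q1 1
        rw [a1, a2, ← pow_add, show 3 + 4 = 2 * 3 + 1 from rfl, pow_succ, h0, one_mul]
      · change φ (r 1) * ψ 1 = f 1
        simpa using p1 1

end Pool.Agent.PDC.X82
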