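import Pool.Agent.Lib.PDC.Blue

/-! Formal edges and triangles; every two-cycle is the value of a formal triangle. -/

namespace Pool.Agent.PDC.RL

open Pool.Agent.PD3

/-- formal edges -/
inductive Tm (ι : Type)
  | gen (i : ι) | one | inv (a : Tm ι) | mul (a b : Tm ι)

/-- formal triangles -/
inductive Tg (ι κ : Type)
  | rel (k : κ) | dO | dI (a : Tm ι) | dM (a b : Tm ι) | lu (a : Tm ι) | ru (a : Tm ι)
  | f0 (S T U : Tg ι κ) | f1 (S T U : Tg ι κ) | f2 (S T U : Tg ι κ) | f3 (S T U : Tg ι κ)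

variable {ι κ P : Type} [Group P]

def Tm.wd : Tm ι → FreeGroup ι
  | .gen i => .of i
  | .one => 1
  | .inv a => a.wd⁻¹
  | .mul a b => a.wd * b.wd

lemma wd_surj (w : FreeGroup ι) : ∃ a : Tm ι, a.wd = w := by
  induction w using FreeGroup.induction_on with
  | C1 => exact ⟨.one, rfl⟩
  | of i => exact ⟨.gen i, rfl⟩
  | inv_of i _ => exact ⟨.inv (.gen i), rfl⟩
  | mul a b ha hb =>
    obtain ⟨a, rfl⟩ := ha
    obtain ⟨b, rfl⟩ := hb
    exact ⟨.mul a b, rfl⟩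

def lab (x : ι → P) (a : Tm ι) : P := FreeGroup.lift x a.wd

@[simp] lemma lab_gen (x : ι → P) (i : ι) : lab x (.gen i) = x i := by simp [lab, Tm.wd]
@[simp] lemma lab_one (x : ι → P) : lab x .one = 1 := by simp [lab, Tm.wd]
@[simp] lemma lab_inv (x : ι → P) (a) : lab x (.inv a) = (lab x a)⁻¹ := by simp [lab, Tm.wd]
@[simp] lemma lab_mul (x : ι → P) (a b) : lab x (.mul a b) = lab x a * lab x b := by
  simp [lab, Tm.wd]

/-- the edges `01`, `12`, `02` of a triangle -/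
def sh (ρ : κ → Tm ι) : Tg ι κ → Tm ι × Tm ι × Tm ι
  | .rel k => (ρ k, .one, .one)
  | .dO => (.one, .one, .one)
  | .dI a => (a, .inv a, .one)
  | .dM a b => (a, b, .mul a b)
  | .lu a => (.one, a, a)
  | .ru a => (a, .one, a)
  | .f0 S T U => ((sh ρ U).2.1, (sh ρ S).2.1, (sh ρ T).2.1)
  | .f1 S T U => ((sh ρ U).2.2, (sh ρ S).2.1, (sh ρ T).2.2)
  | .f2 S T U => ((sh ρ U).1, (sh ρ S).2.2, (sh ρ T).2.2)
  | .f3 S T U => ((sh ρ U).1, (sh ρ S).1, (sh ρ T).1)

/-- four triangles fit together -/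
def Mt (A B C D : Tm ι × Tm ι × Tm ι) : Prop :=
  B.2.1 = A.2.1 ∧ C.2.1 = A.2.2 ∧ D.2.1 = A.1 ∧ C.2.2 = B.2.2 ∧ D.2.2 = B.1 ∧ D.1 = C.1

def Ok (ρ : κ → Tm ι) : Tg ι κ → Prop
  | .f0 S T U => Ok ρ S ∧ Ok ρ T ∧ Ok ρ U ∧ Mt (sh ρ (.f0 S T U)) (sh ρ S) (sh ρ T) (sh ρ U)
  | .f1 S T U => Ok ρ S ∧ Ok ρ T ∧ Ok ρ U ∧ Mt (sh ρ S) (sh ρ (.f1 S T U)) (sh ρ T) (sh ρ U)
  | .f2 S T U => Ok ρ S ∧ Ok ρ T ∧ Ok ρ U ∧ Mt (sh ρ S) (sh ρ T) (sh ρ (.f2 S T U)) (sh ρ U)
  | .f3 S T U => Ok ρ S ∧ Ok ρ T ∧ Ok ρ U ∧ Mt (sh ρ S) (sh ρ T) (sh ρ U) (sh ρ (.f3 S T U))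
  | _ => True

/-- the cochain with values `b` on the basic triangles and coboundary `y` on the defining
tetrahedra -/
def sol {R M : Type} [Ring R] [AddCommGroup M] [Module R M] (x : ι → P) (ρ : κ → Tm ι)
    (a : P →* R) (b y : Tg ι κ → M) : Tg ι κ → M
  | .lu e => y (.lu e) + b .dO
  | .ru e => a (lab x e) • b .dO - y (.ru e)
  | .f0 S T U => a (lab x (sh ρ U).1)⁻¹ •
      (y (.f0 S T U) + sol x ρ a b y S - sol x ρ a b y T + sol x ρ a b y U)
  | .f1 S T U => a (lab x (sh ρ U).1) • sol x ρ a b y S + sol x ρ a b y T - sol x ρ a b y U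
      - y (.f1 S T U)
  | .f2 S T U => y (.f2 S T U) - a (lab x (sh ρ U).1) • sol x ρ a b y S + sol x ρ a b y T
      + sol x ρ a b y U
  | .f3 S T U => a (lab x (sh ρ U).1) • sol x ρ a b y S - sol x ρ a b y T + sol x ρ a b y U
      - y (.f3 S T U)
  | T => b T

/-- the relators as a basis -/
noncomputable def bas [DecidableEq κ] : Tg ι κ → κ → L P
  | .rel k => Pi.single k 1
  | _ => 0

/-- the value of a formal triangle in the free module on the relators -/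
noncomputable def val [DecidableEq κ] (x : ι → P) (ρ : κ → Tm ι) : Tg ι κ → κ → L P :=
  sol x ρ o bas 0

variable [DecidableEq κ] (x : ι → P) (ρ : κ → Tm ι)

def Re (a b c : Tm ι) (y : κ → L P) : Prop := ∃ T, Ok ρ T ∧ sh ρ T = (a, b, c) ∧ val x ρ T = y

variable {x ρ}

lemma re_O : Re x ρ .one .one .one 0 := ⟨.dO, trivial, rfl, rfl⟩
lemma re_I (a) : Re x ρ a (.inv a) .one 0 := ⟨.dI a, trivial, rfl, rfl⟩
lemma re_M (a b) : Re x ρ a b (.mul a b) 0 := ⟨.dM a b, trivial, rfl, rfl⟩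
lemma re_L (a) : Re x ρ .one a a 0 := ⟨.lu a, trivial, rfl, by simp [val, sol, bas]⟩
lemma re_R (a) : Re x ρ a .one a 0 := ⟨.ru a, trivial, rfl, by simp [val, sol, bas]⟩
lemma re_rel (k) : Re x ρ (ρ k) .one .one (Pi.single k 1) := ⟨.rel k, trivial, rfl, rfl⟩

variable {e01 e12 e23 e02 e13 e03 : Tm ι} {y0 y1 y2 y3 : κ → L P}

lemma re0 (h1 : Re x ρ e02 e23 e03 y1) (h2 : Re x ρ e01 e13 e03 y2) (h3 : Re x ρ e01 e12 e02 y3) :
    Re x ρ e12 e23 e13 (o (lab x e01)⁻¹ • (y1 - y2 + y3)) := by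
  obtain ⟨S, oS, hS, rfl⟩ := h1
  obtain ⟨T, oT, hT, rfl⟩ := h2
  obtain ⟨U, oU, hU, rfl⟩ := h3
  exact ⟨.f0 S T U, ⟨oS, oT, oU, by simp [Mt, sh, hS, hT, hU]⟩, by simp [sh, hS, hT, hU],
    by simp [val, sol, hU]⟩

lemma re1 (h0 : Re x ρ e12 e23 e13 y0) (h2 : Re x ρ e01 e13 e03 y2) (h3 : Re x ρ e01 e12 e02 y3) :
    Re x ρ e02 e23 e03 (o (lab x e01) • y0 + y2 - y3) := by
  obtain ⟨S, oS, hS, rfl⟩ := h0
  obtain ⟨T, oT, hT, rfl⟩ := h2
  obtain ⟨U, oU, hU, rfl⟩ := h3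
  exact ⟨.f1 S T U, ⟨oS, oT, oU, by simp [Mt, sh, hS, hT, hU]⟩, by simp [sh, hS, hT, hU],
    by simp [val, sol, hU]⟩

lemma re2 (h0 : Re x ρ e12 e23 e13 y0) (h1 : Re x ρ e02 e23 e03 y1) (h3 : Re x ρ e01 e12 e02 y3) :
    Re x ρ e01 e13 e03 (-(o (lab x e01) • y0) + y1 + y3) := by
  obtain ⟨S, oS, hS, rfl⟩ := h0
  obtain ⟨T, oT, hT, rfl⟩ := h1
  obtain ⟨U, oU, hU, rfl⟩ := h3
  exact ⟨.f2 S T U, ⟨oS, oT, oU, by simp [Mt, sh, hS, hT, hU]⟩, by simp [sh, hS, hT, hU],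
    by simp [val, sol, hU]⟩

lemma re3 (h0 : Re x ρ e12 e23 e13 y0) (h1 : Re x ρ e02 e23 e03 y1) (h2 : Re x ρ e01 e13 e03 y2) :
    Re x ρ e01 e12 e02 (o (lab x e01) • y0 - y1 + y2) := by
  obtain ⟨S, oS, hS, rfl⟩ := h0
  obtain ⟨T, oT, hT, rfl⟩ := h1
  obtain ⟨U, oU, hU, rfl⟩ := h2
  exact ⟨.f3 S T U, ⟨oS, oT, oU, by simp [Mt, sh, hS, hT, hU]⟩, by simp [sh, hS, hT, hU],
    by simp [val, sol, hU]⟩

lemma re_uniq {a b c : Tm ι} {y y' : κ → L P} (h : Re x ρ a b c y) (h' : Re x ρ a b c y') :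
    Re x ρ .one .one .one (y - y') := by
  have h1 := re3 h h' (re_L c)
  have h2 := re3 h1 (re_L a) (re_L a)
  simpa using h2

variable (x ρ) in
/-- the values of the triangles with three trivial edges -/
def Dz : AddSubgroup (κ → L P) where
  carrier := {y | Re x ρ .one .one .one y}
  zero_mem' := re_O
  add_mem' := fun h h' => by simpa using re1 h h' re_O
  neg_mem' := fun h => by simpa using re2 h re_O re_O

variable (ρ) in
def D0 (hx : Function.Surjective (FreeGroup.lift x)) : Submodule (L P) (κ → L P) where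
  carrier := Dz x ρ
  zero_mem' := (Dz x ρ).zero_mem
  add_mem' := (Dz x ρ).add_mem
  smul_mem' := fun r y h => by
    change r • y ∈ Dz x ρ
    induction r using MonoidAlgebra.induction_linear with
    | zero => simp
    | add a b h1 h2 => rw [add_smul]; exact (Dz x ρ).add_mem h1 h2
    | single g n =>
      obtain ⟨w, rfl⟩ := hx g
      obtain ⟨a, rfl⟩ := wd_surj w
      have h1 : Re x ρ .one .one .one (o (lab x a) • y) := by
        simpa using re_uniq (re1 h (re_R a) (re_R a)) (re_R a)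
      have h2 : MonoidAlgebra.single (FreeGroup.lift x a.wd) n • y = n • o (lab x a) • y := by
        rw [← smul_assoc]; simp [o_def, lab]
      rw [h2]
      exact (Dz x ρ).zsmul_mem h1 n

variable (x ρ) in
/-- homotopic formal edges -/
def st : Setoid (Tm ι) where
  r a c := ∃ y, Re x ρ .one a c y
  iseqv := ⟨fun a => ⟨_, re_L a⟩, fun ⟨_, h⟩ => ⟨_, re2 h (re_L _) re_O⟩,
    fun ⟨_, h⟩ ⟨_, h'⟩ => ⟨_, re1 h h' re_O⟩⟩

lemma re_st {a b c : Tm ι} {y} (h : Re x ρ a b c y) : st x ρ (.mul a b) c :=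
  ⟨_, re2 (re_M a b) h (re_L a)⟩

lemma st_re {a b c : Tm ι} (h : st x ρ (.mul a b) c) : ∃ y, Re x ρ a b c y := by
  obtain ⟨y, h⟩ := h
  exact ⟨_, re1 (re_M a b) h (re_L a)⟩

variable (x ρ) in
def tau0 (a : Tm ι) : Quotient (st x ρ) → Quotient (st x ρ) :=
  Quotient.map (.mul a) fun b _ ⟨_, h⟩ => (st x ρ).symm (re_st (re2 h (re_M a b) (re_R a)))

lemma tau0_mul {a b c : Tm ι} {y} (h : Re x ρ a b c y) (q) :
    tau0 x ρ a (tau0 x ρ b q) = tau0 x ρ c q := by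
  induction q using Quotient.inductionOn with
  | h d => exact Quotient.sound (re_st (re2 (re_M b d) (re_M c d) h))

lemma tau0_one (q) : tau0 x ρ .one q = q := by
  induction q using Quotient.inductionOn with
  | h d => exact Quotient.sound (re_st (re_L d))

variable (x ρ) in
def tau (a : Tm ι) : Equiv.Perm (Quotient (st x ρ)) where
  toFun := tau0 x ρ a
  invFun := tau0 x ρ (.inv a)
  left_inv q := by rw [tau0_mul (re0 (re_L a) (re_R a) (re_I a)), tau0_one]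
  right_inv q := by rw [tau0_mul (re_I a), tau0_one]

lemma lift_tau (a : Tm ι) : FreeGroup.lift (fun i => tau x ρ (.gen i)) a.wd = tau x ρ a := by
  induction a with
  | gen i => simp [Tm.wd]
  | one => rw [Tm.wd, map_one]; exact Equiv.ext fun q => (tau0_one q).symm
  | inv a ih =>
    rw [Tm.wd, map_inv, ih]; exact Equiv.ext fun _ => rfl
  | mul a b ha hb =>
    rw [Tm.wd, map_mul, ha, hb]; exact Equiv.ext fun q => tau0_mul (re_M a b) q

lemma re_ex (hP : Pres x fun k => (ρ k).wd) {a b c : Tm ι} (h : lab x a * lab x b = lab x c) :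
    ∃ y, Re x ρ a b c y := by
  obtain ⟨φ, hφ⟩ := hP.2.2 _ (fun i => tau x ρ (.gen i)) fun k => by
    rw [lift_tau]
    refine Equiv.ext fun q => ?_
    have := tau0_mul (re_rel (x := x) k) q
    rwa [tau0_one] at this
  have h1 : ∀ a, φ (lab x a) = tau x ρ a := fun a => by
    rw [← lift_tau]
    change (φ.comp (FreeGroup.lift x)) a.wd = _
    congr 1; ext1; simp [hφ]
  have h2 : tau x ρ (.mul a b) = tau x ρ c := by rw [← h1, ← h1, lab_mul, h]
  have h3 : st x ρ (.mul (.mul a b) .one) (.mul c .one) :=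
    Quotient.exact (congrArg (fun t : Equiv.Perm _ => t (Quotient.mk (st x ρ) .one)) h2)
  exact st_re ((st x ρ).trans ((st x ρ).symm (re_st (re_R _))) ((st x ρ).trans h3 (re_st (re_R _))))

theorem re_cycle [DecidableEq ι] [Fintype ι] [Fintype κ] (hP : Pres x fun k => (ρ k).wd) (θ : κ → L P)
    (hθ : ∑ k, θ k • fox x (ρ k).wd = 0) : Re x ρ .one .one .one θ := by
  let W := D0 ρ hP.2.1
  have hs : ∀ g : P, ∃ a, lab x a = g := fun g => by
    obtain ⟨w, rfl⟩ := hP.2.1 g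
    obtain ⟨a, rfl⟩ := wd_surj w
    exact ⟨a, rfl⟩
  choose s hs using hs
  have hψ : ∀ (g : P) (a : Tm ι), ∃ y, Re x ρ (s g) a (s (g * lab x a)) y := fun g a =>
    re_ex hP (by simp [hs])
  choose ψ hψ using hψ
  have hu : ∀ {a b c y y'}, Re x ρ a b c y → Re x ρ a b c y' → W.mkQ y = W.mkQ y' := fun h h' =>
    (Submodule.Quotient.eq W).2 (re_uniq h h')
  have key : ∀ {a b c y}, lab x a * lab x b = lab x c → Re x ρ a b c y → ∀ g,
      W.mkQ (ψ g c) = W.mkQ (ψ g a) + W.mkQ (ψ (g * lab x a) b) - o g • W.mkQ y := by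
    intro a b c y hl h g
    have h1 := hψ (g * lab x a) b
    rw [mul_assoc, hl] at h1
    rw [hu (hψ g c) (re2 h h1 (hψ g a)), hs]
    simp only [map_add, map_neg, map_smul]
    abel
  have k1 : ∀ g, W.mkQ (ψ g .one) = 0 := fun g => by
    have h := hψ g .one
    rw [lab_one, mul_one] at h
    simpa using hu h (re_R _)
  let Ψ : (ι → L P) → Tm ι → Prop := fun v a => ∀ (Φ : (ι → L P) →+ (κ → L P) ⧸ W),
    (∀ g i, Φ (o g • Pi.single i 1) = W.mkQ (ψ g (.gen i))) →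
      ∀ g, Φ (o g • v) = W.mkQ (ψ g a)
  have k2 : ∀ a, Ψ (fox x a.wd) a := by
    intro a Φ hΦ
    induction a with
    | gen i => simpa [Tm.wd] using fun g => hΦ g i
    | one => simpa [Tm.wd] using fun g => (k1 g).symm
    | inv a ih =>
      intro g
      have h := key (by simp) (re0 (re_L a) (re_R a) (re_I a)) g
      rw [k1, ← ih] at h
      rw [Tm.wd, fox_inv, smul_neg, smul_smul, ← map_mul, map_neg, neg_eq_iff_add_eq_zero,
        add_comm]
      simpa [lab, Tm.wd] using h.symm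
    | mul a b ha hb =>
      intro g
      rw [key (by simp) (re_M a b) g, ← ha, ← hb, Tm.wd, fox_mul, smul_add, smul_smul, ← map_mul,
        map_add]
      simp [lab]
  let Φ : (ι → L P) →ₗ[ℤ] (κ → L P) ⧸ W := ∑ i,
    (Finsupp.linearCombination ℤ fun g => W.mkQ (ψ g (.gen i))) ∘ₗ
      (MonoidAlgebra.coeffLinearEquiv ℤ).toLinearMap ∘ₗ LinearMap.proj i
  have k3 := fun a => k2 a Φ.toAddMonoidHom fun g i => by
    simp only [Φ, LinearMap.toAddMonoidHom_coe, LinearMap.sum_apply]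
    rw [Finset.sum_eq_single i] <;> simp +contextual [o_def]
  have k4 : ∀ k (r : L P), Φ (r • fox x (ρ k).wd) = W.mkQ (Pi.single k r) := by
    intro k r
    induction r using MonoidAlgebra.induction_linear with
    | zero => simp
    | add a b ha hb => rw [add_smul, map_add, ha, hb, Pi.single_add, map_add]
    | single g n =>
      have h := key (by simpa [lab] using hP.1 k) (re_rel k) g
      rw [k1, k1, add_zero, eq_comm, sub_eq_zero, ← k3] at h
      have e1 : MonoidAlgebra.single g n = n • (o g • (1 : L P)) := by simp [o_def]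
      rw [e1, Pi.single_smul, Pi.single_smul, map_zsmul, W.mkQ.map_smul, ← h, smul_assoc, map_zsmul]
      simp
  have k5 : W.mkQ θ = 0 := by
    rw [← Finset.univ_sum_single θ, map_sum, ← Finset.sum_congr rfl fun k _ => k4 k (θ k),
      ← map_sum, hθ, map_zero]
  exact (Submodule.Quotient.mk_eq_zero W).1 k5

end Pool.Agent.PDC.RL
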