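import Pool.Agent.Lib.PDC.RL1

/-! Defining tetrahedra and finite closed families of formal cells. -/

namespace Pool.Agent.PDC.RL

open Pool.Agent.PD3

variable {ι κ P : Type} [Group P]

/-- triangles that come with a defining tetrahedron -/
def df : Tg ι κ → Bool
  | .rel _ => false
  | .dO => false
  | .dI _ => false
  | .dM _ _ => false
  | _ => true

/-- the faces of the defining tetrahedron -/
def tet : Tg ι κ → Fin 4 → Tg ι κ
  | .lu a => ![.lu a, .lu a, .lu a, .dO]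
  | .ru a => ![.dO, .ru a, .ru a, .ru a]
  | .f0 S T U => ![.f0 S T U, S, T, U]
  | .f1 S T U => ![S, .f1 S T U, T, U]
  | .f2 S T U => ![S, T, .f2 S T U, U]
  | .f3 S T U => ![S, T, U, .f3 S T U]
  | _ => fun _ => .dO

/-- the triangle that defines an edge -/
def dt : Tm ι → Tg ι κ
  | .gen _ => .dO
  | .one => .dO
  | .inv a => .dI a
  | .mul a b => .dM a b

def isGen : Tm ι → Bool
  | .gen _ => true
  | _ => false

section Sol

variable {R M : Type} [Ring R] [AddCommGroup M] [Module R M] (x : ι → P) (ρ : κ → Tm ι)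
  (a : P →* R)

/-- coboundary on a tetrahedron with faces `F` -/
def del (φ : Tg ι κ → M) (F : Fin 4 → Tg ι κ) : M :=
  a (lab x (sh ρ (F 3)).1) • φ (F 0) - φ (F 1) + φ (F 2) - φ (F 3)

lemma sol_bas (b y : Tg ι κ → M) {T : Tg ι κ} (h : df T = false) : sol x ρ a b y T = b T := by
  cases T <;> first | rfl | simp [df] at h

lemma sol_del (b y : Tg ι κ → M) {T : Tg ι κ} (h : df T = true) :
    del x ρ a (sol x ρ a b y) (tet T) = y T := by
  cases T with
  | f0 S T U =>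
    simp only [del, tet, sol, Matrix.cons_val, smul_smul, ← map_mul, mul_inv_cancel, map_one,
      one_smul]
    abel
  | lu e => simp [del, tet, sol, sh]
  | ru e => simp [del, tet, sol, sh]
  | f1 S T U => simp only [del, tet, sol, Matrix.cons_val]; abel
  | f2 S T U => simp only [del, tet, sol, Matrix.cons_val]; abel
  | f3 S T U => simp only [del, tet, sol, sh, Matrix.cons_val]; abel
  | _ => simp [df] at h

variable {R' M' : Type} [Ring R'] [AddCommGroup M'] [Module R' M'] (a' : P →* R') (f : M →+ M')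

lemma sol_nat (hf : ∀ g m, f (a g • m) = a' g • f m) (b y : Tg ι κ → M) (T : Tg ι κ) :
    f (sol x ρ a b y T) = sol x ρ a' (fun T => f (b T)) (fun T => f (y T)) T := by
  induction T <;> simp_all [sol, -map_inv]

lemma del_nat (hf : ∀ g m, f (a g • m) = a' g • f m) (φ : Tg ι κ → M) (F : Fin 4 → Tg ι κ) :
    f (del x ρ a φ F) = del x ρ a' (fun T => f (φ T)) F := by
  simp [del, hf]

end Sol

variable {ρ : κ → Tm ι}

lemma mt_tet {T : Tg ι κ} (h : Ok ρ T) :
    Mt (sh ρ (tet T 0)) (sh ρ (tet T 1)) (sh ρ (tet T 2)) (sh ρ (tet T 3)) := by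
  cases T <;> first | exact h.2.2.2 | simp [Mt, tet, sh]

lemma lab_ok {x : ι → P} (hρ : ∀ k, lab x (ρ k) = 1) {T : Tg ι κ} (h : Ok ρ T) :
    lab x (sh ρ T).1 * lab x (sh ρ T).2.1 = lab x (sh ρ T).2.2 := by
  induction T with
  | f0 S T U hS hT hU =>
    obtain ⟨h1, h2, h3, -, -, -, e1, e2, e3⟩ := h
    refine mul_left_cancel (a := lab x (sh ρ U).1) ?_
    simp only [sh]
    rw [← mul_assoc, hU h3, e2, hS h1, e3, hT h2, e1]
  | f1 S T U hS hT hU =>
    obtain ⟨h1, h2, h3, -, e1, e2, -, -, e3⟩ := h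
    simp only [sh]
    rw [← hU h3, e2, mul_assoc, hS h1, ← e1, e3, hT h2]
  | f2 S T U hS hT hU =>
    obtain ⟨h1, h2, h3, e1, -, e2, -, e3, -⟩ := h
    simp only [sh]
    rw [← hS h1, ← e2, ← mul_assoc, hU h3, e3, ← e1, hT h2]
  | f3 S T U hS hT hU =>
    obtain ⟨h1, h2, h3, e1, e2, -, e3, -, -⟩ := h
    refine mul_right_cancel (b := lab x (sh ρ S).2.1) ?_
    simp only [sh]
    rw [mul_assoc, hS h1, ← e2, hU h3, e3, ← e1, hT h2]
  | _ => simp [sh, hρ]

/-- subterms -/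
def depE : Tm ι → Set (Tm ι)
  | .gen i => {.gen i}
  | .one => {.one}
  | .inv a => {.inv a, .one} ∪ depE a
  | .mul a b => {.mul a b} ∪ depE a ∪ depE b

lemma depE_fin (a : Tm ι) : (depE a).Finite := by
  induction a <;> simp_all [depE]

lemma depE_self (a : Tm ι) : a ∈ depE a := by
  cases a <;> simp [depE]

lemma depE_cl {a b : Tm ι} (h : a ∈ depE b) (hg : isGen a = false) :
    (sh ρ (dt a)).1 ∈ depE b ∧ (sh ρ (dt a)).2.1 ∈ depE b ∧ (sh ρ (dt a)).2.2 ∈ depE b := by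
  induction b with
  | gen i => simp only [depE, Set.mem_singleton_iff] at h; simp [h, isGen] at hg
  | one => simp only [depE, Set.mem_singleton_iff] at h; simp [h, dt, sh, depE]
  | inv b ih =>
    rcases h with (rfl | rfl) | h
    · simp [dt, sh, depE, depE_self]
    · simp [dt, sh, depE]
    · have := ih h
      simp only [depE, Set.mem_union]; tauto
  | mul b c hb hc =>
    rcases h with (rfl | h) | h
    · simp [dt, sh, depE, depE_self]
    · have := hb h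
      simp only [depE, Set.mem_union]; tauto
    · have := hc h
      simp only [depE, Set.mem_union]; tauto

def depT : Tg ι κ → Set (Tg ι κ)
  | .f0 S T U => {.f0 S T U} ∪ depT S ∪ depT T ∪ depT U
  | .f1 S T U => {.f1 S T U} ∪ depT S ∪ depT T ∪ depT U
  | .f2 S T U => {.f2 S T U} ∪ depT S ∪ depT T ∪ depT U
  | .f3 S T U => {.f3 S T U} ∪ depT S ∪ depT T ∪ depT U
  | T => {T, .dO}

lemma depT_fin (T : Tg ι κ) : (depT T).Finite := by
  induction T <;> simp_all [depT]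

lemma depT_self (T : Tg ι κ) : T ∈ depT T := by
  cases T <;> simp [depT]

lemma depT_O (T : Tg ι κ) : .dO ∈ depT T := by
  induction T <;> simp_all [depT]

lemma depT_cl {T U : Tg ι κ} (hU : Ok ρ U) (h : T ∈ depT U) : Ok ρ T ∧ ∀ i, tet T i ∈ depT U := by
  have A : ∀ {V A B C : Tg ι κ}, Ok ρ V → (∀ i, tet V i ∈ {V} ∪ depT A ∪ depT B ∪ depT C) →
      (T ∈ depT A → Ok ρ T ∧ ∀ i, tet T i ∈ depT A) →
      (T ∈ depT B → Ok ρ T ∧ ∀ i, tet T i ∈ depT B) →
      (T ∈ depT C → Ok ρ T ∧ ∀ i, tet T i ∈ depT C) → T ∈ {V} ∪ depT A ∪ depT B ∪ depT C →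
      Ok ρ T ∧ ∀ i, tet T i ∈ {V} ∪ depT A ∪ depT B ∪ depT C := by
    rintro V A B C h0 h1 hA hB hC (((rfl | h) | h) | h)
    · exact ⟨h0, h1⟩
    · exact ⟨(hA h).1, fun i => Or.inl (Or.inl (Or.inr ((hA h).2 i)))⟩
    · exact ⟨(hB h).1, fun i => Or.inl (Or.inr ((hB h).2 i))⟩
    · exact ⟨(hC h).1, fun i => Or.inr ((hC h).2 i)⟩
  induction U with
  | f0 A' B C hA hB hC =>
    exact A hU (fun i => by fin_cases i <;> simp [tet, depT_self]) (hA hU.1) (hB hU.2.1)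
      (hC hU.2.2.1) h
  | f1 A' B C hA hB hC =>
    exact A hU (fun i => by fin_cases i <;> simp [tet, depT_self]) (hA hU.1) (hB hU.2.1)
      (hC hU.2.2.1) h
  | f2 A' B C hA hB hC =>
    exact A hU (fun i => by fin_cases i <;> simp [tet, depT_self]) (hA hU.1) (hB hU.2.1)
      (hC hU.2.2.1) h
  | f3 A' B C hA hB hC =>
    exact A hU (fun i => by fin_cases i <;> simp [tet, depT_self]) (hA hU.1) (hB hU.2.1)
      (hC hU.2.2.1) h
  | _ =>
    rcases h with rfl | rfl <;> refine ⟨trivial, fun i => ?_⟩ <;> fin_cases i <;> simp [tet, depT]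

/-- a closed family of formal edges and triangles -/
structure Cl (ρ : κ → Tm ι) (SE : Set (Tm ι)) (ST : Set (Tg ι κ)) : Prop where
  ok : ∀ T ∈ ST, Ok ρ T
  tet : ∀ T ∈ ST, ∀ i, tet T i ∈ ST
  edge : ∀ T ∈ ST, (sh ρ T).1 ∈ SE ∧ (sh ρ T).2.1 ∈ SE ∧ (sh ρ T).2.2 ∈ SE
  dt : ∀ a ∈ SE, dt a ∈ ST
  gen : ∀ i, .gen i ∈ SE
  rel : ∀ k, .rel k ∈ ST
  dO : .dO ∈ ST

lemma exists_cl [Finite ι] [Finite κ] {τ : Type} [Finite τ] (T0 : τ → Tg ι κ)
    (h0 : ∀ j, Ok ρ (T0 j)) : ∃ SE ST, SE.Finite ∧ ST.Finite ∧ Cl ρ SE ST ∧ ∀ j, T0 j ∈ ST := by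
  let T1 : Option (τ ⊕ κ) → Tg ι κ := fun j => j.elim .dO (Sum.elim T0 .rel)
  have h1 : ∀ j, Ok ρ (T1 j) := by
    rintro (_ | j | k)
    exacts [trivial, h0 j, trivial]
  let S0 : Set (Tg ι κ) := ⋃ j, depT (T1 j)
  have f0 : S0.Finite := Set.finite_iUnion fun _ => depT_fin _
  have m0 : ∀ j, T1 j ∈ S0 := fun j => Set.mem_iUnion.2 ⟨j, depT_self _⟩
  let SE : Set (Tm ι) := Set.range .gen ∪
    ⋃ T ∈ S0, depE (sh ρ T).1 ∪ depE (sh ρ T).2.1 ∪ depE (sh ρ T).2.2
  have fE : SE.Finite := (Set.finite_range _).union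
    (f0.biUnion fun _ _ => ((depE_fin _).union (depE_fin _)).union (depE_fin _))
  have e0 : ∀ T ∈ S0, (sh ρ T).1 ∈ SE ∧ (sh ρ T).2.1 ∈ SE ∧ (sh ρ T).2.2 ∈ SE := fun T hT =>
    ⟨Or.inr (Set.mem_biUnion hT (by simp [depE_self])),
      Or.inr (Set.mem_biUnion hT (by simp [depE_self])),
      Or.inr (Set.mem_biUnion hT (by simp [depE_self]))⟩
  refine ⟨SE, S0 ∪ dt '' SE, fE, f0.union (fE.image _), ⟨?_, ?_, ?_, fun a ha => Or.inr ⟨a, ha, rfl⟩,
    fun i => Or.inl ⟨i, rfl⟩, fun k => Or.inl (m0 (some (.inr k))), Or.inl (m0 none)⟩,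
    fun j => Or.inl (m0 (some (.inl j)))⟩
  · rintro T (hT | ⟨a, -, rfl⟩)
    · obtain ⟨j, hj⟩ := Set.mem_iUnion.1 hT
      exact (depT_cl (h1 j) hj).1
    · cases a <;> trivial
  · rintro T (hT | ⟨a, -, rfl⟩) i
    · obtain ⟨j, hj⟩ := Set.mem_iUnion.1 hT
      exact Or.inl (Set.mem_iUnion.2 ⟨j, (depT_cl (h1 j) hj).2 i⟩)
    · cases a <;> exact Or.inl (m0 none)
  · rintro T (hT | ⟨a, ha, rfl⟩)
    · exact e0 T hT
    · by_cases hg : isGen a = true
      · cases a <;> first | exact e0 _ (m0 none) | simp [isGen] at hg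
      rcases ha with ⟨i, rfl⟩ | ha
      · simp [isGen] at hg
      obtain ⟨T, hT, ha⟩ := Set.mem_iUnion₂.1 ha
      have hg' : isGen a = false := by simpa using hg
      refine ⟨Or.inr (Set.mem_biUnion hT ?_), Or.inr (Set.mem_biUnion hT ?_),
        Or.inr (Set.mem_biUnion hT ?_)⟩ <;> rcases ha with (h | h) | h <;>
        have := depE_cl (ρ := ρ) h hg' <;> simp only [Set.mem_union] <;> tauto

/-- an integral cochain that vanishes on the basic triangles and is closed on the defining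
tetrahedra vanishes -/
lemma Cl.uniq {SE ST} (h : Cl ρ SE ST) (χ : Tg ι κ → ℤ) (h0 : ∀ T ∈ ST, df T = false → χ T = 0)
    (h1 : ∀ T ∈ ST, df T = true →
      χ (RL.tet T 0) - χ (RL.tet T 1) + χ (RL.tet T 2) - χ (RL.tet T 3) = 0) :
    ∀ T ∈ ST, χ T = 0 := by
  have hO := h0 _ h.dO rfl
  intro T hT
  induction T with
  | lu e => simpa [RL.tet, hO] using h1 _ hT rfl
  | ru e => simpa [RL.tet, hO] using h1 _ hT rfl
  | f0 S T U hS hT' hU =>
    simpa [RL.tet, hS (h.tet _ hT 1), hT' (h.tet _ hT 2), hU (h.tet _ hT 3)] using h1 _ hT rfl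
  | f1 S T U hS hT' hU =>
    simpa [RL.tet, hS (h.tet _ hT 0), hT' (h.tet _ hT 2), hU (h.tet _ hT 3)] using h1 _ hT rfl
  | f2 S T U hS hT' hU =>
    simpa [RL.tet, hS (h.tet _ hT 0), hT' (h.tet _ hT 1), hU (h.tet _ hT 3)] using h1 _ hT rfl
  | f3 S T U hS hT' hU =>
    simpa [RL.tet, hS (h.tet _ hT 0), hT' (h.tet _ hT 1), hU (h.tet _ hT 2)] using h1 _ hT rfl
  | _ => exact h0 _ hT rfl

end Pool.Agent.PDC.RL
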