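import Pool.Agent.Lib.PDC.Blue

/-! Kit: group elements congruent to one modulo a right ideal. -/

namespace Pool.Agent.PDC.X17

open Pool.Agent.PD3

variable {G : Type} [Group G]

/-- the elements `g` with `g - 1` in the right ideal generated by the entries of `z` -/
def RI (z : Fin 2 → L G) : Subgroup G where
  carrier := {g | ∃ w : Fin 2 → L G, o g - 1 = ∑ k, z k * w k}
  one_mem' := ⟨0, by simp⟩
  mul_mem' := by
    rintro a b ⟨w, hw⟩ ⟨w', hw'⟩
    refine ⟨fun k => w k * o b + w' k, ?_⟩
    simp only [mul_add, Finset.sum_add_distrib, ← mul_assoc, ← Finset.sum_mul, ← hw, ← hw',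
      map_mul]
    noncomm_ring
  inv_mem' := by
    rintro a ⟨w, hw⟩
    refine ⟨fun k => -(w k * o a⁻¹), ?_⟩
    simp only [mul_neg, Finset.sum_neg_distrib, ← mul_assoc, ← Finset.sum_mul, ← hw]
    rw [sub_mul, o_mul_inv, one_mul, neg_sub]

lemma mem_RI {z : Fin 2 → L G} {g : G} :
    g ∈ RI z ↔ ∃ w : Fin 2 → L G, o g - 1 = ∑ k, z k * w k := Iff.rfl

lemma RI_top {x : Fin 2 → G} (hx : Function.Surjective (FreeGroup.lift x)) {z : Fin 2 → L G}
    (h : ∀ i, x i ∈ RI z) (g : G) : ∃ w : Fin 2 → L G, o g - 1 = ∑ k, z k * w k := by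
  obtain ⟨a, rfl⟩ := hx g
  change FreeGroup.lift x a ∈ RI z
  induction a using FreeGroup.induction_on with
  | C1 => simp
  | of i => simpa using h i
  | inv_of i ih => rw [map_inv]; exact (RI z).inv_mem ih
  | mul a b ha hb => rw [map_mul]; exact (RI z).mul_mem ha hb

lemma aug_map {Q : Type} [Group Q] (φ : G →* Q) (a : L G) :
    aug (MonoidAlgebra.mapDomainRingHom ℤ φ a) = aug a := by
  induction a using MonoidAlgebra.induction_linear with
  | zero => simp
  | add a b h1 h2 => simp only [map_add, h1, h2]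
  | single g n => simp

lemma map_o {Q : Type} [Group Q] (φ : G →* Q) (g : G) :
    MonoidAlgebra.mapDomainRingHom ℤ φ (o g) = o (φ g) := by simp [o_def]

lemma lift_comp {ι Q : Type} [Group Q] (φ : G →* Q) (x : ι → G) (w : FreeGroup ι) :
    FreeGroup.lift (fun i => φ (x i)) w = φ (FreeGroup.lift x w) := by
  change _ = (φ.comp (FreeGroup.lift x)) w
  congr 1; ext; simp

end Pool.Agent.PDC.X17
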