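import Pool.Agent.Lib.PDC.S17

/-! Kit: identities in the group ring of `⟨z, w⟩` with `z` inverting `w`. -/

namespace Pool.Agent.PDC.X17

open Pool.Agent.PD3

variable {G : Type} [Group G]

lemma Ns_add (g : G) (a b : ℕ) : Ns g (a + b) = Ns g a + o g ^ a * Ns g b := by
  induction b with
  | zero => simp [Ns]
  | succ b ih => rw [← add_assoc, Ns_succ, Ns_succ, ih, mul_add, pow_add, add_assoc]

lemma Ns_two_mul (g : G) (d : ℕ) : Ns g (2 * d) = Ns (g ^ 2) d * (1 + o g) := by
  induction d with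
  | zero => simp [Ns]
  | succ d ih =>
    rw [show 2 * (d + 1) = 2 * d + 1 + 1 by ring, Ns_succ, Ns_succ, Ns_succ, ih, map_pow,
      ← pow_mul, pow_succ]
    noncomm_ring

lemma comm_Ns {g : G} {x : L G} (h : Commute x (o g)) (n : ℕ) : Commute x (Ns g n) :=
  Commute.sum_right _ _ _ fun i _ => by rw [map_pow]; exact h.pow_right i

lemma pow_abs {g : G} {x : L G} (h : o g * x = x) (n : ℕ) : o g ^ n * x = x := by
  induction n with
  | zero => simp
  | succ n ih => rw [pow_succ, mul_assoc, h, ih]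

lemma Ns_abs {g : G} {x : L G} (h : o g * x = x) (n : ℕ) : Ns g n * x = n * x := by
  induction n with
  | zero => simp [Ns]
  | succ n ih => rw [Ns_succ, add_mul, ih, pow_abs h, Nat.cast_succ, add_mul, one_mul]

lemma o_mul_Ns {g : G} {n : ℕ} (h : g ^ n = 1) : o g * Ns g n = Ns g n := by
  have := sub_mul_Ns g n
  rwa [← map_pow, h, map_one, sub_self, sub_mul, one_mul, sub_eq_zero] at this

lemma Ns_sub_cast (g : G) (n : ℕ) : ∃ T, Ns g n = n + (o g - 1) * T := by
  induction n with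
  | zero => exact ⟨0, by simp [Ns]⟩
  | succ n ih =>
    obtain ⟨T, hT⟩ := ih
    refine ⟨T + Ns g n, ?_⟩
    rw [Ns_succ, mul_add, sub_mul_Ns, Nat.cast_succ]
    conv_lhs => rw [hT]
    abel

section

variable {z w : G} (hc : z * w = w⁻¹ * z)
include hc

lemma conj_pow_eq (k : ℕ) : z * w ^ k = (w ^ k)⁻¹ * z := by
  rw [← mul_inv_eq_iff_eq_mul, ← conj_pow, hc, mul_inv_cancel_right, inv_pow]

lemma sq_comm : Commute (z ^ 2) w := by
  have h : z * w⁻¹ = w * z := by
    rw [mul_inv_eq_iff_eq_mul, mul_assoc, hc, mul_inv_cancel_left]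
  change z ^ 2 * w = w * z ^ 2
  rw [sq, mul_assoc, hc, ← mul_assoc, h, mul_assoc]

lemma o_sq_comm : Commute (o z ^ 2) (o w) := by
  rw [← map_pow]; exact (sq_comm hc).map o

lemma z_mul_pow {a b : ℕ} (hw : w ^ (a + b) = 1) : o z * o w ^ a = o w ^ b * o z := by
  rw [← map_pow, ← map_pow, ← map_mul, ← map_mul, conj_pow_eq hc,
    inv_eq_of_mul_eq_one_right (by rw [← pow_add, hw])]

lemma z_comm_N {m : ℕ} (hw : w ^ m = 1) : Commute (o z) (Ns w m) := by
  change o z * Ns w m = Ns w m * o z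
  conv_rhs => rw [← o_mul_Ns hw, Ns, ← Finset.sum_range_reflect]
  rw [Ns, Finset.mul_sum, Finset.mul_sum, Finset.sum_mul]
  refine Finset.sum_congr rfl fun i hi => ?_
  have := Finset.mem_range.1 hi
  rw [map_pow, map_pow, ← pow_succ', z_mul_pow hc (b := m - 1 - i + 1)]
  rwa [show i + (m - 1 - i + 1) = m by omega]

variable {s d : ℕ} (μ : ℕ) (hz : z ^ (2 * d) = 1) (hw : w ^ (2 * s + 1) = 1)
include hw

lemma zB0_mul : zB0 z w s d μ * Ns w (2 * s + 1) =
    ((s + 1) * (o z ^ 2 - 1) + (2 * s + 1 - μ * Ns (z ^ 2) d) * (1 - o z)) * Ns w (2 * s + 1) := by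
  have hN := o_mul_Ns hw
  have c1 := (z_comm_N hc hw).symm
  have c2 : Commute (Ns w (2 * s + 1)) (Ns (z ^ 2) d) :=
    comm_Ns (by rw [map_pow]; exact c1.pow_right 2) d
  have c3 : Commute (Ns w (2 * s + 1)) (1 - o z) := (Commute.one_right _).sub_right c1
  have c4 := (c2.mul_right c3).eq
  have a1 := Ns_abs hN (s + 1)
  have a2 := Ns_abs hN μ
  have a3 := Ns_abs hN (2 * s + 1)
  have a4 := pow_abs hN μ
  have a5 := pow_abs hN (s + 1)
  have c5 := (comm_Ns (o_sq_comm hc) (s + 1)).eq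
  have c6 := (Nat.cast_commute (s + 1) (o z ^ 2)).eq
  have c7 := (Nat.cast_commute μ (o w ^ (s + 1))).eq
  have c8 := (Nat.cast_commute μ (s : L G)).eq
  have c9 := (Nat.cast_commute (2 * s + 1) (1 - o z)).eq
  have c3 := c3.eq
  rw [zB0]
  push_cast at a1 a3 c6 c9
  generalize Ns w (2 * s + 1) = N at *
  generalize Ns w (s + 1) = A at *
  generalize Ns w μ = M at *
  generalize Ns (z ^ 2) d = D at *
  generalize o w ^ (s + 1) = v at *
  generalize o w ^ μ = P at *
  generalize o z ^ 2 = Y at *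
  generalize 1 - o z = X at *
  generalize (s : L G) = S at *
  generalize (μ : L G) = U at *
  have t1 : (S * (1 + v) * M - U * N) * N = -(U * N) := by
    linear_combination (norm := noncomm_ring) S * (1 + v) * a2 - U * a3 - S * c7 * N +
      S * U * a5 - 2 * c8 * N
  linear_combination (norm := noncomm_ring) -c5 * N + Y * a1 - c6 * N - A * a4 - a1 + c3 * N +
    X * a3 - c9 * N - (S * (1 + v) * M - U * N) * c4 + t1 * (D * X) - U * c4

lemma zB1_mul : zB1 z w s d μ * Ns w (2 * s + 1) =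
    -((2 * s + 1 - μ * Ns (z ^ 2) d) * (1 - o z)) * Ns w (2 * s + 1) := by
  have hN := o_mul_Ns hw
  have c1 := (z_comm_N hc hw).symm
  have c2 : Commute (Ns w (2 * s + 1)) (Ns (z ^ 2) d) :=
    comm_Ns (by rw [map_pow]; exact c1.pow_right 2) d
  have c3 : Commute (Ns w (2 * s + 1)) (1 - o z) := (Commute.one_right _).sub_right c1
  have c4 := (c2.mul_right c3).eq
  have a2 := Ns_abs hN μ
  have a3 := Ns_abs hN (2 * s + 1)
  have a5 := pow_abs hN (s + 1)
  have c9 := (Nat.cast_commute (2 * s + 1) (1 - o z)).eq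
  have c3 := c3.eq
  rw [zB1]
  push_cast at a3 c9
  generalize Ns w (2 * s + 1) = N at *
  generalize Ns w μ = M at *
  generalize Ns (z ^ 2) d = D at *
  generalize o w ^ (s + 1) = v at *
  generalize o z = Z at *
  generalize (s : L G) = S at *
  generalize (μ : L G) = U at *
  linear_combination (norm := noncomm_ring) M * D * a5 - M * c4 + a2 * (D * (1 - Z)) + U * c4 -
    c3 * N - (1 - Z) * a3 + c9 * N

end

end Pool.Agent.PDC.X17
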