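import Pool.Agent.Lib.PDC.Blue

/-! Tools for finite groups without elementary abelian subgroups of rank two. -/

namespace Pool.Agent.PDC.X43

open Subgroup

variable {G : Type} [Group G]

theorem exists_nat [Finite G] {x g : G} (h : x ∈ zpowers g) : ∃ k : ℕ, x = g ^ k := by
  obtain ⟨k, hk⟩ := (Submonoid.mem_powers_iff x g).1 (mem_powers_iff_mem_zpowers.2 h)
  exact ⟨k, hk.symm⟩

theorem comm_of_mem {x y g : G} (h : x ∈ zpowers g) (hy : Commute y g) : Commute y x := by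
  obtain ⟨k, rfl⟩ := h
  exact hy.zpow_right k

theorem two_cases [Finite G] {t x : G} (ht : t ^ 2 = 1) (h : x ∈ zpowers t) : x = 1 ∨ x = t := by
  obtain ⟨k, rfl⟩ := exists_nat h
  rw [← Nat.div_add_mod k 2, pow_add, pow_mul, ht, one_pow, one_mul]
  rcases Nat.mod_two_eq_zero_or_one k with e | e <;> simp [e]

theorem eq_one_of_coprime {x : G} {a b : ℕ} (h : Nat.Coprime a b) (ha : x ^ a = 1)
    (hb : x ^ b = 1) : x = 1 := by
  have := (pow_gcd_eq_one (a := x)).2 ⟨ha, hb⟩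
  rwa [h, pow_one] at this

theorem pow_card {K : Subgroup G} {x : G} (h : x ∈ K) : x ^ Nat.card K = 1 := by
  exact congrArg Subtype.val (pow_card_eq_one' (x := (⟨x, h⟩ : K)))

theorem exists_prime_pow [Finite G] {x : G} (h : x ≠ 1) :
    ∃ p n : ℕ, p.Prime ∧ p ∣ orderOf x ∧ orderOf (x ^ n) = p := by
  obtain ⟨p, hp, hd⟩ := Nat.exists_prime_and_dvd (mt orderOf_eq_one_iff.1 h)
  exact ⟨p, _, hp, hd, orderOf_pow_orderOf_div (orderOf_pos x).ne' hd⟩

theorem orderOf_conj (x g : G) : orderOf (x * g * x⁻¹) = orderOf g :=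
  (MulAut.conj x).orderOf_eq g

theorem central_elt [Finite G] {p : ℕ} (hp : p.Prime) {Q : Subgroup G} (hQ : IsPGroup p Q)
    (h : Q ≠ ⊥) : ∃ z ∈ Q, orderOf z = p ∧ ∀ y ∈ Q, Commute y z := by
  have := Fact.mk hp
  have := (nontrivial_iff_ne_bot Q).2 h
  obtain ⟨⟨z, hz⟩, h1⟩ := ne_bot_iff_exists_ne_one.1 hQ.bot_lt_center.ne'
  have h2 : (z : G) ≠ 1 := fun e => h1 (Subtype.ext (Subtype.ext e))
  obtain ⟨q, n, h3, h4, h5⟩ := exists_prime_pow h2
  obtain ⟨k, hk⟩ := hQ.exists_orderOf_eq_pow z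
  rw [orderOf_coe, hk] at h4
  obtain rfl := (Nat.prime_dvd_prime_iff_eq h3 hp).1 (h3.dvd_of_dvd_pow h4)
  refine ⟨_, Q.pow_mem z.2 n, h5, fun y hy => Commute.pow_right ?_ n⟩
  exact congrArg Subtype.val (mem_center_iff.1 hz ⟨y, hy⟩)

theorem mem_zpowers_symm [Finite G] {p : ℕ} (hp : p.Prime) {s z : G} (hs : orderOf s = p)
    (h : z ∈ zpowers s) (h1 : z ≠ 1) : s ∈ zpowers z := by
  obtain ⟨k, rfl⟩ := exists_nat h
  rw [mem_zpowers_pow_iff, hs]
  exact ((hp.coprime_iff_not_dvd).2 fun e => h1 (orderOf_dvd_iff_pow_eq_one.1 (hs ▸ e))).symm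

theorem central_of_P1 [Finite G] (hP : P1 G) {p : ℕ} (hp : p.Prime) {Q : Subgroup G}
    (hQ : IsPGroup p Q) {s : G} (h : s ∈ Q) (hs : orderOf s = p) : ∀ y ∈ Q, Commute y s := by
  have h0 : ∀ z : G, orderOf z = p → z ≠ 1 := fun z hz e => hp.one_lt.ne (by rw [← hz, e]; simp)
  obtain ⟨z, -, h2, h3⟩ := central_elt hp hQ fun e => h0 s hs (by rwa [e, mem_bot] at h)
  exact fun y hy => comm_of_mem (hP p z s hp h2 hs (h3 s h).symm) (h3 y hy)

theorem exists_sylow [Finite G] {p : ℕ} (hp : p.Prime) {s : G} (hs : orderOf s = p) :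
    ∃ Q : Sylow p G, s ∈ Q := by
  have := Fact.mk hp
  obtain ⟨Q, hQ⟩ := (IsPGroup.of_card (p := p) (G := zpowers s) (n := 1)
    (by rw [Nat.card_zpowers, hs, pow_one])).exists_le_sylow
  exact ⟨Q, hQ (mem_zpowers s)⟩

/-- Burnside's theorem for an element of prime order. -/
theorem burn [Finite G] (hP : P1 G) {p : ℕ} (hp : p.Prime) {s : G} (hs : orderOf s = p)
    (h1 : ∀ x, Commute x s → (∃ k, x ^ p ^ k = 1) → x ∈ zpowers s)
    (h2 : ∀ x, x * s * x⁻¹ ∈ zpowers s → Commute x s) :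
    ∃ K : Subgroup G, K.Normal ∧ Nat.Coprime (Nat.card K) p ∧ (∀ g, g ^ p ∈ K) ∧
      ∀ g, ∃ k ∈ K, ∃ d : ℕ, g = k * s ^ d := by
  have := Fact.mk hp
  obtain ⟨Q, hQ⟩ := exists_sylow hp hs
  have e : (Q : Subgroup G) = zpowers s := le_antisymm (fun x hx =>
    h1 x (central_of_P1 hP hp Q.2 hQ hs x hx) ((Q.2 ⟨x, hx⟩).imp fun k hk => by
      simpa using congrArg Subtype.val hk)) (zpowers_le.2 hQ)
  have h3 : normalizer (Q : Set G) ≤ centralizer (Q : Set G) := fun x hx y hy => by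
    have h4 : x * s * x⁻¹ ∈ (Q : Subgroup G) := (mem_normalizer_iff.1 hx s).1 hQ
    exact (comm_of_mem (e ▸ hy : y ∈ zpowers s) (h2 x (e ▸ h4))).symm
  have h4 := MonoidHom.ker_transferSylow_isComplement' Q h3
  refine ⟨_, (MonoidHom.transferSylow Q h3).normal_ker, ?_, fun g => ?_, fun g => ?_⟩
  · rw [← h4.index_eq_card]
    exact ((hp.coprime_iff_not_dvd).2 Q.not_dvd_index).symm
  · have h5 := pow_index_mem (H := (MonoidHom.transferSylow Q h3).ker) g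
    rwa [h4.symm.index_eq_card, show Nat.card (Q : Subgroup G) = p by
      rw [e, Nat.card_zpowers, hs]] at h5
  · obtain ⟨⟨k, y⟩, rfl⟩ := h4.2 g
    obtain ⟨d, hd⟩ := exists_nat (e ▸ y.2 : (y : G) ∈ zpowers s)
    exact ⟨k, k.2, d, by rw [← hd]⟩

theorem burn_two [Finite G] (hP : P1 G) {t : G} (ht : orderOf t = 2)
    (h1 : ∀ x, Commute x t → (∃ k, x ^ 2 ^ k = 1) → x ∈ zpowers t) :
    ∃ K : Subgroup G, K.Normal ∧ Nat.Coprime (Nat.card K) 2 ∧ (∀ g, g ^ 2 ∈ K) ∧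
      ∀ g, ∃ k ∈ K, ∃ d : ℕ, g = k * t ^ d :=
  burn hP Nat.prime_two ht h1 fun x hx => by
    rcases two_cases (ht ▸ pow_orderOf_eq_one t) hx with e | e
    · have := orderOf_conj x t
      rw [e, ht] at this
      simp at this
    · exact mul_inv_eq_iff_eq_mul.1 e

/-- Fixed part and inverted part for an involution acting on a group of odd order. -/
theorem split {K : Subgroup G} (hK : K.Normal) (ho : Nat.Coprime (Nat.card K) 2) {t : G}
    (ht : t ^ 2 = 1) {y : G} (hy : y ∈ K) : ∃ v ∈ zpowers (y⁻¹ * (t * y * t⁻¹)),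
      v ∈ K ∧ t * v * t⁻¹ = v⁻¹ ∧ Commute (y * v) t := by
  have h1 := K.mul_mem (K.inv_mem hy) (hK.conj_mem y hy t)
  obtain ⟨n, hn⟩ := Nat.coprime_two_right.1 ho
  have h2 := pow_card h1
  have h3 : t * (y⁻¹ * (t * y * t⁻¹)) * t⁻¹ = (y⁻¹ * (t * y * t⁻¹))⁻¹ := by
    have e : t⁻¹ = t := inv_eq_of_mul_eq_one_right (by rwa [← sq])
    have e' : ∀ a, t * (t * a) = a := fun a => by rw [← mul_assoc, ← sq, ht, one_mul]
    simp [e, mul_assoc, ← sq, ht]
  have h4 : t * y * t⁻¹ = y * (y⁻¹ * (t * y * t⁻¹)) := by group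
  generalize y⁻¹ * (t * y * t⁻¹) = w at h1 h2 h3 h4
  have h5 : t * w ^ (n + 1) * t⁻¹ = (w ^ (n + 1))⁻¹ := by rw [← conj_pow, h3, inv_pow]
  refine ⟨w ^ (n + 1), pow_mem (mem_zpowers w) _, pow_mem h1 _, h5, ?_⟩
  have h6 : w = w ^ (n + 1) * w ^ (n + 1) := by
    rw [← pow_add, show n + 1 + (n + 1) = 2 * n + 1 + 1 by ring, pow_succ, ← hn, h2, one_mul]
  have h7 : t * (y * w ^ (n + 1)) * t⁻¹ = y * w ^ (n + 1) := by
    rw [← conj_mul, h4, h5, mul_assoc, mul_right_inj, mul_inv_eq_iff_eq_mul, ← h6]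
  exact (mul_inv_eq_iff_eq_mul.1 h7).symm

theorem cyc_comm {H : Type} [CommGroup H] [Finite H] (hP : P1 H) : ∃ u : H, ∀ x, x ∈ zpowers u := by
  obtain ⟨g, hg⟩ := Monoid.exists_orderOf_eq_exponent (Monoid.ExponentExists.of_finite (G := H))
  refine ⟨g, fun x => by_contra fun hx => ?_⟩
  obtain ⟨p, n, hp, -, h1⟩ := exists_prime_pow (x := (x : H ⧸ zpowers g))
    (mt (QuotientGroup.eq_one_iff x).1 hx)
  rw [← QuotientGroup.mk_pow] at h1
  generalize x ^ n = y at h1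
  have h2 : y ∉ zpowers g := fun h => hp.one_lt.ne (by
    rw [← h1, (QuotientGroup.eq_one_iff y).2 h, orderOf_one])
  have h3 : p ∣ orderOf g := by
    rw [hg, ← h1]
    exact (orderOf_map_dvd (QuotientGroup.mk' _) y).trans (Monoid.order_dvd_exponent y)
  obtain ⟨a, ha⟩ := exists_nat ((QuotientGroup.eq_one_iff (y ^ p)).1
    (by rw [QuotientGroup.mk_pow, ← h1, pow_orderOf_eq_one]))
  obtain ⟨e, he⟩ := h3
  have h4 : 0 < e := Nat.pos_of_mul_pos_left (he ▸ orderOf_pos g)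
  have h5 : orderOf g ∣ a * e := orderOf_dvd_of_pow_eq_one (by
    rw [pow_mul, ← ha, ← pow_mul, ← he, hg, Monoid.pow_exponent_eq_one])
  obtain ⟨b, rfl⟩ := Nat.dvd_of_mul_dvd_mul_right h4 (he ▸ h5)
  have := Fact.mk hp
  have h6 : orderOf (y / g ^ b) = p := orderOf_eq_prime (by
    rw [div_pow, ha, ← pow_mul, mul_comm, div_self'])
    fun h => h2 (div_eq_one.1 h ▸ pow_mem (mem_zpowers g) b)
  have h7 := hP p _ _ hp (orderOf_pow_orderOf_div (orderOf_pos g).ne' ⟨e, he⟩) h6 (Commute.all _ _)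
  have h8 := mul_mem (zpowers_le.2 (pow_mem (mem_zpowers g) _) h7) (pow_mem (mem_zpowers g) b)
  exact h2 (by simpa using h8)

/-- A normal subgroup of odd order on which an involution has no fixed points is cyclic. -/
theorem cyc_inv [Finite G] (hP : P1 G) {U : Subgroup G} (hU : U.Normal)
    (ho : Nat.Coprime (Nat.card U) 2) {t : G} (ht : t ^ 2 = 1)
    (h : ∀ y ∈ U, Commute y t → y = 1) :
    ∃ u, U = zpowers u ∧ t * u * t⁻¹ = u⁻¹ := by
  have h1 : ∀ y ∈ U, t * y * t⁻¹ = y⁻¹ := fun y hy => by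
    obtain ⟨v, -, a, b, c⟩ := split hU ho ht hy
    rw [eq_inv_of_mul_eq_one_left (h _ (U.mul_mem hy a) c), ← conj_inv, b]
  let _ : CommGroup U := { (inferInstance : Group U) with
    mul_comm := fun a b => Subtype.ext (inv_injective (by
      rw [coe_mul, ← h1 _ (U.mul_mem a.2 b.2), ← conj_mul, h1 _ a.2, h1 _ b.2, coe_mul,
        mul_inv_rev])) }
  obtain ⟨u, hu⟩ := cyc_comm (H := U) fun p g k hp a b _ => by
    obtain ⟨n, hn⟩ := hP p g k hp (by simpa using a) (by simpa using b)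
      (congrArg Subtype.val (mul_comm g k))
    exact ⟨n, Subtype.ext (by simpa using hn)⟩
  refine ⟨u, le_antisymm (fun x hx => ?_) (zpowers_le.2 u.2), h1 _ u.2⟩
  obtain ⟨n, hn⟩ := hu ⟨x, hx⟩
  exact ⟨n, by simpa using congrArg Subtype.val hn⟩

/-- An element of order three normalising a cyclic group of prime order centralises it. -/
theorem comm_three [Finite G] (hP : P1 G) (h2 : P2 G) {p : ℕ} (hp : p.Prime) {g s : G}
    (hg : orderOf g = p) (hs : s ^ 3 = 1) (h : Commute g (s * g * s⁻¹)) : Commute g s := by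
  obtain ⟨r, hr⟩ := exists_nat (hP p g _ hp hg ((orderOf_conj s g).trans hg) h)
  have h3 : s * (s * g * s⁻¹) * s⁻¹ = g := by
    rw [hr, ← conj_pow, hr, ← pow_mul, ← sq]
    exact (pow_eq_pow_iff_modEq.2 (hg ▸ h2 p r g s hp hg hr)).trans (pow_one g)
  have h4 : s * g * s⁻¹ = s ^ 3 * g * (s ^ 3)⁻¹ := by
    conv_lhs => rw [← h3]
    simp [pow_succ, mul_assoc]
  rw [hs, one_mul, inv_one, mul_one] at h4
  exact (mul_inv_eq_iff_eq_mul.1 h4).symm

theorem exists_zhom (u : G) {m : ℕ} [NeZero m] (h : orderOf u = m) :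
    ∃ e : Multiplicative (ZMod m) →* G, Function.Injective e ∧
      ∀ k : ℕ, e (Multiplicative.ofAdd (k : ZMod m)) = u ^ k := by
  have h1 : ∀ k : ℕ, u ^ (k : ZMod m).val = u ^ k := fun k => by
    rw [ZMod.val_natCast, ← h, pow_mod_orderOf]
  refine ⟨MonoidHom.mk' (fun i => u ^ i.toAdd.val) fun a b => ?_, ?_, h1⟩
  · rw [← pow_add, ← h1 (_ + _)]
    simp
  · rw [injective_iff_map_eq_one]
    intro a ha
    have h2 : orderOf u ∣ a.toAdd.val := orderOf_dvd_of_pow_eq_one ha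
    rw [h] at h2
    exact (ZMod.val_eq_zero a.toAdd).1 (Nat.eq_zero_of_dvd_of_lt h2 (ZMod.val_lt _))

theorem exists_dih {u t : G} {m : ℕ} (h : orderOf u = m) (hm : 1 < m) (ho : Nat.Coprime m 2)
    (ht : t ^ 2 = 1) (hi : t * u * t⁻¹ = u⁻¹) :
    ∃ φ : DihedralGroup m →* G, Function.Injective φ ∧ u ∈ φ.range ∧ t ∈ φ.range ∧
      ∀ s, Commute s u → Commute s t → ∀ x, Commute s (φ x) := by
  have : NeZero m := ⟨by omega⟩
  obtain ⟨e, e1, e2⟩ := exists_zhom u h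
  have e3 : ∀ i, ∃ k : ℕ, e i = u ^ k := fun i => ⟨i.toAdd.val, by rw [← e2]; simp⟩
  have e4 : ∀ i, e i * t = t * (e i)⁻¹ := fun i => by
    obtain ⟨k, hk⟩ := e3 i
    rw [hk, ← inv_pow, ← hi, conj_pow, ← mul_assoc, ← mul_assoc, ← sq, ht, one_mul,
      inv_eq_of_mul_eq_one_right (show t * t = 1 by rwa [← sq])]
  refine ⟨MonoidHom.mk' (fun x => match x with
    | .r i => e (.ofAdd i)
    | .sr i => t * e (.ofAdd i)) ?_, ?_, ⟨.r (1 : ℕ), (e2 1).trans (pow_one u)⟩,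
      ⟨.sr 0, (congrArg (t * ·) e.map_one).trans (mul_one t)⟩,
      fun s a b x => ?_⟩
  · rintro (i | i) (j | j)
    · simp [ofAdd_add]
    · simp only [DihedralGroup.r_mul_sr]
      rw [← mul_assoc, e4, mul_assoc, ← map_inv, ← map_mul, ofAdd_sub, div_eq_inv_mul]
    · simp [ofAdd_add, mul_assoc]
    · simp only [DihedralGroup.sr_mul_sr]
      rw [mul_assoc, ← mul_assoc (e _), e4, ← mul_assoc, ← mul_assoc, ← sq, ht, one_mul,
        ← map_inv, ← map_mul, ofAdd_sub, div_eq_inv_mul]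
  · rw [injective_iff_map_eq_one]
    rintro (i | i) hx
    · exact congrArg DihedralGroup.r ((injective_iff_map_eq_one e).1 e1 _ hx)
    · obtain ⟨k, hk⟩ := e3 (.ofAdd i)
      have h1 : t = (u ^ k)⁻¹ := eq_inv_of_mul_eq_one_left (hk ▸ hx)
      have h2 : u ^ 2 = 1 := by
        rw [sq, ← eq_inv_iff_mul_eq_one, ← hi, h1]
        group
      rw [eq_one_of_coprime ho (h ▸ pow_orderOf_eq_one u) h2, orderOf_one] at h
      omega
  · rcases x with i | i
    all_goals obtain ⟨k, hk⟩ := e3 (.ofAdd i)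
    · exact hk ▸ a.pow_right k
    · exact b.mul_right (hk ▸ a.pow_right k)

theorem six_two [Finite G] {c x : G} (hc : orderOf c = 6) (h : x ∈ zpowers c)
    (h2 : ∃ k, x ^ 2 ^ k = 1) : x ∈ zpowers (c ^ 3) := by
  obtain ⟨a, rfl⟩ := exists_nat h
  obtain ⟨k, hk⟩ := h2
  have h3 : 6 ∣ a * 2 ^ k := hc ▸ orderOf_dvd_of_pow_eq_one (by rwa [pow_mul])
  obtain ⟨b, rfl⟩ := (Nat.Coprime.pow_right k (show Nat.Coprime 3 2 by norm_num)).dvd_of_dvd_mul_right
    (dvd_trans (by norm_num) h3)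
  exact pow_mul c 3 b ▸ pow_mem (mem_zpowers _) b

theorem six_three [Finite G] {c x : G} (hc : orderOf c = 6) (h : x ∈ zpowers c)
    (h2 : ∃ k, x ^ 3 ^ k = 1) : x ∈ zpowers (c ^ 2) := by
  obtain ⟨a, rfl⟩ := exists_nat h
  obtain ⟨k, hk⟩ := h2
  have h3 : 6 ∣ a * 3 ^ k := hc ▸ orderOf_dvd_of_pow_eq_one (by rwa [pow_mul])
  obtain ⟨b, rfl⟩ := (Nat.Coprime.pow_right k (show Nat.Coprime 2 3 by norm_num)).dvd_of_dvd_mul_right
    (dvd_trans (by norm_num) h3)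
  exact pow_mul c 2 b ▸ pow_mem (mem_zpowers _) b

theorem six_ord {c : G} (hc : orderOf c = 6) : orderOf (c ^ 3) = 2 ∧ orderOf (c ^ 2) = 3 := by
  constructor <;> rw [orderOf_pow_of_dvd (by norm_num) (by rw [hc]; norm_num), hc]

theorem six_pow {c x : G} (hc : orderOf c = 6) (h : x ∈ zpowers c) : x ^ 6 = 1 :=
  orderOf_dvd_iff_pow_eq_one.1 (hc ▸ orderOf_dvd_of_mem_zpowers h)

end Pool.Agent.PDC.X43
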