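import Pool.Agent.Lib.PDC.K10

/-! Row ZIG (spare). -/

namespace Pool.Agent.PDC

open X10 in
theorem X10.r_ZIG : R_ZIG := by
  intro hC P _ ⟨k1, k2, k3, j, d1, d2, ε, hj, e1, e2, e3, hs, hε⟩ g p hp hg
  obtain ⟨ca, cb, -, cd⟩ := hC P g p hp.pos hg
  have ca' : ∀ a, Ns g p * a = 0 → ∃ μ, a = (o g - 1) * μ := fun a ha => by
    obtain ⟨μ, -, h⟩ := ca ⊥ inferInstance a (rInv_bot a) ha
    exact ⟨μ, h⟩
  have TN := T_mul_N hg
  have NT := N_mul_T hg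
  have z1 : ∀ D, d1 (j D) = 0 := fun D => (e1 _).2 ⟨D, rfl⟩
  have z2 : ∀ y, d2 (d1 y) = 0 := fun y => (e2 _).2 ⟨y, rfl⟩
  have z3 : ∀ y, ε (d2 y) = 0 := fun y => (e3 _).2 ⟨y, rfl⟩
  obtain ⟨x3, h3⟩ := hs 1
  obtain ⟨x2, h2⟩ := (e3 ((o g - 1) • x3)).1 (eps_T ε hε g x3)
  obtain ⟨x1, h1⟩ := (e2 (Ns g p • x2)).1 (by rw [map_smul, h2, smul_smul, NT, zero_smul])
  obtain ⟨D0, h0⟩ := (e1 ((o g - 1) • x1)).1 (by rw [map_smul, h1, smul_smul, TN, zero_smul])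
  have key : ∀ (D : Der P) y1 y2 y3, j D = (o g - 1) • y1 → d1 y1 = Ns g p • y2 →
      d2 y2 = (o g - 1) • y3 → ∃ D' : Der P, D = ε y3 • D0 + (o g - 1) • D' := by
    intro D y1 y2 y3 a1 a2 a3
    obtain ⟨w2, b2⟩ := (e3 (y3 - ε y3 • x3)).1 (by rw [map_sub, map_zsmul, h3]; simp)
    obtain ⟨w1, b1⟩ := (e2 (y2 - ε y3 • x2 - (o g - 1) • w2)).1 (by
      rw [map_sub, map_sub, map_zsmul, map_smul, a3, h2, b2, smul_sub, smul_comm (o g - 1)]
      abel)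
    obtain ⟨D', b0⟩ := (e1 (y1 - ε y3 • x1 - Ns g p • w1)).1 (by
      rw [map_sub, map_sub, map_zsmul, map_smul, a2, h1, b1, smul_sub, smul_sub, smul_smul, NT,
        zero_smul, smul_comm (Ns g p)]
      abel)
    refine ⟨D', hj ?_⟩
    rw [map_add, map_zsmul, map_smul, a1, h0, b0, smul_sub, smul_sub, smul_smul, TN, zero_smul,
      smul_comm (o g - 1)]
    abel
  refine ⟨D0, hj ?_, fun D' hD => ?_, fun D hD => ?_, fun s r hsr => ?_⟩
  · rw [map_smul, h0, smul_smul, NT, zero_smul, map_zero]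
  · obtain ⟨u1, a1⟩ := vec_div cb (x1 - j D') (by rw [smul_sub, ← h0, hD, map_smul, sub_self])
    obtain ⟨u2, a2⟩ := vec_div ca' (x2 - d1 u1) (by
      rw [smul_sub, ← h1, ← map_smul, ← a1, map_sub, z1, sub_zero, sub_self])
    obtain ⟨u3, a3⟩ := vec_div cb (x3 - d2 u2) (by
      rw [smul_sub, ← h2, ← map_smul, ← a2, map_sub, z2, sub_zero, sub_self])
    have h := congrArg ε a3
    rw [map_sub, h3, z3, sub_zero, eps_Ns ε hε] at h
    have hd : (p : ℤ) ∣ 1 := ⟨_, h⟩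
    exact hp.one_lt.ne' (Nat.dvd_one.1 (by exact_mod_cast hd))
  · obtain ⟨y1, a1⟩ := vec_div ca' (j D) (by rw [← map_smul, hD, map_zero])
    obtain ⟨y2, a2⟩ := vec_div cb (d1 y1) (by rw [← map_smul, ← a1, z1])
    obtain ⟨y3, a3⟩ := vec_div ca' (d2 y2) (by rw [← map_smul, ← a2, z2])
    obtain ⟨D', h⟩ := key D y1 y2 y3 a1 a2 a3
    exact ⟨_, D', h⟩
  · have sT : o s * (o g - 1) = (o g - 1) * (Ns g r * o s) := by
      rw [← mul_assoc, sub_mul_Ns, ← map_pow, ← hsr, mul_sub, sub_mul, ← map_mul, ← map_mul,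
        inv_mul_cancel_right, mul_one, one_mul]
    obtain ⟨D', h⟩ := key (o s • D0) ((Ns g r * o s) • x1) ((r : ℤ) • o s • x2)
      ((r : ℤ) • (Ns g r * o s) • x3)
      (by rw [map_smul, h0, smul_smul, smul_smul, sT])
      (by
        rw [map_smul, h1, smul_smul, mul_assoc, cd s r hsr, ← mul_assoc, Ns_mul_N hg,
          smul_comm (Ns g p), smul_smul (Ns g p), mul_assoc, mul_smul, Nat.cast_smul_eq_nsmul,
          natCast_zsmul])
      (by rw [map_zsmul, map_smul, h2, smul_smul (o s), sT, smul_comm (o g - 1), smul_smul (o g - 1)])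
    refine ⟨D', ?_⟩
    rw [h, map_zsmul, mul_smul, eps_Ns ε hε, hε, h3, mul_one, smul_eq_mul, sq]

end Pool.Agent.PDC
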